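import Pool.Agent.Helper93K9.PAR.Defs

/-! # No rational points on the generic conic -/

set_option autoImplicit false

namespace Pool.Agent.Helper93K9.PAR

theorem aniso : S_ANISO := by
  intro R _ _ _ a b c ⟨π, hπ, ha, ha2, hsq⟩ ha0 hb0 hc0 x y z h
  have hbc : ¬ π ∣ b * c := by
    intro h1
    have h2 := hsq 0 1 (by simpa using h1)
    exact hπ.not_dvd_one h2
  have hb : ¬ π ∣ b := fun h1 => hbc (h1.mul_right c)
  obtain ⟨a', rfl⟩ := ha
  have ha' : ¬ π ∣ a' := by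
    rintro ⟨t, rfl⟩
    exact ha2 ⟨t, by ring⟩
  have step : ∀ x y z : R, π * a' * x ^ 2 + b * y ^ 2 + c * z ^ 2 = 0 →
      π ∣ x ∧ π ∣ y ∧ π ∣ z := by
    intro x y z h
    have hz : π ∣ z := by
      apply hsq (b * y) z
      refine ⟨-(b * a' * x ^ 2), ?_⟩
      linear_combination b * h
    obtain ⟨z', rfl⟩ := hz
    have hy : π ∣ y := by
      have h1 : π ∣ b * y ^ 2 := ⟨-(a' * x ^ 2 + c * π * z' ^ 2), by linear_combination h⟩
      exact hπ.dvd_of_dvd_pow ((hπ.dvd_or_dvd h1).resolve_left hb)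
    obtain ⟨y', rfl⟩ := hy
    have hx : π ∣ x := by
      have h1 : π ∣ a' * x ^ 2 := by
        refine ⟨-(b * y' ^ 2 + c * z' ^ 2), ?_⟩
        apply mul_left_cancel₀ hπ.ne_zero
        linear_combination h
      exact hπ.dvd_of_dvd_pow ((hπ.dvd_or_dvd h1).resolve_left ha')
    exact ⟨hx, dvd_mul_right _ _, dvd_mul_right _ _⟩
  have key : ∀ n : ℕ, ∀ x y z : R, π * a' * x ^ 2 + b * y ^ 2 + c * z ^ 2 = 0 →
      π ^ n ∣ x ∧ π ^ n ∣ y ∧ π ^ n ∣ z := by
    intro n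
    induction n with
    | zero => intro x y z _; simp
    | succ n ih =>
      intro x y z h
      obtain ⟨⟨x', rfl⟩, ⟨y', rfl⟩, ⟨z', rfl⟩⟩ := step x y z h
      have h1 : π * a' * x' ^ 2 + b * y' ^ 2 + c * z' ^ 2 = 0 := by
        apply mul_left_cancel₀ (pow_ne_zero 2 hπ.ne_zero)
        linear_combination h
      obtain ⟨hx, hy, hz⟩ := ih x' y' z' h1
      rw [pow_succ']
      exact ⟨mul_dvd_mul_left _ hx, mul_dvd_mul_left _ hy, mul_dvd_mul_left _ hz⟩
  have fin : ∀ w : R, (∀ n : ℕ, π ^ n ∣ w) → w = 0 := by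
    intro w hw
    by_contra h0
    obtain ⟨n, hn⟩ := FiniteMultiplicity.of_not_isUnit hπ.not_isUnit h0
    exact hn (hw _)
  exact ⟨fin x fun n => (key n x y z h).1, fin y fun n => (key n x y z h).2.1,
    fin z fun n => (key n x y z h).2.2⟩

end Pool.Agent.Helper93K9.PAR
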