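import Pool.Agent.Helper93K9.PAR.Defs3

set_option autoImplicit false

namespace Pool.Agent.Helper93K9.PAR

open MvPolynomial Module FF

noncomputable section

/-- a family obtained from an independent one by translation and division by one element -/
theorem indep_div {S : Type} [DecidableEq S] (a g : S → ℂ) (q : S → ℚ) (s0 : S)
    (ha : AlgebraicIndependent ℚ a) (h0 : a s0 = q s0 + g s0)
    (h : ∀ s, s ≠ s0 → a s = q s + g s0 * g s) : AlgebraicIndependent ℚ g := by
  have hne : g s0 ≠ 0 := by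
    intro h1
    rw [h1, add_zero] at h0
    refine ha.transcendental s0 ?_
    rw [h0]
    exact isAlgebraic_algebraMap (q s0)
  obtain ⟨φ, hφ⟩ : ∃ φ : MvPolynomial S ℚ →ₐ[ℚ] MvPolynomial S ℚ,
      φ = aeval fun s => if s = s0 then X s0 + C (q s0) else X s0 * X s + C (q s) := ⟨_, rfl⟩
  have hφ0 : φ (X s0) = X s0 + C (q s0) := by rw [hφ, aeval_X, if_pos rfl]
  have hφs : ∀ s, s ≠ s0 → φ (X s) = X s0 * X s + C (q s) := fun s hs => by
    rw [hφ, aeval_X, if_neg hs]
  have hcomp : ∀ P, aeval g (φ P) = aeval a P := by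
    intro P
    have : (aeval g).comp φ = aeval a := by
      refine MvPolynomial.algHom_ext fun s => ?_
      rw [AlgHom.comp_apply, aeval_X]
      by_cases hs : s = s0
      · subst hs
        rw [hφ0, map_add, aeval_X, aeval_C, h0, add_comm]
        rfl
      · rw [hφs s hs, map_add, map_mul, aeval_X, aeval_X, aeval_C, h s hs, add_comm]
        rfl
    rw [← this, AlgHom.comp_apply]
  have key : ∀ P : MvPolynomial S ℚ, ∃ (N : ℕ) (Q : MvPolynomial S ℚ), φ Q = X s0 ^ N * P := by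
    intro P
    induction P using MvPolynomial.induction_on with
    | C r => exact ⟨0, C r, by rw [pow_zero, one_mul, hφ, aeval_C]; rfl⟩
    | add P P' h1 h2 =>
      obtain ⟨N, Q, hQ⟩ := h1
      obtain ⟨N', Q', hQ'⟩ := h2
      refine ⟨N + N', (X s0 - C (q s0)) ^ N' * Q + (X s0 - C (q s0)) ^ N * Q', ?_⟩
      have e : φ (X s0 - C (q s0)) = X s0 := by
        rw [map_sub, hφ0, hφ, aeval_C]
        simp [algebraMap_eq]
      rw [map_add, map_mul, map_mul, map_pow, map_pow, e, hQ, hQ']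
      ring
    | mul_X P s h1 =>
      obtain ⟨N, Q, hQ⟩ := h1
      have eC : ∀ r : ℚ, φ (C r) = C r := fun r => by rw [hφ, aeval_C]; rfl
      by_cases hs : s = s0
      · subst hs
        refine ⟨N, Q * (X s - C (q s)), ?_⟩
        rw [map_mul, hQ, map_sub, hφ0, eC]
        ring
      · refine ⟨N + 1, Q * (X s - C (q s)), ?_⟩
        rw [map_mul, hQ, map_sub, hφs s hs, eC]
        ring
  rw [algebraicIndependent_iff]
  intro P hP
  obtain ⟨N, Q, hQ⟩ := key P
  have h1 : aeval a Q = 0 := by rw [← hcomp, hQ, map_mul, hP, mul_zero]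
  rw [algebraicIndependent_iff] at ha
  have h2 := ha Q h1
  rw [h2, map_zero] at hQ
  rcases mul_eq_zero.1 hQ.symm with h3 | h3
  · exact absurd h3 (pow_ne_zero _ (X_ne_zero s0))
  · exact h3

open scoped IntermediateField.algebraAdjoinAdjoin in
theorem base : S_BASE := by
  classical
  intro r F F0 hr hF hF0 hind
  obtain ⟨β0, hβ0⟩ : ∃ β : Fin r →₀ ℕ, β.degree = 3 :=
    ⟨Finsupp.single ⟨0, hr⟩ 3, by simp⟩
  set c : ℂ := coeff β0 F - algebraMap ℚ ℂ (coeff β0 F0) with hc
  obtain ⟨g, hg⟩ : ∃ g : {β : Fin r →₀ ℕ // β.degree = 3} → ℂ,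
    g = fun β => if β.1 = β0 then c else (coeff β.1 F - algebraMap ℚ ℂ (coeff β.1 F0)) / c :=
    ⟨_, rfl⟩
  have hg0 : g ⟨β0, hβ0⟩ = c := by rw [hg]; exact if_pos rfl
  have hgs : ∀ β : {β : Fin r →₀ ℕ // β.degree = 3}, β ≠ ⟨β0, hβ0⟩ →
      g β = (coeff β.1 F - algebraMap ℚ ℂ (coeff β.1 F0)) / c := by
    intro β hβ
    rw [hg]
    exact if_neg fun h => hβ (Subtype.ext h)
  have hc0 : c ≠ 0 := by
    intro h
    have h1 : coeff β0 F = algebraMap ℚ ℂ (coeff β0 F0) := by
      rw [hc, sub_eq_zero] at h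
      exact h
    refine hind.transcendental ⟨β0, hβ0⟩ ?_
    show IsAlgebraic ℚ (coeff β0 F)
    rw [h1]
    exact isAlgebraic_algebraMap _
  have hgi : AlgebraicIndependent ℚ g := by
    refine indep_div _ g (fun β => coeff β.1 F0) ⟨β0, hβ0⟩ hind ?_ ?_
    · rw [hg0, hc]
      show coeff β0 F = ((coeff β0 F0 : ℚ) : ℂ) + (coeff β0 F - algebraMap ℚ ℂ (coeff β0 F0))
      rw [eq_ratCast]
      ring
    · intro β hβ
      rw [hg0, hgs β hβ, mul_div_cancel₀ _ hc0, eq_ratCast]
      ring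
  obtain ⟨B, hgB, hB⟩ := exists_isTranscendenceBasis_superset (R := ℚ) (s := Set.range g)
    hgi.coe_range
  have hcB : c ∈ B := hgB ⟨_, hg0⟩
  set B' : Set ℂ := B \ {c} with hB'
  set K0 := IntermediateField.adjoin ℚ B' with hK0
  have hB'K : B' ⊆ K0 := IntermediateField.subset_adjoin ℚ B'
  obtain ⟨Ω, hΩ⟩ : ∃ Ω : IntermediateField ℚ ℂ, Ω = (algebraicClosure K0 ℂ).restrictScalars ℚ :=
    ⟨_, rfl⟩
  have hcK0 : Transcendental K0 c := by
    have h1 := hB.1.transcendental_adjoin (s := {b : B | b.1 ≠ c}) (i := ⟨c, hcB⟩) (by simp)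
    have h2 : ((↑) : B → ℂ) '' {b : B | b.1 ≠ c} = B' := by
      ext z
      simp only [Set.mem_image, Set.mem_ofPred_eq, Subtype.exists, exists_and_right,
        exists_eq_right, hB', Set.mem_sdiff, Set.mem_singleton_iff]
      constructor
      · rintro ⟨h1, h2⟩
        exact ⟨h1, h2⟩
      · rintro ⟨h1, h2⟩
        exact ⟨h1, h2⟩
    rw [h2] at h1
    intro h3
    exact h1 ((IsFractionRing.isAlgebraic_iff (Algebra.adjoin ℚ B') K0 ℂ).2 h3)
  have hcΩ : Transcendental Ω c := by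
    rw [hΩ]
    exact hcK0.algebraicClosure
  have hΩc : IsAlgClosed Ω := by
    rw [hΩ]
    exact (algebraicClosure.isAlgClosure (F := K0) (E := ℂ)).isAlgClosed
  have hB'Ω : B' ⊆ Ω := by
    intro z hz
    rw [hΩ]
    show z ∈ algebraicClosure K0 ℂ
    exact (algebraicClosure K0 ℂ).algebraMap_mem ⟨z, hB'K hz⟩
  obtain ⟨G, hG⟩ : ∃ G : MvPolynomial (Fin r) Ω, map (algebraMap Ω ℂ) G =
      C c⁻¹ * (F - map (algebraMap ℚ ℂ) F0) := by
    have : C c⁻¹ * (F - map (algebraMap ℚ ℂ) F0) ∈ Set.range (map (σ := Fin r) (algebraMap Ω ℂ)) := by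
      rw [mem_range_map_iff_coeffs_subset]
      intro z hz
      rw [Finset.mem_coe, mem_coeffs_iff] at hz
      obtain ⟨β, hβ, rfl⟩ := hz
      rw [coeff_C_mul, coeff_sub, coeff_map]
      by_cases h3 : β.degree = 3
      · by_cases h0 : β = β0
        · refine ⟨1, ?_⟩
          rw [map_one, h0, ← hc, inv_mul_cancel₀ hc0]
        · have h4 := hgs ⟨β, h3⟩ (fun h => h0 (congrArg Subtype.val h))
          have h5 : g ⟨β, h3⟩ ∈ B' := by
            refine ⟨hgB ⟨_, rfl⟩, ?_⟩
            intro h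
            have h6 : g ⟨β, h3⟩ = g ⟨β0, hβ0⟩ := by rw [hg0]; exact h
            exact h0 (congrArg Subtype.val (hgi.injective h6))
          refine ⟨⟨g ⟨β, h3⟩, hB'Ω h5⟩, ?_⟩
          show g ⟨β, h3⟩ = _
          rw [h4, div_eq_inv_mul]
      · refine ⟨0, ?_⟩
        rw [map_zero, hF.coeff_eq_zero h3, hF0.coeff_eq_zero h3, map_zero, sub_zero, mul_zero]
    exact this
  refine ⟨Ω, c, G, hΩc, hcΩ, ?_, ?_, ?_⟩
  · have h1 := hB.isAlgebraic_field
    have hle : IntermediateField.adjoin ℚ (Set.range ((↑) : B → ℂ)) ≤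
        (IntermediateField.adjoin Ω {c}).restrictScalars ℚ := by
      rw [IntermediateField.adjoin_le_iff]
      rintro _ ⟨b, rfl⟩
      by_cases hb : b.1 = c
      · rw [hb]
        exact IntermediateField.mem_adjoin_simple_self Ω c
      · exact (IntermediateField.adjoin Ω {c}).algebraMap_mem ⟨b.1, hB'Ω ⟨b.2, hb⟩⟩
    let L := IntermediateField.adjoin ℚ (Set.range ((↑) : B → ℂ))
    let _ : Algebra L (IntermediateField.adjoin Ω {c}) :=
      ((IntermediateField.inclusion hle).toRingHom : L →+*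
        (IntermediateField.adjoin Ω {c}).restrictScalars ℚ).toAlgebra
    have : IsScalarTower L (IntermediateField.adjoin Ω {c}) ℂ :=
      IsScalarTower.of_algebraMap_eq fun x => rfl
    exact Algebra.IsAlgebraic.tower_top (K := L) (IntermediateField.adjoin Ω {c})
  · intro β hβ
    by_contra h3
    apply hβ
    have h5 : β.degree ≠ 3 := by
      intro h
      apply h3
      rw [← h, Finsupp.degree_eq_weight_one]
      rfl
    have h4 : (algebraMap Ω ℂ) (coeff β G) = 0 := by
      rw [← coeff_map, hG, coeff_C_mul, coeff_sub, coeff_map, hF.coeff_eq_zero h5,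
        hF0.coeff_eq_zero h5, map_zero, sub_zero, mul_zero]
    exact (map_eq_zero _).1 h4
  · rw [hG, ← mul_assoc, ← C_mul, mul_inv_cancel₀ hc0, C_1, one_mul]
    ring

end

end Pool.Agent.Helper93K9.PAR
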