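import Pool.Agent.Helper93K9.PAR.Defs

/-! # Nagata's argument for the conic bundle -/

set_option autoImplicit false
set_option linter.unusedSectionVars false

namespace Pool.Agent.Helper93K9.PAR

open Polynomial

namespace CB

section dom

variable {R : Type} [CommRing R] [IsDomain R] [UniqueFactorizationMonoid R] {a b c : R}

/-- `C (C r)` as a ring homomorphism -/
noncomputable def CC (R : Type) [CommRing R] : R →+* Polynomial (Polynomial R) :=
  (C : Polynomial R →+* Polynomial (Polynomial R)).comp (C : R →+* Polynomial R)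

lemma CC_apply (r : R) : CC R r = C (C r) := rfl

lemma CC_prime {π : R} (h : Prime π) : Prime (CC R π) := by
  rw [CC_apply, Polynomial.prime_C_iff, Polynomial.prime_C_iff]
  exact h

lemma coeff_two : (cnc a b c).coeff 2 = C a := by
  unfold cnc
  rw [coeff_add, coeff_C_mul, coeff_X_pow, if_pos rfl, mul_one, coeff_C_of_ne_zero (by norm_num),
    add_zero]

lemma coeff_zero' : (cnc a b c).coeff 0 = C b * X ^ 2 + C c := by
  unfold cnc
  rw [coeff_add, coeff_C_mul, coeff_X_pow, if_neg (by norm_num), mul_zero, coeff_C_zero,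
    zero_add]

lemma not_dvd_cnc {π : R} (hπ : Prime π)
    (ha : ∀ x y, π ∣ a → π ∣ x ^ 2 + b * c * y ^ 2 → π ∣ y) : ¬ CC R π ∣ cnc a b c := by
  rw [CC_apply, C_dvd_iff_dvd_coeff]
  intro h
  have h2 := h 2
  have h0 := h 0
  rw [coeff_two, C_dvd_iff_dvd_coeff] at h2
  rw [coeff_zero', C_dvd_iff_dvd_coeff] at h0
  have h3 : π ∣ a := by simpa using h2 0
  have h4 : π ∣ b := by simpa using h0 2
  exact hπ.not_dvd_one (ha 0 1 h3 (by simpa using (h4.mul_right c)))

/-- cancellation of elements of the base -/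
lemma dvd_cancel (hnd : ∀ π : R, Prime π → ¬ CC R π ∣ cnc a b c) {r : R} (hr : r ≠ 0) :
    ∀ f, cnc a b c ∣ CC R r * f → cnc a b c ∣ f := by
  induction r using UniqueFactorizationMonoid.induction_on_prime with
  | h₁ => exact absurd rfl hr
  | h₂ x hx =>
    intro f h
    exact ((hx.map (CC R)).dvd_mul_left).1 h
  | h₃ s π hs hπ ih =>
    intro f h
    apply ih hs
    rw [map_mul, mul_assoc] at h
    obtain ⟨q, hq⟩ := h
    have h1 : CC R π ∣ cnc a b c * q := ⟨_, hq.symm⟩
    obtain ⟨q', rfl⟩ := ((CC_prime hπ).dvd_or_dvd h1).resolve_left (hnd π hπ)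
    refine ⟨q', ?_⟩
    apply mul_left_cancel₀ (CC_prime hπ).ne_zero
    rw [hq]
    ring

variable (K : Type) [Field K] [Algebra R K] [IsFractionRing R K]

/-- the map to the polynomials over the field of fractions -/
noncomputable def mp (R : Type) [CommRing R] (K : Type) [Field K] [Algebra R K] :
    Polynomial (Polynomial R) →+* Polynomial (Polynomial K) :=
  mapRingHom (mapRingHom (algebraMap R K))

lemma mp_CC (r : R) : mp R K (CC R r) = C (C (algebraMap R K r)) := by
  simp [mp, CC]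

lemma mp_cnc : mp R K (cnc a b c) =
    cnc (algebraMap R K a) (algebraMap R K b) (algebraMap R K c) := by
  simp [mp, cnc]

lemma mp_inj : Function.Injective (mp R K) :=
  map_injective _ (map_injective _ (IsFractionRing.injective R K))

lemma clear (f : Polynomial (Polynomial K)) :
    ∃ s : R, s ≠ 0 ∧ ∃ f', C (C (algebraMap R K s)) * f = mp R K f' := by
  have key : ∀ g : Polynomial K, ∃ s : R, s ≠ 0 ∧ ∃ g' : Polynomial R,
      C (algebraMap R K s) * g = g'.map (algebraMap R K) := by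
    intro g
    induction g using Polynomial.induction_on' with
    | add p q hp hq =>
      obtain ⟨s, hs, p', hp'⟩ := hp
      obtain ⟨t, ht, q', hq'⟩ := hq
      refine ⟨s * t, mul_ne_zero hs ht, C t * p' + C s * q', ?_⟩
      rw [Polynomial.map_add, Polynomial.map_mul, Polynomial.map_mul, map_C, map_C, ← hp', ← hq',
        map_mul, C_mul]
      ring
    | monomial n x =>
      obtain ⟨⟨r, s⟩, h⟩ := IsLocalization.surj (nonZeroDivisors R) x
      refine ⟨s, nonZeroDivisors.coe_ne_zero s, monomial n r, ?_⟩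
      rw [map_monomial, C_mul_monomial, ← h, mul_comm]
  induction f using Polynomial.induction_on' with
  | add p q hp hq =>
    obtain ⟨s, hs, p', hp'⟩ := hp
    obtain ⟨t, ht, q', hq'⟩ := hq
    refine ⟨s * t, mul_ne_zero hs ht, CC R t * p' + CC R s * q', ?_⟩
    rw [map_add, map_mul (mp R K), map_mul (mp R K), mp_CC, mp_CC, ← hp', ← hq', map_mul, C_mul,
      C_mul]
    ring
  | monomial n g =>
    obtain ⟨s, hs, g', hg'⟩ := key g
    refine ⟨s, hs, monomial n g', ?_⟩
    rw [C_mul_monomial, hg']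
    simp [mp]

end dom

/-- Nagata's argument, abstractly -/
theorem abs_ufd {R D B : Type} [CommRing R] [IsDomain R] [UniqueFactorizationMonoid R]
    [CommRing D] [IsDomain D] [IsNoetherianRing D] [CommRing B] [IsPrincipalIdealRing B]
    (ι : R →+* D) (φ : D →+* B) (hφinj : Function.Injective φ)
    (hφι : ∀ r, r ≠ 0 → IsUnit (φ (ι r)))
    (hφs : ∀ y, ∃ s : R, s ≠ 0 ∧ ∃ d, φ (ι s) * y = φ d)
    (hιp : ∀ π, Prime π → Prime (ι π)) : UniqueFactorizationMonoid D := by
  rw [UniqueFactorizationMonoid.iff_exists_prime_mem_of_isPrime]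
  intro P hP0 hP
  by_cases hex : ∃ r : R, r ≠ 0 ∧ ι r ∈ P
  · -- a prime of the base
    obtain ⟨r, hr, hrP⟩ := hex
    have key : ∀ r : R, r ≠ 0 → ι r ∈ P → ∃ π : R, Prime π ∧ ι π ∈ P := by
      intro r
      induction r using UniqueFactorizationMonoid.induction_on_prime with
      | h₁ => intro h; exact absurd rfl h
      | h₂ x hx =>
        intro _ h
        exact absurd (Ideal.eq_top_of_isUnit_mem _ h (hx.map ι)) hP.ne_top
      | h₃ s π hs hπ ih =>
        intro _ h
        rw [map_mul] at h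
        rcases hP.mem_or_mem h with h | h
        · exact ⟨π, hπ, h⟩
        · exact ih hs h
    obtain ⟨π, hπ, hπP⟩ := key r hr hrP
    exact ⟨ι π, hπP, hιp π hπ⟩
  push Not at hex
  have hmapP : ∀ y ∈ P.map φ, ∃ s : R, s ≠ 0 ∧ ∃ d ∈ P, φ (ι s) * y = φ d := by
    intro y hy
    induction hy using Submodule.span_induction with
    | mem y hy =>
      obtain ⟨d, hd, rfl⟩ := hy
      exact ⟨1, one_ne_zero, d, hd, by rw [map_one, map_one, one_mul]⟩
    | zero => exact ⟨1, one_ne_zero, 0, P.zero_mem, by rw [mul_zero, map_zero]⟩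
    | add y z _ _ hy hz =>
      obtain ⟨s, hs, d, hd, h4⟩ := hy
      obtain ⟨t, ht, e, he, h5⟩ := hz
      refine ⟨s * t, mul_ne_zero hs ht, ι t * d + ι s * e,
        P.add_mem (P.mul_mem_left _ hd) (P.mul_mem_left _ he), ?_⟩
      rw [map_add, map_mul, map_mul, map_mul, map_mul, ← h4, ← h5]
      ring
    | smul w y _ hy =>
      obtain ⟨s, hs, d, hd, h4⟩ := hy
      obtain ⟨t, ht, e, h5⟩ := hφs w
      refine ⟨s * t, mul_ne_zero hs ht, e * d, P.mul_mem_left _ hd, ?_⟩
      rw [map_mul, map_mul, map_mul, ← h4, ← h5, smul_eq_mul]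
      ring
  have hmem : ∀ d : D, φ d ∈ P.map φ → d ∈ P := by
    intro d hd
    obtain ⟨s, hs, e, he, h4⟩ := hmapP _ hd
    rw [← map_mul] at h4
    have h5 := hφinj h4
    rw [← h5] at he
    exact (hP.mem_or_mem he).resolve_left (hex s hs)
  -- the generator
  obtain ⟨β, hβ⟩ := (IsPrincipalIdealRing.principal (P.map φ)).principal
  obtain ⟨s, hs, d, hd⟩ := hφs β
  have hβd : P.map φ = Ideal.span {φ d} := by
    have h4 : P.map φ = Ideal.span {β} := hβ
    rw [h4, ← hd]
    exact (Ideal.span_singleton_mul_left_unit (hφι s hs) β).symm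
  -- minimality
  let M : Set D := {d | P.map φ = Ideal.span {φ d}}
  have hMP : ∀ d ∈ M, d ∈ P := by
    intro d hd
    apply hmem
    have h4 : P.map φ = Ideal.span {φ d} := hd
    rw [h4]
    exact Ideal.mem_span_singleton_self _
  have hM0 : ∀ d ∈ M, d ≠ 0 := by
    rintro d hd rfl
    have h4 : P.map φ = Ideal.span {φ 0} := hd
    rw [map_zero, Ideal.span_singleton_eq_bot.2 rfl, Ideal.map_eq_bot_iff_of_injective hφinj] at h4
    exact hP0 h4
  obtain ⟨θ, hθM, hθmin⟩ := (wellFounded_dvdNotUnit (α := D)).has_min M ⟨d, hβd⟩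
  have hθP := hMP θ hθM
  have hθ0 := hM0 θ hθM
  have hθspan : P.map φ = Ideal.span {φ θ} := hθM
  have hθπ : ∀ π : R, Prime π → ¬ ι π ∣ θ := by
    rintro π hπ ⟨θ', hθ'⟩
    have h4 : θ' ∈ M := by
      have h5 : P.map φ = Ideal.span {φ θ'} := by
        rw [hθspan, hθ', map_mul]
        exact Ideal.span_singleton_mul_left_unit (hφι π hπ.ne_zero) _
      exact h5
    refine hθmin θ' h4 ⟨hM0 _ h4, ι π, (hιp π hπ).not_isUnit, ?_⟩
    rw [hθ', mul_comm]
  -- cancellation
  have hcan : ∀ s : R, s ≠ 0 → ∀ x : D, θ ∣ ι s * x → θ ∣ x := by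
    intro s
    induction s using UniqueFactorizationMonoid.induction_on_prime with
    | h₁ => intro h; exact absurd rfl h
    | h₂ u hu =>
      intro _ x h
      exact ((hu.map ι).dvd_mul_left).1 h
    | h₃ s π hs hπ ih =>
      intro _ x h
      apply ih hs
      rw [map_mul, mul_assoc] at h
      obtain ⟨q, hq⟩ := h
      have h1 : ι π ∣ θ * q := ⟨_, hq.symm⟩
      obtain ⟨q', rfl⟩ := ((hιp π hπ).dvd_or_dvd h1).resolve_left (hθπ π hπ)
      refine ⟨q', ?_⟩
      apply mul_left_cancel₀ (hιp π hπ).ne_zero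
      rw [hq]
      ring
  refine ⟨θ, hθP, hθ0, fun hun => hP.ne_top (Ideal.eq_top_of_isUnit_mem _ hθP hun),
    fun x y hxy => ?_⟩
  have hxyP : x * y ∈ P := by
    obtain ⟨q, hq⟩ := hxy
    rw [hq]
    exact P.mul_mem_right _ hθP
  have fin : ∀ x ∈ P, θ ∣ x := by
    intro x hx
    have h4 : φ x ∈ P.map φ := Ideal.mem_map_of_mem φ hx
    rw [hθspan, Ideal.mem_span_singleton] at h4
    obtain ⟨q, hq⟩ := h4
    obtain ⟨s, hs, e, he⟩ := hφs q
    apply hcan s hs
    refine ⟨e, hφinj ?_⟩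
    rw [map_mul, map_mul, hq, ← he]
    ring
  exact (hP.mem_or_mem hxyP).imp (fin x) (fin y)

theorem main (R : Type) [CommRing R] [IsDomain R] [UniqueFactorizationMonoid R]
    [IsNoetherianRing R] (K : Type) [Field K] [Algebra R K] [IsFractionRing R K] (a b c : R)
    (ha0 : a ≠ 0)
    (hdomK : IsDomain (Polynomial (Polynomial K) ⧸ Ideal.span
      {cnc (algebraMap R K a) (algebraMap R K b) (algebraMap R K c)}))
    (hpidK : IsPrincipalIdealRing (Polynomial (Polynomial K) ⧸ Ideal.span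
      {cnc (algebraMap R K a) (algebraMap R K b) (algebraMap R K c)}))
    (hnd : ∀ π : R, Prime π → ¬ CC R π ∣ cnc a b c)
    (hιp : ∀ π : R, Prime π →
      Prime (Ideal.Quotient.mk (Ideal.span {cnc a b c}) (Polynomial.C (Polynomial.C π)))) :
    ∃ _ : IsDomain (Polynomial (Polynomial R) ⧸ Ideal.span {cnc a b c}),
      UniqueFactorizationMonoid (Polynomial (Polynomial R) ⧸ Ideal.span {cnc a b c}) := by
  have hinj : Function.Injective (algebraMap R K) := IsFractionRing.injective R K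
  have hprK : Prime (cnc (algebraMap R K a) (algebraMap R K b) (algebraMap R K c)) := by
    have h4 := (Ideal.Quotient.isDomain_iff_prime _).1 hdomK
    refine (Ideal.span_singleton_prime ?_).1 h4
    intro h0
    have h5 := congrArg (fun f => f.coeff 2) h0
    simp only [coeff_two, coeff_zero] at h5
    rw [C_eq_zero, map_eq_zero_iff _ hinj] at h5
    exact ha0 h5
  -- divisibility over the field of fractions
  have hdiv : ∀ f, cnc (algebraMap R K a) (algebraMap R K b) (algebraMap R K c) ∣ mp R K f →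
      cnc a b c ∣ f := by
    rintro f ⟨q, hq⟩
    obtain ⟨s, hs, q', hq'⟩ := clear (R := R) K q
    apply dvd_cancel hnd hs
    refine ⟨q', mp_inj K ?_⟩
    rw [map_mul, map_mul, hq, ← hq', mp_CC, mp_cnc]
    ring
  have hdiv' : ∀ f, cnc a b c ∣ f →
      cnc (algebraMap R K a) (algebraMap R K b) (algebraMap R K c) ∣ mp R K f := by
    rintro f ⟨q, rfl⟩
    rw [map_mul, mp_cnc]
    exact dvd_mul_right _ _
  have hg0 : cnc a b c ≠ 0 := by
    intro h0
    apply hprK.ne_zero
    rw [← mp_cnc, h0, map_zero]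
  have hgu : ¬ IsUnit (cnc a b c) := by
    intro h0
    apply hprK.not_isUnit
    rw [← mp_cnc]
    exact h0.map _
  have hpr : Prime (cnc a b c) := by
    refine ⟨hg0, hgu, fun x y h => ?_⟩
    have h4 := hdiv' _ h
    rw [map_mul] at h4
    exact (hprK.dvd_or_dvd h4).imp (hdiv x) (hdiv y)
  have hprI : (Ideal.span {cnc a b c}).IsPrime := (Ideal.span_singleton_prime hg0).2 hpr
  have hdomD : IsDomain (Polynomial (Polynomial R) ⧸ Ideal.span {cnc a b c}) :=
    Ideal.Quotient.isDomain _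
  refine ⟨hdomD, ?_⟩
  have hle : Ideal.span {cnc a b c} ≤ Ideal.comap (mp R K) (Ideal.span
      {cnc (algebraMap R K a) (algebraMap R K b) (algebraMap R K c)}) := by
    rw [Ideal.span_singleton_le_iff_mem, Ideal.mem_comap, mp_cnc]
    exact Ideal.mem_span_singleton_self _
  have hφCC : ∀ r : R, Ideal.quotientMap _ (mp R K) hle
      (((Ideal.Quotient.mk (Ideal.span {cnc a b c})).comp (CC R)) r) =
      Ideal.Quotient.mk _ (C (C (algebraMap R K r))) := by
    intro r
    change Ideal.quotientMap _ (mp R K) hle (Ideal.Quotient.mk _ (CC R r)) = _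
    rw [Ideal.quotientMap_mk, mp_CC]
  have hι : ∀ π : R, Prime π →
      Prime (((Ideal.Quotient.mk (Ideal.span {cnc a b c})).comp (CC R)) π) :=
    fun π hπ => hιp π hπ
  refine abs_ufd (R := R) (D := Polynomial (Polynomial R) ⧸ Ideal.span {cnc a b c})
    (B := Polynomial (Polynomial K) ⧸ Ideal.span
      {cnc (algebraMap R K a) (algebraMap R K b) (algebraMap R K c)})
    ((Ideal.Quotient.mk (Ideal.span {cnc a b c})).comp (CC R))
    (Ideal.quotientMap _ (mp R K) hle) ?_ ?_ ?_ hι
  · rw [injective_iff_map_eq_zero]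
    intro x
    obtain ⟨f, rfl⟩ := Ideal.Quotient.mk_surjective x
    intro h
    rw [Ideal.quotientMap_mk, Ideal.Quotient.eq_zero_iff_mem, Ideal.mem_span_singleton] at h
    rw [Ideal.Quotient.eq_zero_iff_mem, Ideal.mem_span_singleton]
    exact hdiv f h
  · intro r hr
    rw [hφCC]
    have h5 : IsUnit (algebraMap R K r) := by
      rw [isUnit_iff_ne_zero, Ne, map_eq_zero_iff _ hinj]
      exact hr
    exact ((h5.map C).map C).map _
  · intro y
    obtain ⟨f, rfl⟩ := Ideal.Quotient.mk_surjective y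
    obtain ⟨s, hs, f', hf'⟩ := clear (R := R) K f
    refine ⟨s, hs, Ideal.Quotient.mk _ f', ?_⟩
    rw [hφCC, Ideal.quotientMap_mk, ← hf', map_mul]

lemma aniso_frac (R : Type) [CommRing R] [IsDomain R] (K : Type) [Field K] [Algebra R K]
    [IsFractionRing R K] (a b c : R)
    (hR0 : ∀ x y z : R, a * x ^ 2 + b * y ^ 2 + c * z ^ 2 = 0 → x = 0 ∧ y = 0 ∧ z = 0) :
    ∀ x y z : K, algebraMap R K a * x ^ 2 + algebraMap R K b * y ^ 2 +
      algebraMap R K c * z ^ 2 = 0 → x = 0 ∧ y = 0 ∧ z = 0 := by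
  classical
  have hinj : Function.Injective (algebraMap R K) := IsFractionRing.injective R K
  intro x y z h
  obtain ⟨d, hd⟩ := IsLocalization.exist_integer_multiples_of_finset (nonZeroDivisors R)
    ({x, y, z} : Finset K)
  have hd0 : algebraMap R K d ≠ 0 := by
    rw [Ne, map_eq_zero_iff _ hinj]
    exact nonZeroDivisors.coe_ne_zero d
  obtain ⟨x', hx'⟩ := hd x (by simp)
  obtain ⟨y', hy'⟩ := hd y (by simp)
  obtain ⟨z', hz'⟩ := hd z (by simp)
  simp only [Algebra.smul_def] at hx' hy' hz'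
  have h4 : a * x' ^ 2 + b * y' ^ 2 + c * z' ^ 2 = 0 := by
    apply hinj
    simp only [map_add, map_mul, map_pow, map_zero, hx', hy', hz']
    linear_combination (algebraMap R K d) ^ 2 * h
  obtain ⟨h5, h6, h7⟩ := hR0 x' y' z' h4
  rw [h5, map_zero] at hx'
  rw [h6, map_zero] at hy'
  rw [h7, map_zero] at hz'
  exact ⟨(mul_eq_zero.1 hx'.symm).resolve_left hd0, (mul_eq_zero.1 hy'.symm).resolve_left hd0,
    (mul_eq_zero.1 hz'.symm).resolve_left hd0⟩

end CB

open CB in
theorem cb (h1 : S_CONIC) (h2 : S_ANISO) (h3 : S_CBP) : S_CB := by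
  intro R _ _ _ _ a b c ha0 hb0 hc0 hu ⟨π₀, hπ₀, hπa, hπa2⟩ sa sb sc hdep
  have hR0 : ∀ x y z : R, a * x ^ 2 + b * y ^ 2 + c * z ^ 2 = 0 → x = 0 ∧ y = 0 ∧ z = 0 :=
    h2 R a b c ⟨π₀, hπ₀, hπa, hπa2, sa π₀ hπ₀ hπa⟩ ha0 hb0 hc0
  have h2K : (2 : FractionRing R) ≠ 0 := by
    have := hu.map (algebraMap R (FractionRing R))
    rw [map_ofNat] at this
    exact this.ne_zero
  obtain ⟨hdomK, hpidK⟩ := h1 (FractionRing R) _ _ _ h2K
    (aniso_frac R (FractionRing R) a b c hR0)
  exact main R (FractionRing R) a b c ha0 hdomK hpidK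
    (fun π hπ => not_dvd_cnc hπ fun x y h => sa π hπ h x y)
    (fun π hπ => h3 R a b c hu sa sb sc hdep π hπ)

end Pool.Agent.Helper93K9.PAR
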