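import Pool.Agent.Helper93K9.PAR.Conic

/-! # Primes of the base stay prime in the conic bundle -/

set_option autoImplicit false

namespace Pool.Agent.Helper93K9.PAR

open Polynomial

noncomputable section

namespace Cbp

/-- change of coefficients -/
abbrev mm {S T : Type} [CommRing S] [CommRing T] (f : S →+* T) : S[X][X] →+* T[X][X] :=
  mapRingHom (mapRingHom f)

theorem mm_cnc {S T : Type} [CommRing S] [CommRing T] (f : S →+* T) (a b c : S) :
    mm f (cnc a b c) = cnc (f a) (f b) (f c) := by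
  simp [mm, cnc]

theorem mm_inj {S T : Type} [CommRing S] [CommRing T] (f : S →+* T)
    (hf : Function.Injective f) : Function.Injective (mm f) :=
  Polynomial.map_injective _ (Polynomial.map_injective _ hf)

theorem mm_surj {S T : Type} [CommRing S] [CommRing T] (f : S →+* T)
    (hf : Function.Surjective f) : Function.Surjective (mm f) :=
  Polynomial.map_surjective _ (Polynomial.map_surjective _ hf)

theorem CC_dvd {S : Type} [CommRing S] (s : S) (H : S[X][X]) :
    C (C s) ∣ H ↔ ∀ i j, s ∣ (H.coeff i).coeff j := by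
  rw [C_dvd_iff_dvd_coeff]
  simp only [C_dvd_iff_dvd_coeff]

theorem mm_eq_zero {S : Type} [CommRing S] (s : S) (H : S[X][X]) :
    mm (Ideal.Quotient.mk (Ideal.span {s})) H = 0 ↔ C (C s) ∣ H := by
  rw [CC_dvd]
  constructor
  · intro h i j
    have h1 := congrArg (fun g => (g.coeff i).coeff j) h
    simp only [mm, coe_mapRingHom, coeff_map, coeff_zero] at h1
    rw [Ideal.Quotient.eq_zero_iff_mem, Ideal.mem_span_singleton] at h1
    exact h1
  · intro h
    ext i j
    simp only [mm, coe_mapRingHom, coeff_map, coeff_zero]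
    rw [Ideal.Quotient.eq_zero_iff_mem, Ideal.mem_span_singleton]
    exact h i j

/-- over a field -/
theorem prime_cnc {Q : Type} [Field Q] (h2 : (2 : Q) ≠ 0) (a b c : Q)
    (hA : a = 0 → ∀ x y : Q, x ^ 2 + b * c * y ^ 2 = 0 → y = 0)
    (hB : b = 0 → ∀ x y : Q, x ^ 2 + a * c * y ^ 2 = 0 → y = 0)
    (hC : c = 0 → ∀ x y : Q, x ^ 2 + a * b * y ^ 2 = 0 → y = 0) : Prime (cnc a b c) := by
  by_cases ha : a = 0
  · have hb : b ≠ 0 := fun h => one_ne_zero (hA ha 0 1 (by rw [h]; ring))
    have e : cnc a b c = C (C b * (X ^ 2 - C (-c / b))) := by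
      unfold cnc
      rw [ha, C_0, C_0, zero_mul, zero_add, mul_sub, ← C_mul]
      congr 2
      have : b * (-c / b) = -c := by field_simp
      rw [this, C_neg, neg_neg]
    rw [e, prime_C_iff, ← irreducible_iff_prime]
    rw [irreducible_isUnit_mul (isUnit_C.2 (isUnit_iff_ne_zero.2 hb)),
      (monic_X_pow_sub_C (-c / b) two_ne_zero).irreducible_iff_roots_eq_zero_of_degree_le_three
      (by rw [natDegree_X_pow_sub_C]) (by rw [natDegree_X_pow_sub_C]; norm_num)]
    rw [Multiset.eq_zero_iff_forall_notMem]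
    intro z hz
    have hz := isRoot_of_mem_roots hz
    rw [IsRoot.def, eval_sub, eval_pow, eval_X, eval_C, sub_eq_zero, pow_two] at hz
    have hz := hz.symm
    have hz' : b * z * z = -c := by rw [mul_assoc, ← hz]; field_simp
    exact one_ne_zero (hA ha (b * z) 1 (by linear_combination b * hz'))
  · have e : cnc a b c = C (C a) * Con.ff (Con.dd (-b / a) (-c / a)) := by
      unfold cnc Con.ff Con.dd
      have e1 : (C b : Q[X]) = C a * (-C (-b / a)) := by
        rw [← C_neg, ← C_mul]; congr 1; field_simp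
      have e2 : (C c : Q[X]) = C a * (-C (-c / a)) := by
        rw [← C_neg, ← C_mul]; congr 1; field_simp
      conv_lhs => rw [e1, e2]
      simp only [map_add, map_mul, map_neg, map_pow]
      ring
    rw [e]
    have hu : IsUnit (C (C a) : Q[X][X]) := isUnit_C.2 (isUnit_C.2 (isUnit_iff_ne_zero.2 ha))
    rw [← irreducible_iff_prime, irreducible_isUnit_mul hu]
    set β := -b / a with hβ
    set γ := -c / a with hγ
    rw [(Con.monic_ff _).irreducible_iff_roots_eq_zero_of_degree_le_three
      (by rw [Con.natDegree_ff]) (by rw [Con.natDegree_ff]; norm_num)]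
    rw [Multiset.eq_zero_iff_forall_notMem]
    intro z hz
    have hz2 : z ^ 2 = Con.dd β γ := by
      have := isRoot_of_mem_roots hz
      rw [IsRoot.def, Con.ff, eval_sub, eval_pow, eval_X, eval_C, sub_eq_zero] at this
      exact this
    have hdeg : z.natDegree ≤ 1 := by
      have h3 : (z ^ 2).natDegree ≤ 2 := by
        rw [hz2]; unfold Con.dd; compute_degree
      rw [natDegree_pow] at h3
      omega
    obtain ⟨p, q, hpq⟩ := exists_eq_X_add_C_of_natDegree_le_one hdeg
    rw [hpq] at hz2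
    have hexp : (C p * X + C q : Q[X]) ^ 2 = C (p ^ 2) * X ^ 2 + C (2 * p * q) * X + C (q ^ 2) := by
      simp only [C_mul, C_pow, map_ofNat]; ring
    rw [hexp] at hz2
    generalize hp2 : p ^ 2 = p2 at hz2
    generalize hq2 : q ^ 2 = q2 at hz2
    generalize hpq2 : 2 * p * q = r2 at hz2
    have c0 : q ^ 2 = γ := by
      have := congrArg (fun g => g.coeff 0) hz2
      rw [hq2]
      simpa [Con.dd] using this
    have c1 : 2 * p * q = 0 := by
      have := congrArg (fun g => g.coeff 1) hz2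
      rw [hpq2]
      simpa [Con.dd, coeff_X, coeff_C] using this
    have c2 : p ^ 2 = β := by
      have := congrArg (fun g => g.coeff 2) hz2
      rw [hp2]
      simpa [Con.dd, coeff_X, coeff_C] using this
    have hpq0 : p = 0 ∨ q = 0 := by
      rcases mul_eq_zero.1 c1 with h | h
      · rcases mul_eq_zero.1 h with h | h
        · exact absurd h h2
        · exact Or.inl h
      · exact Or.inr h
    rcases hpq0 with rfl | rfl
    · have hb : b = 0 := by
        have : -b / a = 0 := by rw [← hβ, ← c2]; ring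
        rcases div_eq_zero_iff.1 this with h | h
        · exact neg_eq_zero.1 h
        · exact absurd h ha
      have h5 : a * q ^ 2 = -c := by rw [c0, hγ]; field_simp
      exact one_ne_zero (hB hb (a * q) 1 (by linear_combination a * h5))
    · have hc : c = 0 := by
        have : -c / a = 0 := by rw [← hγ, ← c0]; ring
        rcases div_eq_zero_iff.1 this with h | h
        · exact neg_eq_zero.1 h
        · exact absurd h ha
      have h5 : a * p ^ 2 = -b := by rw [c2, hβ]; field_simp
      exact one_ne_zero (hC hc (a * p) 1 (by linear_combination a * h5))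

/-- McCoy twice -/
theorem nzd {A : Type} [CommRing A] (a b c : A)
    (h : ∀ r : A, r * a = 0 → r * b = 0 → r * c = 0 → r = 0) (H : A[X][X])
    (hH : cnc a b c * H = 0) : H = 0 := by
  by_contra hne
  have h1 : cnc a b c ∉ nonZeroDivisors A[X][X] := by
    intro hm
    exact hne ((mul_left_mem_nonZeroDivisors_eq_zero_iff hm).1 hH)
  obtain ⟨w, hw0, hw⟩ := Polynomial.notMem_nonZeroDivisors_iff.1 h1
  obtain ⟨P, hP⟩ : ∃ P : A[X], P = C b * X ^ 2 + C c := ⟨_, rfl⟩
  unfold cnc at hw
  rw [← hP] at hw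
  have hw1 : w * C a = 0 := by
    have := congrArg (fun g => g.coeff 2) hw
    simpa [coeff_C] using this
  have hw2 : w * (C b * X ^ 2 + C c) = 0 := by
    have := congrArg (fun g => g.coeff 0) hw
    rw [← hP]
    simpa using this
  have hw3 : (C b * X ^ 2 + C a * X + C c) * w = 0 := by
    linear_combination hw2 + X * hw1
  have h4 : (C b * X ^ 2 + C a * X + C c : A[X]) ∉ nonZeroDivisors A[X] := by
    intro hm
    exact hw0 ((mul_left_mem_nonZeroDivisors_eq_zero_iff hm).1 hw3)
  obtain ⟨r, hr0, hr⟩ := Polynomial.notMem_nonZeroDivisors_iff.1 h4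
  apply hr0
  apply h
  · have := congrArg (fun g => g.coeff 1) hr
    simpa [coeff_X, coeff_C] using this
  · have := congrArg (fun g => g.coeff 2) hr
    simpa [coeff_X, coeff_C] using this
  · have := congrArg (fun g => g.coeff 0) hr
    simpa using this

/-- clearing denominators -/
theorem clear1 {S Q : Type} [CommRing S] [IsDomain S] [Field Q] [Algebra S Q]
    [IsFractionRing S Q] (h : Q[X]) :
    ∃ s : S, s ≠ 0 ∧ ∃ h' : S[X], h'.map (algebraMap S Q) = C (algebraMap S Q s) * h := by
  obtain ⟨b, hb, hb'⟩ := IsLocalization.integerNormalization_spec (nonZeroDivisors S) h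
  refine ⟨b, nonZeroDivisors.ne_zero hb, _, hb'.trans ?_⟩
  ext i
  simp [Algebra.smul_def]

theorem clear2 {S Q : Type} [CommRing S] [IsDomain S] [Field Q] [Algebra S Q]
    [IsFractionRing S Q] (H : Q[X][X]) :
    ∃ s : S, s ≠ 0 ∧ ∃ H' : S[X][X], mm (algebraMap S Q) H' = C (C (algebraMap S Q s)) * H := by
  induction H using Polynomial.induction_on' with
  | add p q hp hq =>
    obtain ⟨s, hs, p', hp'⟩ := hp
    obtain ⟨t, ht, q', hq'⟩ := hq
    refine ⟨s * t, mul_ne_zero hs ht, C (C t) * p' + C (C s) * q', ?_⟩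
    rw [map_add, map_mul, map_mul, hp', hq']
    simp only [mm, coe_mapRingHom, map_C, map_mul]
    ring
  | monomial n h =>
    obtain ⟨s, hs, h', hh'⟩ := clear1 (S := S) h
    refine ⟨s, hs, monomial n h', ?_⟩
    simp only [mm, coe_mapRingHom, map_monomial, hh', C_mul_monomial]

end Cbp

open Cbp in
/-- primes of the base stay prime in the conic bundle -/
theorem cbp : S_CBP := by
  intro R _ _ _ a b c h2 hA hB hC hdep π hπ
  set g := cnc a b c with hg
  haveI hprime : (Ideal.span {π}).IsPrime := (Ideal.span_singleton_prime hπ.ne_zero).2 hπ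
  let S := R ⧸ Ideal.span {π}
  let Q := FractionRing S
  let f : R →+* S := Ideal.Quotient.mk _
  let ι : S →+* Q := algebraMap S Q
  have hf0 : ∀ x : R, f x = 0 ↔ π ∣ x := fun x => by
    change Ideal.Quotient.mk _ x = 0 ↔ _
    rw [Ideal.Quotient.eq_zero_iff_mem, Ideal.mem_span_singleton]
  have hιinj : Function.Injective ι := IsFractionRing.injective S Q
  have hι0 : ∀ x : S, ι x = 0 ↔ x = 0 := fun x => map_eq_zero_iff ι hιinj
  have hfs : Function.Surjective f := Ideal.Quotient.mk_surjective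
  -- the conditions over `Q`
  have tr : ∀ u v : R, (∀ x y, π ∣ x ^ 2 + u * v * y ^ 2 → π ∣ y) →
      ∀ x y : Q, x ^ 2 + ι (f u) * ι (f v) * y ^ 2 = 0 → y = 0 := by
    intro u v h x y hxy
    obtain ⟨x1, z1, hz1, rfl⟩ := IsFractionRing.div_surjective S x
    obtain ⟨y1, z2, hz2, rfl⟩ := IsFractionRing.div_surjective S y
    have hz1' : ι z1 ≠ 0 := fun h => nonZeroDivisors.ne_zero hz1 ((hι0 z1).1 h)
    have hz2' : ι z2 ≠ 0 := fun h => nonZeroDivisors.ne_zero hz2 ((hι0 z2).1 h)
    obtain ⟨x1, rfl⟩ := hfs x1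
    obtain ⟨y1, rfl⟩ := hfs y1
    obtain ⟨z1, rfl⟩ := hfs z1
    obtain ⟨z2, rfl⟩ := hfs z2
    have h3 : ι (f ((x1 * z2) ^ 2 + u * v * (y1 * z1) ^ 2)) = 0 := by
      change (ι (f x1) / ι (f z1)) ^ 2 + ι (f u) * ι (f v) * (ι (f y1) / ι (f z2)) ^ 2 = 0 at hxy
      have h7 : ((ι (f x1) / ι (f z1)) * (ι (f z1) * ι (f z2))) ^ 2 +
          ι (f u) * ι (f v) * ((ι (f y1) / ι (f z2)) * (ι (f z1) * ι (f z2))) ^ 2 = 0 := by
        linear_combination (ι (f z1) * ι (f z2)) ^ 2 * hxy
      have h8 : (ι (f x1) / ι (f z1)) * (ι (f z1) * ι (f z2)) = ι (f x1) * ι (f z2) := by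
        rw [← mul_assoc, div_mul_cancel₀ _ hz1']
      have h9 : (ι (f y1) / ι (f z2)) * (ι (f z1) * ι (f z2)) = ι (f y1) * ι (f z1) := by
        rw [mul_comm (ι (f z1)), ← mul_assoc, div_mul_cancel₀ _ hz2']
      rw [h8, h9] at h7
      simp only [map_add, map_mul, map_pow]
      linear_combination h7
    have h4 := h _ _ ((hf0 _).1 ((hι0 _).1 h3))
    have h5 : f (y1 * z1) = 0 := (hf0 _).2 h4
    rw [map_mul] at h5
    rcases mul_eq_zero.1 h5 with h6 | h6
    · change ι (f y1) / _ = 0
      rw [h6, map_zero, zero_div]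
    · exact absurd (by rw [h6, map_zero]) hz1'
  have hK1 : Prime (cnc (ι (f a)) (ι (f b)) (ι (f c))) := by
    apply prime_cnc
    · have : (2 : Q) = ι (f 2) := by rw [map_ofNat, map_ofNat]
      rw [this]
      exact ((h2.map f).map ι).ne_zero
    · intro h
      exact tr b c (hA π hπ ((hf0 _).1 ((hι0 _).1 h)))
    · intro h
      exact tr a c (hB π hπ ((hf0 _).1 ((hι0 _).1 h)))
    · intro h
      exact tr a b (hC π hπ ((hf0 _).1 ((hι0 _).1 h)))
  have hK2 : ∀ s : S, s ≠ 0 → ∀ H : S[X][X], C (C s) ∣ cnc (f a) (f b) (f c) * H →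
      C (C s) ∣ H := by
    intro s hs H hH
    rw [← mm_eq_zero] at hH ⊢
    rw [map_mul, mm_cnc] at hH
    refine nzd _ _ _ ?_ _ hH
    intro r h1 h2 h3
    obtain ⟨r, rfl⟩ := Ideal.Quotient.mk_surjective r
    obtain ⟨r, rfl⟩ := hfs r
    obtain ⟨s, rfl⟩ := hfs s
    have hs' : ¬ π ∣ s := fun h => hs ((hf0 _).2 h)
    have conv : ∀ x : R, Ideal.Quotient.mk (Ideal.span {f s}) (f x) = 0 ↔
        x ∈ Ideal.span {π, s} := by
      intro x
      rw [Ideal.Quotient.eq_zero_iff_mem, Ideal.mem_span_singleton, Ideal.mem_span_pair]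
      constructor
      · rintro ⟨y, hy⟩
        obtain ⟨y, rfl⟩ := hfs y
        have : f (x - s * y) = 0 := by rw [map_sub, map_mul, hy, sub_self]
        obtain ⟨z, hz⟩ := (hf0 _).1 this
        exact ⟨z, y, by linear_combination -hz⟩
      · rintro ⟨z, y, rfl⟩
        refine ⟨f y, ?_⟩
        have : f π = 0 := (hf0 _).2 dvd_rfl
        rw [map_add, map_mul, map_mul, this]; ring
    rw [← map_mul, ← map_mul, conv] at h1 h2 h3
    rw [conv]
    exact hdep π s hπ hs' r h1 h2 h3
  -- descent of divisibility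
  have key : ∀ A : R[X][X], mm ι (mm f g) ∣ mm ι (mm f A) → ∃ E F : R[X][X],
      A = C (C π) * E + g * F := by
    intro A ⟨H, hH⟩
    obtain ⟨s, hs, H', hH'⟩ := clear2 (S := S) H
    have h3 : C (C s) * mm f A = mm f g * H' := by
      apply mm_inj ι hιinj
      have e1 : mm ι (C (C s)) = C (C (ι s)) := by simp [mm]
      rw [map_mul, map_mul, hH, e1]
      have e2 : mm ι H' = C (C (ι s)) * H := hH'
      rw [e2]; ring
    have h4 : C (C s) ∣ H' := by
      apply hK2 s hs
      rw [← mm_cnc, ← hg, ← h3]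
      exact dvd_mul_right _ _
    obtain ⟨H'', rfl⟩ := h4
    have hCs : (C (C s) : S[X][X]) ≠ 0 := by
      rw [Ne, C_eq_zero, C_eq_zero]; exact hs
    have h5 : mm f A = mm f g * H'' := by
      apply mul_left_cancel₀ hCs
      rw [h3]; ring
    obtain ⟨F, rfl⟩ := mm_surj f hfs H''
    have h6 : mm f (A - g * F) = 0 := by rw [map_sub, map_mul, h5, sub_self]
    obtain ⟨E, hE⟩ := (mm_eq_zero π _).1 h6
    exact ⟨E, F, by linear_combination hE⟩
  have hππ : mm f (C (C π)) = 0 := by
    have : f π = 0 := (hf0 _).2 dvd_rfl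
    simp [mm, this]
  have hgg : mm ι (mm f g) = cnc (ι (f a)) (ι (f b)) (ι (f c)) := by
    rw [hg, mm_cnc, mm_cnc]
  set D := Ideal.Quotient.mk (Ideal.span {g}) with hD
  have hD0 : ∀ x, D x = 0 ↔ g ∣ x := fun x => by
    rw [hD, Ideal.Quotient.eq_zero_iff_mem, Ideal.mem_span_singleton]
  have hDs : Function.Surjective D := Ideal.Quotient.mk_surjective
  -- divisibility by `π` in `D`
  have hdvd : ∀ A, D (C (C π)) ∣ D A → mm ι (mm f g) ∣ mm ι (mm f A) := by
    rintro A ⟨E, hE⟩
    obtain ⟨E, rfl⟩ := hDs E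
    have : D (A - C (C π) * E) = 0 := by rw [map_sub, map_mul, hE, sub_self]
    obtain ⟨F, hF⟩ := (hD0 _).1 this
    refine ⟨mm ι (mm f F), ?_⟩
    have h7 : A = C (C π) * E + g * F := by linear_combination hF
    rw [h7, map_add, map_mul, map_mul, hππ, zero_mul, zero_add, map_mul]
  have hdvd' : ∀ A, mm ι (mm f g) ∣ mm ι (mm f A) → D (C (C π)) ∣ D A := by
    intro A h
    obtain ⟨E, F, hEF⟩ := key A h
    refine ⟨D E, ?_⟩
    have h1 : D (g * F) = 0 := (hD0 _).2 (dvd_mul_right g F)
    have h2 : D A = D (C (C π) * E) + D (g * F) := by rw [hEF]; exact map_add D _ _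
    rw [h2, h1]
    exact (add_zero _).trans (map_mul D _ _)
  refine ⟨?_, ?_, ?_⟩
  · intro h0
    obtain ⟨F, hF⟩ := (hD0 _).1 h0
    have h1 := congrArg (mm f) hF
    rw [hππ, map_mul] at h1
    have hg0 : mm f g ≠ 0 := by
      intro h
      apply hK1.ne_zero
      rw [← hgg, h, map_zero]
    have h2 : mm f F = 0 := by
      rcases mul_eq_zero.1 h1.symm with h | h
      · exact absurd h hg0
      · exact h
    obtain ⟨F', rfl⟩ := (mm_eq_zero π _).1 h2
    have hCπ : (C (C π) : R[X][X]) ≠ 0 := by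
      rw [Ne, C_eq_zero, C_eq_zero]; exact hπ.ne_zero
    have h3 : 1 = g * F' := by
      apply mul_left_cancel₀ hCπ
      rw [mul_one]
      conv_lhs => rw [hF]
      ring
    apply hK1.not_unit
    rw [← hgg]
    exact ((IsUnit.of_mul_eq_one _ h3.symm).map (mm f)).map (mm ι)
  · intro hu
    apply hK1.not_unit
    rw [← hgg, isUnit_iff_dvd_one]
    have := hdvd 1 (by rw [map_one]; exact hu.dvd)
    simpa using this
  · intro x y hxy
    obtain ⟨x, rfl⟩ := hDs x
    obtain ⟨y, rfl⟩ := hDs y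
    rw [← map_mul] at hxy
    have h1 := hdvd _ hxy
    rw [map_mul, map_mul, hgg] at h1
    rcases hK1.dvd_or_dvd h1 with h | h
    · left; apply hdvd'; rw [hgg]; exact h
    · right; apply hdvd'; rw [hgg]; exact h

end

end Pool.Agent.Helper93K9.PAR
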