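import Pool.Agent.Helper93K9.PAR.Defs

/-! # Affine conics without rational points: the coordinate ring is a principal ideal domain -/

set_option autoImplicit false

namespace Pool.Agent.Helper93K9.PAR

open Polynomial Module
open scoped Classical

noncomputable section

namespace Con

variable {K : Type} [Field K]

/-- `N(p + q U) = p^2 - q^2 d` -/
def nm (d p q : K[X]) : K[X] := p ^ 2 - q ^ 2 * d

theorem nm_mul (d p q r s : K[X]) :
    nm d (p * r + q * s * d) (p * s + q * r) = nm d p q * nm d r s := by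
  unfold nm; ring

/-- the quadratic polynomial `β V^2 + γ` -/
def dd (β γ : K) : K[X] := C β * X ^ 2 + C γ

/-- size of `p + q U` -/
def sz (p q : K[X]) : ℕ := max p.natDegree (if q = 0 then 0 else q.natDegree + 1)

theorem natDegree_nm {β γ : K} (hβ : ∀ x y : K, x ^ 2 = β * y ^ 2 → x = 0 ∧ y = 0)
    {p q : K[X]} (h : ¬ (p = 0 ∧ q = 0)) :
    nm (dd β γ) p q ≠ 0 ∧ (nm (dd β γ) p q).natDegree = 2 * sz p q := by
  have hβ0 : β ≠ 0 := by
    rintro rfl
    exact one_ne_zero (hβ 0 1 (by simp)).2
  set j := sz p q with hj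
  have hpj : p.natDegree ≤ j := le_max_left _ _
  have hqj : q ≠ 0 → q.natDegree + 1 ≤ j := by
    intro hq
    have : (if q = 0 then 0 else q.natDegree + 1) ≤ j := le_max_right _ _
    rwa [if_neg hq] at this
  -- the coefficient of degree `2 j`
  have hc : (nm (dd β γ) p q).coeff (2 * j) =
      p.coeff j ^ 2 - β * (if q = 0 then 0 else q.coeff (j - 1)) ^ 2 := by
    unfold nm
    rw [coeff_sub]
    congr 1
    · rw [pow_two, two_mul, coeff_mul_add_eq_of_natDegree_le hpj hpj, pow_two]
    · by_cases hq : q = 0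
      · simp [hq]
      · rw [if_neg hq]
        have h1 := hqj hq
        have hd : (dd β γ).natDegree ≤ 2 := by
          unfold dd; compute_degree
        have hq2 : (q ^ 2).natDegree ≤ 2 * (j - 1) := by
          refine le_trans natDegree_pow_le ?_
          omega
        have e : 2 * j = 2 * (j - 1) + 2 := by omega
        rw [e, coeff_mul_add_eq_of_natDegree_le hq2 hd]
        have h3 : (q ^ 2).coeff (2 * (j - 1)) = q.coeff (j - 1) ^ 2 := by
          rw [pow_two, two_mul, coeff_mul_add_eq_of_natDegree_le (by omega) (by omega), pow_two]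
        have h4 : (dd β γ).coeff 2 = β := by
          unfold dd
          simp [coeff_C]
        rw [h3, h4]; ring
  have hle : (nm (dd β γ) p q).natDegree ≤ 2 * j := by
    unfold nm
    refine (natDegree_sub_le _ _).trans (max_le ?_ ?_)
    · exact natDegree_pow_le.trans (by omega)
    · by_cases hq : q = 0
      · simp [hq]
      · have h1 := hqj hq
        have hd : (dd β γ).natDegree ≤ 2 := by
          unfold dd; compute_degree
        refine natDegree_mul_le.trans ?_
        have := natDegree_pow_le (p := q) (n := 2)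
        omega
  have hne : (nm (dd β γ) p q).coeff (2 * j) ≠ 0 := by
    rw [hc]
    intro h0
    obtain ⟨h1, h2⟩ := hβ _ _ (sub_eq_zero.1 h0)
    apply h
    by_cases hq : q = 0
    · refine ⟨?_, hq⟩
      have : j = p.natDegree := by rw [hj, sz, if_pos hq]; simp
      rw [this] at h1
      exact leadingCoeff_eq_zero.1 h1
    · rw [if_neg hq] at h2
      have hj1 : j ≠ q.natDegree + 1 := by
        intro e
        rw [e, Nat.add_sub_cancel] at h2
        exact hq (leadingCoeff_eq_zero.1 h2)
      have h3 : j = p.natDegree := by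
        rcases le_total p.natDegree (if q = 0 then 0 else q.natDegree + 1) with h4 | h4
        · exfalso
          rw [hj, sz, max_eq_right h4, if_neg hq] at hj1
          exact hj1 rfl
        · rw [hj, sz, max_eq_left h4]
      rw [h3] at h1
      have hp : p = 0 := leadingCoeff_eq_zero.1 h1
      exfalso
      have := hqj hq
      rw [h3, hp] at this
      simp at this
  exact ⟨fun h0 => hne (by rw [h0]; simp), natDegree_eq_of_le_of_coeff_ne_zero hle hne⟩

/-- the polynomial `U^2 - d` -/
def ff (d : K[X]) : K[X][X] := X ^ 2 - C d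

theorem monic_ff (d : K[X]) : (ff d).Monic := monic_X_pow_sub_C d two_ne_zero

theorem natDegree_ff (d : K[X]) : (ff d).natDegree = 2 := natDegree_X_pow_sub_C

/-- the element `p + q U` -/
def el (d p q : K[X]) : AdjoinRoot (ff d) := AdjoinRoot.of (ff d) p +
  AdjoinRoot.of (ff d) q * AdjoinRoot.root (ff d)

theorem root_sq (d : K[X]) : AdjoinRoot.root (ff d) ^ 2 = AdjoinRoot.of (ff d) d := by
  have h := AdjoinRoot.eval₂_root (ff d)
  unfold ff at h ⊢
  rw [eval₂_sub, eval₂_pow, eval₂_X, eval₂_C] at h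
  exact sub_eq_zero.1 h

theorem el_mul (d p q r s : K[X]) :
    el d p q * el d r s = el d (p * r + q * s * d) (p * s + q * r) := by
  unfold el
  simp only [map_add, map_mul]
  linear_combination (AdjoinRoot.of (ff d) q * AdjoinRoot.of (ff d) s) * root_sq d

theorem el_add (d p q r s : K[X]) : el d p q + el d r s = el d (p + r) (q + s) := by
  unfold el
  simp only [map_add]
  ring

theorem exists_el (d : K[X]) (x : AdjoinRoot (ff d)) : ∃ p q, x = el d p q := by
  induction x using AdjoinRoot.induction_on with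
  | ih g =>
    refine ⟨(g %ₘ ff d).coeff 0, (g %ₘ ff d).coeff 1, ?_⟩
    have h1 : AdjoinRoot.mk (ff d) g = AdjoinRoot.mk (ff d) (g %ₘ ff d) := by
      rw [AdjoinRoot.mk_eq_mk]
      exact ⟨g /ₘ ff d, by linear_combination (-1 : K[X][X]) * (modByMonic_add_div g (ff d))⟩
    have h2 : (g %ₘ ff d) = C ((g %ₘ ff d).coeff 1) * X + C ((g %ₘ ff d).coeff 0) := by
      apply eq_X_add_C_of_natDegree_le_one
      have := natDegree_modByMonic_lt g (monic_ff d) (by
        intro h
        have := congrArg natDegree h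
        rw [natDegree_ff] at this
        simp at this)
      rw [natDegree_ff] at this
      omega
    rw [h1]
    conv_lhs => rw [h2]
    unfold el
    rw [map_add, map_mul, AdjoinRoot.mk_C, AdjoinRoot.mk_C, AdjoinRoot.mk_X]
    ring

theorem el_eq_zero {d p q : K[X]} (h : el d p q = 0) : p = 0 ∧ q = 0 := by
  have h1 : AdjoinRoot.mk (ff d) (C q * X + C p) = 0 := by
    rw [← h]; unfold el
    rw [map_add, map_mul, AdjoinRoot.mk_C, AdjoinRoot.mk_C, AdjoinRoot.mk_X]
    ring
  rw [AdjoinRoot.mk_eq_zero] at h1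
  have h2 : C q * X + C p = 0 := by
    by_contra hne
    have h3 := natDegree_le_of_dvd h1 hne
    rw [natDegree_ff] at h3
    have h4 : (C q * X + C p : K[X][X]).natDegree ≤ 1 := by compute_degree
    omega
  constructor
  · have := congrArg (fun g => g.coeff 0) h2
    simpa using this
  · have := congrArg (fun g => g.coeff 1) h2
    simpa using this

theorem el_zero (d : K[X]) : el d 0 0 = 0 := by unfold el; simp

theorem el_inj {d p q r s : K[X]} (h : el d p q = el d r s) : p = r ∧ q = s := by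
  have h1 : el d (p - r) (q - s) = 0 := by
    have : el d (p - r) (q - s) = el d p q - el d r s := by
      unfold el; simp only [map_sub]; ring
    rw [this, h, sub_self]
  obtain ⟨h2, h3⟩ := el_eq_zero h1
  exact ⟨sub_eq_zero.1 h2, sub_eq_zero.1 h3⟩

/-- the basis `1, U` -/
def bs (d : K[X]) : Basis (Fin 2) K[X] (AdjoinRoot (ff d)) :=
  (AdjoinRoot.powerBasis' (monic_ff d)).basis.reindex (finCongr (natDegree_ff d))

theorem bs_apply (d : K[X]) (n : Fin 2) : bs d n = AdjoinRoot.root (ff d) ^ (n : ℕ) := by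
  rw [bs, Basis.reindex_apply, PowerBasis.basis_eq_pow]
  rfl

theorem el_eq (d p q : K[X]) : el d p q = p • bs d 0 + q • bs d 1 := by
  rw [bs_apply, bs_apply, el, Algebra.smul_def, Algebra.smul_def]
  simp [AdjoinRoot.algebraMap_eq]

theorem norm_el (d p q : K[X]) : Algebra.norm K[X] (el d p q) = nm d p q := by
  have e1 : el d p q * bs d 0 = p • bs d 0 + q • bs d 1 := by
    rw [← el_eq, bs_apply]; simp
  have e2 : el d p q * bs d 1 = (q * d) • bs d 0 + p • bs d 1 := by
    rw [← el_eq, bs_apply]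
    have : AdjoinRoot.root (ff d) ^ ((1 : Fin 2) : ℕ) = el d 0 1 := by unfold el; simp
    rw [this, el_mul]
    congr 1 <;> ring
  rw [Algebra.norm_eq_matrix_det (bs d), Matrix.det_fin_two]
  simp only [Algebra.leftMulMatrix_eq_repr_mul, e1, e2, map_add, map_smul, Basis.repr_self,
    Finsupp.add_apply, Finsupp.smul_apply, Finsupp.single_apply, smul_eq_mul]
  simp only [Fin.isValue, if_true, one_ne_zero, zero_ne_one, if_false, nm]
  ring

variable {β γ : K} (hβ : ∀ x y : K, x ^ 2 = β * y ^ 2 → x = 0 ∧ y = 0)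

include hβ in
theorem isDomain : IsDomain (AdjoinRoot (ff (dd β γ))) := by
  have : Nontrivial (AdjoinRoot (ff (dd β γ))) := by
    refine ⟨⟨el _ 1 0, el _ 0 0, fun h => ?_⟩⟩
    exact one_ne_zero (el_inj h).1
  have : NoZeroDivisors (AdjoinRoot (ff (dd β γ))) := by
    refine ⟨fun {x y} h => ?_⟩
    obtain ⟨p, q, rfl⟩ := exists_el _ x
    obtain ⟨r, s, rfl⟩ := exists_el _ y
    rw [el_mul] at h
    obtain ⟨h1, h2⟩ := el_eq_zero h
    have h3 := nm_mul (dd β γ) p q r s
    rw [h1, h2] at h3
    have h4 : nm (dd β γ) p q * nm (dd β γ) r s = 0 := by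
      rw [← h3]; unfold nm; ring
    rcases mul_eq_zero.1 h4 with h5 | h5
    · left
      by_contra hne
      refine (natDegree_nm hβ (p := p) (q := q) (γ := γ) ?_).1 h5
      rintro ⟨rfl, rfl⟩
      exact hne (el_zero _)
    · right
      by_contra hne
      refine (natDegree_nm hβ (p := r) (q := s) (γ := γ) ?_).1 h5
      rintro ⟨rfl, rfl⟩
      exact hne (el_zero _)
  exact NoZeroDivisors.to_isDomain _

/-- no rational points: no ring homomorphism to `K` over `K` -/
theorem no_point (hpt : ∀ u v : K, u ^ 2 ≠ β * v ^ 2 + γ) {W : Type} [AddCommGroup W] [Module K W]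
    [Module (AdjoinRoot (ff (dd β γ))) W] [IsScalarTower K (AdjoinRoot (ff (dd β γ))) W]
    (w : W) (hw : w ≠ 0) (h : ∀ x : AdjoinRoot (ff (dd β γ)), ∃ c : K, x • w = c • w) : False := by
  obtain ⟨u, hu⟩ := h (AdjoinRoot.root _)
  obtain ⟨v, hv⟩ := h (AdjoinRoot.of _ X)
  apply hpt u v
  have key : ∀ (x : AdjoinRoot (ff (dd β γ))) (c : K), x • w = c • w → ∀ n : ℕ,
      x ^ n • w = c ^ n • w := by
    intro x c hx n
    induction n with
    | zero => simp
    | succ n ih =>
      rw [pow_succ, mul_smul, hx, smul_comm, ih, ← mul_smul, pow_succ, mul_comm]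
  have h1 := key _ u hu 2
  rw [root_sq] at h1
  have h2 : AdjoinRoot.of (ff (dd β γ)) (dd β γ) • w = (β * v ^ 2 + γ) • w := by
    have hk := key _ v hv 2
    have hC : ∀ c : K, AdjoinRoot.of (ff (dd β γ)) (C c) • w = c • w := by
      intro c
      have : AdjoinRoot.of (ff (dd β γ)) (C c) = c • (1 : AdjoinRoot (ff (dd β γ))) := by
        rw [Algebra.smul_def, mul_one]; rfl
      rw [this, smul_assoc, one_smul]
    change AdjoinRoot.of (ff (dd β γ)) (C β * X ^ 2 + C γ) • w = _
    rw [map_add, map_mul, map_pow, add_smul, mul_smul, hk, hC, smul_comm, hC, add_smul, mul_smul,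
      smul_comm]
  rw [h2] at h1
  have h3 : (u ^ 2 - (β * v ^ 2 + γ)) • w = 0 := by rw [sub_smul, h1, sub_self]
  rcases smul_eq_zero.1 h3 with h4 | h4
  · exact sub_eq_zero.1 h4
  · exact absurd h4 hw

/-- the linear map `(p, q) ↦ p + q U` -/
def lin (d : K[X]) : (K[X] × K[X]) →ₗ[K] AdjoinRoot (ff d) where
  toFun z := el d z.1 z.2
  map_add' x y := by rw [el_add]; rfl
  map_smul' c x := by
    have hC : ∀ r : K[X], AdjoinRoot.of (ff d) (c • r) = c • AdjoinRoot.of (ff d) r := by
      intro r
      rw [Algebra.smul_def c (AdjoinRoot.of (ff d) r), smul_eq_C_mul, map_mul]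
      rfl
    simp only [el, Prod.smul_fst, Prod.smul_snd, hC, RingHom.id_apply, smul_add, smul_mul_assoc]

theorem finrank_degreeLT (n : ℕ) : finrank K (degreeLT K n) = n := by
  rw [(degreeLTEquiv K n).finrank_eq, finrank_fin_fun]

theorem finite_degreeLT (n : ℕ) : Module.Finite K (degreeLT K n) :=
  Module.Finite.equiv (degreeLTEquiv K n).symm

include hβ in
theorem pir (hpt : ∀ u v : K, u ^ 2 ≠ β * v ^ 2 + γ) :
    IsPrincipalIdealRing (AdjoinRoot (ff (dd β γ))) := by
  haveI := isDomain hβ (γ := γ)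
  refine ⟨fun I => ?_⟩
  by_cases hI : I = ⊥
  · rw [hI]; exact bot_isPrincipal
  have hex : ∃ n, ∃ p q, ¬ (p = 0 ∧ q = 0) ∧ el (dd β γ) p q ∈ I ∧ sz p q = n := by
    obtain ⟨x, hx, hx0⟩ := (Submodule.ne_bot_iff I).1 hI
    obtain ⟨p, q, rfl⟩ := exists_el _ x
    refine ⟨_, p, q, ?_, hx, rfl⟩
    rintro ⟨rfl, rfl⟩
    exact hx0 (el_zero _)
  obtain ⟨p, q, hpq, hmem, hsz⟩ := Nat.find_spec hex
  set m := Nat.find hex with hm
  have hmin : ∀ r s, el (dd β γ) r s ∈ I → sz r s < m → r = 0 ∧ s = 0 := by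
    intro r s h1 h2
    by_contra hne
    exact Nat.find_min hex h2 ⟨r, s, hne, h1, rfl⟩
  set θ := el (dd β γ) p q with hθd
  have hθ : θ ≠ 0 := fun h => hpq (el_eq_zero h)
  have hfr : finrank K (AdjoinRoot (ff (dd β γ)) ⧸ Ideal.span {θ}) = 2 * m := by
    rw [finrank_quotient_span_eq_natDegree_norm (bs _) hθ, hθd, norm_el,
      (natDegree_nm hβ hpq).2, hsz]
  have hle : Ideal.span {θ} ≤ I := (Ideal.span_singleton_le_iff_mem I).2 hmem
  refine ⟨⟨θ, le_antisymm ?_ hle⟩⟩
  rcases Nat.eq_zero_or_pos m with hm0 | hmp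
  · -- `θ` is a unit
    have h1 : q = 0 := by
      by_contra hq
      have : q.natDegree + 1 ≤ sz p q := by
        unfold sz; rw [if_neg hq]; exact le_max_right _ _
      omega
    have h2 : p.natDegree = 0 := by
      have : p.natDegree ≤ sz p q := le_max_left _ _
      omega
    have h3 : p ≠ 0 := fun h => hpq ⟨h, h1⟩
    have h4 : IsUnit p := by
      rw [eq_C_of_natDegree_eq_zero h2] at h3 ⊢
      exact isUnit_C.2 (isUnit_iff_ne_zero.2 fun h => h3 (by rw [h, C_0]))
    have h5 : IsUnit θ := by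
      have : θ = AdjoinRoot.of (ff (dd β γ)) p := by rw [hθd, h1, el]; simp
      rw [this]
      exact h4.map _
    change I ≤ Ideal.span {θ}
    rw [Ideal.span_singleton_eq_top.2 h5]
    exact le_top
  have hfin : Module.Finite K (AdjoinRoot (ff (dd β γ)) ⧸ Ideal.span {θ}) :=
    Module.finite_of_finrank_pos (by rw [hfr]; omega)
  set mk := (Ideal.Quotient.mkₐ K (Ideal.span {θ})).toLinearMap with hmk
  have hmk0 : ∀ x, mk x = 0 ↔ x ∈ Ideal.span {θ} := fun x => Ideal.Quotient.eq_zero_iff_mem
  set W : Submodule K (AdjoinRoot (ff (dd β γ)) ⧸ Ideal.span {θ}) :=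
    (I.restrictScalars K).map mk with hW
  haveI := finite_degreeLT (K := K) m
  haveI := finite_degreeLT (K := K) (m - 1)
  set L : (degreeLT K m × degreeLT K (m - 1)) →ₗ[K]
      (AdjoinRoot (ff (dd β γ)) ⧸ Ideal.span {θ}) :=
    mk ∘ₗ lin (dd β γ) ∘ₗ (LinearMap.prodMap (degreeLT K m).subtype (degreeLT K (m - 1)).subtype)
    with hL
  have hLa : ∀ z, L z = mk (el (dd β γ) z.1 z.2) := fun z => rfl
  have hsmall : ∀ z : degreeLT K m × degreeLT K (m - 1), sz (z.1 : K[X]) (z.2 : K[X]) < m := by
    rintro ⟨⟨r, hr⟩, ⟨s, hs⟩⟩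
    rw [mem_degreeLT] at hr hs
    unfold sz
    refine max_lt ?_ ?_
    · by_cases h : r = 0
      · simp only [h, natDegree_zero]; exact hmp
      · exact (natDegree_lt_iff_degree_lt h).2 hr
    · simp only
      split_ifs with h
      · exact hmp
      · have := (natDegree_lt_iff_degree_lt h).2 hs
        omega
  have hLI : ∀ z, L z ∈ W → z = 0 := by
    intro z hz
    obtain ⟨x, hx, hxz⟩ := hz
    rw [hLa] at hxz
    have h1 : el (dd β γ) z.1 z.2 - x ∈ Ideal.span {θ} := by
      rw [← hmk0, map_sub, hxz, sub_self]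
    have h2 : el (dd β γ) z.1 z.2 ∈ I := by
      have := I.add_mem (hle h1) hx
      simpa using this
    obtain ⟨h3, h4⟩ := hmin _ _ h2 (hsmall z)
    exact Prod.ext (Subtype.ext h3) (Subtype.ext h4)
  have hinj : Function.Injective L := by
    rw [← LinearMap.ker_eq_bot, LinearMap.ker_eq_bot']
    intro z hz
    exact hLI z (by rw [hz]; exact W.zero_mem)
  have hT : finrank K (LinearMap.range L) = 2 * m - 1 := by
    rw [LinearMap.finrank_range_of_inj hinj, finrank_prod, finrank_degreeLT, finrank_degreeLT]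
    omega
  have hdis : Disjoint W (LinearMap.range L) := by
    rw [Submodule.disjoint_def]
    rintro w hw ⟨z, rfl⟩
    rw [hLI z hw, map_zero]
  have hW1 : finrank K W ≤ 1 := by
    have := Submodule.finrank_add_finrank_le_of_disjoint hdis
    rw [hT, hfr] at this
    omega
  change I ≤ Ideal.span {θ}
  intro x hx
  rw [← hmk0]
  by_contra hne
  have hxW : mk x ∈ W := ⟨x, hx, rfl⟩
  have hx0 : (⟨mk x, hxW⟩ : W) ≠ 0 := fun h => hne (congrArg Subtype.val h)
  have hone : finrank K W = 1 := by
    have : 0 < finrank K W := by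
      rw [finrank_pos_iff_exists_ne_zero]
      exact ⟨_, hx0⟩
    omega
  have hall := (finrank_eq_one_iff_of_nonzero' _ hx0).1 hone
  refine no_point hpt (mk x) hne fun y => ?_
  have hyW : y • mk x ∈ W := ⟨y * x, I.mul_mem_left y hx, rfl⟩
  obtain ⟨c, hc⟩ := hall ⟨_, hyW⟩
  exact ⟨c, (congrArg Subtype.val hc).symm⟩

end Con

open Con in
/-- affine conics without rational points -/
theorem conic : S_CONIC := by
  intro K _ a b c _ h
  have ha : a ≠ 0 := by
    rintro rfl
    exact one_ne_zero (h 1 0 0 (by ring)).1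
  have hβ : ∀ x y : K, x ^ 2 = (-b / a) * y ^ 2 → x = 0 ∧ y = 0 := by
    intro x y hxy
    have := h x y 0 (by rw [hxy]; field_simp; ring)
    exact ⟨this.1, this.2.1⟩
  have hpt : ∀ u v : K, u ^ 2 ≠ (-b / a) * v ^ 2 + (-c / a) := by
    intro u v huv
    exact one_ne_zero (h u v 1 (by rw [huv]; field_simp; ring)).2.2
  have e : cnc a b c = C (C a) * ff (dd (-b / a) (-c / a)) := by
    unfold cnc ff dd
    have e1 : (C b : K[X]) = C a * (-C (-b / a)) := by
      rw [← C_neg, ← C_mul]; congr 1; field_simp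
    have e2 : (C c : K[X]) = C a * (-C (-c / a)) := by
      rw [← C_neg, ← C_mul]; congr 1; field_simp
    conv_lhs => rw [e1, e2]
    simp only [map_add, map_mul, map_neg, map_pow]
    ring
  have hs : Ideal.span {cnc a b c} = Ideal.span {ff (dd (-b / a) (-c / a))} := by
    rw [e]
    exact Ideal.span_singleton_mul_left_unit
      (isUnit_C.2 (isUnit_C.2 (isUnit_iff_ne_zero.2 ha))) _
  rw [hs]
  exact ⟨isDomain hβ, pir hβ hpt⟩

end

end Pool.Agent.Helper93K9.PAR
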