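import Mathlib

/-! # Parity along curves: definitions and the statements on the special cubic

`F0 m k` is the cubic form `y_0 u_0^2 + y_1 u_1^2 + ∑ y_j^3` in the variables
`X 0 = u_0`, `X 1 = u_1`, `X (j + 2) = y_j` (`j < m + 3`). -/

set_option autoImplicit false

namespace Pool.Agent.Helper93K9.PAR

open MvPolynomial Module

noncomputable section

/-- the polar form `∑ x_i (∂_i F)(p)` (it is `3 F(x, p, p)` for a cubic form) -/
def pol {k R : Type} [CommRing k] [CommRing R] [Algebra k R] {r : ℕ}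
    (F : MvPolynomial (Fin r) k) (x p : Fin r → R) : R :=
  ∑ i, x i * aeval p (pderiv i F)

/-- the third point of the line through two points of the cubic `F = 0` -/
def third {k R : Type} [CommRing k] [CommRing R] [Algebra k R] {r : ℕ}
    (F : MvPolynomial (Fin r) k) (x p : Fin r → R) : Fin r → R :=
  fun i => pol F x p * x i - pol F p x * p i

/-- `x` is a generic point of the hypersurface `F = 0` over `k` -/
def Gen {k M : Type} [Field k] [Field M] [Algebra k M] {r : ℕ} (F : MvPolynomial (Fin r) k)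
    (x : Fin r → M) : Prop :=
  aeval x F = 0 ∧ ∀ (e : ℕ) (H : MvPolynomial (Fin r) k), H.IsHomogeneous e → aeval x H = 0 →
    F ∣ H

/-- the field generated by the ratios of the coordinates -/
def rf (k : Type) {M : Type} [Field k] [Field M] [Algebra k M] {r : ℕ} (x : Fin r → M) :
    IntermediateField k M :=
  IntermediateField.adjoin k {z | ∃ i j, z = x i / x j}

/-- affine coordinates without the last one -/
def yx {M : Type} [Field M] {n : ℕ} (x : Fin (n + 2) → M) : Fin n → M :=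
  fun i => x i.castSucc.succ / x 0

/-- the point `p` moves at most in a curve over `k` -/
def Crv (k : Type) {M : Type} [Field k] [Field M] [Algebra k M] {r : ℕ} (p : Fin r → M) : Prop :=
  ∀ i j a b, ¬ AlgebraicIndependent k ![p i / p j, p a / p b]

/-- the sum of the cubes of the variables -/
def cc (m : ℕ) (k : Type) [CommRing k] : MvPolynomial (Fin (m + 3)) k := ∑ j, X j ^ 3

/-- the special cubic form -/
def F0 (m : ℕ) (k : Type) [CommRing k] : MvPolynomial (Fin (m + 5)) k :=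
  X 2 * X 0 ^ 2 + X 3 * X 1 ^ 2 + ∑ j : Fin (m + 3), X j.succ.succ ^ 3

/-- the conic `a U^2 + b V^2 + c` (`U` is the outer variable) -/
def cnc {R : Type} [CommRing R] (a b c : R) : Polynomial (Polynomial R) :=
  Polynomial.C (Polynomial.C a) * Polynomial.X ^ 2 +
    Polynomial.C (Polynomial.C b * Polynomial.X ^ 2 + Polynomial.C c)

/-! ## the special cubic has a factorial cone -/

/-- job CONIC: affine conics without rational points -/
def S_CONIC : Prop :=
  ∀ (K : Type) [Field K] (a b c : K), (2 : K) ≠ 0 →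
    (∀ x y z : K, a * x ^ 2 + b * y ^ 2 + c * z ^ 2 = 0 → x = 0 ∧ y = 0 ∧ z = 0) →
    IsDomain (Polynomial (Polynomial K) ⧸ Ideal.span {cnc a b c}) ∧
    IsPrincipalIdealRing (Polynomial (Polynomial K) ⧸ Ideal.span {cnc a b c})

/-- job ANISO: no rational points on the generic conic -/
def S_ANISO : Prop :=
  ∀ (R : Type) [CommRing R] [IsDomain R] [UniqueFactorizationMonoid R] (a b c : R),
    (∃ π, Prime π ∧ π ∣ a ∧ ¬ π ^ 2 ∣ a ∧ ∀ x y, π ∣ x ^ 2 + b * c * y ^ 2 → π ∣ y) →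
    a ≠ 0 → b ≠ 0 → c ≠ 0 →
    ∀ x y z : R, a * x ^ 2 + b * y ^ 2 + c * z ^ 2 = 0 → x = 0 ∧ y = 0 ∧ z = 0

/-- job CBP: primes of the base stay prime in the conic bundle -/
def S_CBP : Prop :=
  ∀ (R : Type) [CommRing R] [IsDomain R] [UniqueFactorizationMonoid R] (a b c : R),
    IsUnit (2 : R) →
    (∀ π, Prime π → π ∣ a → ∀ x y, π ∣ x ^ 2 + b * c * y ^ 2 → π ∣ y) →
    (∀ π, Prime π → π ∣ b → ∀ x y, π ∣ x ^ 2 + a * c * y ^ 2 → π ∣ y) →
    (∀ π, Prime π → π ∣ c → ∀ x y, π ∣ x ^ 2 + a * b * y ^ 2 → π ∣ y) →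
    (∀ π s, Prime π → ¬ π ∣ s → ∀ f, f * a ∈ Ideal.span {π, s} → f * b ∈ Ideal.span {π, s} →
      f * c ∈ Ideal.span {π, s} → f ∈ Ideal.span {π, s}) →
    ∀ π : R, Prime π →
      Prime (Ideal.Quotient.mk (Ideal.span {cnc a b c}) (Polynomial.C (Polynomial.C π)))

/-- job CBN: Nagata's argument for the conic bundle, from `S_CONIC`, `S_ANISO`, `S_CBP` -/
def S_CB : Prop :=
  ∀ (R : Type) [CommRing R] [IsDomain R] [UniqueFactorizationMonoid R] [IsNoetherianRing R]
    (a b c : R), a ≠ 0 → b ≠ 0 → c ≠ 0 → IsUnit (2 : R) →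
    (∃ π, Prime π ∧ π ∣ a ∧ ¬ π ^ 2 ∣ a) →
    (∀ π, Prime π → π ∣ a → ∀ x y, π ∣ x ^ 2 + b * c * y ^ 2 → π ∣ y) →
    (∀ π, Prime π → π ∣ b → ∀ x y, π ∣ x ^ 2 + a * c * y ^ 2 → π ∣ y) →
    (∀ π, Prime π → π ∣ c → ∀ x y, π ∣ x ^ 2 + a * b * y ^ 2 → π ∣ y) →
    (∀ π s, Prime π → ¬ π ∣ s → ∀ f, f * a ∈ Ideal.span {π, s} → f * b ∈ Ideal.span {π, s} →
      f * c ∈ Ideal.span {π, s} → f ∈ Ideal.span {π, s}) →
    ∃ _ : IsDomain (Polynomial (Polynomial R) ⧸ Ideal.span {cnc a b c}),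
      UniqueFactorizationMonoid (Polynomial (Polynomial R) ⧸ Ideal.span {cnc a b c})

/-- job SQA: the fibre over `y_0 = 0` (and, by symmetry, over `y_1 = 0`) -/
def S_SQA : Prop :=
  ∀ (m : ℕ) (k : Type) [Field k] [CharZero k],
    (∀ π : MvPolynomial (Fin (m + 3)) k, Prime π → π ∣ X 0 →
      ∀ x y : MvPolynomial (Fin (m + 3)) k, π ∣ x ^ 2 + X 1 * cc m k * y ^ 2 → π ∣ y) ∧
    (∀ π : MvPolynomial (Fin (m + 3)) k, Prime π → π ∣ X 1 →
      ∀ x y : MvPolynomial (Fin (m + 3)) k, π ∣ x ^ 2 + X 0 * cc m k * y ^ 2 → π ∣ y)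

/-- job SQC: the fibre over `c = 0` -/
def S_SQC : Prop :=
  ∀ (m : ℕ) (k : Type) [Field k] [CharZero k],
    ∀ π : MvPolynomial (Fin (m + 3)) k, Prime π → π ∣ cc m k →
      ∀ x y : MvPolynomial (Fin (m + 3)) k, π ∣ x ^ 2 + X 0 * X 1 * y ^ 2 → π ∣ y

/-- job DEP: depth -/
def S_DEP : Prop :=
  ∀ (m : ℕ) (k : Type) [Field k] [CharZero k],
    ∀ π s : MvPolynomial (Fin (m + 3)) k, Prime π → ¬ π ∣ s → ∀ f,
      f * X 0 ∈ Ideal.span {π, s} → f * X 1 ∈ Ideal.span {π, s} →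
      f * cc m k ∈ Ideal.span {π, s} → f ∈ Ideal.span {π, s}

/-- job UFD (from `S_CB`, `S_SQA`, `S_SQC`, `S_DEP`): the cone over the special cubic is factorial
over every field of characteristic zero -/
def S_UFD : Prop :=
  ∀ (m : ℕ) (k : Type) [Field k] [CharZero k],
    ∃ _ : IsDomain (MvPolynomial (Fin (m + 5)) k ⧸ Ideal.span {F0 m k}),
      UniqueFactorizationMonoid (MvPolynomial (Fin (m + 5)) k ⧸ Ideal.span {F0 m k})

end

end Pool.Agent.Helper93K9.PAR
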