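import Mathlib
import Pool.Agent.Helper93K9.PAR.Defs

/-! # Parity along curves: identities for cubic forms -/

set_option autoImplicit false

namespace Pool.Agent.Helper93K9.PAR

open MvPolynomial Module

theorem deg_three {r : ℕ} (d : Fin r →₀ ℕ) (hd : d.degree = 3) :
    ∃ i j l, d = Finsupp.single i 1 + Finsupp.single j 1 + Finsupp.single l 1 := by
  have key : ∀ (e : ℕ) (d : Fin r →₀ ℕ), d.degree = e + 1 →
      ∃ (i : Fin r) (d' : Fin r →₀ ℕ), d'.degree = e ∧ d = d' + Finsupp.single i 1 := by
    intro e d hd
    have h0 : d ≠ 0 := by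
      rintro rfl
      simp at hd
    obtain ⟨i, hi⟩ := Finsupp.ne_iff.1 h0
    have hle : Finsupp.single i 1 ≤ d := by
      rw [Finsupp.single_le_iff]
      simp only [Finsupp.coe_zero, Pi.zero_apply] at hi
      omega
    refine ⟨i, d - Finsupp.single i 1, ?_, (tsub_add_cancel_of_le hle).symm⟩
    have h1 : (d - Finsupp.single i 1 + Finsupp.single i 1).degree = e + 1 := by
      rw [tsub_add_cancel_of_le hle, hd]
    rw [map_add, Finsupp.degree_single] at h1
    omega
  obtain ⟨i, d1, h1, rfl⟩ := key 2 d hd
  obtain ⟨j, d2, h2, rfl⟩ := key 1 d1 h1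
  obtain ⟨l, d3, h3, rfl⟩ := key 0 d2 h2
  rw [Finsupp.degree_eq_zero_iff] at h3
  subst h3
  exact ⟨l, j, i, by rw [zero_add]⟩

/-- cubic forms are sums of products of three variables -/
theorem hom3_induction {k : Type} [CommRing k] {r : ℕ} {P : MvPolynomial (Fin r) k → Prop}
    (h0 : P 0) (hadd : ∀ f g, P f → P g → P (f + g))
    (hmul : ∀ c i j l, P (C c * (X i * X j * X l))) {F : MvPolynomial (Fin r) k}
    (hF : F.IsHomogeneous 3) : P F := by
  classical
  rw [F.as_sum]
  refine Finset.sum_induction _ P hadd h0 fun d hd => ?_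
  have h1 : d.degree = 3 := by
    rw [Finsupp.degree_eq_weight_one]
    exact hF (mem_support_iff.1 hd)
  obtain ⟨i, j, l, rfl⟩ := deg_three d h1
  have h2 := hmul (coeff (Finsupp.single i 1 + Finsupp.single j 1 + Finsupp.single l 1) F) i j l
  convert h2 using 1
  rw [X, X, X, monomial_mul, monomial_mul, C_mul_monomial, mul_one, mul_one, mul_one]

section
variable {k R : Type} [CommRing k] [CommRing R] [Algebra k R] {r : ℕ}

theorem pol_add (F G : MvPolynomial (Fin r) k) (x p : Fin r → R) :
    pol (F + G) x p = pol F x p + pol G x p := by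
  unfold pol
  rw [← Finset.sum_add_distrib]
  refine Finset.sum_congr rfl fun i _ => ?_
  rw [map_add, map_add, mul_add]

theorem pol_zero (x p : Fin r → R) : pol (0 : MvPolynomial (Fin r) k) x p = 0 := by
  unfold pol
  simp

theorem pol_mono (c : k) (i j l : Fin r) (x p : Fin r → R) :
    pol (C c * (X i * X j * X l)) x p =
      algebraMap k R c * (x i * p j * p l + p i * x j * p l + p i * p j * x l) := by
  have h : ∀ (a : Fin r) (q : Fin r → R), ∑ i', x i' * (q i' *
      aeval p ((Pi.single i' (1 : MvPolynomial (Fin r) k) : Fin r → MvPolynomial (Fin r) k) a)) =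
      x a * q a := by
    intro a q
    rw [Finset.sum_eq_single a]
    · rw [Pi.single_eq_same, map_one, mul_one]
    · intro b _ hb
      rw [Pi.single_eq_of_ne hb.symm, map_zero, mul_zero, mul_zero]
    · intro h
      exact absurd (Finset.mem_univ a) h
  have h2 : ∀ i', aeval p (pderiv i' (C c * (X i * X j * X l))) =
      algebraMap k R c * (p j * p l) *
        aeval p ((Pi.single i' (1 : MvPolynomial (Fin r) k) : Fin r → MvPolynomial (Fin r) k) i) +
      algebraMap k R c * (p i * p l) *
        aeval p ((Pi.single i' (1 : MvPolynomial (Fin r) k) : Fin r → MvPolynomial (Fin r) k) j) +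
      algebraMap k R c * (p i * p j) *
        aeval p ((Pi.single i' (1 : MvPolynomial (Fin r) k) : Fin r → MvPolynomial (Fin r) k) l) := by
    intro i'
    simp only [Derivation.leibniz, pderiv_C, pderiv_X, smul_eq_mul, map_add, map_mul, aeval_X,
      aeval_C, mul_zero, add_zero]
    ring
  unfold pol
  simp only [h2, mul_add, Finset.sum_add_distrib]
  have h3 := h i fun _ => algebraMap k R c * (p j * p l)
  have h4 := h j fun _ => algebraMap k R c * (p i * p l)
  have h5 := h l fun _ => algebraMap k R c * (p i * p j)
  rw [h3, h4, h5]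
  ring

/-- the polar form is linear in the first argument -/
theorem pol_lin (F : MvPolynomial (Fin r) k) (a b : R) (x y p : Fin r → R) :
    pol F (fun i => a * x i + b * y i) p = a * pol F x p + b * pol F y p := by
  unfold pol
  rw [Finset.mul_sum, Finset.mul_sum, ← Finset.sum_add_distrib]
  refine Finset.sum_congr rfl fun i _ => ?_
  ring

theorem pol_smul_left (F : MvPolynomial (Fin r) k) (a : R) (x p : Fin r → R) :
    pol F (fun i => a * x i) p = a * pol F x p := by
  unfold pol
  rw [Finset.mul_sum]
  refine Finset.sum_congr rfl fun i _ => ?_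
  ring

variable {F : MvPolynomial (Fin r) k} (hF : F.IsHomogeneous 3)
include hF

/-- Taylor expansion of a cubic form -/
theorem taylor (a b : R) (x p : Fin r → R) :
    aeval (fun i => a * x i + b * p i) F = a ^ 3 * aeval x F + a ^ 2 * b * pol F p x +
      a * b ^ 2 * pol F x p + b ^ 3 * aeval p F := by
  refine hom3_induction (P := fun F => aeval (fun i => a * x i + b * p i) F =
    a ^ 3 * aeval x F + a ^ 2 * b * pol F p x + a * b ^ 2 * pol F x p + b ^ 3 * aeval p F)
    ?_ ?_ ?_ hF
  · simp [pol_zero]
  · intro f g hf hg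
    rw [map_add, map_add, map_add, pol_add, pol_add, hf, hg]
    ring
  · intro c i j l
    rw [pol_mono, pol_mono]
    simp only [map_mul, aeval_C, aeval_X]
    ring

/-- Euler's relation -/
theorem pol_self (x : Fin r → R) : pol F x x = 3 * aeval x F := by
  refine hom3_induction (P := fun F => pol F x x = 3 * aeval x F) ?_ ?_ ?_ hF
  · simp [pol_zero]
  · intro f g hf hg
    rw [map_add, pol_add, hf, hg]
    ring
  · intro c i j l
    rw [pol_mono]
    simp only [map_mul, aeval_C, aeval_X]
    ring

/-- the polar form is quadratic in the second argument -/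
theorem pol_taylor (a b : R) (x p : Fin r → R) :
    pol F p (fun i => a * x i + b * p i) = a ^ 2 * pol F p x + 2 * a * b * pol F x p +
      3 * b ^ 2 * aeval p F := by
  refine hom3_induction (P := fun F => pol F p (fun i => a * x i + b * p i) =
    a ^ 2 * pol F p x + 2 * a * b * pol F x p + 3 * b ^ 2 * aeval p F) ?_ ?_ ?_ hF
  · simp [pol_zero]
  · intro f g hf hg
    rw [map_add, pol_add, pol_add, pol_add, hf, hg]
    ring
  · intro c i j l
    rw [pol_mono, pol_mono, pol_mono]
    simp only [map_mul, aeval_C, aeval_X]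
    ring

theorem aeval_smul3 (a : R) (x : Fin r → R) :
    aeval (fun i => a * x i) F = a ^ 3 * aeval x F := by
  have h := taylor hF a 0 x x
  simpa using h

theorem pol_smul_right (a : R) (x p : Fin r → R) :
    pol F x (fun i => a * p i) = a ^ 2 * pol F x p := by
  refine hom3_induction (P := fun F => pol F x (fun i => a * p i) = a ^ 2 * pol F x p) ?_ ?_ ?_ hF
  · simp [pol_zero]
  · intro f g hf hg
    rw [pol_add, pol_add, hf, hg]
    ring
  · intro c i j l
    rw [pol_mono, pol_mono]
    ring

/-- scaling -/
theorem third_smul (a b : R) (x p : Fin r → R) (i : Fin r) :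
    third F (fun i => a * x i) (fun i => b * p i) i = a ^ 2 * b ^ 2 * third F x p i := by
  unfold third
  rw [pol_smul_left, pol_smul_right hF, pol_smul_left, pol_smul_right hF]
  ring

/-- the third point lies on the cubic -/
theorem third_on (x p : Fin r → R) (hx : aeval x F = 0) (hp : aeval p F = 0) :
    aeval (third F x p) F = 0 := by
  have h := taylor hF (pol F x p) (-pol F p x) x p
  rw [hx, hp] at h
  have h2 : third F x p = fun i => pol F x p * x i + -pol F p x * p i := by
    funext i
    unfold third
    ring
  rw [h2, h]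
  ring

theorem pol_third (x p : Fin r → R) (hp : aeval p F = 0) :
    pol F (third F x p) p = pol F x p ^ 2 := by
  have h2 : third F x p = fun i => pol F x p * x i + -pol F p x * p i := by
    funext i
    unfold third
    ring
  rw [h2, pol_lin, pol_self hF, hp]
  ring

theorem pol_third' (x p : Fin r → R) (hp : aeval p F = 0) :
    pol F p (third F x p) = -(pol F x p ^ 2 * pol F p x) := by
  have h2 : third F x p = fun i => pol F x p * x i + -pol F p x * p i := by
    funext i
    unfold third
    ring
  rw [h2, pol_taylor hF, hp]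
  ring

/-- the reflection is an involution -/
theorem third_third (x p : Fin r → R) (hp : aeval p F = 0) (i : Fin r) :
    third F (third F x p) p i = pol F x p ^ 3 * x i := by
  have h : third F (third F x p) p i = pol F (third F x p) p * third F x p i -
    pol F p (third F x p) * p i := rfl
  rw [h, pol_third hF x p hp, pol_third' hF x p hp]
  unfold third
  ring

end

section
variable {k R S : Type} [CommRing k] [CommRing R] [CommRing S] [Algebra k R] [Algebra k S] {r : ℕ}

theorem map_pol (φ : R →ₐ[k] S) (F : MvPolynomial (Fin r) k) (x p : Fin r → R) :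
    φ (pol F x p) = pol F (fun i => φ (x i)) (fun i => φ (p i)) := by
  unfold pol
  rw [map_sum]
  refine Finset.sum_congr rfl fun i _ => ?_
  rw [map_mul, comp_aeval_apply]

theorem map_third (φ : R →ₐ[k] S) (F : MvPolynomial (Fin r) k) (x p : Fin r → R) (i : Fin r) :
    φ (third F x p i) = third F (fun i => φ (x i)) (fun i => φ (p i)) i := by
  unfold third
  rw [map_sub, map_mul, map_mul, map_pol, map_pol]

/-- change of the coefficient ring -/
theorem pol_map {K : Type} [CommRing K] [Algebra k K] [Algebra K R] [IsScalarTower k K R]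
    (F : MvPolynomial (Fin r) k) (x p : Fin r → R) :
    pol (map (algebraMap k K) F) x p = pol F x p := by
  unfold pol
  refine Finset.sum_congr rfl fun i _ => ?_
  rw [pderiv_map, aeval_map_algebraMap]

theorem third_map {K : Type} [CommRing K] [Algebra k K] [Algebra K R] [IsScalarTower k K R]
    (F : MvPolynomial (Fin r) k) (x p : Fin r → R) :
    third (map (algebraMap k K) F) x p = third F x p := by
  unfold third
  rw [pol_map, pol_map]

end

section
variable {k M : Type} [Field k] [Field M] [Algebra k M] {r : ℕ}

theorem aeval_smul_hom {R : Type} [CommRing R] [Algebra k R] {H : MvPolynomial (Fin r) k} {e : ℕ}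
    (hH : H.IsHomogeneous e) (a : R) (x : Fin r → R) :
    aeval (fun i => a * x i) H = a ^ e * aeval x H := by
  rw [aeval_def, aeval_def, eval₂_eq, eval₂_eq, Finset.mul_sum]
  refine Finset.sum_congr rfl fun d hd => ?_
  have h0 : d.degree = e := by
    rw [Finsupp.degree_eq_weight_one]
    exact hH (mem_support_iff.1 hd)
  have h1 : ∑ i ∈ d.support, d i = e := by
    rw [← h0, Finsupp.degree_apply]
  rw [show (∏ i ∈ d.support, (a * x i) ^ d i) = a ^ e * ∏ i ∈ d.support, x i ^ d i by
    simp only [mul_pow]
    rw [Finset.prod_mul_distrib, Finset.prod_pow_eq_pow_sum, h1]]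
  ring

theorem gen_smul {F : MvPolynomial (Fin r) k} {x : Fin r → M} {a : M}
    (ha : a ≠ 0) (hF : F.IsHomogeneous 3) : Gen F (fun i => a * x i) ↔ Gen F x := by
  unfold Gen
  rw [aeval_smul_hom hF, mul_eq_zero, or_iff_right (pow_ne_zero _ ha)]
  refine and_congr_right fun _ => ?_
  refine forall_congr' fun e => forall_congr' fun H => forall_congr' fun hH => ?_
  rw [aeval_smul_hom hH, mul_eq_zero, or_iff_right (pow_ne_zero _ ha)]

theorem rf_smul (x : Fin r → M) {a : M} (ha : a ≠ 0) : rf k (fun i => a * x i) = rf k x := by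
  unfold rf
  congr 1
  ext z
  simp only [Set.mem_ofPred_eq]
  refine exists_congr fun i => exists_congr fun j => ?_
  rw [mul_div_mul_left _ _ ha]

theorem crv_smul (p : Fin r → M) {a : M} (ha : a ≠ 0) :
    Crv k (fun i => a * p i) ↔ Crv k p := by
  unfold Crv
  refine forall_congr' fun i => forall_congr' fun j => forall_congr' fun b => forall_congr' fun c => ?_
  rw [mul_div_mul_left _ _ ha, mul_div_mul_left _ _ ha]

/-- a generic point has no vanishing linear form -/
theorem gen_lin {F : MvPolynomial (Fin r) k} {x : Fin r → M} (hF : F.IsHomogeneous 3)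
    (h : Gen F x) {L : MvPolynomial (Fin r) k} (hL : L.IsHomogeneous 1) (h0 : aeval x L = 0) :
    L = 0 := by
  by_contra hL0
  obtain ⟨Q, hQ⟩ := h.2 1 L hL h0
  have hF0 : F ≠ 0 := by
    rintro rfl
    exact hL0 (by rw [hQ, zero_mul])
  have hQ0 : Q ≠ 0 := by
    rintro rfl
    exact hL0 (by rw [hQ, mul_zero])
  have h1 := totalDegree_mul_of_isDomain hF0 hQ0
  rw [← hQ, hL.totalDegree hL0, hF.totalDegree hF0] at h1
  omega

theorem gen_coord {F : MvPolynomial (Fin r) k} {x : Fin r → M} (hF : F.IsHomogeneous 3)
    (h : Gen F x) (i : Fin r) : x i ≠ 0 := by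
  intro h0
  have h1 := gen_lin hF h (isHomogeneous_X k i) (by rw [aeval_X, h0])
  exact X_ne_zero i h1

end

end Pool.Agent.Helper93K9.PAR
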