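import Mathlib
import Pool.Agent.Helper93K9.PAR.Defs
import Pool.Agent.Helper386.D5V.Helper386_FF_Riemann

/-! # Parity along curves: statements about places and the parity law on a cubic with factorial
cones -/

set_option autoImplicit false

namespace Pool.Agent.Helper93K9.PAR

open MvPolynomial Module FF

noncomputable section

/-- the field generated by the coordinates -/
abbrev Kc (Ω : Type) {KK : Type} [Field Ω] [Field KK] [Algebra Ω KK] {r : ℕ} (X : Fin r → KK) :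
    IntermediateField Ω KK :=
  IntermediateField.adjoin Ω (Set.range X)

/-- `X` is the generic point over `κ` of the cone `F = 0`, and `KK = κ(X)` -/
def Cone {Ω : Type} (κ : Type) {KK : Type} [Field Ω] [Field κ] [Field KK] [Algebra Ω κ]
    [Algebra κ KK] {r : ℕ} (F : MvPolynomial (Fin r) Ω) (X : Fin r → KK) : Prop :=
  (∀ g : MvPolynomial (Fin r) κ, aeval X g = 0 ↔ map (algebraMap Ω κ) F ∣ g) ∧
  IntermediateField.adjoin κ (Set.range X) = ⊤

/-- the place of `KK / Ω(X)` is constant: it is not trivial on `κ` -/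
def Cst {Ω : Type} (κ : Type) {KK : Type} [Field Ω] [Field κ] [Field KK] [Algebra κ KK]
    [Algebra Ω KK] {r : ℕ} {X : Fin r → KK} (w : Place (Kc Ω X) KK) : Prop :=
  ∃ c : κ, w.ord (algebraMap κ KK c) ≠ 0

/-- the height: minus the degree of the divisor at the constant places -/
def dl {Ω : Type} (κ : Type) {KK : Type} [Field Ω] [Field κ] [Field KK] [Algebra κ KK]
    [Algebra Ω KK] {r : ℕ} (X : Fin r → KK) (f : KK) : ℤ :=
  -∑ᶠ w : {w : Place (Kc Ω X) KK // Cst κ w}, w.1.ord f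

/-- the coordinate ring of the cone over `κ` -/
abbrev BB {Ω : Type} (κ : Type) [Field Ω] [Field κ] [Algebra Ω κ] {r : ℕ}
    (F : MvPolynomial (Fin r) Ω) : Type :=
  MvPolynomial (Fin r) κ ⧸ Ideal.span {map (algebraMap Ω κ) F}

/-- the quotient map -/
abbrev mk {Ω : Type} (κ : Type) [Field Ω] [Field κ] [Algebra Ω κ] {r : ℕ}
    (F : MvPolynomial (Fin r) Ω) : MvPolynomial (Fin r) κ →+* BB κ F :=
  Ideal.Quotient.mk (Ideal.span {map (algebraMap Ω κ) F})

/-- job FFK: `KK` is a function field of one variable over `Ω(X)` -/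
def S_FFK : Prop :=
  ∀ (Ω κ KK : Type) [Field Ω] [IsAlgClosed Ω] [CharZero Ω] [Field κ] [Field KK] [Algebra Ω κ]
    [Algebra κ KK] [Algebra Ω KK] [IsScalarTower Ω κ KK] [IsFF Ω κ] (r : ℕ)
    (F : MvPolynomial (Fin r) Ω) (X : Fin r → KK), Cone κ F X → IsFF (Kc Ω X) KK

/-- job CST: the constant places (their residue field is `Ω(X)`, and they are Gauss extensions) -/
def S_CST : Prop :=
  ∀ (Ω κ KK : Type) [Field Ω] [IsAlgClosed Ω] [CharZero Ω] [Field κ] [Field KK] [Algebra Ω κ]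
    [Algebra κ KK] [Algebra Ω KK] [IsScalarTower Ω κ KK] [IsFF Ω κ] (r : ℕ)
    (F : MvPolynomial (Fin r) Ω) (X : Fin r → KK), Cone κ F X →
    ∀ w : Place (Kc Ω X) KK, Cst κ w →
      w.deg = 1 ∧
      (∀ c : κ, w.Reg (algebraMap κ KK c) → ∃ a : Ω,
        w.red (algebraMap κ KK c) = w.red (algebraMap Ω KK a)) ∧
      (∀ (s : ℕ) (c : Fin s → κ) (a : Fin s → KK), (∀ j, a j ∈ Kc Ω X) →
        LinearIndependent Ω a → c ≠ 0 →
        ∃ j0, c j0 ≠ 0 ∧ (∀ j, c j ≠ 0 → w.ord (algebraMap κ KK (c j0)) ≤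
          w.ord (algebraMap κ KK (c j))) ∧
        w.ord (∑ j, algebraMap κ KK (c j) * a j) = w.ord (algebraMap κ KK (c j0)))

/-- job DLT (from `S_FFK`, `S_CST`): properties of the height -/
def S_DLT : Prop :=
  ∀ (Ω κ KK : Type) [Field Ω] [IsAlgClosed Ω] [CharZero Ω] [Field κ] [Field KK] [Algebra Ω κ]
    [Algebra κ KK] [Algebra Ω KK] [IsScalarTower Ω κ KK] [IsFF Ω κ] (r : ℕ)
    (F : MvPolynomial (Fin r) Ω) (X : Fin r → KK), Cone κ F X →
    (∀ f : KK, f ≠ 0 → (Function.support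
      fun w : {w : Place (Kc Ω X) KK // Cst κ w} => w.1.ord f).Finite) ∧
    (∀ f g : KK, f ≠ 0 → g ≠ 0 → dl (Ω := Ω) κ X (f * g) = dl (Ω := Ω) κ X f + dl (Ω := Ω) κ X g) ∧
    (∀ c : κ, dl (Ω := Ω) κ X (algebraMap κ KK c) = 0) ∧
    (∀ H : MvPolynomial (Fin r) Ω, dl (Ω := Ω) κ X (aeval X H) = 0) ∧
    (∀ g : MvPolynomial (Fin r) κ, 0 ≤ dl (Ω := Ω) κ X (aeval X g))

/-- job ORD (from `S_CST`): the reflection at a point of the cubic over `κ`, at the constant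
places -/
def S_ORD : Prop :=
  ∀ (Ω κ KK : Type) [Field Ω] [IsAlgClosed Ω] [CharZero Ω] [Field κ] [Field KK] [Algebra Ω κ]
    [Algebra κ KK] [Algebra Ω KK] [IsScalarTower Ω κ KK] [IsFF Ω κ] (r : ℕ)
    (F : MvPolynomial (Fin r) Ω) (X : Fin r → KK), F.IsHomogeneous 3 →
    (∀ z : Fin r → Ω, (∀ i, eval z (pderiv i F) = 0) → z = 0) → Cone κ F X →
    ∀ p : Fin r → κ, p ≠ 0 → aeval p F = 0 →
    ∀ w : Place (Kc Ω X) KK, Cst κ w → ∃ μ : ℤ,
      w.ord (pol F X fun i => algebraMap κ KK (p i)) = 2 * μ ∧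
      ∀ (e : ℕ) (g : MvPolynomial (Fin r) κ), g.IsHomogeneous e → aeval X g ≠ 0 →
        w.ord (aeval (third F X fun i => algebraMap κ KK (p i)) g) =
          w.ord (aeval X g) + 2 * e * μ

/-- job HT (from `S_FFK`, `S_CST`): the height of the equation of a point is the degree of the
point over `Ω(ξ)` -/
def S_HT : Prop :=
  ∀ (Ω κ KK N : Type) [Field Ω] [IsAlgClosed Ω] [CharZero Ω] [Field κ] [Field KK] [Field N]
    [Algebra Ω κ] [Algebra κ KK] [Algebra Ω KK] [IsScalarTower Ω κ KK] [IsFF Ω κ]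
    [Algebra κ N] [Algebra Ω N] [IsScalarTower Ω κ N] (r : ℕ)
    (F : MvPolynomial (Fin r) Ω) (X : Fin r → KK), Cone κ F X →
    ∀ (_ : IsDomain (BB κ F)) (_ : UniqueFactorizationMonoid (BB κ F)) (ξ : Fin r → N),
    (∀ H : MvPolynomial (Fin r) Ω, aeval ξ H = 0 ↔ F ∣ H) →
    ∀ ω : MvPolynomial (Fin r) κ, Prime (mk κ F ω) →
    (∀ g : MvPolynomial (Fin r) κ, aeval ξ g = 0 ↔ mk κ F ω ∣ mk κ F g) →
    dl (Ω := Ω) κ X (aeval X ω) = finrank (Kc Ω ξ)
      (IntermediateField.adjoin (Kc Ω ξ) (Set.range (algebraMap κ N)))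

/-- job GRD: homogeneous elements of a factorial cone -/
def S_GRD : Prop :=
  ∀ (Ω κ : Type) [Field Ω] [Field κ] [Algebra Ω κ] (r d : ℕ) (F : MvPolynomial (Fin r) Ω),
    F.IsHomogeneous d → 2 ≤ d → ∀ (_ : IsDomain (BB κ F)) (_ : UniqueFactorizationMonoid (BB κ F)),
    (∀ u, IsUnit (mk κ F u) → ∃ c : κ, c ≠ 0 ∧ mk κ F u = mk κ F (C c)) ∧
    (∀ l, l.IsHomogeneous 1 → l ≠ 0 → Prime (mk κ F l)) ∧
    (∀ (e : ℕ) (g : MvPolynomial (Fin r) κ), g.IsHomogeneous e → mk κ F g ≠ 0 →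
      ∀ a b, mk κ F g = mk κ F a * b → ∃ (i : ℕ) (a' : MvPolynomial (Fin r) κ),
        a'.IsHomogeneous i ∧ mk κ F a = mk κ F a')

/-- job GENR (from `S_GRD`): the equation of a point -/
def S_GENR : Prop :=
  ∀ (Ω κ N : Type) [Field Ω] [Field κ] [Field N] [Algebra Ω κ] [Algebra κ N] [Algebra Ω N]
    [IsScalarTower Ω κ N] [IsFF Ω κ] (r d : ℕ) (F : MvPolynomial (Fin r) Ω),
    F.IsHomogeneous d → 2 ≤ d → ∀ (_ : IsDomain (BB κ F)) (_ : UniqueFactorizationMonoid (BB κ F))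
    (ξ : Fin r → N), (∀ H : MvPolynomial (Fin r) Ω, aeval ξ H = 0 ↔ F ∣ H) →
    (∀ g : MvPolynomial (Fin r) κ, aeval ξ g = 0 → ∀ e, aeval ξ (homogeneousComponent e g) = 0) →
    Algebra.IsAlgebraic (Kc Ω ξ) N →
    ∃ (e : ℕ) (ω : MvPolynomial (Fin r) κ), ω.IsHomogeneous e ∧ Prime (mk κ F ω) ∧
      ∀ g : MvPolynomial (Fin r) κ, aeval ξ g = 0 ↔ mk κ F ω ∣ mk κ F g

/-- job CONV: passage to the cone -/
def S_CONV : Prop :=
  ∀ (k M : Type) [Field k] [Field M] [Algebra k M] (r : ℕ) (x : Fin r → M), x ≠ 0 →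
    finrank (Kc k fun i => algebraMap (Polynomial M) (FractionRing (Polynomial M))
      (Polynomial.X * Polynomial.C (x i))) (FractionRing (Polynomial M)) = finrank (rf k x) M

/-- job KAP: the function field of the curve -/
def S_KAP : Prop :=
  ∀ (Ω M : Type) [Field Ω] [IsAlgClosed Ω] [CharZero Ω] [Field M] [Algebra Ω M] (r : ℕ)
    (p : Fin r → M), (∃ j, p j = 1) → Crv Ω p → (∃ t : M, Transcendental Ω t) →
    ∃ κ : IntermediateField Ω M, IsFF Ω κ ∧ ∀ i, p i ∈ κ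

/-- the parity law for a cubic form over an algebraically closed field -/
def Law {Ω : Type} [Field Ω] {r : ℕ} (F : MvPolynomial (Fin r) Ω) : Prop :=
  ∀ (M : Type) [Field M] [Algebra Ω M] (x p : Fin r → M), Gen F x → Odd (finrank (rf Ω x) M) →
    p ≠ 0 → aeval p F = 0 → Crv Ω p →
    pol F x p ≠ 0 ∧ Gen F (third F x p) ∧ Odd (finrank (rf Ω (third F x p)) M)

/-- job T0 (from all the others): the parity law for cubics with factorial cones -/
def S_T0 : Prop :=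
  ∀ (Ω : Type) [Field Ω] [IsAlgClosed Ω] [CharZero Ω] (r : ℕ) (F : MvPolynomial (Fin r) Ω),
    F.IsHomogeneous 3 →
    (∀ (κ : Type) [Field κ] [Algebra Ω κ] (z : Fin r → κ),
      (∀ i, aeval z (pderiv i F) = 0) → z = 0) →
    (∀ (κ : Type) [Field κ] [Algebra Ω κ], ∃ _ : IsDomain (BB κ F),
      UniqueFactorizationMonoid (BB κ F)) → Law F

end

end Pool.Agent.Helper93K9.PAR
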