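import Mathlib
import Pool.Agent.Helper93K9.PAR.Defs2
import Pool.Agent.Helper93K9.PAR.Basic

/-! # Passage to the cone -/

set_option autoImplicit false

namespace Pool.Agent.Helper93K9.PAR

open Module

namespace CV

variable {k M : Type} [Field k] [Field M] [Algebra k M] {r : ℕ}

/-- the point of the cone -/
noncomputable def sx (x : Fin r → M) : Fin r → FractionRing (Polynomial M) := fun i =>
  algebraMap (Polynomial M) (FractionRing (Polynomial M)) (Polynomial.X * Polynomial.C (x i))

/-- the constants -/
noncomputable def cm (M : Type) [Field M] : M →+* FractionRing (Polynomial M) :=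
  (algebraMap (Polynomial M) (FractionRing (Polynomial M))).comp Polynomial.C

theorem sx_eq (x : Fin r → M) (i : Fin r) :
    sx x i = algebraMap (Polynomial M) (FractionRing (Polynomial M)) Polynomial.X * cm M (x i) := by
  unfold sx cm
  rw [map_mul]; rfl

theorem s_ne : algebraMap (Polynomial M) (FractionRing (Polynomial M)) Polynomial.X ≠ 0 := by
  intro h
  rw [map_eq_zero_iff _ (IsFractionRing.injective (Polynomial M) (FractionRing (Polynomial M)))] at h
  exact Polynomial.X_ne_zero h

/-- coefficients of the evaluation at the point of the cone -/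
theorem coeff_aeval (x : Fin r → M) (P : MvPolynomial (Fin r) k) (d : ℕ) :
    (MvPolynomial.aeval (fun i => (Polynomial.X * Polynomial.C (x i) : Polynomial M)) P).coeff d =
      MvPolynomial.aeval x (MvPolynomial.homogeneousComponent d P) := by
  classical
  have h1 : ∀ e, MvPolynomial.aeval (fun i => (Polynomial.X * Polynomial.C (x i) : Polynomial M))
      (MvPolynomial.homogeneousComponent e P) = Polynomial.X ^ e *
        Polynomial.C (MvPolynomial.aeval x (MvPolynomial.homogeneousComponent e P)) := by
    intro e
    rw [aeval_smul_hom (MvPolynomial.homogeneousComponent_isHomogeneous e P)]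
    congr 1
    have := MvPolynomial.comp_aeval_apply (R := k) x (IsScalarTower.toAlgHom k M (Polynomial M))
      (MvPolynomial.homogeneousComponent e P)
    exact this.symm
  conv_lhs => rw [← MvPolynomial.sum_homogeneousComponent P]
  rw [map_sum, Polynomial.finsetSum_coeff]
  simp only [h1, Polynomial.coeff_X_pow_mul', Polynomial.coeff_C]
  by_cases hd : d ≤ P.totalDegree
  · rw [Finset.sum_eq_single d]
    · simp
    · intro b _ hb
      by_cases h : b ≤ d
      · rw [if_pos h, if_neg (by omega)]
      · rw [if_neg h]
    · intro h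
      exact absurd (Finset.mem_range.2 (by omega)) h
  · rw [MvPolynomial.homogeneousComponent_eq_zero d P (by omega), map_zero]
    apply Finset.sum_eq_zero
    intro b hb
    rw [Finset.mem_range] at hb
    rw [if_pos (by omega), if_neg (by omega)]

open scoped IntermediateField.algebraAdjoinAdjoin in
/-- linear independence -/
theorem li (x : Fin r → M) (j : Fin r) (hj : x j ≠ 0) {κ : Type} (v : κ → M)
    (hv : LinearIndependent (rf k x) v) :
    LinearIndependent (Kc k (sx x)) (fun i => cm M (v i)) := by
  classical
  rw [← LinearIndependent.iff_fractionRing (Algebra.adjoin k (Set.range (sx x))) (Kc k (sx x)),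
    linearIndependent_iff']
  intro s g hg i hi
  have h1 : ∀ i, ∃ P : MvPolynomial (Fin r) k, MvPolynomial.aeval (sx x) P = (g i).1 := by
    intro i
    exact (Algebra.adjoin_range_eq_range_aeval k (sx x)).le (g i).2
  choose P hP using h1
  have h2 : ∀ i, (g i).1 = algebraMap (Polynomial M) (FractionRing (Polynomial M))
      (MvPolynomial.aeval (fun i => (Polynomial.X * Polynomial.C (x i) : Polynomial M)) (P i)) := by
    intro i
    rw [← hP i]
    exact (MvPolynomial.comp_aeval_apply (R := k)
      (fun i => (Polynomial.X * Polynomial.C (x i) : Polynomial M))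
      (IsScalarTower.toAlgHom k (Polynomial M) (FractionRing (Polynomial M))) (P i)).symm
  have h3 : ∑ i ∈ s, MvPolynomial.aeval (fun i => (Polynomial.X * Polynomial.C (x i) :
      Polynomial M)) (P i) * Polynomial.C (v i) = 0 := by
    apply IsFractionRing.injective (Polynomial M) (FractionRing (Polynomial M))
    rw [map_sum, map_zero, ← hg]
    refine Finset.sum_congr rfl fun i _ => ?_
    rw [map_mul, ← h2]
    rfl
  have h4 : ∀ d, ∑ i ∈ s, MvPolynomial.aeval x (MvPolynomial.homogeneousComponent d (P i)) * v i
      = 0 := by
    intro d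
    have := congrArg (fun q => Polynomial.coeff q d) h3
    simp only [Polynomial.finsetSum_coeff, Polynomial.coeff_mul_C, Polynomial.coeff_zero,
      coeff_aeval] at this
    exact this
  have h5 : ∀ d, MvPolynomial.aeval x (MvPolynomial.homogeneousComponent d (P i)) = 0 := by
    intro d
    have h6 : ∀ i, MvPolynomial.aeval (fun l => x l / x j)
        (MvPolynomial.homogeneousComponent d (P i)) ∈ rf k x := by
      intro i
      have h7 : MvPolynomial.aeval (fun l => x l / x j)
        (MvPolynomial.homogeneousComponent d (P i)) ∈ Algebra.adjoin k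
          (Set.range fun l => x l / x j) := by
        rw [Algebra.adjoin_range_eq_range_aeval]
        exact ⟨_, rfl⟩
      have h8 : Algebra.adjoin k (Set.range fun l => x l / x j) ≤ (rf k x).toSubalgebra := by
        rw [Algebra.adjoin_le_iff]
        rintro _ ⟨l, rfl⟩
        exact IntermediateField.subset_adjoin _ _ ⟨l, j, rfl⟩
      exact h8 h7
    have h9 : ∀ i, MvPolynomial.aeval (fun l => x l / x j)
        (MvPolynomial.homogeneousComponent d (P i)) = (x j)⁻¹ ^ d *
        MvPolynomial.aeval x (MvPolynomial.homogeneousComponent d (P i)) := by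
      intro i
      rw [← aeval_smul_hom (MvPolynomial.homogeneousComponent_isHomogeneous d (P i))]
      congr 2
      funext l
      rw [div_eq_mul_inv, mul_comm]
    have h10 := linearIndependent_iff'.1 hv s (fun i => ⟨_, h6 i⟩) (by
      have h11 : ∀ i ∈ s, (⟨_, h6 i⟩ : rf k x) • v i = (x j)⁻¹ ^ d *
          (MvPolynomial.aeval x (MvPolynomial.homogeneousComponent d (P i)) * v i) := by
        intro i _
        rw [← mul_assoc, ← h9 i]
        rfl
      rw [Finset.sum_congr rfl h11, ← Finset.mul_sum, h4 d, mul_zero]) i hi
    have h12 := congrArg Subtype.val h10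
    change MvPolynomial.aeval (fun l => x l / x j)
        (MvPolynomial.homogeneousComponent d (P i)) = 0 at h12
    rw [h9 i, mul_eq_zero] at h12
    exact h12.resolve_left (pow_ne_zero _ (inv_ne_zero hj))
  apply Subtype.ext
  rw [h2 i]
  have h6 : MvPolynomial.aeval (fun i => (Polynomial.X * Polynomial.C (x i) : Polynomial M)) (P i)
      = 0 := by
    ext d
    rw [coeff_aeval, h5, Polynomial.coeff_zero]
  rw [h6, map_zero]
  rfl

/-- the field of the point lies in the field of the cone -/
theorem cm_mem (x : Fin r → M) (y : M) (hy : y ∈ rf k x) : cm M y ∈ Kc k (sx x) := by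
  let f : M →ₐ[k] FractionRing (Polynomial M) :=
    { cm M with
      commutes' := fun c => by
        change cm M (algebraMap k M c) = _
        unfold cm
        rw [RingHom.comp_apply, IsScalarTower.algebraMap_apply k (Polynomial M)
          (FractionRing (Polynomial M))]
        rfl }
  have h : rf k x ≤ (Kc k (sx x)).comap f := by
    unfold rf
    rw [IntermediateField.adjoin_le_iff]
    rintro _ ⟨i, j, rfl⟩
    change f (x i / x j) ∈ Kc k (sx x)
    have h1 : f (x i / x j) = sx x i / sx x j := by
      rw [sx_eq, sx_eq, mul_div_mul_left _ _ s_ne, ← map_div₀]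
      rfl
    rw [h1]
    exact div_mem (IntermediateField.subset_adjoin _ _ ⟨i, rfl⟩)
      (IntermediateField.subset_adjoin _ _ ⟨j, rfl⟩)
  exact h hy

/-- spanning -/
theorem span_top (x : Fin r → M) (j : Fin r) (hj : x j ≠ 0) [FiniteDimensional (rf k x) M]
    {κ : Type} (v : κ → M) (hv : ⊤ ≤ Submodule.span (rf k x) (Set.range v)) :
    ⊤ ≤ Submodule.span (Kc k (sx x)) (Set.range fun i => cm M (v i)) := by
  classical
  -- scalars
  have hsc : ∀ (c : rf k x) (m : M), cm M (c • m) = (⟨cm M c.1, cm_mem x c.1 c.2⟩ : Kc k (sx x)) •
      cm M m := by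
    intro c m
    change cm M (c.1 * m) = cm M c.1 * cm M m
    rw [map_mul]
  have hM : ∀ m : M, cm M m ∈ Submodule.span (Kc k (sx x)) (Set.range fun i => cm M (v i)) := by
    intro m
    have hm : m ∈ Submodule.span (rf k x) (Set.range v) := hv trivial
    induction hm using Submodule.span_induction with
    | mem y hy =>
      obtain ⟨i, rfl⟩ := hy
      exact Submodule.subset_span ⟨i, rfl⟩
    | zero => rw [map_zero]; exact Submodule.zero_mem _
    | add y z _ _ hy hz => rw [map_add]; exact Submodule.add_mem _ hy hz
    | smul c y _ hy => rw [hsc]; exact Submodule.smul_mem _ _ hy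
  let W := Algebra.adjoin (Kc k (sx x)) (Set.range (cm M))
  have hW : (W : Set (FractionRing (Polynomial M))) ⊆
      Submodule.span (Kc k (sx x)) (Set.range fun i => cm M (v i)) := by
    have h1 : Subalgebra.toSubmodule W = Submodule.span (Kc k (sx x)) (Set.range (cm M)) := by
      rw [Algebra.adjoin_eq_span]
      congr 1
      have h2 : Submonoid.closure (Set.range (cm M)) = MonoidHom.mrange (cm M).toMonoidHom :=
        Submonoid.closure_eq (MonoidHom.mrange (cm M).toMonoidHom)
      rw [h2]
      rfl
    have h2 : Subalgebra.toSubmodule W ≤ Submodule.span (Kc k (sx x)) (Set.range fun i => cm M (v i)) := by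
      rw [h1, Submodule.span_le]
      rintro _ ⟨m, rfl⟩
      exact hM m
    exact h2
  have hint : ∀ w ∈ W, IsAlgebraic (Kc k (sx x)) w := by
    have h1 : W ≤ integralClosure (Kc k (sx x)) (FractionRing (Polynomial M)) := by
      rw [Algebra.adjoin_le_iff]
      rintro _ ⟨m, rfl⟩
      have h2 : IsIntegral (rf k x) m := IsIntegral.of_finite _ _
      obtain ⟨p, hp, hpm⟩ := h2
      let θ : rf k x →+* Kc k (sx x) := ((cm M).comp (algebraMap (rf k x) M)).codRestrict
        (Kc k (sx x)).toSubring (fun c => cm_mem x c.1 c.2)
      refine ⟨p.map θ, hp.map θ, ?_⟩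
      rw [Polynomial.eval₂_map]
      have h3 := Polynomial.hom_eval₂ p (algebraMap (rf k x) M) (cm M) m
      rw [hpm, map_zero] at h3
      exact h3.symm
    intro w hw
    exact (h1 hw).isAlgebraic
  have hP : ∀ p : Polynomial M, algebraMap (Polynomial M) (FractionRing (Polynomial M)) p ∈ W := by
    intro p
    induction p using Polynomial.induction_on' with
    | add p q hp hq => rw [map_add]; exact add_mem hp hq
    | monomial n c =>
      rw [← Polynomial.C_mul_X_pow_eq_monomial, map_mul, map_pow]
      refine mul_mem (Algebra.subset_adjoin ⟨c, rfl⟩) (pow_mem ?_ n)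
      have h1 : algebraMap (Polynomial M) (FractionRing (Polynomial M)) Polynomial.X =
          sx x j * cm M (x j)⁻¹ := by
        rw [sx_eq, mul_assoc, ← map_mul, mul_inv_cancel₀ hj, map_one, mul_one]
      rw [h1]
      refine mul_mem ?_ (Algebra.subset_adjoin ⟨_, rfl⟩)
      exact W.algebraMap_mem ⟨sx x j, IntermediateField.subset_adjoin _ _ ⟨j, rfl⟩⟩
  intro f _
  apply hW
  obtain ⟨p, q, hq, rfl⟩ := IsFractionRing.div_surjective (A := Polynomial M) f
  rw [div_eq_mul_inv]
  exact mul_mem (hP p) (Subalgebra.inv_mem_of_algebraic W (x := ⟨_, hP q⟩) (hint _ (hP q)))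

end CV

/-- job CONV -/
theorem conv : S_CONV := by
  intro k M _ _ _ r x hx
  obtain ⟨j, hj⟩ := Function.ne_iff.1 hx
  change finrank (Kc k (CV.sx x)) (FractionRing (Polynomial M)) = finrank (rf k x) M
  have hj' : x j ≠ 0 := hj
  let b := Basis.ofVectorSpace (rf k x) M
  have hli := CV.li x j hj' b b.linearIndependent
  by_cases hfin : FiniteDimensional (rf k x) M
  · have hsp := CV.span_top x j hj' b (by rw [b.span_eq])
    have h1 := Module.finrank_eq_nat_card_basis (Basis.mk hli hsp)
    rw [h1, Module.finrank_eq_nat_card_basis b]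
  · rw [finrank_of_infinite_dimensional hfin, finrank_of_infinite_dimensional]
    intro h
    apply hfin
    have := hli.finite
    exact Module.Finite.of_basis b

end Pool.Agent.Helper93K9.PAR
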