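import Pool.Agent.Helper93K9.PAR.Ld

/-! # The constant places -/

set_option autoImplicit false
set_option linter.unusedSectionVars false

namespace Pool.Agent.Helper93K9.PAR

open MvPolynomial Module FF

noncomputable section

namespace CstL

variable {Ω κ KK : Type} [Field Ω] [Field κ] [Field KK] [Algebra Ω κ] [Algebra κ KK]
  [Algebra Ω KK] [IsScalarTower Ω κ KK] {r : ℕ} {F : MvPolynomial (Fin r) Ω} {X : Fin r → KK}
  (w : Place (Kc Ω X) KK)

lemma reg_mem {a : KK} (ha : a ∈ Kc Ω X) : w.Reg a := w.reg_const ⟨a, ha⟩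

lemma ord_mem {a : KK} (ha : a ∈ Kc Ω X) : w.ord a = 0 := by
  by_cases h : a = 0
  · rw [h, w.ord_zero]
  · exact w.ord_const (c := (⟨a, ha⟩ : Kc Ω X)) (fun h0 => h (congrArg Subtype.val h0))

lemma reg_omega (a : Ω) : w.Reg (algebraMap Ω KK a) :=
  reg_mem w ((Kc Ω X).algebraMap_mem a)

lemma red_mem {a : KK} (ha : a ∈ Kc Ω X) : algebraMap (Kc Ω X) w.RF ⟨a, ha⟩ = w.red a := rfl

/-- a regular element of `κ` whose residue satisfies a polynomial over `Ω` -/
lemma red_of_root [IsAlgClosed Ω] (c : κ) (φ : Polynomial Ω →+* KK)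
    (hφ : ∀ p, φ p = algebraMap κ KK (Polynomial.aeval c p))
    (hreg : ∀ p, w.Reg (φ p)) (p : Polynomial Ω) (hp : p ≠ 0) (h0 : w.redHom φ hreg p = 0) :
    ∃ a : Ω, w.red (algebraMap κ KK c) = w.red (algebraMap Ω KK a) := by
  classical
  have h1 := (IsAlgClosed.splits p).eq_prod_roots
  rw [h1, map_mul, map_multiset_prod, mul_eq_zero] at h0
  rcases h0 with h0 | h0
  · exfalso
    rw [Place.redHom_apply, hφ, Polynomial.aeval_C, ← IsScalarTower.algebraMap_apply] at h0
    refine w.red_ne_zero ?_ (ord_mem w ((Kc Ω X).algebraMap_mem _)) h0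
    rw [Ne, FaithfulSMul.algebraMap_eq_zero_iff]
    exact Polynomial.leadingCoeff_ne_zero.2 hp
  · rw [Multiset.prod_eq_zero_iff, Multiset.map_map] at h0
    obtain ⟨a, -, ha⟩ := Multiset.mem_map.1 h0
    refine ⟨a, ?_⟩
    have h2 : w.red (φ (Polynomial.X - Polynomial.C a)) = 0 := ha
    rw [map_sub, w.red_sub (hreg _) (hreg _), hφ, hφ, Polynomial.aeval_X, Polynomial.aeval_C,
      ← IsScalarTower.algebraMap_apply, sub_eq_zero] at h2
    exact h2

/-- a constant place has residues of `κ` in `Ω` -/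
lemma red_const [IsAlgClosed Ω] [IsFF Ω κ] (hw : Cst κ w) (c : κ)
    (hc : w.Reg (algebraMap κ KK c)) :
    ∃ a : Ω, w.red (algebraMap κ KK c) = w.red (algebraMap Ω KK a) := by
  classical
  let φ : Polynomial Ω →+* KK :=
    (algebraMap κ KK).comp (Polynomial.aeval (R := Ω) c).toRingHom
  have hφ : ∀ p, φ p = algebraMap κ KK (Polynomial.aeval c p) := fun p => rfl
  have hreg : ∀ p, w.Reg (φ p) := by
    intro p
    induction p using Polynomial.induction_on' with
    | add p q hp hq => rw [map_add]; exact w.reg_add hp hq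
    | monomial n a =>
      rw [← Polynomial.C_mul_X_pow_eq_monomial, map_mul, map_pow, hφ, hφ, Polynomial.aeval_C,
        Polynomial.aeval_X, ← IsScalarTower.algebraMap_apply]
      refine w.reg_mul (reg_omega w a) ?_
      induction n with
      | zero => rw [pow_zero]; exact w.reg_one
      | succ n ih => rw [pow_succ]; exact w.reg_mul ih hc
  by_cases h : ∃ p : Polynomial Ω, p ≠ 0 ∧ w.redHom φ hreg p = 0
  · obtain ⟨p, hp, h0⟩ := h
    exact red_of_root w c φ hφ hreg p hp h0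
  · push Not at h
    exfalso
    have h1 : ∀ p : Polynomial Ω, p ≠ 0 → φ p ≠ 0 ∧ w.ord (φ p) = 0 := by
      intro p hp
      have h2 := h p hp
      rw [Place.redHom_apply, Ne, w.red_eq_zero_iff (hreg p)] at h2
      push Not at h2
      exact ⟨h2.1, le_antisymm h2.2 ((w.reg_iff h2.1).1 (hreg p))⟩
    have htr : Transcendental Ω c := by
      rintro ⟨p, hp, h0⟩
      refine (h1 p hp).1 ?_
      rw [hφ, h0, map_zero]
    have h3 : ∀ a : IntermediateField.adjoin Ω {c},
        w.Reg (algebraMap (IntermediateField.adjoin Ω {c}) KK a) := by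
      rintro ⟨a, ha⟩
      change w.Reg (algebraMap κ KK a)
      obtain ⟨p, q, rfl⟩ := (IntermediateField.mem_adjoin_simple_iff Ω a).1 ha
      by_cases hp : p = 0
      · rw [hp]; simpa using w.reg_zero
      by_cases hq : q = 0
      · rw [hq]; simpa using w.reg_zero
      · right
        rw [map_div₀]
        have h4 := h1 p hp
        have h5 := h1 q hq
        rw [hφ] at h4 h5
        rw [w.ord_div h4.1 h5.1, h4.2, h5.2, sub_zero]
    have h6 : Algebra.IsAlgebraic (IntermediateField.adjoin Ω {c}) κ := IsFF.isAlgebraic htr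
    have h7 : ∀ z : κ, w.Reg (algebraMap κ KK z) := fun z =>
      w.reg_of_isIntegral h3 ((h6.isAlgebraic z).isIntegral.algebraMap)
    obtain ⟨z, hz⟩ := hw
    have hz0 : algebraMap κ KK z ≠ 0 := by
      intro h0; rw [h0, w.ord_zero] at hz; exact hz rfl
    have h8 := (w.reg_iff hz0).1 (h7 z)
    have h9 := h7 z⁻¹
    rw [map_inv₀, w.reg_iff (inv_ne_zero hz0), w.ord_inv] at h9
    omega

/-- the Gauss property -/
lemma gauss [IsAlgClosed Ω] [IsFF Ω κ] (hw : Cst κ w) {s : ℕ} (c : Fin s → κ) (a : Fin s → KK)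
    (ha : ∀ j, a j ∈ Kc Ω X) (hli : LinearIndependent Ω a) (hc : c ≠ 0) :
    ∃ j0, c j0 ≠ 0 ∧ (∀ j, c j ≠ 0 → w.ord (algebraMap κ KK (c j0)) ≤
      w.ord (algebraMap κ KK (c j))) ∧ ∃ u : KK, ∑ j, algebraMap κ KK (c j) * a j =
        algebraMap κ KK (c j0) * u ∧ u ≠ 0 ∧ w.ord u = 0 ∧
        ∃ v : Kc Ω X, w.red u = algebraMap (Kc Ω X) w.RF v := by
  classical
  obtain ⟨i0, hi0⟩ := Function.ne_iff.1 hc
  obtain ⟨j0, hj0, hmin⟩ := Finset.exists_min_image (Finset.univ.filter fun j => c j ≠ 0)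
    (fun j => w.ord (algebraMap κ KK (c j))) ⟨i0, Finset.mem_filter.2 ⟨Finset.mem_univ _, hi0⟩⟩
  rw [Finset.mem_filter] at hj0
  have hmin' : ∀ j, c j ≠ 0 → w.ord (algebraMap κ KK (c j0)) ≤ w.ord (algebraMap κ KK (c j)) :=
    fun j hj => hmin j (Finset.mem_filter.2 ⟨Finset.mem_univ _, hj⟩)
  have h0 : algebraMap κ KK (c j0) ≠ 0 := by
    rw [Ne, FaithfulSMul.algebraMap_eq_zero_iff]; exact hj0.2
  have hreg : ∀ j, w.Reg (algebraMap κ KK (c j / c j0)) := by
    intro j
    by_cases hj : c j = 0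
    · left; rw [hj, zero_div, map_zero]
    · right
      have h1 : algebraMap κ KK (c j) ≠ 0 := by
        rw [Ne, FaithfulSMul.algebraMap_eq_zero_iff]; exact hj
      rw [map_div₀, w.ord_div h1 h0]
      have := hmin' j hj
      omega
  choose α hα using fun j => red_const w hw (c j / c j0) (hreg j)
  have hα0 : α j0 ≠ 0 := by
    intro h
    have h1 := hα j0
    rw [div_self hj0.2, h, map_one, map_zero, w.red_one, w.red_zero] at h1
    exact one_ne_zero h1
  have hv : ∑ j, algebraMap Ω KK (α j) * a j ∈ Kc Ω X :=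
    sum_mem fun j _ => mul_mem ((Kc Ω X).algebraMap_mem _) (ha j)
  have hv0 : ∑ j, algebraMap Ω KK (α j) * a j ≠ 0 := by
    intro h
    apply hα0
    refine Fintype.linearIndependent_iff.1 hli α ?_ j0
    rw [← h]
    exact Finset.sum_congr rfl fun j _ => Algebra.smul_def _ _
  have hsum : ∀ T : Finset (Fin s), w.Reg (∑ j ∈ T, algebraMap κ KK (c j / c j0) * a j) ∧
      w.red (∑ j ∈ T, algebraMap κ KK (c j / c j0) * a j) =
        w.red (∑ j ∈ T, algebraMap Ω KK (α j) * a j) := by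
    intro T
    induction T using Finset.induction_on with
    | empty => simp [w.reg_zero]
    | insert j T hj ih =>
      rw [Finset.sum_insert hj, Finset.sum_insert hj]
      have h1 : w.Reg (algebraMap κ KK (c j / c j0) * a j) :=
        w.reg_mul (hreg j) (reg_mem w (ha j))
      refine ⟨w.reg_add h1 ih.1, ?_⟩
      rw [w.red_add h1 ih.1, w.red_mul (hreg j) (reg_mem w (ha j)), ih.2, hα j,
        w.red_add (w.reg_mul (reg_omega w _) (reg_mem w (ha j)))
          (reg_mem w (sum_mem fun j _ => mul_mem ((Kc Ω X).algebraMap_mem _) (ha j))),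
        w.red_mul (reg_omega w _) (reg_mem w (ha j))]
  obtain ⟨hs1, hs2⟩ := hsum Finset.univ
  have hne : w.red (∑ j, algebraMap κ KK (c j / c j0) * a j) ≠ 0 := by
    rw [hs2]
    exact w.red_ne_zero hv0 (ord_mem w hv)
  rw [Ne, w.red_eq_zero_iff hs1] at hne
  push Not at hne
  refine ⟨j0, hj0.2, hmin', ∑ j, algebraMap κ KK (c j / c j0) * a j, ?_, hne.1,
    le_antisymm hne.2 ((w.reg_iff hne.1).1 hs1), ⟨_, hv⟩, ?_⟩
  · rw [Finset.mul_sum]
    refine Finset.sum_congr rfl fun j _ => ?_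
    rw [← mul_assoc, ← map_mul, mul_div_cancel₀ _ hj0.2]
  · rw [hs2]
    rfl

/-- every polynomial in `X` over `κ` is a combination of `Ω`-independent elements of `Ω(X)` -/
lemma decomp (g : MvPolynomial (Fin r) κ) : ∃ (n : ℕ) (c : Fin n → κ) (b : Fin n → KK),
    (∀ j, b j ∈ Kc Ω X) ∧ LinearIndependent Ω b ∧
      aeval X g = ∑ j, algebraMap κ KK (c j) * b j := by
  classical
  let mon : (Fin r →₀ ℕ) → KK := fun m => ∏ i, X i ^ m i
  let V : Submodule Ω KK := Submodule.span Ω (g.support.image mon : Finset KK)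
  have hfin : FiniteDimensional Ω V := FiniteDimensional.span_finset Ω _
  have hmon : ∀ m, mon m ∈ Kc Ω X := fun m =>
    prod_mem fun i _ => pow_mem
      (IntermediateField.subset_adjoin Ω (Set.range X) (Set.mem_range_self i)) _
  have hV : ∀ x ∈ V, x ∈ Kc Ω X := by
    intro x hx
    have h1 : V ≤ (Kc Ω X).toSubalgebra.toSubmodule := by
      rw [Submodule.span_le]
      intro y hy
      rw [Finset.mem_coe, Finset.mem_image] at hy
      obtain ⟨m, -, rfl⟩ := hy
      exact hmon m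
    exact h1 hx
  let B := Module.finBasis Ω V
  have hmV : ∀ m ∈ g.support, mon m ∈ V := fun m hm =>
    Submodule.subset_span (Finset.mem_coe.2 (Finset.mem_image_of_mem _ hm))
  have hrep : ∀ m : Fin r →₀ ℕ, ∃ l : Fin (finrank Ω V) → Ω, m ∈ g.support →
      mon m = ∑ j, l j • (B j : KK) := by
    intro m
    by_cases hm : m ∈ g.support
    · refine ⟨fun j => B.repr ⟨mon m, hmV m hm⟩ j, fun _ => ?_⟩
      have h1 := congrArg Subtype.val (B.sum_repr ⟨mon m, hmV m hm⟩)
      refine h1.symm.trans ?_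
      rw [AddSubmonoidClass.coe_finsetSum]
      rfl
    · exact ⟨0, fun h => absurd h hm⟩
  choose l hl using hrep
  refine ⟨finrank Ω V, fun j => ∑ m ∈ g.support, l m j • coeff m g, fun j => (B j : KK),
    fun j => hV _ (B j).2, B.linearIndependent.map' V.subtype (Submodule.ker_subtype V), ?_⟩
  rw [aeval_def, eval₂_eq']
  have h1 : ∀ m ∈ g.support, algebraMap κ KK (coeff m g) * ∏ i, X i ^ m i =
      ∑ j, algebraMap κ KK (l m j • coeff m g) * (B j : KK) := by
    intro m hm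
    have h2 : (∏ i, X i ^ m i) = ∑ j, l m j • (B j : KK) := hl m hm
    rw [h2, Finset.mul_sum]
    refine Finset.sum_congr rfl fun j _ => ?_
    rw [Algebra.smul_def, Algebra.smul_def, map_mul, ← IsScalarTower.algebraMap_apply]
    ring
  rw [Finset.sum_congr rfl h1, Finset.sum_comm]
  refine Finset.sum_congr rfl fun j _ => ?_
  rw [map_sum, Finset.sum_mul]

/-- a nonzero polynomial in `X` over `κ` is an element of `κ` times a unit -/
lemma unit_part [IsAlgClosed Ω] [IsFF Ω κ] (hw : Cst κ w) (g : MvPolynomial (Fin r) κ)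
    (hg : aeval X g ≠ 0) : ∃ (c : κ) (u : KK), c ≠ 0 ∧ aeval X g = algebraMap κ KK c * u ∧
      u ≠ 0 ∧ w.ord u = 0 ∧ ∃ v : Kc Ω X, w.red u = algebraMap (Kc Ω X) w.RF v := by
  obtain ⟨n, c, b, hb, hli, h⟩ := decomp (X := X) (Ω := Ω) g
  have hc : c ≠ 0 := by
    rintro rfl
    apply hg
    rw [h]
    simp
  obtain ⟨j0, h1, -, u, h2, h3, h4, h5⟩ := gauss w hw c b hb hli hc
  exact ⟨c j0, u, h1, by rw [h, h2], h3, h4, h5⟩

lemma deg_one [IsAlgClosed Ω] [IsFF Ω κ] (hX : IntermediateField.adjoin κ (Set.range X) = ⊤)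
    (hw : Cst κ w) : w.deg = 1 := by
  classical
  unfold Place.deg
  rw [finrank_eq_one_iff_of_nonzero' (1 : w.RF) one_ne_zero]
  intro ρ
  suffices h : ∃ v : Kc Ω X, algebraMap (Kc Ω X) w.RF v = ρ by
    obtain ⟨v, hv⟩ := h
    exact ⟨v, by rw [Algebra.smul_def, mul_one, hv]⟩
  by_cases hρ : ρ = 0
  · exact ⟨0, by rw [map_zero, hρ]⟩
  obtain ⟨f, hf, hfρ⟩ := w.red_surjective ρ
  have hf1 := hρ
  rw [← hfρ, w.red_eq_zero_iff hf] at hf1
  push Not at hf1
  have hf2 : w.ord f = 0 := le_antisymm hf1.2 ((w.reg_iff hf1.1).1 hf)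
  have hfm : f ∈ IntermediateField.adjoin κ (Set.range X) := by rw [hX]; trivial
  obtain ⟨g1, g2, hg⟩ := (IntermediateField.mem_adjoin_range_iff κ X f).1 hfm
  have hg1 : aeval X g1 ≠ 0 := by
    intro h; rw [h, zero_div] at hg; exact hf1.1 hg
  have hg2 : aeval X g2 ≠ 0 := by
    intro h; rw [h, div_zero] at hg; exact hf1.1 hg
  obtain ⟨c1, u1, hc1, he1, hu1, ho1, v1, hv1⟩ := unit_part w hw g1 hg1
  obtain ⟨c2, u2, hc2, he2, hu2, ho2, v2, hv2⟩ := unit_part w hw g2 hg2
  have hc1' : algebraMap κ KK c1 ≠ 0 := by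
    rw [Ne, FaithfulSMul.algebraMap_eq_zero_iff]; exact hc1
  have hc2' : algebraMap κ KK c2 ≠ 0 := by
    rw [Ne, FaithfulSMul.algebraMap_eq_zero_iff]; exact hc2
  have hfe : f = algebraMap κ KK (c1 / c2) * (u1 * u2⁻¹) := by
    rw [hg, he1, he2, map_div₀]
    field_simp
  have hcc : w.ord (algebraMap κ KK (c1 / c2)) = 0 := by
    have h1 := hf2
    rw [hfe, w.ord_mul (by rw [map_div₀]; exact div_ne_zero hc1' hc2')
      (mul_ne_zero hu1 (inv_ne_zero hu2)), w.ord_mul hu1 (inv_ne_zero hu2), w.ord_inv, ho1,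
      ho2] at h1
    omega
  have hrc : w.Reg (algebraMap κ KK (c1 / c2)) := Or.inr hcc.ge
  obtain ⟨a, ha⟩ := red_const w hw (c1 / c2) hrc
  have hr1 : w.Reg u1 := Or.inr ho1.ge
  have hr2 : w.Reg u2 := Or.inr ho2.ge
  have hr2' : w.Reg u2⁻¹ := Or.inr (by rw [w.ord_inv, ho2]; simp)
  have hinv : w.red u2⁻¹ = algebraMap (Kc Ω X) w.RF v2⁻¹ := by
    rw [map_inv₀, ← hv2]
    have h1 : w.red u2 * w.red u2⁻¹ = 1 := by
      rw [← w.red_mul hr2 hr2', mul_inv_cancel₀ hu2, w.red_one]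
    exact (inv_eq_of_mul_eq_one_right h1).symm
  refine ⟨algebraMap Ω (Kc Ω X) a * (v1 * v2⁻¹), ?_⟩
  rw [← hfρ, hfe, w.red_mul hrc (w.reg_mul hr1 hr2'), w.red_mul hr1 hr2', hv1, hinv, ha, map_mul,
    map_mul]
  rfl

end CstL

theorem cst : S_CST := by
  intro Ω κ KK _ _ _ _ _ _ _ _ _ _ r F X hX w hw
  refine ⟨CstL.deg_one w hX.2 hw, fun c hc => CstL.red_const w hw c hc, ?_⟩
  intro s c a ha hli hc
  obtain ⟨j0, h1, h2, u, h3, h4, h5, -⟩ := CstL.gauss w hw c a ha hli hc
  refine ⟨j0, h1, h2, ?_⟩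
  rw [h3, w.ord_mul ?_ h4, h5, add_zero]
  rw [Ne, FaithfulSMul.algebraMap_eq_zero_iff]; exact h1

end

end Pool.Agent.Helper93K9.PAR
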