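import Mathlib
import Pool.Agent.Helper93K9.PAR.Defs2

/-! # Parity along curves: transfer from the special cubic to very general cubics (statements) -/

set_option autoImplicit false

namespace Pool.Agent.Helper93K9.PAR

open MvPolynomial Module FF

noncomputable section

/-- the cubic form `F0 + c G` -/
def Fc {Ω K : Type} [Field Ω] [Field K] [Algebra Ω K] {r : ℕ} (F0 G : MvPolynomial (Fin r) Ω)
    (c : K) : MvPolynomial (Fin r) K :=
  map (algebraMap Ω K) F0 + C c * map (algebraMap Ω K) G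

/-- the reduction of the projective point `x` at the place `w` is a generic point of odd degree -/
def Good {Ω E : Type} [Field Ω] [Field E] [Algebra Ω E] (w : Place Ω E) {n : ℕ}
    (F0 : MvPolynomial (Fin (n + 2)) Ω) (x : Fin (n + 2) → E) : Prop :=
  x 0 ≠ 0 ∧ (∀ i, w.Reg (x i / x 0)) ∧ Gen F0 (fun i => w.red (x i / x 0)) ∧
  Odd (finrank (rf Ω fun i => w.red (x i / x 0)) w.RF)

/-- job CUB: generic points of cubics in affine coordinates -/
def S_CUB : Prop :=
  ∀ (k M : Type) [Field k] [Field M] [Algebra k M] (n : ℕ) (F : MvPolynomial (Fin (n + 2)) k),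
    F.IsHomogeneous 3 → Irreducible F → coeff (Finsupp.single (Fin.last (n + 1)) 3) F ≠ 0 →
    ∀ x : Fin (n + 2) → M,
      (Gen F x → x 0 ≠ 0 ∧ AlgebraicIndependent k (yx x) ∧
        finrank (Kc k (yx x)) M = 3 * finrank (rf k x) M) ∧
      (aeval x F = 0 → x 0 ≠ 0 → AlgebraicIndependent k (yx x) → Gen F x)

/-- job RES: residues at a place `w` of `E` over a place `P` of a function field `K` over an
algebraically closed field -/
def S_RES : Prop :=
  ∀ (Ω K E : Type) [Field Ω] [IsAlgClosed Ω] [CharZero Ω] [Field K] [Field E] [Algebra Ω K]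
    [Algebra K E] [Algebra Ω E] [IsScalarTower Ω K E] [IsFF Ω K] (P : Place Ω K) (w : Place Ω E)
    (ϖ : K), ϖ ≠ 0 → P.ord ϖ = 1 → (∀ a : K, P.Reg a → w.Reg (algebraMap K E a)) →
    0 < w.ord (algebraMap K E ϖ) →
    {c : w.RF | ∃ a : K, P.Reg a ∧ w.red (algebraMap K E a) = c} =
      Set.range (algebraMap Ω w.RF) ∧
    ∀ (s : ℕ) (y : Fin s → E), (∀ j, w.Reg (y j)) →
      (AlgebraicIndependent Ω (fun j => w.red (y j)) ↔
        ∀ p : MvPolynomial (Fin s) K, (∀ α, P.Reg (coeff α p)) →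
          (∃ α, coeff α p ≠ 0 ∧ P.ord (coeff α p) = 0) → w.red (aeval y p) ≠ 0) ∧
      (AlgebraicIndependent Ω (fun j => w.red (y j)) → AlgebraicIndependent K y)

/-- job RCV (from `S_RES`): the reduction of a point moving in a curve moves in a curve -/
def S_RCV : Prop :=
  ∀ (Ω K E : Type) [Field Ω] [IsAlgClosed Ω] [CharZero Ω] [Field K] [Field E] [Algebra Ω K]
    [Algebra K E] [Algebra Ω E] [IsScalarTower Ω K E] [IsFF Ω K] (P : Place Ω K) (w : Place Ω E)
    (ϖ : K), ϖ ≠ 0 → P.ord ϖ = 1 → (∀ a : K, P.Reg a → w.Reg (algebraMap K E a)) →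
    0 < w.ord (algebraMap K E ϖ) →
    ∀ (r : ℕ) (p : Fin r → E), (∀ j, w.Reg (p j)) → Crv K p → Crv Ω fun j => w.red (p j)

/-- job LW: the reflection at a place -/
def S_LW : Prop :=
  ∀ (Ω K E : Type) [Field Ω] [IsAlgClosed Ω] [CharZero Ω] [Field K] [Field E] [Algebra Ω K]
    [Algebra K E] [Algebra Ω E] [IsScalarTower Ω K E] (n : ℕ)
    (F0 G : MvPolynomial (Fin (n + 2)) Ω), F0.IsHomogeneous 3 → G.IsHomogeneous 3 → Law F0 →
    ∀ (w : Place Ω E) (c : K), 0 < w.ord (algebraMap K E c) → ∀ x p : Fin (n + 2) → E,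
      aeval x (Fc F0 G c) = 0 → aeval p (Fc F0 G c) = 0 → p ≠ 0 →
      (∀ j, p j ≠ 0 → (∀ i, w.Reg (p i / p j)) → Crv Ω fun i => w.red (p i / p j)) →
      Good w F0 x → pol (Fc F0 G c) x p ≠ 0 ∧ Good w F0 (third (Fc F0 G c) x p)

/-- job TR (from `S_CUB`, `S_RES`, `S_RCV`, `S_LW` and `R845.E3.gfi`): transfer of the parity law
from `F0` to `F0 + c G` over a function field -/
def S_TR : Prop :=
  ∀ (Ω K E : Type) [Field Ω] [IsAlgClosed Ω] [CharZero Ω] [Field K] [Field E] [Algebra Ω K]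
    [Algebra K E] [Algebra Ω E] [IsScalarTower Ω K E] [IsFF Ω K] (n : ℕ)
    (F0 G : MvPolynomial (Fin (n + 2)) Ω), F0.IsHomogeneous 3 → G.IsHomogeneous 3 →
    Irreducible F0 → coeff (Finsupp.single (Fin.last (n + 1)) 3) F0 ≠ 0 → Law F0 →
    ∀ c : K, Transcendental Ω c → ∀ x p : Fin (n + 2) → E,
      aeval x (Fc F0 G c) = 0 → x 0 ≠ 0 → AlgebraicIndependent K (yx x) →
      Odd (finrank (Kc K (yx x)) E) → p ≠ 0 → aeval p (Fc F0 G c) = 0 → Crv K p →
      pol (Fc F0 G c) x p ≠ 0 ∧ third (Fc F0 G c) x p 0 ≠ 0 ∧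
      AlgebraicIndependent K (yx (third (Fc F0 G c) x p)) ∧
      Odd (finrank (Kc K (yx (third (Fc F0 G c) x p))) E)

/-- job DESC: descent from `C` (algebraic over `Ω(c)`) to a function field `K` over `Ω` -/
def S_DESC : Prop :=
  ∀ (Ω C M : Type) [Field Ω] [IsAlgClosed Ω] [CharZero Ω] [Field C] [Field M] [Algebra Ω C]
    [Algebra C M] [Algebra Ω M] [IsScalarTower Ω C M] (c : C), Transcendental Ω c →
    Algebra.IsAlgebraic (IntermediateField.adjoin Ω {c}) C →
    ∀ (a b s : ℕ) (u : Fin a → M) (v : Fin b → M) (t : Fin s → M),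
      FiniteDimensional (Kc C u) M → FiniteDimensional (Kc C v) M →
      ∃ (K E : Type) (_ : Field K) (_ : Field E) (_ : Algebra Ω K) (_ : Algebra K E)
        (_ : Algebra Ω E) (_ : IsScalarTower Ω K E) (ι : K →ₐ[Ω] C) (ε : E →ₐ[Ω] M) (c' : K)
        (u' : Fin a → E) (v' : Fin b → E) (t' : Fin s → E),
        IsFF Ω K ∧ ι c' = c ∧ (∀ z, ε (algebraMap K E z) = algebraMap C M (ι z)) ∧
        (∀ i, ε (u' i) = u i) ∧ (∀ i, ε (v' i) = v i) ∧ (∀ i, ε (t' i) = t i) ∧
        finrank (Kc K u') E = finrank (Kc C u) M ∧ finrank (Kc K v') E = finrank (Kc C v) M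

/-- job BASE: a cubic form with independent coefficients as a deformation of a given one -/
def S_BASE : Prop :=
  ∀ (r : ℕ) (F : MvPolynomial (Fin r) ℂ) (F0 : MvPolynomial (Fin r) ℚ), 0 < r →
    F.IsHomogeneous 3 → F0.IsHomogeneous 3 →
    AlgebraicIndependent ℚ (fun β : {β : Fin r →₀ ℕ // β.degree = 3} => coeff β.1 F) →
    ∃ (Ω : IntermediateField ℚ ℂ) (c : ℂ) (G : MvPolynomial (Fin r) Ω), IsAlgClosed Ω ∧
      Transcendental Ω c ∧ Algebra.IsAlgebraic (IntermediateField.adjoin Ω {c}) ℂ ∧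
      G.IsHomogeneous 3 ∧ F = map (algebraMap ℚ ℂ) F0 + C c * map (algebraMap Ω ℂ) G

end

end Pool.Agent.Helper93K9.PAR
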