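import Mathlib
import Pool.Agent.Helper93K9.PAR.Defs3
import Pool.Agent.Helper93K9.PAR.Basic

/-! # Generic points of cubics in affine coordinates -/

set_option autoImplicit false

namespace Pool.Agent.Helper93K9.PAR

open MvPolynomial Module

namespace Cu

variable {k : Type} [Field k] {n : ℕ}

/-- dehomogenisation with respect to the first variable -/
noncomputable def δ (k : Type) [Field k] (m : ℕ) :
    MvPolynomial (Fin (m + 1)) k →ₐ[k] MvPolynomial (Fin m) k :=
  aeval (Fin.cons 1 X : Fin (m + 1) → MvPolynomial (Fin m) k)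

/-- the last variable becomes the outer variable -/
noncomputable def η (k : Type) [Field k] (n : ℕ) :
    MvPolynomial (Fin (n + 1)) k ≃ₐ[k] Polynomial (MvPolynomial (Fin n) k) :=
  (renameEquiv k finSuccEquivLast).trans (optionEquivLeft k (Fin n))

theorem η_last : η k n (X (Fin.last n)) = Polynomial.X := by
  unfold η
  rw [AlgEquiv.trans_apply, renameEquiv_apply, rename_X, finSuccEquivLast_last,
    optionEquivLeft_X_none]

theorem η_castSucc (i : Fin n) : η k n (X i.castSucc) = Polynomial.C (X i) := by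
  unfold η
  rw [AlgEquiv.trans_apply, renameEquiv_apply, rename_X, finSuccEquivLast_castSucc,
    optionEquivLeft_X_some]

/-- affine coordinates -/
noncomputable def θ (k : Type) [Field k] (n : ℕ) :
    MvPolynomial (Fin (n + 2)) k →ₐ[k] Polynomial (MvPolynomial (Fin n) k) :=
  (η k n : MvPolynomial (Fin (n + 1)) k →ₐ[k] Polynomial (MvPolynomial (Fin n) k)).comp (δ k (n + 1))

theorem θ_zero : θ k n (X 0) = 1 := by
  unfold θ δ
  rw [AlgHom.comp_apply, aeval_X, Fin.cons_zero, map_one]

theorem θ_mid (i : Fin n) : θ k n (X i.castSucc.succ) = Polynomial.C (X i) := by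
  unfold θ δ
  rw [AlgHom.comp_apply, aeval_X, Fin.cons_succ]
  exact η_castSucc i

theorem θ_last : θ k n (X (Fin.last (n + 1))) = Polynomial.X := by
  unfold θ δ
  rw [AlgHom.comp_apply, aeval_X, ← Fin.succ_last, Fin.cons_succ]
  exact η_last

/-- homogenisation -/
theorem exists_hom (m : ℕ) (g : MvPolynomial (Fin m) k) :
    ∃ (D : ℕ) (H : MvPolynomial (Fin (m + 1)) k), H.IsHomogeneous D ∧ δ k m H = g := by
  classical
  refine ⟨g.totalDegree, ∑ e ∈ Finset.range (g.totalDegree + 1), X 0 ^ (g.totalDegree - e) *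
    rename Fin.succ (homogeneousComponent e g), ?_, ?_⟩
  · refine IsHomogeneous.sum _ _ _ fun e he => ?_
    rw [Finset.mem_range] at he
    have h1 : (X 0 ^ (g.totalDegree - e) : MvPolynomial (Fin (m + 1)) k).IsHomogeneous
        (g.totalDegree - e) := isHomogeneous_X_pow 0 _
    have h2 := h1.mul (IsHomogeneous.rename_isHomogeneous (f := Fin.succ)
      (homogeneousComponent_isHomogeneous e g))
    rwa [Nat.sub_add_cancel (by omega)] at h2
  · unfold δ
    rw [map_sum]
    conv_rhs => rw [← sum_homogeneousComponent g]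
    refine Finset.sum_congr rfl fun e _ => ?_
    rw [map_mul, map_pow, aeval_X, Fin.cons_zero, one_pow, one_mul, aeval_rename]
    exact aeval_X_left_apply _

/-- evaluation of homogeneous polynomials -/
theorem aeval_hom {m : ℕ} {R : Type} [CommRing R] [Algebra k R] {H : MvPolynomial (Fin (m + 1)) k}
    {e : ℕ} (hH : H.IsHomogeneous e) (x : Fin (m + 1) → R) (y : Fin m → R)
    (hxy : ∀ i, x (Fin.succ i) = x 0 * y i) :
    aeval x H = x 0 ^ e * aeval y (δ k m H) := by
  have h1 : x = fun i => x 0 * (Fin.cons 1 y : Fin (m + 1) → R) i := by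
    funext i
    refine Fin.cases ?_ (fun i => ?_) i
    · rw [Fin.cons_zero, mul_one]
    · rw [Fin.cons_succ, hxy]
  have h2 := aeval_smul_hom hH (x 0) (Fin.cons 1 y : Fin (m + 1) → R)
  rw [← h1] at h2
  rw [h2]
  congr 1
  unfold δ
  have h3 := comp_aeval_apply (R := k) (Fin.cons 1 X : Fin (m + 1) → MvPolynomial (Fin m) k)
    (aeval y) H
  rw [h3]
  congr 2
  funext i
  refine Fin.cases ?_ (fun i => ?_) i
  · rw [Fin.cons_zero, Fin.cons_zero, map_one]
  · rw [Fin.cons_succ, Fin.cons_succ, aeval_X]

/-- a homogeneous polynomial is determined by its affine form -/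
theorem δ_inj {m : ℕ} {H : MvPolynomial (Fin (m + 1)) k} {e : ℕ} (hH : H.IsHomogeneous e)
    (h : δ k m H = 0) : H = 0 := by
  let R := FractionRing (MvPolynomial (Fin (m + 1)) k)
  let x : Fin (m + 1) → R := fun i => algebraMap (MvPolynomial (Fin (m + 1)) k) R (X i)
  have hx0 : x 0 ≠ 0 := by
    intro h0
    rw [map_eq_zero_iff _ (IsFractionRing.injective (MvPolynomial (Fin (m + 1)) k) R)] at h0
    exact X_ne_zero 0 h0
  have h1 := aeval_hom hH x (fun i => x i.succ / x 0) (fun i => (mul_div_cancel₀ _ hx0).symm)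
  rw [h, map_zero, mul_zero] at h1
  have h2 : aeval x H = algebraMap (MvPolynomial (Fin (m + 1)) k) R H := by
    have := comp_aeval_apply (R := k) (X : Fin (m + 1) → MvPolynomial (Fin (m + 1)) k)
      (IsScalarTower.toAlgHom k (MvPolynomial (Fin (m + 1)) k) R) H
    rw [aeval_X_left_apply] at this
    exact this.symm
  rw [h2, map_eq_zero_iff _ (IsFractionRing.injective (MvPolynomial (Fin (m + 1)) k) R)] at h1
  exact h1

theorem exists_homθ (G : Polynomial (MvPolynomial (Fin n) k)) :
    ∃ (D : ℕ) (H : MvPolynomial (Fin (n + 2)) k), H.IsHomogeneous D ∧ θ k n H = G := by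
  obtain ⟨D, H, hH, h⟩ := exists_hom (n + 1) ((η k n).symm G)
  refine ⟨D, H, hH, ?_⟩
  unfold θ
  rw [AlgHom.comp_apply, h]
  exact (η k n).apply_symm_apply G

theorem θ_inj {H : MvPolynomial (Fin (n + 2)) k} {e : ℕ} (hH : H.IsHomogeneous e)
    (h : θ k n H = 0) : H = 0 := by
  unfold θ at h
  rw [AlgHom.comp_apply] at h
  exact δ_inj hH ((map_eq_zero_iff (η k n) (η k n).injective).1 h)

/-- two homogeneous polynomials with the same affine form -/
theorem θ_eq {H₁ H₂ : MvPolynomial (Fin (n + 2)) k} {a b : ℕ} (h₁ : H₁.IsHomogeneous a)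
    (h₂ : H₂.IsHomogeneous b) (h : θ k n H₁ = θ k n H₂) : X 0 ^ b * H₁ = X 0 ^ a * H₂ := by
  have hb : (X 0 ^ b * H₁).IsHomogeneous (a + b) := by
    have := (isHomogeneous_X_pow (R := k) (0 : Fin (n + 2)) b).mul h₁
    rwa [add_comm b a] at this
  have ha : (X 0 ^ a * H₂).IsHomogeneous (a + b) :=
    (isHomogeneous_X_pow (R := k) (0 : Fin (n + 2)) a).mul h₂
  have := θ_inj (hb.sub ha) (by
    rw [map_sub, map_mul, map_mul, map_pow, map_pow, θ_zero, one_pow, one_pow, one_mul, one_mul, h,
      sub_self])
  exact sub_eq_zero.1 this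

/-- the affine form of a cubic -/
theorem θ_cubic {F : MvPolynomial (Fin (n + 2)) k} (hF : F.IsHomogeneous 3) :
    (θ k n F).natDegree ≤ 3 ∧
      (θ k n F).coeff 3 = C (coeff (Finsupp.single (Fin.last (n + 1)) 3) F) := by
  classical
  have h1 : θ k n F = ∑ d ∈ F.support, Polynomial.C (C (coeff d F) * ∏ i : Fin n,
      X i ^ d i.castSucc.succ) * Polynomial.X ^ d (Fin.last (n + 1)) := by
    have h2 : θ k n F = aeval (fun i => θ k n (X i)) F := by
      have := comp_aeval_apply (R := k) (X : Fin (n + 2) → MvPolynomial (Fin (n + 2)) k)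
        (θ k n) F
      rwa [aeval_X_left_apply] at this
    rw [h2, aeval_def, eval₂_eq']
    refine Finset.sum_congr rfl fun d _ => ?_
    rw [Fin.prod_univ_succ, Fin.prod_univ_castSucc, Fin.succ_last, θ_zero, one_pow, one_mul, θ_last]
    simp only [θ_mid]
    rw [Polynomial.C_mul, map_prod, mul_assoc]
    simp only [map_pow]
    rfl
  have hdeg : ∀ d ∈ F.support, ∑ i, d i = 3 := by
    intro d hd
    have h0 : d.degree = 3 := by
      rw [Finsupp.degree_eq_weight_one]
      exact hF (mem_support_iff.1 hd)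
    rw [← h0, Finsupp.degree_eq_sum]
  constructor
  · rw [h1]
    refine Polynomial.natDegree_sum_le_of_forall_le _ _ fun d hd => ?_
    refine (Polynomial.natDegree_C_mul_X_pow_le _ _).trans ?_
    rw [← hdeg d hd]
    exact Finset.single_le_sum (fun _ _ => Nat.zero_le _) (Finset.mem_univ _)
  · rw [h1, Polynomial.finsetSum_coeff]
    simp only [Polynomial.coeff_C_mul_X_pow]
    rw [Finset.sum_eq_single (Finsupp.single (Fin.last (n + 1)) 3)]
    · rw [if_pos (by rw [Finsupp.single_eq_same]), Finset.prod_eq_one, mul_one]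
      intro i _
      rw [Finsupp.single_eq_of_ne, pow_zero]
      intro h
      have := congrArg Fin.val h
      simp at this
      omega
    · intro d hd hne
      rw [if_neg]
      intro h3
      apply hne
      have h4 := hdeg d hd
      rw [Fin.sum_univ_castSucc, ← h3] at h4
      have h5 : ∑ i : Fin (n + 1), d i.castSucc = 0 := by omega
      ext i
      refine Fin.lastCases ?_ (fun i => ?_) i
      · rw [Finsupp.single_eq_same, ← h3]
      · rw [Finset.sum_eq_zero_iff] at h5
        rw [h5 i (Finset.mem_univ _), Finsupp.single_eq_of_ne]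
        exact (Fin.castSucc_lt_last i).ne
    · intro h
      rw [MvPolynomial.notMem_support_iff] at h
      rw [h, C_0, zero_mul, ite_self]

theorem θ_natDegree {F : MvPolynomial (Fin (n + 2)) k} (hF : F.IsHomogeneous 3)
    (hc : coeff (Finsupp.single (Fin.last (n + 1)) 3) F ≠ 0) : (θ k n F).natDegree = 3 := by
  refine le_antisymm (θ_cubic hF).1 (Polynomial.le_natDegree_of_ne_zero ?_)
  rw [(θ_cubic hF).2]
  exact fun h => hc (C_eq_zero.1 h)

theorem dvd_of_θ {F : MvPolynomial (Fin (n + 2)) k} (hF : F.IsHomogeneous 3) (hp : Prime F)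
    (hc : coeff (Finsupp.single (Fin.last (n + 1)) 3) F ≠ 0) {H : MvPolynomial (Fin (n + 2)) k}
    {e : ℕ} (hH : H.IsHomogeneous e) (h : θ k n F ∣ θ k n H) : F ∣ H := by
  obtain ⟨q, hq⟩ := h
  obtain ⟨D, Q, hQ, hQq⟩ := exists_homθ q
  have h1 := θ_eq (hF.mul hQ) hH (by rw [map_mul, hQq, hq])
  have h2 : F ∣ X 0 ^ (3 + D) * H := ⟨X 0 ^ e * Q, by rw [← h1]; ring⟩
  rcases hp.dvd_or_dvd h2 with h3 | h3
  · exfalso
    have h4 : F ∣ X 0 := hp.dvd_of_dvd_pow h3
    obtain ⟨c, hc'⟩ := h4
    have h5 := congrArg (θ k n) hc'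
    rw [θ_zero, map_mul] at h5
    have h6 : IsUnit (θ k n F) := IsUnit.of_mul_eq_one _ h5.symm
    have h7 := Polynomial.natDegree_eq_zero_of_isUnit h6
    rw [θ_natDegree hF hc] at h7
    omega
  · exact h3

theorem θ_prime {F : MvPolynomial (Fin (n + 2)) k} (hF : F.IsHomogeneous 3) (hp : Prime F)
    (hc : coeff (Finsupp.single (Fin.last (n + 1)) 3) F ≠ 0) : Prime (θ k n F) := by
  refine ⟨?_, ?_, ?_⟩
  · intro h
    have := θ_natDegree hF hc
    rw [h] at this
    simp at this
  · intro h
    have h7 := Polynomial.natDegree_eq_zero_of_isUnit h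
    rw [θ_natDegree hF hc] at h7
    omega
  · intro a b hab
    obtain ⟨D, A, hA, hAa⟩ := exists_homθ a
    obtain ⟨E, B, hB, hBb⟩ := exists_homθ b
    have h1 : F ∣ A * B := dvd_of_θ hF hp hc (hA.mul hB) (by rwa [map_mul, hAa, hBb])
    rcases hp.dvd_or_dvd h1 with h | h
    · left; rw [← hAa]; exact map_dvd _ h
    · right; rw [← hBb]; exact map_dvd _ h

variable {M : Type} [Field M] [Algebra k M]

/-- evaluation at a point, through affine coordinates -/
theorem aeval_θ {H : MvPolynomial (Fin (n + 2)) k} {e : ℕ} (hH : H.IsHomogeneous e)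
    (x : Fin (n + 2) → M) (hx : x 0 ≠ 0) :
    aeval x H = x 0 ^ e * Polynomial.eval₂ (aeval (yx x) : MvPolynomial (Fin n) k →ₐ[k] M).toRingHom
      (x (Fin.last (n + 1)) / x 0) (θ k n H) := by
  rw [aeval_hom hH x (fun i => x i.succ / x 0) (fun i => (mul_div_cancel₀ _ hx).symm)]
  congr 1
  unfold θ
  rw [AlgHom.comp_apply]
  generalize δ k (n + 1) H = g
  let ev : Polynomial (MvPolynomial (Fin n) k) →+* M := Polynomial.eval₂RingHom
    (aeval (yx x) : MvPolynomial (Fin n) k →ₐ[k] M).toRingHom (x (Fin.last (n + 1)) / x 0)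
  change (aeval fun i => x i.succ / x 0 : MvPolynomial (Fin (n + 1)) k →ₐ[k] M) g = ev (η k n g)
  induction g using MvPolynomial.induction_on with
  | C c =>
    rw [aeval_C, show (C c : MvPolynomial (Fin (n + 1)) k) = algebraMap k _ c from rfl,
      AlgEquiv.commutes]
    change _ = Polynomial.eval₂ _ _ (Polynomial.C (C c))
    rw [Polynomial.eval₂_C]
    exact (aeval_C (yx x) c).symm
  | add p q hp hq => rw [map_add, map_add, map_add, hp, hq]
  | mul_X p i hp =>
    rw [map_mul, map_mul, map_mul, hp, aeval_X]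
    congr 1
    refine Fin.lastCases ?_ (fun i => ?_) i
    · rw [η_last, Fin.succ_last]
      change _ = Polynomial.eval₂ _ _ Polynomial.X
      rw [Polynomial.eval₂_X]
    · rw [η_castSucc]
      change _ = Polynomial.eval₂ _ _ (Polynomial.C (X i))
      rw [Polynomial.eval₂_C]
      exact (aeval_X (yx x) i).symm

end Cu

/-- job CUB -/
theorem cub : S_CUB := by
  classical
  intro k M _ _ _ n F hF hirr hc x
  have hp : Prime F := hirr.prime
  have hθp := Cu.θ_prime hF hp hc
  have hnd := Cu.θ_natDegree hF hc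
  -- the main part, for independent `y`
  have main : x 0 ≠ 0 → AlgebraicIndependent k (yx x) → aeval x F = 0 →
      (∀ (e : ℕ) (H : MvPolynomial (Fin (n + 2)) k), H.IsHomogeneous e → aeval x H = 0 → F ∣ H) ∧
      finrank (Kc k (yx x)) M = 3 * finrank (rf k x) M := by
    intro hx hy hFx
    let A := MvPolynomial (Fin n) k
    let t : M := x (Fin.last (n + 1)) / x 0
    let _ : Algebra A M := (aeval (yx x) : MvPolynomial (Fin n) k →ₐ[k] M).toRingHom.toAlgebra
    have hAM : ∀ a : A, algebraMap A M a = aeval (yx x) a := fun a => rfl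
    have hinj : Function.Injective (algebraMap A M) := hy
    have hmem : ∀ a : A, aeval (yx x) a ∈ Kc k (yx x) := fun a =>
      (IntermediateField.mem_adjoin_range_iff k (yx x) _).2 ⟨a, 1, by rw [map_one, div_one]⟩
    let α : A →+* Kc k (yx x) := (algebraMap A M).codRestrict (Kc k (yx x)).toSubring hmem
    let _ : Algebra A (Kc k (yx x)) := α.toAlgebra
    have hAK : ∀ a : A, (algebraMap A (Kc k (yx x)) a).1 = aeval (yx x) a := fun a => rfl
    have hst : IsScalarTower A (Kc k (yx x)) M := IsScalarTower.of_algebraMap_eq fun a => rfl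
    have hfK : FaithfulSMul A (Kc k (yx x)) := by
      rw [faithfulSMul_iff_algebraMap_injective]
      intro a b h
      exact hinj (congrArg Subtype.val h)
    have hfr : IsFractionRing A (Kc k (yx x)) := by
      refine IsFractionRing.of_field A _ fun z => ?_
      obtain ⟨u, v, huv⟩ := (IntermediateField.mem_adjoin_range_iff k (yx x) z.1).1 z.2
      exact ⟨u, v, Subtype.ext huv⟩
    have htf : Module.IsTorsionFree A M :=
      Module.isTorsionFree_iff_algebraMap_injective.2 hinj
    have hev : ∀ (e : ℕ) (H : MvPolynomial (Fin (n + 2)) k), H.IsHomogeneous e →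
        aeval x H = x 0 ^ e * Polynomial.aeval t (Cu.θ k n H) := fun e H hH =>
      Cu.aeval_θ hH x hx
    have hF0 : Polynomial.aeval t (Cu.θ k n F) = 0 := by
      have := hev 3 F hF
      rw [hFx, eq_comm, mul_eq_zero] at this
      exact this.resolve_left (pow_ne_zero _ hx)
    -- the monic equation
    set c := coeff (Finsupp.single (Fin.last (n + 1)) 3) F with hcdef
    let f : Polynomial A := Polynomial.C (C c⁻¹) * Cu.θ k n F
    have hu : IsUnit (Polynomial.C (C c⁻¹) : Polynomial A) :=
      ((Ne.isUnit (inv_ne_zero hc)).map C).map Polynomial.C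
    have hfF : Associated f (Cu.θ k n F) := by
      obtain ⟨u, hu'⟩ := hu
      refine (Associated.symm ⟨u, ?_⟩)
      rw [hu', mul_comm]
    have hfm : f.Monic := by
      have h1 : f.natDegree ≤ 3 := (Polynomial.natDegree_C_mul_le _ _).trans hnd.le
      have h2 : f.coeff 3 = 1 := by
        rw [Polynomial.coeff_C_mul, (Cu.θ_cubic hF).2, ← C_mul, inv_mul_cancel₀ hc, C_1]
      exact Polynomial.monic_of_natDegree_le_of_coeff_eq_one 3 h1 h2
    have hfirr : Irreducible f := hfF.irreducible_iff.2 hθp.irreducible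
    have hft : Polynomial.aeval t f = 0 := by
      rw [map_mul, hF0, mul_zero]
    have hint : IsIntegral A t := ⟨f, hfm, hft⟩
    have hmin : minpoly A t = f := by
      have h1 := minpoly.isIntegrallyClosed_dvd hint hft
      refine Polynomial.eq_of_monic_of_associated (minpoly.monic hint) hfm ?_
      rcases hfirr.isUnit_or_isUnit h1.choose_spec with h2 | h2
      · exact absurd h2 (minpoly.not_isUnit A t)
      · exact ⟨h2.unit, by rw [IsUnit.unit_spec]; exact h1.choose_spec.symm⟩
    refine ⟨?_, ?_⟩
    · intro e H hH h0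
      rw [hev e H hH, mul_eq_zero, or_iff_right (pow_ne_zero _ hx)] at h0
      have h1 := minpoly.isIntegrallyClosed_dvd hint h0
      rw [hmin] at h1
      exact Cu.dvd_of_θ hF hp hc hH (hfF.symm.dvd.trans h1)
    · have h1 := minpoly.isIntegrallyClosed_eq_field_fractions' (Kc k (yx x)) hint
      have hint' : IsIntegral (Kc k (yx x)) t := hint.tower_top
      have h2 := IntermediateField.adjoin.finrank hint'
      have hfn : f.natDegree = 3 := by
        have := Polynomial.natDegree_C_mul (p := Cu.θ k n F) (a := (C c⁻¹ : A))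
          (by rw [Ne, C_eq_zero]; exact inv_ne_zero hc)
        rw [hnd] at this
        exact this
      rw [h1, hmin, hfm.natDegree_map, hfn] at h2
      have h3 := Module.finrank_mul_finrank (Kc k (yx x))
        (IntermediateField.adjoin (Kc k (yx x)) {t}) M
      rw [h2] at h3
      rw [← h3]
      congr 1
      have h4 : (IntermediateField.adjoin (Kc k (yx x)) {t}).restrictScalars k = rf k x := by
        rw [IntermediateField.adjoin_adjoin_left]
        apply le_antisymm
        · rw [IntermediateField.adjoin_le_iff, Set.union_subset_iff]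
          constructor
          · rintro _ ⟨i, rfl⟩
            exact IntermediateField.subset_adjoin _ _ ⟨_, _, rfl⟩
          · rintro _ rfl
            exact IntermediateField.subset_adjoin _ _ ⟨_, _, rfl⟩
        · unfold rf
          rw [IntermediateField.adjoin_le_iff]
          have h5 : ∀ i, x i / x 0 ∈ IntermediateField.adjoin k (Set.range (yx x) ∪ {t}) := by
            intro i
            refine Fin.cases ?_ (fun i => ?_) i
            · rw [div_self hx]; exact one_mem _
            · refine Fin.lastCases ?_ (fun i => ?_) i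
              · rw [Fin.succ_last]
                exact IntermediateField.subset_adjoin _ _ (Or.inr rfl)
              · exact IntermediateField.subset_adjoin _ _ (Or.inl ⟨i, rfl⟩)
          rintro _ ⟨i, j, rfl⟩
          rw [← div_div_div_cancel_right₀ hx (x i) (x j)]
          exact div_mem (h5 i) (h5 j)
      rw [← h4]
      rfl
  constructor
  · intro hG
    have hx : x 0 ≠ 0 := gen_coord hF hG 0
    have hy : AlgebraicIndependent k (yx x) := by
      rw [algebraicIndependent_iff]
      intro P hP
      by_contra hP0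
      obtain ⟨D, H, hH, hHP⟩ := Cu.exists_homθ (k := k) (n := n) (Polynomial.C P)
      have h1 := Cu.aeval_θ hH x hx
      rw [hHP, Polynomial.eval₂_C] at h1
      change _ = x 0 ^ D * aeval (yx x) P at h1
      rw [hP, mul_zero] at h1
      have h2 := map_dvd (Cu.θ k n) (hG.2 D H hH h1)
      rw [hHP] at h2
      have h3 := Polynomial.natDegree_le_of_dvd h2 (by
        rw [Ne, Polynomial.C_eq_zero]; exact hP0)
      rw [hnd, Polynomial.natDegree_C] at h3
      omega
    exact ⟨hx, hy, (main hx hy hG.1).2⟩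
  · intro hFx hx hy
    exact ⟨hFx, (main hx hy hFx).1⟩

end Pool.Agent.Helper93K9.PAR
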