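import Pool.Agent.Helper93K9.PAR.Kill

/-! # Job DEP: depth -/

set_option autoImplicit false

namespace Pool.Agent.Helper93K9.PAR

open MvPolynomial Module

theorem dep_gen {R : Type} [CommRing R] [IsDomain R] (x0 x1 c : R) (h0 : Prime x0)
    (h01 : ¬ x0 ∣ x1)
    (hc : ∀ e, (∃ p q, c * e = x0 * p + x1 * q) → ∃ p q, e = x0 * p + x1 * q)
    (π s : R) (hπ : Prime π) (hs : ¬ π ∣ s) (f : R)
    (hf0 : f * x0 ∈ Ideal.span {π, s}) (hf1 : f * x1 ∈ Ideal.span {π, s})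
    (hfc : f * c ∈ Ideal.span {π, s}) : f ∈ Ideal.span {π, s} := by
  obtain ⟨a, b, hab⟩ := Ideal.mem_span_pair.1 hf0
  obtain ⟨a', b', hab'⟩ := Ideal.mem_span_pair.1 hf1
  obtain ⟨a'', b'', hab''⟩ := Ideal.mem_span_pair.1 hfc
  have cop : ∀ t u : R, t * π = u * s → ∃ e, t = s * e ∧ u = π * e := by
    intro t u h
    have h1 : π ∣ u * s := ⟨t, by rw [← h]; ring⟩
    rcases hπ.dvd_or_dvd h1 with h2 | h2
    · obtain ⟨e, he⟩ := h2
      refine ⟨e, ?_, he⟩
      apply mul_right_cancel₀ hπ.ne_zero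
      rw [h, he]
      ring
    · exact absurd h2 hs
  obtain ⟨e01, p1, p2⟩ := cop (x1 * a - x0 * a') (x0 * b' - x1 * b) (by
    linear_combination x1 * hab - x0 * hab')
  obtain ⟨e02, p3, p4⟩ := cop (c * a - x0 * a'') (x0 * b'' - c * b) (by
    linear_combination c * hab - x0 * hab'')
  obtain ⟨e12, p5, p6⟩ := cop (c * a' - x1 * a'') (x1 * b'' - c * b') (by
    linear_combination c * hab' - x1 * hab'')
  have rel : c * e01 = x0 * (-e12) + x1 * e02 := by
    apply mul_left_cancel₀ hπ.ne_zero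
    linear_combination c * (-1) * p2 + x1 * p4 - x0 * p6
  obtain ⟨p, q, hpq⟩ := hc e01 ⟨_, _, rel⟩
  have d1 : x0 ∣ x1 * (b + π * q) := ⟨b' - π * p, by
    linear_combination (-1) * p2 - π * hpq⟩
  obtain ⟨n, hn⟩ := (h0.dvd_or_dvd d1).resolve_left h01
  have d2 : x0 ∣ x1 * (a - s * q) := ⟨a' + s * p, by
    linear_combination p1 + s * hpq⟩
  obtain ⟨n', hn'⟩ := (h0.dvd_or_dvd d2).resolve_left h01
  rw [Ideal.mem_span_pair]
  refine ⟨n', n, ?_⟩
  apply mul_left_cancel₀ h0.ne_zero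
  linear_combination hab - π * hn' - s * hn

theorem dep : S_DEP := by
  intro m k _ _ π s hπ hs f hf0 hf1 hfc
  refine dep_gen (X 0) (X 1) (cc m k) X_prime (X_ndvd_X (f01 m)) ?_ π s hπ hs f hf0 hf1 hfc
  · rintro e ⟨p, q, h⟩
    have h2 : kill {0, 1} (cc m k) * kill {0, 1} e = 0 := by
      rw [← map_mul, h, map_add, map_mul, map_mul, kill_X_mem (by simp), kill_X_mem (by simp)]
      ring
    have h3 : (2 : Fin (m + 3)) ∉ ({0, 1} : Finset (Fin (m + 3))) := by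
      simp [f20 m, f21 m]
    have h4 := (mul_eq_zero.1 h2).resolve_left (kill_cc_ne_zero m _ h3)
    obtain ⟨p', q', h5⟩ := kill_pair (i := (0 : Fin (m + 3))) (j := 1) e
    rw [h4, sub_zero] at h5
    exact ⟨p', q', h5⟩

end Pool.Agent.Helper93K9.PAR
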