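import Pool.Agent.Helper93K9.PAR.Defs3

set_option autoImplicit false

namespace Pool.Agent.Helper93K9.PAR

open MvPolynomial Module FF

noncomputable section

section desc

variable {Ω C M : Type} [Field Ω] [Field C] [Field M] [Algebra Ω C] [Algebra C M] [Algebra Ω M]
  [IsScalarTower Ω C M]

theorem desc_mono {K K' : IntermediateField Ω C} (h : K ≤ K') (S : Set M) {z : M}
    (hz : z ∈ IntermediateField.adjoin K S) : z ∈ IntermediateField.adjoin K' S := by
  induction hz using IntermediateField.adjoin_induction with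
  | mem x hx => exact IntermediateField.subset_adjoin _ _ hx
  | algebraMap x =>
    exact (IntermediateField.adjoin K' S).algebraMap_mem ⟨x.1, h x.2⟩
  | add x y _ _ hx hy => exact add_mem hx hy
  | inv x _ hx => exact inv_mem hx
  | mul x y _ _ hx hy => exact mul_mem hx hy

theorem desc_adj_fin (S : Set M) {z : M} (hz : z ∈ IntermediateField.adjoin C S) :
    ∃ T : Finset C, z ∈ IntermediateField.adjoin (IntermediateField.adjoin Ω (T : Set C)) S := by
  classical
  have hm : ∀ (T T' : Finset C), T ⊆ T' →
      IntermediateField.adjoin Ω (T : Set C) ≤ IntermediateField.adjoin Ω (T' : Set C) :=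
    fun T T' h => IntermediateField.adjoin.mono _ _ _ (Finset.coe_subset.2 h)
  induction hz using IntermediateField.adjoin_induction with
  | mem x hx => exact ⟨∅, IntermediateField.subset_adjoin _ _ hx⟩
  | algebraMap x =>
    refine ⟨{x}, ?_⟩
    have hx : x ∈ IntermediateField.adjoin Ω (({x} : Finset C) : Set C) :=
      IntermediateField.subset_adjoin _ _ (by simp)
    exact (IntermediateField.adjoin (IntermediateField.adjoin Ω (({x} : Finset C) : Set C))
      S).algebraMap_mem ⟨x, hx⟩
  | add x y _ _ hx hy =>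
    obtain ⟨T, hT⟩ := hx
    obtain ⟨T', hT'⟩ := hy
    exact ⟨T ∪ T', add_mem (desc_mono (hm _ _ Finset.subset_union_left) S hT)
      (desc_mono (hm _ _ Finset.subset_union_right) S hT')⟩
  | inv x _ hx =>
    obtain ⟨T, hT⟩ := hx
    exact ⟨T, inv_mem hT⟩
  | mul x y _ _ hx hy =>
    obtain ⟨T, hT⟩ := hx
    obtain ⟨T', hT'⟩ := hy
    exact ⟨T ∪ T', mul_mem (desc_mono (hm _ _ Finset.subset_union_left) S hT)
      (desc_mono (hm _ _ Finset.subset_union_right) S hT')⟩

theorem desc_span_mono {K K' : IntermediateField Ω C} (h : K ≤ K') (S : Set M) {m : ℕ}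
    {b : Fin m → M} {z : M}
    (hz : z ∈ Submodule.span (IntermediateField.adjoin K S) (Set.range b)) :
    z ∈ Submodule.span (IntermediateField.adjoin K' S) (Set.range b) := by
  rw [Submodule.mem_span_range_iff_exists_fun] at hz ⊢
  obtain ⟨c, rfl⟩ := hz
  exact ⟨fun i => ⟨(c i).1, desc_mono h S (c i).2⟩, rfl⟩

theorem desc_span_fin (S : Set M) {m : ℕ} (b : Fin m → M)
    (hb : ∀ x : M, x ∈ Submodule.span (IntermediateField.adjoin C S) (Set.range b)) {ι : Type}
    [Finite ι] (x : ι → M) :
    ∃ T : Finset C, ∀ i, x i ∈ Submodule.span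
      (IntermediateField.adjoin (IntermediateField.adjoin Ω (T : Set C)) S) (Set.range b) := by
  classical
  cases nonempty_fintype ι
  have h1 : ∀ i, ∃ c : Fin m → IntermediateField.adjoin C S, ∑ j, c j • b j = x i := fun i =>
    (Submodule.mem_span_range_iff_exists_fun _).1 (hb (x i))
  choose c hc using h1
  choose T hT using fun (i : ι) (j : Fin m) => desc_adj_fin (Ω := Ω) S (c i j).2
  refine ⟨Finset.univ.biUnion fun i => Finset.univ.biUnion fun j => T i j, fun i => ?_⟩
  rw [Submodule.mem_span_range_iff_exists_fun]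
  refine ⟨fun j => ⟨(c i j).1, desc_mono (IntermediateField.adjoin.mono _ _ _ ?_) S (hT i j)⟩,
    hc i⟩
  rw [Finset.coe_subset]
  intro z hz
  exact Finset.mem_biUnion.2 ⟨i, Finset.mem_univ _, Finset.mem_biUnion.2 ⟨j, Finset.mem_univ _, hz⟩⟩

/-- the span of a family which contains `1` and the products of its members is closed under
multiplication -/
theorem desc_mul {N : Type} [Field N] [Algebra N M] {m : ℕ} {b : Fin m → M}
    (hmul : ∀ i j, b i * b j ∈ Submodule.span N (Set.range b)) {x y : M}
    (hx : x ∈ Submodule.span N (Set.range b)) (hy : y ∈ Submodule.span N (Set.range b)) :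
    x * y ∈ Submodule.span N (Set.range b) := by
  induction hx using Submodule.span_induction with
  | mem x hx =>
    obtain ⟨i, rfl⟩ := hx
    induction hy using Submodule.span_induction with
    | mem y hy =>
      obtain ⟨j, rfl⟩ := hy
      exact hmul i j
    | zero => rw [mul_zero]; exact zero_mem _
    | add y y' _ _ h1 h2 => rw [mul_add]; exact add_mem h1 h2
    | smul a y _ h1 => rw [mul_smul_comm]; exact Submodule.smul_mem _ _ h1
  | zero => rw [zero_mul]; exact zero_mem _
  | add x x' _ _ h1 h2 => rw [add_mul]; exact add_mem h1 h2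
  | smul a x _ h1 => rw [smul_mul_assoc]; exact Submodule.smul_mem _ _ h1

theorem desc_inv {N : Type} [Field N] [Algebra N M] {m : ℕ} {b : Fin m → M}
    (h1 : (1 : M) ∈ Submodule.span N (Set.range b))
    (hmul : ∀ i j, b i * b j ∈ Submodule.span N (Set.range b)) {x : M}
    (hx : x ∈ Submodule.span N (Set.range b)) : x⁻¹ ∈ Submodule.span N (Set.range b) := by
  let A : Subalgebra N M := (Submodule.span N (Set.range b)).toSubalgebra h1
    (fun x y hx hy => desc_mul hmul hx hy)
  have : FiniteDimensional N A := by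
    have h2 : FiniteDimensional N (Submodule.span N (Set.range b)) :=
      FiniteDimensional.span_of_finite N (Set.finite_range b)
    exact h2
  have h3 : IsAlgebraic N ((⟨x, hx⟩ : A) : M) :=
    (Algebra.IsAlgebraic.isAlgebraic (R := N) (⟨x, hx⟩ : A)).algebraMap
  exact A.inv_mem_of_algebraic h3

theorem desc_sub {K : IntermediateField Ω C} {a m : ℕ} (u : Fin a → M) (b : Fin m → M) (G : Set M)
    (h1 : (1 : M) ∈ Submodule.span (IntermediateField.adjoin K (Set.range u)) (Set.range b))
    (hmul : ∀ i j, b i * b j ∈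
      Submodule.span (IntermediateField.adjoin K (Set.range u)) (Set.range b))
    (hG : ∀ g ∈ G, g ∈ Submodule.span (IntermediateField.adjoin K (Set.range u)) (Set.range b))
    {z : M} (hz : z ∈ IntermediateField.adjoin K G) :
    z ∈ Submodule.span (IntermediateField.adjoin K (Set.range u)) (Set.range b) := by
  induction hz using IntermediateField.adjoin_induction with
  | mem x hx => exact hG x hx
  | algebraMap x =>
    have h2 := Submodule.smul_mem _ (⟨algebraMap K M x,
      (IntermediateField.adjoin K (Set.range u)).algebraMap_mem x⟩ :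
        IntermediateField.adjoin K (Set.range u)) h1
    have h3 : (⟨algebraMap K M x, (IntermediateField.adjoin K (Set.range u)).algebraMap_mem x⟩ :
        IntermediateField.adjoin K (Set.range u)) • (1 : M) = algebraMap K M x := by
      show algebraMap K M x * 1 = _
      rw [mul_one]
    rwa [h3] at h2
  | add x y _ _ hx hy => exact add_mem hx hy
  | inv x _ hx => exact desc_inv h1 hmul hx
  | mul x y _ _ hx hy => exact desc_mul hmul hx hy

theorem desc_rank {K : IntermediateField Ω C} (E : IntermediateField K M) {a m : ℕ} (u : Fin a → M)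
    (u' : Fin a → E) (hu : ∀ i, (u' i : M) = u i) (b : Fin m → M)
    (hb : LinearIndependent (Kc C u) b) (hbE : ∀ i, b i ∈ E)
    (hE : ∀ z ∈ E, z ∈ Submodule.span (IntermediateField.adjoin K (Set.range u)) (Set.range b)) :
    finrank (Kc K u') E = m := by
  have hmap : (Kc K u').map E.val = IntermediateField.adjoin K (Set.range u) := by
    rw [IntermediateField.adjoin_map, ← Set.range_comp]
    congr 2
    funext i
    exact hu i
  have hval : ∀ z : Kc K u', ((z : E) : M) ∈ IntermediateField.adjoin C (Set.range u) := by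
    intro z
    have h1 : ((z : E) : M) ∈ IntermediateField.adjoin K (Set.range u) := by
      rw [← hmap]
      exact ⟨z.1, z.2, rfl⟩
    generalize ((z : E) : M) = w at h1
    induction h1 using IntermediateField.adjoin_induction with
    | mem x hx => exact IntermediateField.subset_adjoin _ _ hx
    | algebraMap x => exact (IntermediateField.adjoin C (Set.range u)).algebraMap_mem x.1
    | add x y _ _ hx hy => exact add_mem hx hy
    | inv x _ hx => exact inv_mem hx
    | mul x y _ _ hx hy => exact mul_mem hx hy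
  let b' : Fin m → E := fun i => ⟨b i, hbE i⟩
  have hli : LinearIndependent (Kc K u') b' := by
    rw [Fintype.linearIndependent_iff]
    intro g hg i
    have h1 := Fintype.linearIndependent_iff.1 hb (fun i => ⟨((g i : E) : M), hval (g i)⟩) (by
      have h2 := congrArg E.val hg
      rw [map_sum, map_zero] at h2
      exact h2) i
    have h3 := congrArg Subtype.val h1
    exact Subtype.ext (Subtype.ext h3)
  have hspan : ⊤ ≤ Submodule.span (Kc K u') (Set.range b') := by
    intro z _
    have h1 := hE z.1 z.2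
    rw [Submodule.mem_span_range_iff_exists_fun] at h1 ⊢
    obtain ⟨c, hc⟩ := h1
    have h2 : ∀ i, ∃ d : Kc K u', ((d : E) : M) = (c i : M) := by
      intro i
      have h3 : (c i : M) ∈ (Kc K u').map E.val := by
        rw [hmap]
        exact (c i).2
      obtain ⟨d, hd, hd'⟩ := h3
      exact ⟨⟨d, hd⟩, hd'⟩
    choose d hd using h2
    refine ⟨d, ?_⟩
    apply Subtype.ext
    rw [← hc, ← IntermediateField.coe_val, map_sum]
    refine Finset.sum_congr rfl fun i _ => ?_
    show ((d i : E) : M) * b i = (c i : M) * b i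
    rw [hd]
  have := Module.finrank_eq_card_basis (Basis.mk hli hspan)
  simpa using this

end desc

open scoped IntermediateField.algebraAdjoinAdjoin in
theorem desc : S_DESC := by
  classical
  intro Ω C M _ _ _ _ _ _ _ _ _ c hc halg a b s u v t hfu hfv
  obtain ⟨B, hB⟩ : ∃ B : Basis (Fin (finrank (Kc C u) M)) (Kc C u) M, B = Module.finBasis _ _ :=
    ⟨_, rfl⟩
  obtain ⟨B', hB'⟩ : ∃ B : Basis (Fin (finrank (Kc C v) M)) (Kc C v) M, B = Module.finBasis _ _ :=
    ⟨_, rfl⟩
  clear hB hB'
  obtain ⟨T, hT⟩ := desc_span_fin (Ω := Ω) (C := C) (Set.range u) B (fun x => B.mem_span x)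
    (ι := (Fin (finrank (Kc C u) M) × Fin (finrank (Kc C u) M)) ⊕
      (Unit ⊕ (Fin s ⊕ (Fin b ⊕ Fin (finrank (Kc C v) M)))))
    (Sum.elim (fun p => B p.1 * B p.2) (Sum.elim (fun _ => 1) (Sum.elim t (Sum.elim v B'))))
  obtain ⟨T', hT'⟩ := desc_span_fin (Ω := Ω) (C := C) (Set.range v) B' (fun x => B'.mem_span x)
    (ι := (Fin (finrank (Kc C v) M) × Fin (finrank (Kc C v) M)) ⊕
      (Unit ⊕ (Fin s ⊕ (Fin a ⊕ Fin (finrank (Kc C u) M)))))
    (Sum.elim (fun p => B' p.1 * B' p.2) (Sum.elim (fun _ => 1) (Sum.elim t (Sum.elim u B))))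
  obtain ⟨K, hK⟩ : ∃ K : IntermediateField Ω C,
      K = IntermediateField.adjoin Ω ((insert c (T ∪ T') : Finset C) : Set C) := ⟨_, rfl⟩
  have hTK : IntermediateField.adjoin Ω (T : Set C) ≤ K := by
    rw [hK]
    refine IntermediateField.adjoin.mono _ _ _ (Finset.coe_subset.2 ?_)
    intro z hz
    simp [hz]
  have hTK' : IntermediateField.adjoin Ω (T' : Set C) ≤ K := by
    rw [hK]
    refine IntermediateField.adjoin.mono _ _ _ (Finset.coe_subset.2 ?_)
    intro z hz
    simp [hz]
  have hcK : c ∈ K := by
    rw [hK]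
    exact IntermediateField.subset_adjoin _ _ (by simp)
  have hFF : IsFF Ω K := by
    have hcK' : Transcendental Ω (⟨c, hcK⟩ : K) := by
      intro h
      exact hc h.algebraMap
    have h1 : AlgebraicIndependent Ω (fun _ : Unit => c) := by
      rw [algebraicIndependent_unique_type_iff]
      exact hc
    have h2 : IsTranscendenceBasis Ω (fun _ : Unit => c) := by
      rw [isTranscendenceBasis_iff_algebraicIndependent_isAlgebraic]
      refine ⟨h1, ?_⟩
      have h3 : Set.range (fun _ : Unit => c) = {c} := by simp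
      rw [h3]
      exact Algebra.IsAlgebraic.trans (Algebra.adjoin Ω {c}) (IntermediateField.adjoin Ω {c}) C
    have h3 : Algebra.trdeg Ω C = 1 := by
      have := h2.lift_cardinalMk_eq_trdeg
      simpa using this.symm
    constructor
    · refine IntermediateField.essFiniteType_iff.2 ⟨insert c (T ∪ T'), hK.symm⟩
    · refine le_antisymm ?_ ?_
      · rw [← h3]
        exact _root_.trdeg_le_of_injective K.val K.val.injective
      · have h4 : AlgebraicIndependent Ω (fun _ : Unit => (⟨c, hcK⟩ : K)) := by
          rw [algebraicIndependent_unique_type_iff]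
          exact hcK'
        have := h4.lift_cardinalMk_le_trdeg
        simpa using this
  have hS : ∀ i, Sum.elim (fun p : Fin (finrank (Kc C u) M) × Fin (finrank (Kc C u) M) =>
      B p.1 * B p.2) (Sum.elim (fun _ : Unit => 1) (Sum.elim t (Sum.elim v B'))) i ∈
      Submodule.span (IntermediateField.adjoin K (Set.range u)) (Set.range B) :=
    fun i => desc_span_mono hTK _ (hT i)
  have hS' : ∀ i, Sum.elim (fun p : Fin (finrank (Kc C v) M) × Fin (finrank (Kc C v) M) =>
      B' p.1 * B' p.2) (Sum.elim (fun _ : Unit => 1) (Sum.elim t (Sum.elim u B))) i ∈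
      Submodule.span (IntermediateField.adjoin K (Set.range v)) (Set.range B') :=
    fun i => desc_span_mono hTK' _ (hT' i)
  obtain ⟨G, hG⟩ : ∃ G : Set M, G = Set.range u ∪ Set.range v ∪ Set.range t ∪ Set.range B ∪
      Set.range B' := ⟨_, rfl⟩
  have gu : ∀ i, u i ∈ G := fun i => by rw [hG]; simp
  have gv : ∀ i, v i ∈ G := fun i => by rw [hG]; simp
  have gt : ∀ i, t i ∈ G := fun i => by rw [hG]; simp
  have gB : ∀ i, B i ∈ G := fun i => by rw [hG]; simp
  have gB' : ∀ i, B' i ∈ G := fun i => by rw [hG]; simp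
  have sG : ∀ g ∈ G, g ∈ Submodule.span (IntermediateField.adjoin K (Set.range u))
      (Set.range B) := by
    intro g hg
    rw [hG] at hg
    rcases hg with (((⟨i, rfl⟩ | ⟨i, rfl⟩) | ⟨i, rfl⟩) | ⟨i, rfl⟩) | ⟨i, rfl⟩
    · have h1 := Submodule.smul_mem _ (⟨u i, IntermediateField.subset_adjoin _ _ ⟨i, rfl⟩⟩ :
        IntermediateField.adjoin K (Set.range u)) (hS (Sum.inr (Sum.inl ())))
      have h2 : (⟨u i, IntermediateField.subset_adjoin _ _ ⟨i, rfl⟩⟩ :
        IntermediateField.adjoin K (Set.range u)) • (1 : M) = u i := mul_one _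
      rw [← h2]
      exact h1
    · exact hS (Sum.inr (Sum.inr (Sum.inr (Sum.inl i))))
    · exact hS (Sum.inr (Sum.inr (Sum.inl i)))
    · exact Submodule.subset_span ⟨i, rfl⟩
    · exact hS (Sum.inr (Sum.inr (Sum.inr (Sum.inr i))))
  have sG' : ∀ g ∈ G, g ∈ Submodule.span (IntermediateField.adjoin K (Set.range v))
      (Set.range B') := by
    intro g hg
    rw [hG] at hg
    rcases hg with (((⟨i, rfl⟩ | ⟨i, rfl⟩) | ⟨i, rfl⟩) | ⟨i, rfl⟩) | ⟨i, rfl⟩
    · exact hS' (Sum.inr (Sum.inr (Sum.inr (Sum.inl i))))
    · have h1 := Submodule.smul_mem _ (⟨v i, IntermediateField.subset_adjoin _ _ ⟨i, rfl⟩⟩ :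
        IntermediateField.adjoin K (Set.range v)) (hS' (Sum.inr (Sum.inl ())))
      have h2 : (⟨v i, IntermediateField.subset_adjoin _ _ ⟨i, rfl⟩⟩ :
        IntermediateField.adjoin K (Set.range v)) • (1 : M) = v i := mul_one _
      rw [← h2]
      exact h1
    · exact hS' (Sum.inr (Sum.inr (Sum.inl i)))
    · exact hS' (Sum.inr (Sum.inr (Sum.inr (Sum.inr i))))
    · exact Submodule.subset_span ⟨i, rfl⟩
  have mE : ∀ g ∈ G, g ∈ IntermediateField.adjoin K G := fun g hg =>
    IntermediateField.subset_adjoin _ _ hg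
  refine ⟨K, IntermediateField.adjoin K G, inferInstance, inferInstance, inferInstance,
    inferInstance, inferInstance, inferInstance, K.val,
    (IntermediateField.adjoin K G).val.restrictScalars Ω, ⟨c, hcK⟩, fun i => ⟨u i, mE _ (gu i)⟩,
    fun i => ⟨v i, mE _ (gv i)⟩, fun i => ⟨t i, mE _ (gt i)⟩, hFF, rfl, fun z => rfl,
    fun i => rfl, fun i => rfl, fun i => rfl, ?_, ?_⟩
  · refine desc_rank (IntermediateField.adjoin K G) u _ (fun i => rfl) B B.linearIndependent
      (fun i => mE _ (gB i)) (fun z hz => ?_)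
    exact desc_sub u B G (hS (Sum.inr (Sum.inl ()))) (fun i j => hS (Sum.inl (i, j))) sG hz
  · refine desc_rank (IntermediateField.adjoin K G) v _ (fun i => rfl) B' B'.linearIndependent
      (fun i => mE _ (gB' i)) (fun z hz => ?_)
    exact desc_sub v B' G (hS' (Sum.inr (Sum.inl ()))) (fun i j => hS' (Sum.inl (i, j))) sG' hz

end

end Pool.Agent.Helper93K9.PAR
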