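import Pool.Agent.Helper93K9.PAR.Cst

/-! # Properties of the height -/

set_option autoImplicit false
set_option linter.unusedSectionVars false

namespace Pool.Agent.Helper93K9.PAR

open MvPolynomial Module FF

noncomputable section

namespace DltL

variable {Ω κ KK : Type} [Field Ω] [Field κ] [Field KK] [Algebra Ω κ] [Algebra κ KK]
  [Algebra Ω KK] [IsScalarTower Ω κ KK] {r : ℕ} {F : MvPolynomial (Fin r) Ω} {X : Fin r → KK}

instance charZero_Kc [CharZero Ω] : CharZero (Kc Ω X) :=
  charZero_of_injective_algebraMap (algebraMap Ω (Kc Ω X)).injective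

lemma fin_supp [CharZero Ω] [IsFF (Kc Ω X) KK] (f : KK) : (Function.support
    fun w : {w : Place (Kc Ω X) KK // Cst κ w} => w.1.ord f).Finite :=
  Set.Finite.preimage (Subtype.val_injective.injOn) (finite_support (k := Kc Ω X) f)

lemma dl_mul [CharZero Ω] [IsFF (Kc Ω X) KK] {f g : KK} (hf : f ≠ 0) (hg : g ≠ 0) :
    dl (Ω := Ω) κ X (f * g) = dl (Ω := Ω) κ X f + dl (Ω := Ω) κ X g := by
  unfold dl
  have h1 : (fun w : {w : Place (Kc Ω X) KK // Cst κ w} => w.1.ord (f * g)) =
      fun w : {w : Place (Kc Ω X) KK // Cst κ w} => w.1.ord f + w.1.ord g := by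
    funext w
    exact w.1.ord_mul hf hg
  rw [h1, finsum_add_distrib (fin_supp f) (fin_supp g), neg_add]

lemma dl_const [CharZero Ω] [IsFF (Kc Ω X) KK]
    (hdeg : ∀ w : Place (Kc Ω X) KK, Cst κ w → w.deg = 1) (c : κ) :
    dl (Ω := Ω) κ X (algebraMap κ KK c) = 0 := by
  classical
  unfold dl
  rw [neg_eq_zero]
  have h1 := ddeg_divisor (k := Kc Ω X) (algebraMap κ KK c)
  unfold ddeg Finsupp.sum at h1
  rw [finsum_eq_sum_of_support_subset (s := (divisor (Kc Ω X) (algebraMap κ KK c)).support.subtype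
    (Cst κ))]
  · rw [Finset.sum_subtype_eq_sum_filter (f := fun w : Place (Kc Ω X) KK =>
      w.ord (algebraMap κ KK c)), Finset.filter_true_of_mem, ← h1]
    · refine Finset.sum_congr rfl fun w hw => ?_
      rw [Finsupp.mem_support_iff, divisor_apply] at hw
      rw [divisor_apply]
      change _ = _ * ((w.deg : ℕ) : ℤ)
      rw [hdeg w ⟨c, hw⟩]
      simp
    · intro w hw
      rw [Finsupp.mem_support_iff, divisor_apply] at hw
      exact ⟨c, hw⟩
  · intro w hw
    rw [Function.mem_support] at hw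
    rw [Finset.mem_coe, Finset.mem_subtype, Finsupp.mem_support_iff, divisor_apply]
    exact hw

end DltL

theorem dlt : S_FFK → S_CST → S_DLT := by
  intro hffk hcst Ω κ KK _ _ _ _ _ _ _ _ _ _ r F X hX
  have hff : IsFF (Kc Ω X) KK := hffk Ω κ KK r F X hX
  have hc := hcst Ω κ KK r F X hX
  have hdeg : ∀ w : Place (Kc Ω X) KK, Cst κ w → w.deg = 1 := fun w hw => (hc w hw).1
  have h3 : ∀ c : κ, dl (Ω := Ω) κ X (algebraMap κ KK c) = 0 := DltL.dl_const hdeg
  refine ⟨fun f _ => DltL.fin_supp f, fun f g hf hg => DltL.dl_mul hf hg, h3, ?_, ?_⟩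
  · intro H
    have h4 : aeval X H ∈ Kc Ω X := by
      have h5 : aeval X H ∈ (Kc Ω X).toSubalgebra := by
        rw [aeval_def, eval₂_eq']
        refine sum_mem fun m _ => mul_mem ((Kc Ω X).algebraMap_mem _) ?_
        exact prod_mem fun i _ => pow_mem
          (IntermediateField.subset_adjoin Ω (Set.range X) (Set.mem_range_self i)) _
      exact h5
    unfold dl
    have h6 : (fun w : {w : Place (Kc Ω X) KK // Cst κ w} => w.1.ord (aeval X H)) =
        fun _ => 0 := by
      funext w
      exact CstL.ord_mem w.1 h4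
    rw [h6, finsum_zero, neg_zero]
  · intro g
    obtain ⟨n, c, b, hb, hli, h⟩ := CstL.decomp (X := X) (Ω := Ω) g
    by_cases hc0 : c = 0
    · have h4 : aeval X g = algebraMap κ KK 0 := by
        rw [h, hc0]
        simp
      rw [h4, h3]
    · obtain ⟨i0, hi0⟩ := Function.ne_iff.1 hc0
      have h5 : dl (Ω := Ω) κ X (algebraMap κ KK (c i0)) ≤ dl (Ω := Ω) κ X (aeval X g) := by
        unfold dl
        rw [neg_le_neg_iff]
        refine finsum_le_finsum' (DltL.fin_supp _) (DltL.fin_supp _) fun w => ?_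
        obtain ⟨-, -, h6⟩ := hc w.1 w.2
        obtain ⟨j0, -, h7, h8⟩ := h6 n c b hb hli hc0
        change w.1.ord (aeval X g) ≤ w.1.ord (algebraMap κ KK (c i0))
        rw [h, h8]
        exact h7 i0 hi0
      rw [h3] at h5
      exact h5

end

end Pool.Agent.Helper93K9.PAR
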