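import Pool.Agent.Helper93K9.PAR.Ld

/-! # `KK` is a function field of one variable over `Ω(X)` -/

set_option autoImplicit false
set_option linter.unusedSectionVars false

namespace Pool.Agent.Helper93K9.PAR

open MvPolynomial Module FF

noncomputable section

namespace FfkL

variable {Ω κ KK : Type} [Field Ω] [Field κ] [Field KK] [Algebra Ω κ] [Algebra κ KK]
  [Algebra Ω KK] [IsScalarTower Ω κ KK] {r : ℕ} {F : MvPolynomial (Fin r) Ω} {X : Fin r → KK}

/-- an intermediate field containing the image of `τ` contains the image of `Ω(τ)` -/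
lemma mem_of_adjoin {τ : κ} (E : Subfield KK) (hE : ∀ a : Ω, algebraMap Ω KK a ∈ E)
    (hτ : algebraMap κ KK τ ∈ E) (a : κ) (ha : a ∈ IntermediateField.adjoin Ω {τ}) :
    algebraMap κ KK a ∈ E := by
  induction ha using IntermediateField.adjoin_induction with
  | mem x hx =>
    rw [Set.mem_singleton_iff] at hx
    rw [hx]; exact hτ
  | algebraMap x =>
    rw [← IsScalarTower.algebraMap_apply]
    exact hE x
  | add x y _ _ hx hy => rw [map_add]; exact add_mem hx hy
  | inv x _ hx => rw [map_inv₀]; exact inv_mem hx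
  | mul x y _ _ hx hy => rw [map_mul]; exact mul_mem hx hy

lemma alg_of_mem [IsFF Ω κ] {τ : κ} (hτ : Transcendental Ω τ) (E : IntermediateField (Kc Ω X) KK)
    (hE : algebraMap κ KK τ ∈ E) (z : κ) : IsAlgebraic E (algebraMap κ KK z) := by
  have h1 : Algebra.IsAlgebraic (IntermediateField.adjoin Ω {τ}) κ := IsFF.isAlgebraic hτ
  have h0 : ∀ a : Ω, algebraMap Ω KK a ∈ E.toSubfield := fun a => by
    have h2 : algebraMap Ω KK a = algebraMap (Kc Ω X) KK (algebraMap Ω (Kc Ω X) a) := rfl
    rw [h2]
    exact E.algebraMap_mem _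
  let f : IntermediateField.adjoin Ω {τ} →+* E :=
    ((algebraMap κ KK).comp (algebraMap (IntermediateField.adjoin Ω {τ}) κ)).codRestrict E
      fun a => mem_of_adjoin E.toSubfield h0 hE a.1 a.2
  exact (h1.isAlgebraic z).ringHom_of_comp_eq f (algebraMap κ KK) f.injective rfl

lemma alg_all (hX : IntermediateField.adjoin κ (Set.range X) = ⊤)
    (E : IntermediateField (Kc Ω X) KK)
    (h : ∀ z : κ, IsAlgebraic E (algebraMap κ KK z)) : Algebra.IsAlgebraic E KK := by
  refine ⟨fun x => ?_⟩
  have hx : x ∈ IntermediateField.adjoin κ (Set.range X) := by rw [hX]; trivial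
  induction hx using IntermediateField.adjoin_induction with
  | mem x hx =>
    have h1 : x ∈ Kc Ω X := IntermediateField.subset_adjoin Ω _ hx
    have h2 : x = algebraMap E KK (algebraMap (Kc Ω X) E ⟨x, h1⟩) := rfl
    rw [h2]
    exact isAlgebraic_algebraMap _
  | algebraMap x => exact h x
  | add x y _ _ hx hy => exact hx.add hy
  | inv x _ hx => exact hx.inv
  | mul x y _ _ hx hy => exact hx.mul hy

lemma ess [IsFF Ω κ] (hX : IntermediateField.adjoin κ (Set.range X) = ⊤) :
    Algebra.EssFiniteType Ω KK := by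
  classical
  have h1 : Algebra.EssFiniteType Ω κ := IsFF.ess
  have h2 : Algebra.EssFiniteType κ KK := by
    rw [← IntermediateField.fg_top_iff]
    refine ⟨Finset.univ.image X, ?_⟩
    rw [Finset.coe_image, Finset.coe_univ, Set.image_univ]
    exact hX
  exact Algebra.EssFiniteType.comp Ω κ KK

end FfkL

open FfkL in
theorem ffk : S_FFK := by
  intro Ω κ KK _ _ _ _ _ _ _ _ _ _ r F X hX
  obtain ⟨τ, hτ⟩ := IsFF.exists_transcendental (k := Ω) (K := κ)
  have h1 := Ld.trans hX hτ
  refine IsFF.of_finite h1 ?_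
  have h2 : Algebra.IsAlgebraic (IntermediateField.adjoin (Kc Ω X) {algebraMap κ KK τ}) KK :=
    alg_all hX.2 _ (alg_of_mem hτ _ (IntermediateField.mem_adjoin_simple_self _ _))
  have h3 : Algebra.EssFiniteType Ω KK := ess hX.2
  have h6 : IsScalarTower Ω (IntermediateField.adjoin (Kc Ω X) {algebraMap κ KK τ}) KK :=
    IsScalarTower.of_algebraMap_eq fun a => rfl
  have h4 : Algebra.EssFiniteType (IntermediateField.adjoin (Kc Ω X) {algebraMap κ KK τ}) KK :=
    Algebra.EssFiniteType.of_comp Ω _ KK
  obtain ⟨s, hs⟩ := IntermediateField.fg_top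
    (IntermediateField.adjoin (Kc Ω X) {algebraMap κ KK τ}) KK
  have h5 : FiniteDimensional (IntermediateField.adjoin (Kc Ω X) {algebraMap κ KK τ})
      (IntermediateField.adjoin (IntermediateField.adjoin (Kc Ω X) {algebraMap κ KK τ})
        (s : Set KK)) :=
    IntermediateField.finiteDimensional_adjoin (fun x _ => (h2.isAlgebraic x).isIntegral)
  rw [hs] at h5
  exact IntermediateField.topEquiv.toLinearEquiv.finiteDimensional

end

end Pool.Agent.Helper93K9.PAR
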