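import Pool.Agent.Helper93K9.PAR.Defs2

/-! # Homogeneous elements of a factorial cone -/

set_option autoImplicit false

namespace Pool.Agent.Helper93K9.PAR

open MvPolynomial Module

noncomputable section

namespace GrdL

/-- Factors of monomials. -/
theorem mono {B : Type*} [CommRing B] [IsDomain B] {p q : Polynomial B} {e : ℕ} {c : B}
    (hc : c ≠ 0) (h : p * q = Polynomial.monomial e c) :
    ∃ i j, i + j = e ∧ (∀ n, n ≠ i → p.coeff n = 0) ∧ (∀ n, n ≠ j → q.coeff n = 0) := by
  have hpq : p * q ≠ 0 := by
    rw [h]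
    simpa using hc
  have hp : p ≠ 0 := left_ne_zero_of_mul hpq
  have hq : q ≠ 0 := right_ne_zero_of_mul hpq
  have h1 := Polynomial.natDegree_mul hp hq
  have h2 := Polynomial.natTrailingDegree_mul hp hq
  rw [h, Polynomial.natDegree_monomial_eq _ hc] at h1
  rw [h, Polynomial.natTrailingDegree_monomial hc] at h2
  have h3 := Polynomial.natTrailingDegree_le_natDegree p
  have h4 := Polynomial.natTrailingDegree_le_natDegree q
  refine ⟨p.natDegree, q.natDegree, h1.symm, ?_, ?_⟩
  · intro n hn
    rcases Nat.lt_or_ge p.natDegree n with h5 | h5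
    · exact Polynomial.coeff_eq_zero_of_natDegree_lt h5
    · exact Polynomial.coeff_eq_zero_of_lt_natTrailingDegree (by omega)
  · intro n hn
    rcases Nat.lt_or_ge q.natDegree n with h5 | h5
    · exact Polynomial.coeff_eq_zero_of_natDegree_lt h5
    · exact Polynomial.coeff_eq_zero_of_lt_natTrailingDegree (by omega)

/-- The evaluation at `s x` of a homogeneous polynomial. -/
theorem eval_hom {κ B : Type*} [CommRing κ] [CommRing B] {r : ℕ} (f : κ →+* B)
    (x : Fin r → B) {e : ℕ} {g : MvPolynomial (Fin r) κ} (hg : g.IsHomogeneous e) :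
    eval₂ (Polynomial.C.comp f) (fun i => Polynomial.C (x i) * Polynomial.X) g =
      Polynomial.monomial e (eval₂ f x g) := by
  rw [eval₂_eq', eval₂_eq', map_sum]
  apply Finset.sum_congr rfl
  intro m hm
  have h1 : ∑ i, m i = e := by
    have := hg (mem_support_iff.1 hm)
    rw [← this, Finsupp.weight_apply, Finsupp.sum_fintype]
    · simp
    · simp
  rw [← Polynomial.C_mul_X_pow_eq_monomial]
  simp only [mul_pow]
  rw [Finset.prod_mul_distrib, Finset.prod_pow_eq_pow_sum, h1]
  simp only [RingHom.comp_apply, map_mul, map_prod, map_pow]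
  ring

section

variable {Ω κ : Type} [Field Ω] [Field κ] [Algebra Ω κ] {r d : ℕ} {F : MvPolynomial (Fin r) Ω}
  (hF : F.IsHomogeneous d)

theorem mk_eq (g : MvPolynomial (Fin r) κ) :
    mk κ F g = eval₂ ((mk κ F).comp C) (fun i => mk κ F (X i)) g := by
  have : (mk κ F) = eval₂Hom ((mk κ F).comp C) (fun i => mk κ F (X i)) := by
    apply MvPolynomial.ringHom_ext
    · intro a
      simp
    · intro i
      simp
  rw [this]
  simp

/-- The map `X_i ↦ s X_i`. -/
def sig (hF : F.IsHomogeneous d) : BB κ F →+* Polynomial (BB κ F) :=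
  Ideal.Quotient.lift _
    (eval₂Hom (Polynomial.C.comp ((mk κ F).comp C))
      (fun i => Polynomial.C (mk κ F (X i)) * Polynomial.X))
    (by
      intro a ha
      obtain ⟨b, rfl⟩ := Ideal.mem_span_singleton'.1 ha
      have h1 : (MvPolynomial.map (algebraMap Ω κ) F).IsHomogeneous d := hF.map _
      rw [map_mul, coe_eval₂Hom, eval_hom _ _ h1, ← mk_eq]
      have h2 : mk κ F (MvPolynomial.map (algebraMap Ω κ) F) = 0 :=
        Ideal.Quotient.eq_zero_iff_mem.2 (Ideal.subset_span rfl)
      rw [h2, map_zero, mul_zero])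

theorem sig_hom {e : ℕ} {g : MvPolynomial (Fin r) κ} (hg : g.IsHomogeneous e) :
    sig hF (mk κ F g) = Polynomial.monomial e (mk κ F g) := by
  rw [sig, Ideal.Quotient.lift_mk, coe_eval₂Hom, eval_hom _ _ hg, ← mk_eq]

theorem sig_coeff (g : MvPolynomial (Fin r) κ) (e : ℕ) :
    (sig hF (mk κ F g)).coeff e = mk κ F (homogeneousComponent e g) := by
  conv_lhs => rw [← sum_homogeneousComponent g]
  rw [map_sum, map_sum, Polynomial.finsetSum_coeff]
  have h1 : ∀ i ∈ Finset.range (g.totalDegree + 1),
      (sig hF (mk κ F (homogeneousComponent i g))).coeff e =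
        if i = e then mk κ F (homogeneousComponent e g) else 0 := by
    intro i _
    rw [sig_hom hF (homogeneousComponent_isHomogeneous i g), Polynomial.coeff_monomial]
    split_ifs with h
    · rw [h]
    · rfl
  rw [Finset.sum_congr rfl h1, Finset.sum_ite_eq']
  split_ifs with h
  · rfl
  · rw [homogeneousComponent_eq_zero, map_zero]
    rw [Finset.mem_range] at h
    omega

theorem of_coeff {g : MvPolynomial (Fin r) κ} {i : ℕ}
    (h : ∀ n, n ≠ i → (sig hF (mk κ F g)).coeff n = 0) :
    mk κ F g = mk κ F (homogeneousComponent i g) := by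
  conv_lhs => rw [← sum_homogeneousComponent g]
  rw [map_sum]
  by_cases hi : i ∈ Finset.range (g.totalDegree + 1)
  · rw [Finset.sum_eq_single_of_mem i hi]
    intro j _ hj
    rw [← sig_coeff hF, h j hj]
  · rw [Finset.sum_eq_zero]
    · rw [homogeneousComponent_eq_zero, map_zero]
      rw [Finset.mem_range] at hi
      omega
    · intro j hj
      have hji : j ≠ i := by
        rintro rfl
        exact hi hj
      rw [← sig_coeff hF, h j hji]

include hF in
/-- Factors of homogeneous elements. -/
theorem key [IsDomain (BB κ F)] {e : ℕ} {g a b : MvPolynomial (Fin r) κ}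
    (hg : g.IsHomogeneous e) (hg0 : mk κ F g ≠ 0) (h : mk κ F g = mk κ F a * mk κ F b) :
    ∃ i j, i + j = e ∧ mk κ F a = mk κ F (homogeneousComponent i a) ∧
      mk κ F b = mk κ F (homogeneousComponent j b) := by
  have h1 : sig hF (mk κ F a) * sig hF (mk κ F b) = Polynomial.monomial e (mk κ F g) := by
    rw [← map_mul, ← h, sig_hom hF hg]
  obtain ⟨i, j, hij, h2, h3⟩ := mono hg0 h1
  exact ⟨i, j, hij, of_coeff hF h2, of_coeff hF h3⟩

include hF in
theorem small_ne (hd : 2 ≤ d) {l : MvPolynomial (Fin r) κ} (hl : l ≠ 0)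
    (ht : l.totalDegree ≤ 1) : mk κ F l ≠ 0 := by
  intro h
  rw [Ideal.Quotient.eq_zero_iff_mem, Ideal.mem_span_singleton] at h
  obtain ⟨b, rfl⟩ := h
  have h1 : (MvPolynomial.map (algebraMap Ω κ) F).IsHomogeneous d := hF.map _
  have h2 := left_ne_zero_of_mul hl
  have h3 := right_ne_zero_of_mul hl
  rw [totalDegree_mul_of_isDomain h2 h3, h1.totalDegree h2] at ht
  omega

end

end GrdL

open GrdL

theorem grd : S_GRD := by
  intro Ω κ _ _ _ r d F hF hd hdom hufd
  have hC0 : ∀ a : MvPolynomial (Fin r) κ, homogeneousComponent 0 a = C (coeff 0 a) :=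
    fun a => homogeneousComponent_zero a
  have hu : ∀ u, IsUnit (mk κ F u) → ∃ c : κ, c ≠ 0 ∧ mk κ F u = mk κ F (C c) := by
    intro u hu
    obtain ⟨v, hv⟩ := hu.exists_right_inv
    obtain ⟨b, rfl⟩ := Ideal.Quotient.mk_surjective v
    have h1 : mk κ F (1 : MvPolynomial (Fin r) κ) = mk κ F u * mk κ F b := by
      rw [map_one, hv]
    obtain ⟨i, j, hij, h2, -⟩ := key hF (isHomogeneous_one _ _) (by
      rw [map_one]
      exact one_ne_zero) h1
    have hi : i = 0 := by omega
    subst hi
    rw [hC0] at h2
    refine ⟨_, ?_, h2⟩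
    intro h3
    rw [h3, C_0, map_zero] at h2
    exact hu.ne_zero h2
  refine ⟨hu, ?_, ?_⟩
  · intro l hl hl0
    have htl : l.totalDegree = 1 := hl.totalDegree hl0
    have hne : mk κ F l ≠ 0 := small_ne hF hd hl0 htl.le
    have hirr : Irreducible (mk κ F l) := by
      constructor
      · intro hun
        obtain ⟨c, hc, h1⟩ := hu l hun
        have h2 : mk κ F (l - C c) = 0 := by
          rw [map_sub, h1, sub_self]
        have h3 : l - C c = 0 := by
          by_contra h4
          refine small_ne hF hd h4 ?_ h2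
          refine (totalDegree_sub _ _).trans ?_
          rw [totalDegree_C, htl]
          simp
        have h4 : l = C c := sub_eq_zero.1 h3
        rw [h4, totalDegree_C] at htl
        omega
      · intro a b hab
        obtain ⟨a, rfl⟩ := Ideal.Quotient.mk_surjective a
        obtain ⟨b, rfl⟩ := Ideal.Quotient.mk_surjective b
        obtain ⟨i, j, hij, h2, h3⟩ := key hF hl hne hab
        have hunit : ∀ c : MvPolynomial (Fin r) κ, mk κ F c ≠ 0 →
            mk κ F c = mk κ F (homogeneousComponent 0 c) → IsUnit (mk κ F c) := by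
          intro c hc0 hc
          rw [hC0] at hc
          rw [hc]
          have h5 : coeff 0 c ≠ 0 := by
            intro h6
            rw [h6, C_0, map_zero] at hc
            exact hc0 hc
          exact ((Ne.isUnit h5).map (C : κ →+* MvPolynomial (Fin r) κ)).map (mk κ F)
        rw [hab] at hne
        rcases Nat.eq_zero_or_pos i with h | h
        · subst h
          exact Or.inl (hunit a (left_ne_zero_of_mul hne) h2)
        · have : j = 0 := by omega
          subst this
          exact Or.inr (hunit b (right_ne_zero_of_mul hne) h3)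
    exact UniqueFactorizationMonoid.irreducible_iff_prime.1 hirr
  · intro e g hg hg0 a b hab
    obtain ⟨b, rfl⟩ := Ideal.Quotient.mk_surjective b
    obtain ⟨i, j, hij, h2, h3⟩ := key hF hg hg0 hab
    exact ⟨i, _, homogeneousComponent_isHomogeneous i a, h2⟩

end

end Pool.Agent.Helper93K9.PAR

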