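import Pool.Agent.Helper93K9.PAR.LdG
import Pool.Agent.Helper93K9.PAR.Grd

/-! # The equation of a point on a factorial cone -/

set_option autoImplicit false

namespace Pool.Agent.Helper93K9.PAR

open MvPolynomial Module FF
open LdG

noncomputable section

namespace GenrL

variable {Ω κ : Type} [Field Ω] [Field κ] [Algebra Ω κ] {r : ℕ} {F : MvPolynomial (Fin r) Ω}

theorem mk_zero_iff (g : MvPolynomial (Fin r) κ) :
    mk κ F g = 0 ↔ map (algebraMap Ω κ) F ∣ g := by
  rw [Ideal.Quotient.eq_zero_iff_mem, Ideal.mem_span_singleton]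

/-- Polynomials with coefficients in `Ω[X]`, evaluated at `τ`. -/
def GG (τ : κ) (P : Polynomial (MvPolynomial (Fin r) Ω)) : MvPolynomial (Fin r) κ :=
  ∑ i ∈ P.support, C (τ ^ i) * map (algebraMap Ω κ) (P.coeff i)

theorem GG_eval {S : Type*} [CommRing S] [Algebra κ S] [Algebra Ω S] [IsScalarTower Ω κ S]
    (τ : κ) (P : Polynomial (MvPolynomial (Fin r) Ω)) (x : Fin r → S) :
    aeval x (GG τ P) = Polynomial.eval₂ (aeval x : MvPolynomial (Fin r) Ω →ₐ[Ω] S).toRingHom
      (algebraMap κ S τ) P := by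
  rw [GG, map_sum, Polynomial.eval₂_eq_sum, Polynomial.sum]
  apply Finset.sum_congr rfl
  intro i _
  rw [map_mul, aeval_C, map_pow, aeval_map_algebraMap, mul_comm]
  rfl

/-- The map to the algebra generated by the coordinates. -/
def rho {S : Type*} [CommRing S] [Algebra Ω S] (x : Fin r → S) :
    MvPolynomial (Fin r) Ω →ₐ[Ω] Algebra.adjoin Ω (Set.range x) :=
  (aeval x).codRestrict (Algebra.adjoin Ω (Set.range x)) (fun p => by
    rw [Algebra.adjoin_range_eq_range_aeval]
    exact ⟨p, rfl⟩)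

theorem rho_coe {S : Type*} [CommRing S] [Algebra Ω S] (x : Fin r → S)
    (h : MvPolynomial (Fin r) Ω) : (rho x h : S) = aeval x h := rfl

theorem rho_surj {S : Type*} [CommRing S] [Algebra Ω S] (x : Fin r → S) :
    Function.Surjective (rho (Ω := Ω) x) := by
  rintro ⟨a, ha⟩
  have ha' := ha
  rw [Algebra.adjoin_range_eq_range_aeval] at ha'
  obtain ⟨p, hp⟩ := ha'
  exact ⟨p, Subtype.ext hp⟩

theorem rho_eval {S : Type*} [CommRing S] [Algebra κ S] [Algebra Ω S] [IsScalarTower Ω κ S]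
    (τ : κ) (P : Polynomial (MvPolynomial (Fin r) Ω)) (x : Fin r → S) :
    Polynomial.aeval (algebraMap κ S τ) (P.map (rho x).toRingHom) = aeval x (GG τ P) := by
  rw [GG_eval, Polynomial.aeval_def, Polynomial.eval₂_map]
  rfl

/-- The quotient by the equation is algebraic over the base. -/
theorem quot_part {N D : Type} [Field N] [Algebra κ N] [Algebra Ω N] [IsScalarTower Ω κ N]
    [IsFF Ω κ] [IsDomain (BB κ F)] [CommRing D] [IsDomain D] [Algebra κ D] [Algebra Ω D]
    [IsScalarTower Ω κ D] {τ : κ} (hτ : Transcendental Ω τ) (ξ : Fin r → N)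
    (hξ : ∀ H : MvPolynomial (Fin r) Ω, aeval ξ H = 0 ↔ F ∣ H)
    (ev : BB κ F →ₐ[κ] N) (hev : ∀ g, ev (mk κ F g) = aeval ξ g)
    (π : BB κ F →ₐ[κ] D) (evD : D →ₐ[κ] N) (hevD : ∀ g, evD (π g) = ev g)
    {ω g : MvPolynomial (Fin r) κ} (hωne : mk κ F ω ≠ 0)
    (hker : ∀ z, π z = 0 ↔ mk κ F ω ∣ z) (hg : aeval ξ g = 0) (hnd : ¬ mk κ F ω ∣ mk κ F g) :
    False := by
  set xB : Fin r → BB κ F := fun i => mk κ F (X i) with hxBdef
  set xD : Fin r → D := fun i => π (mk κ F (X i)) with hxDdef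
  have hxB : ∀ g : MvPolynomial (Fin r) κ, aeval xB g = mk κ F g := by
    intro g
    have h1 : (aeval xB : MvPolynomial (Fin r) κ →ₐ[κ] BB κ F) =
        Ideal.Quotient.mkₐ κ _ := by
      ext i
      simp [xB]
    rw [h1]
    rfl
  have hxD : ∀ g : MvPolynomial (Fin r) κ, aeval xD g = π (mk κ F g) := by
    intro g
    have h1 : (aeval xD : MvPolynomial (Fin r) κ →ₐ[κ] D) =
        π.comp (Ideal.Quotient.mkₐ κ _) := by
      ext i
      simp [xD]
    rw [h1]
    rfl
  have hxDΩ : ∀ h : MvPolynomial (Fin r) Ω, aeval xD h = π (mk κ F (map (algebraMap Ω κ) h)) := by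
    intro h
    rw [← hxD, aeval_map_algebraMap]
  have hinj : ∀ h : MvPolynomial (Fin r) Ω, evD (aeval xD h) = aeval ξ h := by
    intro h
    rw [hxDΩ, hevD, hev, aeval_map_algebraMap]
  -- `τ` is algebraic in the quotient
  have hτD : IsAlgebraic (Algebra.adjoin Ω (Set.range xD)) (algebraMap κ D τ) := by
    have h1 := alg_all (S := BB κ F) hτ xB (insert (algebraMap κ (BB κ F) τ) (Set.range xB))
      (Set.mem_insert _ _) (fun i => Set.mem_insert_of_mem _ ⟨i, rfl⟩) ω
    rw [hxB] at h1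
    obtain ⟨a, ha0, c, hc⟩ := h1.exists_nonzero_dvd (mem_nonZeroDivisors_of_ne_zero hωne)
    obtain ⟨P, hP⟩ := adj_rep (κ := κ) xB a.1 a.2
    have hP' : a.1 = mk κ F (GG τ P) := by
      rw [hP, GG, map_sum]
      exact Finset.sum_congr rfl (fun i _ => hxB _)
    refine ⟨P.map (rho xD).toRingHom, ?_, ?_⟩
    · intro h2
      apply ha0
      apply Subtype.ext
      rw [hP', GG, map_sum]
      change _ = (0 : BB κ F)
      apply Finset.sum_eq_zero
      intro i _
      have h3 := congrArg (fun p => Polynomial.coeff p i) h2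
      simp only [Polynomial.coeff_map, Polynomial.coeff_zero] at h3
      have h4 : aeval xD (P.coeff i) = 0 := congrArg Subtype.val h3
      have h5 := hinj (P.coeff i)
      rw [h4, map_zero] at h5
      have h6 := (hξ _).1 h5.symm
      rw [mk_zero_iff]
      exact (map_dvd (map (algebraMap Ω κ)) h6).mul_left _
    · rw [rho_eval, hxD, ← hP']
      have h2 : (algebraMap (Algebra.adjoin Ω (insert (algebraMap κ (BB κ F) τ)
        (Set.range xB))) (BB κ F)) a = a.1 := rfl
      rw [← h2, hc, map_mul, (hker _).2 dvd_rfl, zero_mul]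
  have hgD : IsAlgebraic (Algebra.adjoin Ω (Set.range xD)) (aeval xD g) := by
    refine IsAlgebraic.adjoin_of_forall_isAlgebraic (s := insert (algebraMap κ D τ)
      (Set.range xD)) ?_ (alg_all (S := D) hτ xD (insert (algebraMap κ D τ) (Set.range xD))
        (Set.mem_insert _ _) (fun i => Set.mem_insert_of_mem _ ⟨i, rfl⟩) g)
    rintro z ⟨hz1, hz2⟩
    rcases Set.mem_insert_iff.1 hz1 with h | h
    · rw [h]
      exact hτD
    · exact absurd h hz2
  have hgne : aeval xD g ≠ 0 := by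
    intro h
    rw [hxD] at h
    exact hnd ((hker _).1 h)
  obtain ⟨a, ha0, c, hc⟩ := hgD.exists_nonzero_dvd (mem_nonZeroDivisors_of_ne_zero hgne)
  obtain ⟨h, rfl⟩ := rho_surj (Ω := Ω) xD a
  have h1 : aeval xD h = aeval xD g * c := hc
  have h2 := congrArg evD h1
  rw [hinj, map_mul, hxD g, hevD, hev, hg, zero_mul] at h2
  apply ha0
  apply Subtype.ext
  change aeval xD h = 0
  rw [hxDΩ]
  have h3 : mk κ F (map (algebraMap Ω κ) h) = 0 := by
    rw [mk_zero_iff]
    exact map_dvd (map (algebraMap Ω κ)) ((hξ h).1 h2)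
  rw [h3, map_zero]

end GenrL

open GenrL

open scoped IntermediateField.algebraAdjoinAdjoin in
theorem genr (hG : S_GRD) : S_GENR := by
  intro Ω κ N _ _ _ _ _ _ _ _ r d F hF hd hdom hufd ξ hξ hhom halg
  obtain ⟨hG1, hG2, hG3⟩ := hG Ω κ r d F hF hd hdom hufd
  obtain ⟨τ, hτ⟩ := IsFF.exists_transcendental (k := Ω) (K := κ)
  -- evaluation on the cone
  have hFξ : aeval ξ F = 0 := (hξ F).2 dvd_rfl
  let ev : BB κ F →ₐ[κ] N := Ideal.Quotient.liftₐ _ (aeval ξ : MvPolynomial (Fin r) κ →ₐ[κ] N) (by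
    intro a ha
    obtain ⟨b, rfl⟩ := Ideal.mem_span_singleton'.1 ha
    rw [map_mul, aeval_map_algebraMap, hFξ, mul_zero])
  have hev : ∀ g, ev (mk κ F g) = aeval ξ g := fun g => rfl
  -- a polynomial in the kernel which is not divisible by `F`
  obtain ⟨G, hG0, hGne⟩ : ∃ G : MvPolynomial (Fin r) κ, aeval ξ G = 0 ∧ mk κ F G ≠ 0 := by
    have h1 : IsAlgebraic (IntermediateField.adjoin Ω (Set.range ξ)) (algebraMap κ N τ) :=
      halg.isAlgebraic _
    have h2 : IsAlgebraic (Algebra.adjoin Ω (Set.range ξ)) (algebraMap κ N τ) :=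
      h1.restrictScalars _
    obtain ⟨p, hp0, hp⟩ := h2
    obtain ⟨P, rfl⟩ := Polynomial.map_surjective (rho (Ω := Ω) ξ).toRingHom (rho_surj ξ) p
    rw [rho_eval] at hp
    refine ⟨_, hp, ?_⟩
    intro h3
    rw [mk_zero_iff] at h3
    have h4 := LD F P.support (fun i => τ ^ i) (linInd_pow hτ) (fun i => P.coeff i) h3
    apply hp0
    ext1 i
    rw [Polynomial.coeff_map, Polynomial.coeff_zero]
    by_cases hi : i ∈ P.support
    · apply Subtype.ext
      exact (hξ _).2 (h4 i hi)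
    · rw [Polynomial.notMem_support_iff.1 hi, map_zero]
  -- a homogeneous one
  obtain ⟨e, he⟩ : ∃ e, mk κ F (homogeneousComponent e G) ≠ 0 := by
    by_contra hcon
    push Not at hcon
    apply hGne
    rw [← sum_homogeneousComponent G, map_sum]
    exact Finset.sum_eq_zero (fun i _ => hcon i)
  have he0 : aeval ξ (homogeneousComponent e G) = 0 := hhom G hG0 e
  -- a prime factor in the kernel
  obtain ⟨f, hf1, u, hf2⟩ := UniqueFactorizationMonoid.exists_prime_factors _ he
  have hf3 : ev f.prod = 0 := by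
    have h1 := congrArg ev hf2
    rw [map_mul, hev, he0] at h1
    exact (mul_eq_zero.1 h1).resolve_right (u.isUnit.map ev).ne_zero
  obtain ⟨b, hb, hb0⟩ : ∃ b ∈ f, ev b = 0 := by
    rw [map_multiset_prod, Multiset.prod_eq_zero_iff, Multiset.mem_map] at hf3
    exact hf3
  obtain ⟨a, rfl⟩ := Ideal.Quotient.mk_surjective b
  have hdvd : mk κ F a ∣ mk κ F (homogeneousComponent e G) := by
    rw [← hf2]
    exact (Multiset.dvd_prod hb).mul_right _
  obtain ⟨b', hb'⟩ := hdvd
  obtain ⟨i, ω, hω, haω⟩ := hG3 e _ (homogeneousComponent_isHomogeneous e G) he a b' hb'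
  have hprime : Prime (mk κ F ω) := by
    rw [← haω]
    exact hf1 _ hb
  have hω0 : ev (mk κ F ω) = 0 := by
    rw [← haω]
    exact hb0
  refine ⟨i, ω, hω, hprime, ?_⟩
  intro g
  constructor
  swap
  · rintro ⟨c, hc⟩
    rw [← hev, hc, map_mul, hω0, zero_mul]
  intro hg
  by_contra hnd
  -- the quotient
  have hI : (Ideal.span {mk κ F ω}).IsPrime :=
    (Ideal.span_singleton_prime hprime.ne_zero).2 hprime
  have hD : IsDomain (BB κ F ⧸ Ideal.span {mk κ F ω}) := Ideal.Quotient.isDomain _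
  refine quot_part (D := BB κ F ⧸ Ideal.span {mk κ F ω}) hτ ξ hξ ev hev
    (Ideal.Quotient.mkₐ κ (Ideal.span {mk κ F ω})) (Ideal.Quotient.liftₐ _ ev ?_) ?_
    hprime.ne_zero ?_ hg hnd
  · intro a ha
    obtain ⟨b, rfl⟩ := Ideal.mem_span_singleton'.1 ha
    rw [map_mul, hω0, mul_zero]
  · intro z
    rfl
  · intro z
    rw [Ideal.Quotient.mkₐ_eq_mk, Ideal.Quotient.eq_zero_iff_mem, Ideal.mem_span_singleton]

end

end Pool.Agent.Helper93K9.PAR

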