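import Pool.Agent.Helper93K9.PAR.Defs2

/-! # The function field of the curve -/

set_option autoImplicit false

namespace Pool.Agent.Helper93K9.PAR

open MvPolynomial Module FF IntermediateField

namespace KAP

variable {Ω M : Type} [Field Ω] [Field M] [Algebra Ω M]

lemma adjoin_gen (t : M) : Ω⟮AdjoinSimple.gen Ω t⟯ = (⊤ : IntermediateField Ω Ω⟮t⟯) := by
  rw [eq_top_iff]
  rintro ⟨x, hx⟩ -
  induction hx using IntermediateField.adjoin_induction with
  | mem x hx =>
    rw [Set.mem_singleton_iff] at hx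
    subst hx
    exact mem_adjoin_simple_self Ω _
  | algebraMap x => exact IntermediateField.algebraMap_mem _ x
  | add x y hx hy ihx ihy => exact add_mem ihx ihy
  | inv x hx ihx => exact inv_mem ihx
  | mul x y hx hy ihx ihy => exact mul_mem ihx ihy

lemma ff_adjoin {t : M} (ht : Transcendental Ω t) : IsFF Ω Ω⟮t⟯ := by
  have h1 : Transcendental Ω (AdjoinSimple.gen Ω t) := by
    intro h
    apply ht
    have := h.algebraMap (A := M)
    rwa [AdjoinSimple.algebraMap_gen] at this
  refine IsFF.of_finite h1 ?_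
  rw [adjoin_gen]
  exact Module.finite_of_finrank_pos (by rw [IntermediateField.finrank_top]; norm_num)

lemma ff_ext (A : IntermediateField Ω M) [hA : IsFF Ω A] (L : IntermediateField A M)
    [FiniteDimensional A L] : IsFF Ω L := by
  constructor
  · have := hA.ess
    exact Algebra.EssFiniteType.comp Ω A L
  · have h1 := trdeg_add_eq Ω A (A := L)
    rw [← h1, hA.trdeg, trdeg_eq_zero, add_zero]

lemma ff_restrict (A : IntermediateField Ω M) (L : IntermediateField A M) (h : IsFF Ω L) :
    IsFF Ω (L.restrictScalars Ω) := h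

lemma indep_two {a b : M} (ha : Transcendental Ω a) (hb : ¬ IsAlgebraic Ω⟮a⟯ b) :
    AlgebraicIndependent Ω ![b, a] := by
  have h1 : AlgebraicIndependent Ω ![a] := algebraicIndependent_iff_transcendental.2 ha
  have hr : Set.range ![a] = {a} := by simp
  have h2 : Transcendental (Algebra.adjoin Ω (Set.range ![a])) b := by
    rw [hr]
    intro h3
    apply hb
    open scoped algebraAdjoinAdjoin in
    exact h3.extendScalars (S := Ω⟮a⟯)
      (FaithfulSMul.algebraMap_injective (Algebra.adjoin Ω {a}) Ω⟮a⟯)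
  have h3 := (AlgebraicIndependent.option_iff (R := Ω) (x := ![a]) (a := b)).2 ⟨h1, h2⟩
  have h4 := h3.comp (finSuccEquiv 1) (finSuccEquiv 1).injective
  have h5 : (fun o : Option (Fin 1) => o.elim b ![a]) ∘ (finSuccEquiv 1) = ![b, a] := by
    funext i
    fin_cases i <;> rfl
  rwa [h5] at h4

end KAP

open KAP in
theorem kap : S_KAP := by
  intro Ω M _ _ _ _ _ r p ⟨j, hj⟩ hc ⟨t, ht⟩
  by_cases h : ∃ i, Transcendental Ω (p i)
  · obtain ⟨i, hi⟩ := h
    have hFF : IsFF Ω Ω⟮p i⟯ := ff_adjoin hi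
    have halg : ∀ a, IsAlgebraic Ω⟮p i⟯ (p a) := by
      intro a
      have h1 := hc a j i j
      rw [hj, div_one, div_one] at h1
      by_contra h2
      exact h1 (indep_two hi h2)
    have hfin : FiniteDimensional Ω⟮p i⟯ (adjoin Ω⟮p i⟯ (Set.range p)) :=
      finiteDimensional_adjoin (fun x hx => by
        obtain ⟨a, rfl⟩ := hx
        exact (halg a).isIntegral)
    have hL : IsFF Ω (adjoin Ω⟮p i⟯ (Set.range p)) := ff_ext Ω⟮p i⟯ _
    have hL' := ff_restrict Ω⟮p i⟯ _ hL
    refine ⟨(adjoin Ω⟮p i⟯ (Set.range p)).restrictScalars Ω, hL', fun a => ?_⟩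
    have ha : p a ∈ adjoin Ω⟮p i⟯ (Set.range p) := subset_adjoin _ _ ⟨a, rfl⟩
    exact ha
  · push Not at h
    refine ⟨Ω⟮t⟯, ff_adjoin ht, fun i => ?_⟩
    have h1 : IsAlgebraic Ω (p i) := by
      have := h i
      rwa [Transcendental, not_not] at this
    have h2 : (minpoly Ω (p i)).degree = 1 :=
      IsAlgClosed.degree_eq_one_of_irreducible Ω (minpoly.irreducible h1.isIntegral)
    obtain ⟨z, hz⟩ := minpoly.mem_range_of_degree_eq_one Ω (p i) h2
    rw [← hz]
    exact IntermediateField.algebraMap_mem _ z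

end Pool.Agent.Helper93K9.PAR
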