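import Mathlib
import Pool.Agent.Helper93K9.PAR.Defs3
import Pool.Agent.Helper93K9.PAR.Basic

/-! # Parity along curves, job LW: the reflection at a place -/

set_option autoImplicit false
set_option linter.unusedSectionVars false

namespace Pool.Agent.Helper93K9.PAR

open MvPolynomial Module FF

namespace LwL

noncomputable section

section
variable {Ω K E : Type} [Field Ω] [Field K] [Field E] [Algebra Ω K]
    [Algebra K E] [Algebra Ω E] [IsScalarTower Ω K E] {r : ℕ}

theorem fc_hom {F0 G : MvPolynomial (Fin r) Ω} (hF : F0.IsHomogeneous 3) (hG : G.IsHomogeneous 3)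
    (c : K) : (Fc F0 G c).IsHomogeneous 3 := by
  unfold Fc
  exact (hF.map _).add ((hG.map _).C_mul c)

theorem aeval_fc (F0 G : MvPolynomial (Fin r) Ω) (c : K) (z : Fin r → E) :
    aeval z (Fc F0 G c) = aeval z F0 + algebraMap K E c * aeval z G := by
  unfold Fc
  rw [map_add, map_mul, aeval_C, aeval_map_algebraMap, aeval_map_algebraMap]

theorem pol_fc (F0 G : MvPolynomial (Fin r) Ω) (c : K) (x p : Fin r → E) :
    pol (Fc F0 G c) x p = pol F0 x p + algebraMap K E c * pol G x p := by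
  unfold Fc
  rw [pol_add, pol_map]
  congr 1
  have h : pol (C c * map (algebraMap Ω K) G) x p =
      algebraMap K E c * pol (map (algebraMap Ω K) G) x p := by
    unfold pol
    rw [Finset.mul_sum]
    refine Finset.sum_congr rfl fun i _ => ?_
    rw [pderiv_C_mul, map_mul, aeval_C]
    ring
  rw [h, pol_map]

theorem third_fc (F0 G : MvPolynomial (Fin r) Ω) (c : K) (x p : Fin r → E) (i : Fin r) :
    third (Fc F0 G c) x p i = third F0 x p i + algebraMap K E c * third G x p i := by
  unfold third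
  rw [pol_fc, pol_fc]
  ring

end

section
variable {Ω E : Type} [Field Ω] [Field E] [Algebra Ω E] (w : Place Ω E) {r : ℕ}

/-- the valuation ring as a subalgebra -/
def OA : Subalgebra Ω E where
  toSubsemiring := w.O.toSubring.toSubsemiring
  algebraMap_mem' c := w.reg_const c

theorem mem_OA (f : E) : f ∈ OA w ↔ w.Reg f := Iff.rfl

/-- the residue map -/
def redA : OA w →ₐ[Ω] w.RF where
  toFun f := w.red f.1
  map_one' := w.red_one
  map_mul' f g := w.red_mul f.2 g.2
  map_zero' := w.red_zero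
  map_add' f g := w.red_add f.2 g.2
  commutes' _ := rfl

variable (x p : Fin r → E) (hx : ∀ i, w.Reg (x i)) (hp : ∀ i, w.Reg (p i))

theorem red_aeval (H : MvPolynomial (Fin r) Ω) (hx : ∀ i, w.Reg (x i)) :
    w.Reg (aeval x H) ∧ w.red (aeval x H) = aeval (fun i => w.red (x i)) H := by
  have h1 : (OA w).val (aeval (fun i => (⟨x i, hx i⟩ : OA w)) H) = aeval x H := by
    rw [comp_aeval_apply]
    rfl
  have h2 : redA w (aeval (fun i => (⟨x i, hx i⟩ : OA w)) H) = aeval (fun i => w.red (x i)) H := by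
    rw [comp_aeval_apply]
    rfl
  rw [← h1, ← h2]
  exact ⟨(aeval (fun i => (⟨x i, hx i⟩ : OA w)) H).2, rfl⟩

include hx hp

theorem red_pol (H : MvPolynomial (Fin r) Ω) :
    w.Reg (pol H x p) ∧
      w.red (pol H x p) = pol H (fun i => w.red (x i)) (fun i => w.red (p i)) := by
  have h1 := map_pol (OA w).val H (fun i => (⟨x i, hx i⟩ : OA w)) (fun i => (⟨p i, hp i⟩ : OA w))
  have h2 := map_pol (redA w) H (fun i => (⟨x i, hx i⟩ : OA w)) (fun i => (⟨p i, hp i⟩ : OA w))
  exact ⟨h1 ▸ (pol H (fun i => (⟨x i, hx i⟩ : OA w)) (fun i => (⟨p i, hp i⟩ : OA w))).2,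
    (congrArg w.red h1).symm.trans h2⟩

theorem red_third (H : MvPolynomial (Fin r) Ω) (i : Fin r) :
    w.Reg (third H x p i) ∧
      w.red (third H x p i) = third H (fun i => w.red (x i)) (fun i => w.red (p i)) i := by
  have h1 := map_third (OA w).val H (fun i => (⟨x i, hx i⟩ : OA w))
    (fun i => (⟨p i, hp i⟩ : OA w)) i
  have h2 := map_third (redA w) H (fun i => (⟨x i, hx i⟩ : OA w))
    (fun i => (⟨p i, hp i⟩ : OA w)) i
  exact ⟨h1 ▸ (third H (fun i => (⟨x i, hx i⟩ : OA w)) (fun i => (⟨p i, hp i⟩ : OA w)) i).2,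
    (congrArg w.red h1).symm.trans h2⟩

end

/-- adding a multiple of an element of the maximal ideal -/
theorem red_add_small {Ω E : Type} [Field Ω] [Field E] [Algebra Ω E] (w : Place Ω E) {f g γ : E}
    (hf : w.Reg f) (hg : w.Reg g) (hγ : 0 < w.ord γ) :
    w.Reg (f + γ * g) ∧ w.red (f + γ * g) = w.red f := by
  have h1 : w.Reg γ := Or.inr hγ.le
  have h2 : w.red γ = 0 := (w.red_eq_zero_iff h1).2 (Or.inr hγ)
  refine ⟨w.reg_add hf (w.reg_mul h1 hg), ?_⟩
  rw [w.red_add hf (w.reg_mul h1 hg), w.red_mul h1 hg, h2, zero_mul, add_zero]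

theorem red_div {Ω E : Type} [Field Ω] [Field E] [Algebra Ω E] (w : Place Ω E) {f g : E}
    (hf : w.Reg f) (hg : w.Reg g) (h : w.red g ≠ 0) :
    g ≠ 0 ∧ w.Reg (f / g) ∧ w.red (f / g) = w.red f / w.red g := by
  have h1 := mt (w.red_eq_zero_iff hg).2 h
  push Not at h1
  have h2 : w.Reg g⁻¹ := by
    right
    rw [w.ord_inv]
    have := (w.reg_iff h1.1).1 hg
    omega
  have h3 : w.Reg (f / g) := by
    rw [div_eq_mul_inv]
    exact w.reg_mul hf h2
  refine ⟨h1.1, h3, ?_⟩
  rw [eq_div_iff h, ← w.red_mul h3 hg, div_mul_cancel₀ _ h1.1]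

end

end LwL

open LwL in
/-- the reflection at a place -/
theorem lw : S_LW := by
  intro Ω K E _ _ _ _ _ _ _ _ _ n F0 G hF0 hG hlaw w c hc x p hx hp hp0 hcrv hgood
  classical
  have hF := fc_hom hF0 hG c
  obtain ⟨hx0, hxr, hgen, hodd⟩ := hgood
  -- a coordinate of `p` of least order
  obtain ⟨j0, hj0⟩ := Function.ne_iff.1 hp0
  obtain ⟨j, hj, hmin⟩ := Finset.exists_min_image (Finset.univ.filter fun i => p i ≠ 0)
    (fun i => w.ord (p i)) ⟨j0, by simpa using hj0⟩
  have hj : p j ≠ 0 := (Finset.mem_filter.1 hj).2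
  have hpr : ∀ i, w.Reg (p i / p j) := by
    intro i
    by_cases hi : p i = 0
    · left
      rw [hi, zero_div]
    · right
      rw [w.ord_div hi hj]
      have := hmin i (by simpa using hi)
      omega
  have hcrv' := hcrv j hj hpr
  have ex : x = fun i => x 0 * (x i / x 0) := by
    funext i
    rw [mul_div_cancel₀ _ hx0]
  have ep : p = fun i => p j * (p i / p j) := by
    funext i
    rw [mul_div_cancel₀ _ hj]
  set x' : Fin (n + 2) → E := fun i => x i / x 0 with hx'
  set p' : Fin (n + 2) → E := fun i => p i / p j with hp'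
  have hxr' : ∀ i, w.Reg (x' i) := hxr
  have hpr' : ∀ i, w.Reg (p' i) := hpr
  have hpF : aeval p' (Fc F0 G c) = 0 := by
    rw [ep, aeval_smul_hom hF, mul_eq_zero] at hp
    exact hp.resolve_left (pow_ne_zero _ hj)
  -- the reduction of `p`
  have hpb : aeval (fun i => w.red (p' i)) F0 = 0 := by
    rw [aeval_fc] at hpF
    have h1 := red_aeval w p' F0 hpr'
    have h2 := red_aeval w p' G hpr'
    have h3 := (red_add_small w h1.1 h2.1 hc).2
    rw [hpF, w.red_zero, h1.2] at h3
    exact h3.symm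
  have hpb0 : (fun i => w.red (p' i)) ≠ 0 := by
    intro h
    have h1 := congrFun h j
    simp only [Pi.zero_apply, hp', div_self hj, w.red_one] at h1
    exact one_ne_zero h1
  obtain ⟨hpol, hgen2, hodd2⟩ := hlaw w.RF (fun i => w.red (x' i)) (fun i => w.red (p' i)) hgen hodd
    hpb0 hpb hcrv'
  -- the polar form
  have hpol' : pol (Fc F0 G c) x' p' ≠ 0 := by
    intro h
    rw [pol_fc] at h
    have h1 := red_pol w x' p' hxr' hpr' F0
    have h2 := red_pol w x' p' hxr' hpr' G
    have h3 := (red_add_small w h1.1 h2.1 hc).2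
    rw [h, w.red_zero, h1.2] at h3
    exact hpol h3.symm
  have hz : ∀ i, w.Reg (third (Fc F0 G c) x' p' i) ∧ w.red (third (Fc F0 G c) x' p' i) =
      third F0 (fun i => w.red (x' i)) (fun i => w.red (p' i)) i := by
    intro i
    rw [third_fc]
    have h1 := red_third w x' p' hxr' hpr' F0 i
    have h2 := red_third w x' p' hxr' hpr' G i
    have h3 := red_add_small w h1.1 h2.1 hc
    exact ⟨h3.1, h3.2.trans h1.2⟩
  have hz0 := gen_coord hF0 hgen2 0
  have hzd : ∀ i, third (Fc F0 G c) x' p' 0 ≠ 0 ∧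
      w.Reg (third (Fc F0 G c) x' p' i / third (Fc F0 G c) x' p' 0) ∧
      w.red (third (Fc F0 G c) x' p' i / third (Fc F0 G c) x' p' 0) =
        third F0 (fun i => w.red (x' i)) (fun i => w.red (p' i)) i /
        third F0 (fun i => w.red (x' i)) (fun i => w.red (p' i)) 0 := by
    intro i
    have h := red_div w (hz i).1 (hz 0).1 (by rw [(hz 0).2]; exact hz0)
    rw [(hz i).2, (hz 0).2] at h
    exact h
  have he : ∀ i, third (Fc F0 G c) x p i = (x 0) ^ 2 * (p j) ^ 2 * third (Fc F0 G c) x' p' i := by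
    intro i
    conv_lhs => rw [ex, ep]
    exact third_smul hF (x 0) (p j) x' p' i
  have hne : (x 0) ^ 2 * (p j) ^ 2 ≠ 0 := mul_ne_zero (pow_ne_zero _ hx0) (pow_ne_zero _ hj)
  have hq : ∀ i, third (Fc F0 G c) x p i / third (Fc F0 G c) x p 0 =
      third (Fc F0 G c) x' p' i / third (Fc F0 G c) x' p' 0 := by
    intro i
    rw [he i, he 0, mul_div_mul_left _ _ hne]
  have hfun : (fun i => w.red (third (Fc F0 G c) x p i / third (Fc F0 G c) x p 0)) =
      fun i => (third F0 (fun i => w.red (x' i)) (fun i => w.red (p' i)) 0)⁻¹ *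
        third F0 (fun i => w.red (x' i)) (fun i => w.red (p' i)) i := by
    funext i
    rw [hq i, (hzd i).2.2, div_eq_inv_mul]
  refine ⟨?_, ?_, fun i => ?_, ?_, ?_⟩
  · rw [ex, ep, pol_smul_left, pol_smul_right hF]
    exact mul_ne_zero hx0 (mul_ne_zero (pow_ne_zero _ hj) hpol')
  · rw [he 0]
    exact mul_ne_zero hne (hzd 0).1
  · rw [hq i]
    exact (hzd i).2.1
  · rw [hfun]
    exact (gen_smul (inv_ne_zero hz0) hF0).2 hgen2
  · rw [hfun, rf_smul _ (inv_ne_zero hz0)]
    exact hodd2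

end Pool.Agent.Helper93K9.PAR
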