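import Pool.Agent.Helper93K9.PAR.Cst
import Pool.Agent.Helper93K9.PAR.Lw

/-! # The reflection at a point of the cubic over `κ`, at the constant places -/

set_option autoImplicit false
set_option linter.unusedSectionVars false

namespace Pool.Agent.Helper93K9.PAR

open MvPolynomial Module FF

noncomputable section

namespace OrdL

variable {Ω κ KK : Type} [Field Ω] [Field κ] [Field KK] [Algebra Ω κ] [Algebra κ KK]
  [Algebra Ω KK] [IsScalarTower Ω κ KK] {r : ℕ} {F : MvPolynomial (Fin r) Ω} {X' : Fin r → KK}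

/-- the place as a place over `Ω` -/
def toO (w : Place (Kc Ω X') KK) : Place Ω KK where
  ord := w.ord
  ord_zero := w.ord_zero
  ord_mul := w.ord_mul
  ord_add := w.ord_add
  ord_const := fun {c} hc => w.ord_const (c := algebraMap Ω (Kc Ω X') c)
    (by rw [Ne, FaithfulSMul.algebraMap_eq_zero_iff]; exact hc)
  surj := w.surj

theorem toO_red (w : Place (Kc Ω X') KK) {f g : KK} (hf : w.Reg f) (hg : w.Reg g)
    (h : w.red f = w.red g) : (toO w).red f = (toO w).red g := by
  have h1 : w.red (f - g) = 0 := by rw [w.red_sub hf hg, h, sub_self]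
  have h2 : w.Reg (f - g) := by
    rw [sub_eq_add_neg]
    exact w.reg_add hf (w.reg_neg hg)
  rw [w.red_eq_zero_iff h2] at h1
  have h3 : (toO w).red (f - g) = 0 := ((toO w).red_eq_zero_iff h2).2 h1
  have hf' : (toO w).Reg f := hf
  have hg' : (toO w).Reg g := hg
  rw [(toO w).red_sub hf' hg', sub_eq_zero] at h3
  exact h3

theorem toO_ne (w : Place (Kc Ω X') KK) {a : KK} (ha : a ∈ Kc Ω X') (h0 : (toO w).red a = 0) :
    a = 0 := by
  by_contra h
  exact (toO w).red_ne_zero h (CstL.ord_mem w ha) h0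

theorem decomp2 {e : ℕ} (g : MvPolynomial (Fin r) κ) (hg : g.IsHomogeneous e) :
    ∃ (n : ℕ) (c : Fin n → κ) (m : Fin n → MvPolynomial (Fin r) Ω),
      (∀ j, (m j).IsHomogeneous e) ∧ LinearIndependent Ω (fun j => aeval X' (m j)) ∧
      aeval X' g = ∑ j, algebraMap κ KK (c j) * aeval X' (m j) := by
  classical
  let U : Submodule Ω (MvPolynomial (Fin r) Ω) :=
    Submodule.span Ω (g.support.image fun α => monomial α (1 : Ω) : Finset _)
  have hU : U ≤ homogeneousSubmodule (Fin r) Ω e := by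
    rw [Submodule.span_le]
    intro y hy
    rw [Finset.mem_coe, Finset.mem_image] at hy
    obtain ⟨α, hα, rfl⟩ := hy
    rw [SetLike.mem_coe, mem_homogeneousSubmodule]
    refine isHomogeneous_monomial _ ?_
    rw [Finsupp.degree_eq_weight_one]
    exact hg (mem_support_iff.1 hα)
  have hfinU : FiniteDimensional Ω U := FiniteDimensional.span_finset Ω _
  let V : Submodule Ω KK := U.map (aeval (R := Ω) X').toLinearMap
  have hfin : FiniteDimensional Ω V := inferInstance
  let B := Module.finBasis Ω V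
  have hm : ∀ j, ∃ m ∈ U, aeval X' m = (B j : KK) := fun j => (B j).2
  choose m hmU hmB using hm
  have hmV : ∀ α ∈ g.support, aeval X' (monomial α (1 : Ω)) ∈ V := fun α hα =>
    ⟨_, Submodule.subset_span (Finset.mem_coe.2 (Finset.mem_image_of_mem _ hα)), rfl⟩
  have hrep : ∀ α : Fin r →₀ ℕ, ∃ l : Fin (finrank Ω V) → Ω, α ∈ g.support →
      aeval X' (monomial α (1 : Ω)) = ∑ j, l j • (B j : KK) := by
    intro α
    by_cases hα : α ∈ g.support
    · refine ⟨fun j => B.repr ⟨_, hmV α hα⟩ j, fun _ => ?_⟩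
      have h1 := congrArg Subtype.val (B.sum_repr ⟨_, hmV α hα⟩)
      refine h1.symm.trans ?_
      rw [AddSubmonoidClass.coe_finsetSum]
      rfl
    · exact ⟨0, fun h => absurd h hα⟩
  choose l hl using hrep
  refine ⟨finrank Ω V, fun j => ∑ α ∈ g.support, l α j • coeff α g, m,
    fun j => (mem_homogeneousSubmodule _ _).1 (hU (hmU j)), ?_, ?_⟩
  · have h1 := B.linearIndependent.map' V.subtype (Submodule.ker_subtype V)
    have h2 : (fun j => aeval X' (m j)) = V.subtype ∘ B := by
      funext j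
      exact hmB j
    rw [h2]
    exact h1
  · rw [aeval_def, eval₂_eq']
    have h1 : ∀ α ∈ g.support, algebraMap κ KK (coeff α g) * ∏ i, X' i ^ α i =
        ∑ j, algebraMap κ KK (l α j • coeff α g) * aeval X' (m j) := by
      intro α hα
      have h2 : (∏ i, X' i ^ α i) = ∑ j, l α j • (B j : KK) := by
        rw [← hl α hα, aeval_monomial, map_one, one_mul, Finsupp.prod_fintype]
        intro i
        exact pow_zero _
      rw [h2, Finset.mul_sum]
      refine Finset.sum_congr rfl fun j _ => ?_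
      rw [Algebra.smul_def, Algebra.smul_def, map_mul, ← IsScalarTower.algebraMap_apply, hmB]
      ring
    rw [Finset.sum_congr rfl h1, Finset.sum_comm]
    refine Finset.sum_congr rfl fun j _ => ?_
    rw [map_sum, Finset.sum_mul]

theorem cone_dvd (hX : Cone κ F X') {H : MvPolynomial (Fin r) Ω} (h0 : aeval X' H = 0)
    {Y : Fin r → KK} (hY : aeval Y F = 0) : aeval Y H = 0 := by
  have h1 := (hX.1 (map (algebraMap Ω κ) H)).1 (by rw [aeval_map_algebraMap]; exact h0)
  obtain ⟨Q, hQ⟩ := h1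
  have h2 := congrArg (aeval Y) hQ
  rw [map_mul, aeval_map_algebraMap, aeval_map_algebraMap, hY, zero_mul] at h2
  exact h2

theorem cone_on (hX : Cone κ F X') : aeval X' F = 0 := by
  have := (hX.1 (map (algebraMap Ω κ) F)).2 dvd_rfl
  rwa [aeval_map_algebraMap] at this

/-- the polar form at a point over `Ω` -/
theorem pol_ne (hF : F.IsHomogeneous 3)
    (hsm : ∀ z : Fin r → Ω, (∀ i, eval z (pderiv i F) = 0) → z = 0) (hX : Cone κ F X')
    {a : Fin r → Ω} (ha : a ≠ 0) : pol F X' (fun i => algebraMap Ω KK (a i)) ≠ 0 := by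
  intro h0
  apply ha
  apply hsm
  have h1 : aeval X' (∑ i, C (eval a (pderiv i F)) * X i) = 0 := by
    rw [← h0, map_sum]
    unfold pol
    refine Finset.sum_congr rfl fun i _ => ?_
    rw [map_mul, aeval_X, aeval_C, mul_comm]
    congr 1
    have := aeval_algebraMap_apply (σ := Fin r) (A := Ω) KK a (pderiv i F)
    exact this.symm
  have hgen : Gen (map (algebraMap Ω κ) F) X' := ⟨by rw [aeval_map_algebraMap]; exact cone_on hX,
    fun e H _ hH => (hX.1 H).1 hH⟩
  have hlin : (∑ i, C (eval a (pderiv i F)) * X i : MvPolynomial (Fin r) Ω).IsHomogeneous 1 :=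
    IsHomogeneous.sum _ _ _ fun i _ => by
      simpa using (isHomogeneous_C (Fin r) (eval a (pderiv i F))).mul (isHomogeneous_X Ω i)
  have h2 := gen_lin (hF.map (algebraMap Ω κ)) hgen (hlin.map (algebraMap Ω κ)) (by
    rw [aeval_map_algebraMap]; exact h1)
  have h3 : (∑ i, C (eval a (pderiv i F)) * X i : MvPolynomial (Fin r) Ω) = 0 :=
    map_injective _ (algebraMap Ω κ).injective (by rw [h2, map_zero])
  intro i
  have h4 := congrArg (coeff (Finsupp.single i 1)) h3
  rw [coeff_sum, coeff_zero, Finset.sum_eq_single i] at h4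
  · rw [coeff_C_mul, coeff_X', if_pos rfl, mul_one] at h4
    exact h4
  · intro j _ hj
    rw [coeff_C_mul, coeff_X', if_neg, mul_zero]
    intro h5
    exact hj ((Finsupp.single_left_inj one_ne_zero).1 h5)
  · intro h
    exact absurd (Finset.mem_univ i) h

end OrdL

open OrdL in
theorem ord : S_CST → S_ORD := by
  classical
  intro _ Ω κ KK _ _ _ _ _ _ _ _ _ _ r F X' hF hsm hX p hp hpF w hw
  -- normalize the point
  obtain ⟨i1, hi1⟩ := Function.ne_iff.1 hp
  obtain ⟨i0, hi0, hmin⟩ := Finset.exists_min_image (Finset.univ.filter fun i => p i ≠ 0)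
    (fun i => w.ord (algebraMap κ KK (p i))) ⟨i1, by simpa using hi1⟩
  have hi0 : p i0 ≠ 0 := (Finset.mem_filter.1 hi0).2
  have inj : ∀ {z : κ}, z ≠ 0 → algebraMap κ KK z ≠ 0 := fun {z} hz => by
    rw [Ne, FaithfulSMul.algebraMap_eq_zero_iff]; exact hz
  have hc0 : algebraMap κ KK (p i0) ≠ 0 := inj hi0
  obtain ⟨p', hp'⟩ : ∃ p' : Fin r → κ, p' = fun i => p i / p i0 := ⟨_, rfl⟩
  have ep : ∀ i, p i = p i0 * p' i := fun i => by rw [hp', mul_div_cancel₀ _ hi0]
  obtain ⟨P', hP'⟩ : ∃ P' : Fin r → KK, P' = fun i => algebraMap κ KK (p' i) := ⟨_, rfl⟩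
  have hreg : ∀ i, w.Reg (P' i) := by
    intro i
    rw [hP', hp']
    by_cases hi : p i = 0
    · left
      simp [hi]
    · right
      show 0 ≤ w.ord (algebraMap κ KK (p i / p i0))
      rw [map_div₀, w.ord_div (inj hi) hc0]
      have := hmin i (by simpa using hi)
      omega
  have hreg' : ∀ i, (toO w).Reg (P' i) := hreg
  choose a ha using fun i => CstL.red_const w hw (p' i) (by
    have := hreg i
    rw [hP'] at this
    exact this)
  obtain ⟨A, hA⟩ : ∃ A : Fin r → KK, A = fun i => algebraMap Ω KK (a i) := ⟨_, rfl⟩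
  have hAmem : ∀ i, A i ∈ Kc Ω X' := fun i => by rw [hA]; exact (Kc Ω X').algebraMap_mem _
  have hAreg : ∀ i, (toO w).Reg (A i) := fun i => CstL.reg_mem w (hAmem i)
  have hXmem : ∀ i, X' i ∈ Kc Ω X' := fun i => IntermediateField.subset_adjoin _ _ ⟨i, rfl⟩
  have hXreg : ∀ i, (toO w).Reg (X' i) := fun i => CstL.reg_mem w (hXmem i)
  have hPA : ∀ i, (toO w).red (P' i) = (toO w).red (A i) := by
    intro i
    refine toO_red w (hreg i) (hAreg i) ?_
    rw [hP', hA]
    exact ha i
  have ha0 : a ≠ 0 := by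
    intro h
    have h1 := hPA i0
    have h2 : P' i0 = 1 := by
      rw [hP', hp']
      show algebraMap κ KK (p i0 / p i0) = 1
      rw [div_self hi0, map_one]
    have h3 : A i0 = 0 := by
      rw [hA, h]
      exact map_zero _
    rw [h2, h3, Place.red_one, Place.red_zero] at h1
    exact one_ne_zero h1
  have hP'F : aeval P' F = 0 := by
    have h1 : aeval p' F = 0 := by
      have h2 : aeval (fun i => p i0 * p' i) F = p i0 ^ 3 * aeval p' F := aeval_smul_hom hF _ _
      rw [← funext ep, hpF] at h2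
      exact (mul_eq_zero.1 h2.symm).resolve_left (pow_ne_zero _ hi0)
    have h2 := aeval_algebraMap_apply (σ := Fin r) (A := κ) KK p' F
    rw [h1, map_zero] at h2
    rw [hP']
    exact h2
  have hAF : aeval A F = 0 := by
    refine toO_ne w ?_ ?_
    · have h2 := aeval_algebraMap_apply (σ := Fin r) (A := Ω) KK a F
      rw [hA]
      show aeval (algebraMap Ω KK ∘ a) F ∈ _
      have h3 : aeval (algebraMap Ω KK ∘ a) F = algebraMap Ω KK (aeval a F) := h2
      rw [h3]
      exact (Kc Ω X').algebraMap_mem _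
    · rw [(LwL.red_aeval (toO w) A F hAreg).2, ← funext hPA,
        ← (LwL.red_aeval (toO w) P' F hreg').2, hP'F, Place.red_zero]
  have hXF := cone_on hX
  have hpolmem : pol F X' A ∈ Kc Ω X' := by
    unfold pol
    refine sum_mem fun i _ => mul_mem (hXmem i) ?_
    have h2 := aeval_algebraMap_apply (σ := Fin r) (A := Ω) KK a (pderiv i F)
    rw [hA]
    have h3 : aeval (fun i => algebraMap Ω KK (a i)) (pderiv i F) =
      algebraMap Ω KK (aeval a (pderiv i F)) := h2
    rw [h3]
    exact (Kc Ω X').algebraMap_mem _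
  have hpolA : pol F X' A ≠ 0 := by
    rw [hA]
    exact pol_ne hF hsm hX ha0
  obtain ⟨hpr, hpe⟩ := LwL.red_pol (toO w) X' P' hXreg hreg' F
  have hpe2 := (LwL.red_pol (toO w) X' A hXreg hAreg F).2
  rw [funext hPA, ← hpe2] at hpe
  have hpolP : (toO w).red (pol F X' P') ≠ 0 := by
    rw [hpe]
    exact fun h => hpolA (toO_ne w hpolmem h)
  have unit : ∀ u : KK, (toO w).Reg u → (toO w).red u ≠ 0 → u ≠ 0 ∧ w.ord u = 0 := by
    intro u hu h
    rw [Ne, (toO w).red_eq_zero_iff hu] at h
    push Not at h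
    exact ⟨h.1, le_antisymm h.2 (((toO w).reg_iff h.1).1 hu)⟩
  obtain ⟨hpn, hpo⟩ := unit _ hpr hpolP
  have ePP : (fun i => algebraMap κ KK (p i)) = fun i => algebraMap κ KK (p i0) * P' i := by
    funext i
    rw [hP']
    show _ = algebraMap κ KK (p i0) * algebraMap κ KK (p' i)
    rw [← map_mul, ← ep]
  refine ⟨w.ord (algebraMap κ KK (p i0)), ?_, ?_⟩
  · rw [ePP, pol_smul_right hF, w.ord_mul (pow_ne_zero _ hc0) hpn, w.ord_pow, hpo]
    push_cast
    ring
  intro e g hg hgX
  obtain ⟨T, hT⟩ : ∃ T : Fin r → KK, T = third F X' P' := ⟨_, rfl⟩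
  have eT : third F X' (fun i => algebraMap κ KK (p i)) =
      fun i => algebraMap κ KK (p i0) ^ 2 * T i := by
    funext i
    have h1 := third_smul hF 1 (algebraMap κ KK (p i0)) X' P' i
    simp only [one_mul, one_pow] at h1
    rw [ePP, hT]
    exact h1
  rw [eT, aeval_smul_hom hg]
  have hTF : aeval T F = 0 := by rw [hT]; exact third_on hF X' P' hXF hP'F
  have hTr : ∀ i, (toO w).Reg (T i) := fun i => by
    rw [hT]; exact (LwL.red_third (toO w) X' P' hXreg hreg' F i).1
  obtain ⟨T1, hT1⟩ : ∃ T1 : Fin r → KK, T1 = third F X' A := ⟨_, rfl⟩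
  have hTred : ∀ i, (toO w).red (T i) = (toO w).red (T1 i) := by
    intro i
    rw [hT, hT1, (LwL.red_third (toO w) X' P' hXreg hreg' F i).2,
      (LwL.red_third (toO w) X' A hXreg hAreg F i).2, funext hPA]
  -- the decomposition
  obtain ⟨n, c, m, hmh, hli, hdec⟩ := decomp2 (Ω := Ω) (X' := X') g hg
  have hdecT : aeval T g = ∑ j, algebraMap κ KK (c j) * aeval T (m j) := by
    have h1 := (hX.1 (g - ∑ j, C (c j) * map (algebraMap Ω κ) (m j))).1 (by
      rw [map_sub, map_sum, hdec, sub_eq_zero]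
      refine Finset.sum_congr rfl fun j _ => ?_
      rw [map_mul, aeval_C, aeval_map_algebraMap])
    obtain ⟨Q, hQ⟩ := h1
    have h2 := congrArg (aeval T) hQ
    rw [map_mul, aeval_map_algebraMap, hTF, zero_mul, map_sub, map_sum, sub_eq_zero] at h2
    rw [h2]
    refine Finset.sum_congr rfl fun j _ => ?_
    rw [map_mul, aeval_C, aeval_map_algebraMap]
  have hcne : ∃ j, c j ≠ 0 := by
    by_contra h
    push Not at h
    apply hgX
    rw [hdec]
    refine Finset.sum_eq_zero fun j _ => ?_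
    rw [h j, map_zero, zero_mul]
  obtain ⟨j1, hj1⟩ := hcne
  obtain ⟨j0, hj0, hjmin⟩ := Finset.exists_min_image (Finset.univ.filter fun j => c j ≠ 0)
    (fun j => w.ord (algebraMap κ KK (c j))) ⟨j1, by simpa using hj1⟩
  have hj0 : c j0 ≠ 0 := (Finset.mem_filter.1 hj0).2
  have hd0 : algebraMap κ KK (c j0) ≠ 0 := inj hj0
  have hbreg : ∀ j, w.Reg (algebraMap κ KK (c j / c j0)) := by
    intro j
    by_cases hj : c j = 0
    · left; rw [hj, zero_div, map_zero]
    · right
      rw [map_div₀, w.ord_div (inj hj) hd0]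
      have := hjmin j (by simpa using hj)
      omega
  have hbreg' : ∀ j, (toO w).Reg (algebraMap κ KK (c j / c j0)) := hbreg
  choose α hα using fun j => CstL.red_const w hw (c j / c j0) (hbreg j)
  have hα' : ∀ j, (toO w).red (algebraMap κ KK (c j / c j0)) = algebraMap Ω (toO w).RF (α j) := by
    intro j
    exact toO_red w (hbreg j) (CstL.reg_omega w _) (hα j)
  have hα0 : α j0 ≠ 0 := by
    intro h
    have h1 := hα' j0
    rw [div_self hj0, h, map_one, map_zero, Place.red_one] at h1
    exact one_ne_zero h1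
  obtain ⟨h, hh⟩ : ∃ h : MvPolynomial (Fin r) Ω, h = ∑ j, C (α j) * m j := ⟨_, rfl⟩
  have hhom : h.IsHomogeneous e := by
    rw [hh]
    refine IsHomogeneous.sum _ _ _ fun j _ => (hmh j).C_mul _
  -- sums at regular points
  have claim : ∀ Y : Fin r → KK, (∀ i, (toO w).Reg (Y i)) →
      (toO w).Reg (∑ j, algebraMap κ KK (c j / c j0) * aeval Y (m j)) ∧
      (toO w).red (∑ j, algebraMap κ KK (c j / c j0) * aeval Y (m j)) =
        aeval (fun i => (toO w).red (Y i)) h := by
    intro Y hY
    have h1 : ∀ S : Finset (Fin n),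
        (toO w).Reg (∑ j ∈ S, algebraMap κ KK (c j / c j0) * aeval Y (m j)) ∧
        (toO w).red (∑ j ∈ S, algebraMap κ KK (c j / c j0) * aeval Y (m j)) =
          aeval (fun i => (toO w).red (Y i)) (∑ j ∈ S, C (α j) * m j) := by
      intro S
      induction S using Finset.induction_on with
      | empty => simp [Place.reg_zero, Place.red_zero]
      | insert j S hj ih =>
        rw [Finset.sum_insert hj, Finset.sum_insert hj]
        have h2 := LwL.red_aeval (toO w) Y (m j) hY
        have h3 := (toO w).reg_mul (hbreg' j) h2.1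
        refine ⟨(toO w).reg_add h3 ih.1, ?_⟩
        rw [(toO w).red_add h3 ih.1, (toO w).red_mul (hbreg' j) h2.1, ih.2, hα', h2.2, map_add,
          map_mul, aeval_C]
    rw [hh]
    exact h1 Finset.univ
  have hmemh : ∀ Y : Fin r → KK, (∀ i, Y i ∈ Kc Ω X') → ∀ G : MvPolynomial (Fin r) Ω,
      aeval Y G ∈ Kc Ω X' := by
    intro Y hY G
    induction G using MvPolynomial.induction_on with
    | C z => rw [aeval_C]; exact (Kc Ω X').algebraMap_mem _
    | add f f' h1 h2 => rw [map_add]; exact add_mem h1 h2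
    | mul_X f i h1 => rw [map_mul, aeval_X]; exact mul_mem h1 (hY i)
  have hhX : aeval X' h ≠ 0 := by
    intro h0
    apply hα0
    refine Fintype.linearIndependent_iff.1 hli α ?_ j0
    rw [← h0, hh, map_sum]
    refine Finset.sum_congr rfl fun j _ => ?_
    rw [map_mul, aeval_C, Algebra.smul_def]
  have hpolmem2 : ∀ Y Y' : Fin r → KK, (∀ i, Y i ∈ Kc Ω X') → (∀ i, Y' i ∈ Kc Ω X') →
      pol F Y Y' ∈ Kc Ω X' := fun Y Y' h1 h2 =>
    sum_mem fun i _ => mul_mem (h1 i) (hmemh Y' h2 _)
  have hT1mem : ∀ i, T1 i ∈ Kc Ω X' := by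
    intro i
    rw [hT1]
    exact sub_mem (mul_mem (hpolmem2 _ _ hXmem hAmem) (hXmem i))
      (mul_mem (hpolmem2 _ _ hAmem hXmem) (hAmem i))
  have hT1F : aeval T1 F = 0 := by rw [hT1]; exact third_on hF X' A hXF hAF
  have hhT : aeval T1 h ≠ 0 := by
    intro h0
    have e1 : ∀ Y : Fin r → KK, aeval Y (aeval (third F (fun i => (X i : MvPolynomial (Fin r) Ω))
        (fun i => C (a i))) h) = aeval (third F Y A) h := by
      intro Y
      rw [comp_aeval_apply]
      congr 2
      funext i
      rw [map_third]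
      congr 1
      · funext j
        rw [aeval_X]
      · rw [hA]
        funext j
        rw [aeval_C]
    have h1 : aeval X' (aeval (third F (fun i => (X i : MvPolynomial (Fin r) Ω))
        (fun i => C (a i))) h) = 0 := by rw [e1, ← hT1, h0]
    have h2 := cone_dvd hX h1 hT1F
    rw [e1] at h2
    have h3 : third F T1 A = fun i => pol F X' A ^ 3 * X' i := by
      funext i
      rw [hT1]
      exact third_third hF X' A hAF i
    rw [h3, aeval_smul_hom hhom] at h2
    rcases mul_eq_zero.1 h2 with h4 | h4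
    · exact pow_ne_zero _ (pow_ne_zero _ hpolA) h4
    · exact hhX h4
  have factor : ∀ Y : Fin r → KK, ∑ j, algebraMap κ KK (c j) * aeval Y (m j) =
      algebraMap κ KK (c j0) * ∑ j, algebraMap κ KK (c j / c j0) * aeval Y (m j) := by
    intro Y
    rw [Finset.mul_sum]
    refine Finset.sum_congr rfl fun j _ => ?_
    rw [← mul_assoc, ← map_mul, mul_div_cancel₀ _ hj0]
  obtain ⟨r1, s1⟩ := claim X' hXreg
  obtain ⟨r2, s2⟩ := claim T hTr
  obtain ⟨n1, o1⟩ := unit _ r1 (by
    rw [s1, ← (LwL.red_aeval (toO w) X' h hXreg).2]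
    exact fun h0 => hhX (toO_ne w (hmemh X' hXmem h) h0))
  obtain ⟨n2, o2⟩ := unit _ r2 (by
    rw [s2, funext hTred, ← (LwL.red_aeval (toO w) T1 h (fun i => CstL.reg_mem w (hT1mem i))).2]
    exact fun h0 => hhT (toO_ne w (hmemh T1 hT1mem h) h0))
  rw [hdecT, factor T, hdec, factor X', w.ord_mul (pow_ne_zero _ (pow_ne_zero _ hc0))
    (mul_ne_zero hd0 n2), w.ord_mul hd0 n2, w.ord_mul hd0 n1, o1, o2, w.ord_pow, w.ord_pow]
  push_cast
  ring

end

end Pool.Agent.Helper93K9.PAR
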