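import Mathlib
import Pool.Agent.Helper93K9.PAR.Defs3

/-! # Parity along curves, job RCV: the reduction of a point moving in a curve -/

set_option autoImplicit false

namespace Pool.Agent.Helper93K9.PAR

open MvPolynomial Module FF

namespace RcvL

theorem red_div {Ω E : Type} [Field Ω] [Field E] [Algebra Ω E] (w : Place Ω E) {f g : E}
    (hf : w.Reg f) (hg : w.Reg g) (h : w.red g ≠ 0) :
    w.Reg (f / g) ∧ w.red (f / g) = w.red f / w.red g := by
  have h1 := mt (w.red_eq_zero_iff hg).2 h
  push Not at h1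
  have h2 : w.Reg g⁻¹ := by
    right
    rw [w.ord_inv]
    have := (w.reg_iff h1.1).1 hg
    omega
  have h3 : w.Reg (f / g) := by
    rw [div_eq_mul_inv]
    exact w.reg_mul hf h2
  refine ⟨h3, ?_⟩
  rw [eq_div_iff h, ← w.red_mul h3 hg, div_mul_cancel₀ _ h1.1]

end RcvL

/-- the reduction of a point moving in a curve moves in a curve -/
theorem rcv : S_RES → S_RCV := by
  intro hres Ω K E _ _ _ _ _ _ _ _ _ _ P w ϖ h0 h1 hr hw r p hp hc i j a b hi
  beta_reduce at hi
  have hj : w.red (p j) ≠ 0 := by
    intro h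
    have h2 := hi.transcendental 0
    apply h2
    rw [Matrix.cons_val_zero, h, div_zero]
    exact isAlgebraic_zero
  have hb : w.red (p b) ≠ 0 := by
    intro h
    have h2 := hi.transcendental 1
    apply h2
    rw [Matrix.cons_val_one, Matrix.cons_val_zero, h, div_zero]
    exact isAlgebraic_zero
  obtain ⟨r1, e1⟩ := RcvL.red_div w (hp i) (hp j) hj
  obtain ⟨r2, e2⟩ := RcvL.red_div w (hp a) (hp b) hb
  obtain ⟨-, h3⟩ := hres Ω K E P w ϖ h0 h1 hr hw
  have h4 := (h3 2 ![p i / p j, p a / p b] (by
    intro l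
    fin_cases l
    · exact r1
    · exact r2)).2
  apply hc i j a b
  apply h4
  have e3 : (fun l => w.red ((![p i / p j, p a / p b] : Fin 2 → E) l)) =
      ![w.red (p i) / w.red (p j), w.red (p a) / w.red (p b)] := by
    funext l
    fin_cases l
    · exact e1
    · exact e2
  rw [e3]
  exact hi

end Pool.Agent.Helper93K9.PAR
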