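import Mathlib
import Pool.Agent.Helper93K9.PAR.Defs3

/-! # Parity along curves, job RES: residues at a place over a place of a function field -/

set_option autoImplicit false
set_option linter.unusedSectionVars false

namespace Pool.Agent.Helper93K9.PAR

open MvPolynomial Module FF

namespace ResL

noncomputable section

section
variable {Ω K E : Type} [Field Ω] [Field K] [Field E] [Algebra Ω K]
    [Algebra K E] [Algebra Ω E] [IsScalarTower Ω K E]

/-- the reduction of polynomials over the constants -/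
theorem red_aeval (w : Place Ω E) {s : ℕ} (y : Fin s → E) (hy : ∀ j, w.Reg (y j))
    (p : MvPolynomial (Fin s) Ω) :
    w.Reg (aeval y p) ∧ w.red (aeval y p) = aeval (fun j => w.red (y j)) p := by
  induction p using MvPolynomial.induction_on with
  | C a =>
    rw [aeval_C, aeval_C]
    exact ⟨w.reg_const a, rfl⟩
  | add p q hp hq =>
    rw [map_add, map_add]
    exact ⟨w.reg_add hp.1 hq.1, by rw [w.red_add hp.1 hq.1, hp.2, hq.2]⟩
  | mul_X p j hp =>
    rw [map_mul, map_mul, aeval_X, aeval_X]
    exact ⟨w.reg_mul hp.1 (hy j), by rw [w.red_mul hp.1 (hy j), hp.2]⟩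

end

section
variable {Ω K E : Type} [Field Ω] [IsAlgClosed Ω] [CharZero Ω] [Field K] [Field E] [Algebra Ω K]
    [Algebra K E] [Algebra Ω E] [IsScalarTower Ω K E] [IsFF Ω K]

/-- residues at a place of a function field over an algebraically closed field are constants -/
theorem const_bij (P : Place Ω K) : Function.Bijective (algebraMap Ω P.RF) :=
  IsAlgClosed.algebraMap_bijective_of_isIntegral

/-- the residue of a regular function as a constant -/
def rho (P : Place Ω K) : P.O →+* Ω :=
  (RingEquiv.ofBijective (algebraMap Ω P.RF) (const_bij P)).symm.toRingHom.comp P.resHom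

theorem rho_spec (P : Place Ω K) (a : P.O) : algebraMap Ω P.RF (rho P a) = P.resHom a :=
  (RingEquiv.ofBijective (algebraMap Ω P.RF) (const_bij P)).apply_symm_apply (P.resHom a)

theorem rho_red (P : Place Ω K) (a : P.O) : algebraMap Ω P.RF (rho P a) = P.red a.1 := by
  rw [rho_spec, P.red_of_reg a.2]

theorem rho_ne (P : Place Ω K) (a : P.O) : rho P a ≠ 0 ↔ a.1 ≠ 0 ∧ P.ord a.1 = 0 := by
  have h1 : rho P a = 0 ↔ P.red a.1 = 0 := by
    rw [← rho_red]
    exact (map_eq_zero (algebraMap Ω P.RF)).symm
  rw [Ne, h1, P.red_eq_zero_iff a.2]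
  by_cases h0 : a.1 = 0
  · simp [h0]
  · have := (P.reg_iff h0).1 a.2
    simp only [h0, false_or, ne_eq, not_false_eq_true, true_and]
    omega

theorem rho_const (P : Place Ω K) (c : Ω) : rho P ⟨algebraMap Ω K c, P.reg_const c⟩ = c := by
  apply (const_bij P).1
  rw [rho_red, P.algebraMap_RF]

variable (P : Place Ω K) (w : Place Ω E) {ϖ : K} (h0 : ϖ ≠ 0) (h1 : P.ord ϖ = 1)
    (hr : ∀ a : K, P.Reg a → w.Reg (algebraMap K E a)) (hw : 0 < w.ord (algebraMap K E ϖ))

include h0 h1 hr hw

/-- functions which vanish at `P` vanish at `w` -/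
theorem ord_pos {a : K} (ha : a ≠ 0) (hp : 0 < P.ord a) : 0 < w.ord (algebraMap K E a) := by
  have h2 : P.Reg (a / ϖ) := Or.inr (by rw [P.ord_div ha h0]; omega)
  have h3 := (w.reg_iff (by
    rw [Ne, map_eq_zero]
    exact div_ne_zero ha h0)).1 (hr _ h2)
  rw [map_div₀, w.ord_div (by rwa [Ne, map_eq_zero]) (by rwa [Ne, map_eq_zero])] at h3
  omega

/-- the residue at `w` of a function regular at `P` -/
theorem red_eq (a : P.O) : w.red (algebraMap K E a.1) = algebraMap Ω w.RF (rho P a) := by
  have h2 : P.Reg (a.1 - algebraMap Ω K (rho P a)) := by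
    rw [sub_eq_add_neg]
    exact P.reg_add a.2 (P.reg_neg (P.reg_const _))
  have h3 : P.red (a.1 - algebraMap Ω K (rho P a)) = 0 := by
    rw [P.red_sub a.2 (P.reg_const _), ← P.algebraMap_RF, rho_red, sub_self]
  have h4 : w.red (algebraMap K E (a.1 - algebraMap Ω K (rho P a))) = 0 := by
    rw [w.red_eq_zero_iff (hr _ h2)]
    rcases (P.red_eq_zero_iff h2).1 h3 with h | h
    · left
      rw [h, map_zero]
    · by_cases h5 : a.1 - algebraMap Ω K (rho P a) = 0
      · left
        rw [h5, map_zero]
      · right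
        exact ord_pos P w h0 h1 hr hw h5 h
  rw [map_sub, ← IsScalarTower.algebraMap_apply, w.red_sub (hr _ a.2) (w.reg_const _),
    ← w.algebraMap_RF, sub_eq_zero] at h4
  exact h4

/-- reduction of polynomials with coefficients regular at `P` -/
theorem exists_red {s : ℕ} (y : Fin s → E) (hy : ∀ j, w.Reg (y j)) (p : MvPolynomial (Fin s) K)
    (hp : ∀ α, P.Reg (coeff α p)) : ∃ p0 : MvPolynomial (Fin s) Ω,
      (∀ α, coeff α p0 = rho P ⟨coeff α p, hp α⟩) ∧ w.Reg (aeval y p) ∧
      w.red (aeval y p) = aeval (fun j => w.red (y j)) p0 := by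
  classical
  let q : MvPolynomial (Fin s) P.O := ∑ α ∈ p.support, monomial α (⟨coeff α p, hp α⟩ : P.O)
  have hq : map P.O.subtype q = p := by
    rw [map_sum]
    conv_rhs => rw [← support_sum_monomial_coeff p]
    refine Finset.sum_congr rfl fun α _ => ?_
    rw [map_monomial]
    rfl
  have hq2 : ∀ α, coeff α q = ⟨coeff α p, hp α⟩ := by
    intro α
    apply Subtype.ext
    have : P.O.subtype (coeff α q) = coeff α p := by
      rw [← coeff_map, hq]
    exact this
  let ψ : P.O →+* w.O :=
    ((algebraMap K E).comp P.O.subtype).codRestrict w.O.toSubring fun a => hr a.1 a.2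
  let Y : Fin s → w.O := fun j => ⟨y j, hy j⟩
  have e1 : w.O.subtype.comp (eval₂Hom ψ Y) =
      ((aeval y : MvPolynomial (Fin s) K →ₐ[K] E) : MvPolynomial (Fin s) K →+* E).comp
        (map P.O.subtype) := by
    apply MvPolynomial.ringHom_ext
    · intro a
      simp only [RingHom.comp_apply, eval₂Hom_C, map_C, RingHom.coe_coe, aeval_C]
      rfl
    · intro j
      simp only [RingHom.comp_apply, eval₂Hom_X', map_X, RingHom.coe_coe, aeval_X]
      rfl
  have e2 : w.resHom.comp (eval₂Hom ψ Y) =
      ((aeval (fun j => w.red (y j)) : MvPolynomial (Fin s) Ω →ₐ[Ω] w.RF) :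
        MvPolynomial (Fin s) Ω →+* w.RF).comp (map (rho P)) := by
    apply MvPolynomial.ringHom_ext
    · intro a
      simp only [RingHom.comp_apply, eval₂Hom_C, map_C, RingHom.coe_coe, aeval_C]
      rw [← red_eq P w h0 h1 hr hw a, w.red_of_reg (hr a.1 a.2)]
      rfl
    · intro j
      simp only [RingHom.comp_apply, eval₂Hom_X', map_X, RingHom.coe_coe, aeval_X]
      rw [w.red_of_reg (hy j)]
  have e3 : ((eval₂Hom ψ Y q : w.O) : E) = aeval y p := by
    have := congrArg (fun f : MvPolynomial (Fin s) P.O →+* E => f q) e1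
    simp only [RingHom.comp_apply, RingHom.coe_coe, hq] at this
    exact this
  have e4 : w.resHom (eval₂Hom ψ Y q) = aeval (fun j => w.red (y j)) (map (rho P) q) := by
    have := congrArg (fun f : MvPolynomial (Fin s) P.O →+* w.RF => f q) e2
    simpa only [RingHom.comp_apply, RingHom.coe_coe] using this
  have hR : w.Reg (aeval y p) := by
    rw [← e3]
    exact (eval₂Hom ψ Y q).2
  refine ⟨map (rho P) q, fun α => ?_, hR, ?_⟩
  · rw [coeff_map, hq2]
  · rw [← e4, w.red_of_reg hR]
    congr 1
    exact Subtype.ext e3.symm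

end

end

end ResL

/-- residues at a place `w` of `E` over a place `P` of a function field -/
theorem res : S_RES := by
  intro Ω K E _ _ _ _ _ _ _ _ _ _ P w ϖ h0 h1 hr hw
  refine ⟨?_, fun s y hy => ?_⟩
  · ext c
    constructor
    · rintro ⟨a, ha, rfl⟩
      exact ⟨ResL.rho P ⟨a, ha⟩, (ResL.red_eq P w h0 h1 hr hw ⟨a, ha⟩).symm⟩
    · rintro ⟨a, rfl⟩
      refine ⟨algebraMap Ω K a, P.reg_const a, ?_⟩
      rw [← IsScalarTower.algebraMap_apply]
      rfl
  · have key : AlgebraicIndependent Ω (fun j => w.red (y j)) ↔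
        ∀ p : MvPolynomial (Fin s) K, (∀ α, P.Reg (coeff α p)) →
          (∃ α, coeff α p ≠ 0 ∧ P.ord (coeff α p) = 0) → w.red (aeval y p) ≠ 0 := by
      constructor
      · intro hi p hp hα h
        obtain ⟨p0, h2, -, h3⟩ := ResL.exists_red P w h0 h1 hr hw y hy p hp
        obtain ⟨α, hα⟩ := hα
        have h4 : coeff α p0 ≠ 0 := by
          rw [h2, ResL.rho_ne]
          exact hα
        rw [h] at h3
        have h5 := (injective_iff_map_eq_zero _).1 hi p0 h3.symm
        rw [h5, coeff_zero] at h4
        exact h4 rfl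
      · intro h
        refine (injective_iff_map_eq_zero _).2 fun p hp => ?_
        by_contra hne
        obtain ⟨α, hα⟩ := MvPolynomial.ne_zero_iff.1 hne
        refine h (map (algebraMap Ω K) p) (fun β => ?_) ⟨α, ?_, ?_⟩ ?_
        · rw [coeff_map]
          exact P.reg_const _
        · rw [coeff_map, Ne, map_eq_zero]
          exact hα
        · rw [coeff_map, P.ord_const hα]
        · rw [aeval_map_algebraMap, (ResL.red_aeval w y hy p).2, hp]
    refine ⟨key, fun hi => ?_⟩
    refine (injective_iff_map_eq_zero _).2 fun p hp => ?_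
    by_contra hne
    obtain ⟨α, hα, hmin⟩ := Finset.exists_min_image p.support (fun α => P.ord (coeff α p))
      (support_nonempty.2 hne)
    rw [MvPolynomial.mem_support_iff] at hα
    refine key.1 hi (C (coeff α p)⁻¹ * p) (fun β => ?_) ⟨α, ?_, ?_⟩ ?_
    · rw [coeff_C_mul]
      by_cases hβ : coeff β p = 0
      · left
        rw [hβ, mul_zero]
      · right
        rw [P.ord_mul (inv_ne_zero hα) hβ, P.ord_inv]
        have := hmin β (MvPolynomial.mem_support_iff.2 hβ)
        omega
    · rw [coeff_C_mul, inv_mul_cancel₀ hα]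
      exact one_ne_zero
    · rw [coeff_C_mul, inv_mul_cancel₀ hα, P.ord_one]
    · rw [map_mul, hp, mul_zero, w.red_zero]

end Pool.Agent.Helper93K9.PAR
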