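import Pool.Agent.Helper93K9.PAR.Kill

/-! # Job SQA: the fibre over `y_0 = 0` -/

set_option autoImplicit false

namespace Pool.Agent.Helper93K9.PAR

open MvPolynomial Module

theorem sqa_aux (m : ℕ) (k : Type) [Field k] {i j l : Fin (m + 3)} (hij : i ≠ j)
    (hil : l ≠ i) (hjl : j ≠ l) (π : MvPolynomial (Fin (m + 3)) k) (hπ : Prime π)
    (hd : π ∣ X i) (x y : MvPolynomial (Fin (m + 3)) k)
    (h : π ∣ x ^ 2 + X j * cc m k * y ^ 2) : π ∣ y := by
  have has : Associated π (X i) := hπ.associated_of_dvd X_prime hd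
  rw [has.dvd_iff_dvd_left] at h ⊢
  refine X_dvd_of_kill ?_
  have h1 := kill_eq_zero_of_dvd h
  rw [map_add, map_pow, map_mul, map_mul, map_pow, kill_X_notMem (by simpa using hij.symm)] at h1
  refine sq_add_ne_zero (X_prime (i := j)) ?_ h1
  exact X_ndvd_kill_cc m {i} (i := l) (by simpa using hil) hjl

theorem sqa : S_SQA := by
  intro m k _ _
  exact ⟨fun π hπ hd x y h => sqa_aux m k (l := 2) (f01 m) (f20 m) (f21 m).symm π hπ hd x y h,
    fun π hπ hd x y h => sqa_aux m k (l := 2) (f01 m).symm (f21 m) (f20 m).symm π hπ hd x y h⟩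

end Pool.Agent.Helper93K9.PAR
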