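import Pool.Agent.Helper93K9.PAR.Kill

/-! # Job SQC: the fibre over `c = 0` -/

set_option autoImplicit false

namespace Pool.Agent.Helper93K9.PAR

open MvPolynomial Module

noncomputable section

variable {k : Type} [Field k]

/-- `X_i ↦ X_i T` -/
def scl (r : ℕ) (k : Type) [Field k] :
    MvPolynomial (Fin r) k →ₐ[k] Polynomial (MvPolynomial (Fin r) k) :=
  aeval (fun j => Polynomial.C (X j) * Polynomial.X)

theorem scl_one (r : ℕ) (f : MvPolynomial (Fin r) k) : (scl r k f).eval 1 = f := by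
  have h : ((Polynomial.aeval (1 : MvPolynomial (Fin r) k)).restrictScalars k).comp (scl r k) =
      AlgHom.id k _ := by
    refine MvPolynomial.algHom_ext fun j => ?_
    simp [scl]
  have h2 := congrArg (fun g => g f) h
  simpa [Polynomial.aeval_def, Polynomial.eval₂_id] using h2

theorem scl_zero (r : ℕ) (f : MvPolynomial (Fin r) k) :
    (scl r k f).eval 0 = C (constantCoeff f) := by
  induction f using MvPolynomial.induction_on with
  | C a => simp [scl, Polynomial.algebraMap_apply]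
  | add p q hp hq => simp only [map_add, Polynomial.eval_add, hp, hq]
  | mul_X p j hp => simp [scl]

theorem scl_cc (m : ℕ) : scl (m + 3) k (cc m k) = Polynomial.C (cc m k) * Polynomial.X ^ 3 := by
  unfold cc scl
  rw [map_sum, map_sum, Finset.sum_mul]
  refine Finset.sum_congr rfl fun j _ => ?_
  rw [map_pow, aeval_X, mul_pow, map_pow]

/-- a divisor of the cubic form with nonzero constant coefficient is a unit -/
theorem isUnit_of_dvd_cc (m : ℕ) {π : MvPolynomial (Fin (m + 3)) k} (hd : π ∣ cc m k)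
    (h0 : constantCoeff π ≠ 0) (hc : cc m k ≠ 0) : IsUnit π := by
  obtain ⟨h, hh⟩ := hd
  have e1 : scl (m + 3) k π * scl (m + 3) k h = Polynomial.C (cc m k) * Polynomial.X ^ 3 := by
    rw [← map_mul, ← hh, scl_cc]
  have e2 : ¬ (Polynomial.X : Polynomial (MvPolynomial (Fin (m + 3)) k)) ∣ scl (m + 3) k π := by
    rw [Polynomial.X_dvd_iff, Polynomial.coeff_zero_eq_eval_zero, scl_zero]
    simpa using h0
  have e3 : (Polynomial.X : Polynomial (MvPolynomial (Fin (m + 3)) k)) ^ 3 ∣
      scl (m + 3) k π * scl (m + 3) k h := ⟨Polynomial.C (cc m k), by rw [e1]; ring⟩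
  have e4 := (Polynomial.prime_X.pow_dvd_of_dvd_mul_left 3 e2 e3)
  obtain ⟨g, hg⟩ := e4
  have e5 : scl (m + 3) k π * g = Polynomial.C (cc m k) := by
    apply mul_right_cancel₀ (pow_ne_zero 3 Polynomial.X_ne_zero)
    rw [← e1, hg]
    ring
  have hne : scl (m + 3) k π * g ≠ 0 := by
    rw [e5]
    simpa using hc
  have e6 : (scl (m + 3) k π).natDegree + g.natDegree = 0 := by
    rw [← Polynomial.natDegree_mul (left_ne_zero_of_mul hne) (right_ne_zero_of_mul hne), e5,
      Polynomial.natDegree_C]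
  have e7 : (scl (m + 3) k π).natDegree = 0 := by omega
  have e8 := Polynomial.eq_C_of_natDegree_eq_zero e7
  have e9 : π = C (constantCoeff π) := by
    conv_lhs => rw [← scl_one (m + 3) π, e8, Polynomial.eval_C,
      Polynomial.coeff_zero_eq_eval_zero, scl_zero]
  rw [e9]
  exact (IsUnit.mk0 _ h0).map C

/-- a constant of a cubic form in which a variable is killed is squarefree -/
theorem squarefree_kill_cc [CharZero k] (m : ℕ) : Squarefree (kill {0} (cc m k)) := by
  have hdv : ∀ (q : MvPolynomial (Fin (m + 3)) k) (i : Fin (m + 3)), i ≠ 0 →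
      q * q ∣ kill {0} (cc m k) → q ∣ X i ^ 2 := by
    rintro q i hi ⟨w, hw⟩
    have h1 : pderiv i (kill {0} (cc m k)) = C 3 * X i ^ 2 := by
      rw [kill_cc, map_sum, Finset.sum_eq_single i]
      · rw [pderiv_pow, pderiv_X_self]
        simp only [Nat.cast_ofNat, Nat.add_one_sub_one, mul_one]
        congr 1
      · intro j _ hj
        rw [pderiv_pow, pderiv_X_of_ne hj]
        simp
      · intro h
        exact absurd (Finset.mem_compl.2 (by simpa using hi)) h
    have h2 : q ∣ C 3 * X i ^ 2 := by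
      rw [← h1, hw]
      refine ⟨pderiv i q * w * 2 + q * pderiv i w, ?_⟩
      simp only [Derivation.leibniz, smul_eq_mul]
      ring
    obtain ⟨v, hv⟩ := h2
    refine ⟨C (3 : k)⁻¹ * v, ?_⟩
    have h3 : (C (3 : k)⁻¹ : MvPolynomial (Fin (m + 3)) k) * C 3 = 1 := by
      rw [← map_mul, inv_mul_cancel₀ (by norm_num), map_one]
    calc X i ^ 2 = C (3 : k)⁻¹ * C 3 * X i ^ 2 := by rw [h3, one_mul]
      _ = _ := by rw [mul_assoc, hv]; ring
  intro q hq
  have a1 := hdv q 1 (f01 m).symm hq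
  have a2 := hdv q 2 (f20 m) hq
  obtain ⟨i, hi, has⟩ := (dvd_prime_pow X_prime 2).1 a1
  rcases Nat.eq_zero_or_pos i with rfl | hpos
  · rw [pow_zero] at has
    exact associated_one_iff_isUnit.1 has
  · exfalso
    have h1 : (X 1 : MvPolynomial (Fin (m + 3)) k) ∣ X 2 ^ 2 :=
      ((dvd_pow_self _ hpos.ne').trans has.symm.dvd).trans a2
    exact X_ndvd_X (f21 m).symm (X_prime.dvd_of_dvd_pow h1)

theorem sqc : S_SQC := by
  intro m k _ _ π hπ hd x y hxy
  have hc0 : kill {0} (cc m k) ≠ 0 := kill_cc_ne_zero m {0} (i := 1) (by simpa using (f01 m).symm)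
  have hc : cc m k ≠ 0 := by
    intro h
    rw [h, map_zero] at hc0
    exact hc0 rfl
  have hd0 : kill {0} π ∣ kill {0} (cc m k) := map_dvd _ hd
  have hsq : Squarefree (kill {0} π) := (squarefree_kill_cc m).squarefree_of_dvd hd0
  have hrad := hsq.isRadical
  have hπ0 : kill {0} π ≠ 0 := ne_zero_of_dvd_ne_zero hc0 hd0
  have hX0 : ¬ π ∣ X 0 := by
    intro h
    have := (hπ.associated_of_dvd X_prime h).symm.dvd
    exact hπ0 (kill_eq_zero_of_dvd this)
  have hX1 : ¬ (X 1 : MvPolynomial (Fin (m + 3)) k) ∣ kill {0} π := fun h =>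
    X_ndvd_kill_cc m {0} (i := 2) (by simpa using f20 m) (f21 m).symm (h.trans hd0)
  have hrel : IsRelPrime (kill {0} π) (X 1) := by
    rw [isRelPrime_comm]
    exact (Irreducible.isRelPrime_iff_not_dvd X_prime.irreducible).2 hX1
  have hnu : ¬ IsUnit (kill {0} π) := by
    intro hu
    refine hπ.not_isUnit (isUnit_of_dvd_cc m hd ?_ hc)
    obtain ⟨g, hg⟩ := X_dvd_sub_kill 0 π
    have h1 : constantCoeff π = constantCoeff (kill {0} π) := by
      have := congrArg constantCoeff hg
      rw [map_sub, map_mul, constantCoeff_X, zero_mul, sub_eq_zero] at this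
      exact this
    rw [h1]
    exact (hu.map constantCoeff).ne_zero
  -- the descent
  have step : ∀ x y : MvPolynomial (Fin (m + 3)) k, π ∣ x ^ 2 + X 0 * X 1 * y ^ 2 →
      ∃ x' y', π ∣ x' ^ 2 + X 0 * X 1 * y' ^ 2 ∧ π ∣ y - X 0 * y' := by
    intro x y h
    have h1 : kill {0} π ∣ kill {0} x ^ 2 := by
      have := map_dvd (kill {0}) h
      rw [map_add, map_mul, map_mul, kill_X_mem (by simp), zero_mul, zero_mul, add_zero,
        map_pow] at this
      exact this
    obtain ⟨w, hw⟩ := hrad 2 _ h1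
    obtain ⟨a, ha⟩ := X_dvd_sub_kill 0 x
    obtain ⟨b, hb⟩ := X_dvd_sub_kill 0 π
    -- x = π w + X0 x'
    have hx : x - X 0 * (a - b * w) = π * w := by
      linear_combination ha + hw - w * hb
    have h2 : π ∣ X 0 * (X 0 * (a - b * w) ^ 2 + X 1 * y ^ 2) := by
      obtain ⟨v, hv⟩ := h
      refine ⟨v - w * (x + X 0 * (a - b * w)), ?_⟩
      linear_combination hv - (x + X 0 * (a - b * w)) * hx
    have h3 := (hπ.dvd_or_dvd h2).resolve_left hX0
    have h4 : kill {0} π ∣ X 1 * kill {0} y ^ 2 := by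
      have := map_dvd (kill {0}) h3
      rw [map_add, map_mul, map_mul, kill_X_mem (by simp), zero_mul, zero_add, map_pow,
        kill_X_notMem (by simpa using (f01 m).symm)] at this
      exact this
    have h5 := hrel.dvd_of_dvd_mul_left h4
    obtain ⟨w', hw'⟩ := hrad 2 _ h5
    obtain ⟨a', ha'⟩ := X_dvd_sub_kill 0 y
    have hy : y - X 0 * (a' - b * w') = π * w' := by
      linear_combination ha' + hw' - w' * hb
    refine ⟨a - b * w, a' - b * w', ?_, ⟨w', hy⟩⟩
    have h6 : π ∣ X 0 * ((a - b * w) ^ 2 + X 0 * X 1 * (a' - b * w') ^ 2) := by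
      obtain ⟨v, hv⟩ := h3
      refine ⟨v - X 1 * w' * (y + X 0 * (a' - b * w')), ?_⟩
      linear_combination hv - X 1 * (y + X 0 * (a' - b * w')) * hy
    exact (hπ.dvd_or_dvd h6).resolve_left hX0
  have desc : ∀ n : ℕ, ∀ x y : MvPolynomial (Fin (m + 3)) k, π ∣ x ^ 2 + X 0 * X 1 * y ^ 2 →
      ∃ y', π ∣ y - X 0 ^ n * y' := by
    intro n
    induction n with
    | zero => exact fun x y _ => ⟨y, by simp⟩
    | succ n ih =>
      intro x y h
      obtain ⟨x', y', h1, h2⟩ := step x y h
      obtain ⟨y'', h3⟩ := ih x' y' h1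
      refine ⟨y'', ?_⟩
      have : y - X 0 ^ (n + 1) * y'' = (y - X 0 * y') + X 0 * (y' - X 0 ^ n * y'') := by ring
      rw [this]
      exact dvd_add h2 (h3.mul_left _)
  have hprime : (Ideal.span {π}).IsPrime := (Ideal.span_singleton_prime hπ.ne_zero).2 hπ
  have hI : (Ideal.span {Ideal.Quotient.mk (Ideal.span {π}) (X 0)}) ≠ ⊤ := by
    intro h
    have h1 : (1 : MvPolynomial (Fin (m + 3)) k ⧸ Ideal.span {π}) ∈
        Ideal.span {Ideal.Quotient.mk (Ideal.span {π}) (X 0)} := by rw [h]; trivial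
    obtain ⟨z, hz⟩ := Ideal.mem_span_singleton.1 h1
    obtain ⟨z', rfl⟩ := Ideal.Quotient.mk_surjective z
    rw [← map_mul, ← map_one (Ideal.Quotient.mk (Ideal.span {π})), Ideal.Quotient.eq,
      Ideal.mem_span_singleton] at hz
    have := map_dvd (kill {0}) hz
    rw [map_sub, map_one, map_mul, kill_X_mem (by simp), zero_mul, sub_zero] at this
    exact hnu (isUnit_of_dvd_one this)
  have hbot := Ideal.iInf_pow_eq_bot_of_isDomain _ hI
  have hy : Ideal.Quotient.mk (Ideal.span {π}) y ∈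
      (⨅ n : ℕ, (Ideal.span {Ideal.Quotient.mk (Ideal.span {π}) (X 0)}) ^ n) := by
    rw [Ideal.mem_iInf]
    intro n
    obtain ⟨y', hy'⟩ := desc n x y hxy
    rw [Ideal.span_singleton_pow, Ideal.mem_span_singleton]
    refine ⟨Ideal.Quotient.mk _ y', ?_⟩
    rw [← map_pow, ← map_mul, Ideal.Quotient.eq, Ideal.mem_span_singleton]
    exact hy'
  rw [hbot, Ideal.mem_bot, Ideal.Quotient.eq_zero_iff_mem, Ideal.mem_span_singleton] at hy
  exact hy

end

end Pool.Agent.Helper93K9.PAR
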