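import Mathlib
import Pool.Agent.Helper93K9.PAR.Defs2
import Pool.Agent.Helper93K9.PAR.Basic

/-! # Parity along curves: points on the cone -/

set_option autoImplicit false

namespace Pool.Agent.Helper93K9.PAR

open MvPolynomial Module FF

noncomputable section

/-- the field of rational functions in one variable -/
abbrev NN (M : Type) [Field M] : Type := FractionRing (Polynomial M)

/-- the point `s x` on the cone -/
def cpt {M : Type} [Field M] {r : ℕ} (x : Fin r → M) : Fin r → NN M :=
  fun i => algebraMap (Polynomial M) (NN M) (Polynomial.X * Polynomial.C (x i))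

/-- the coordinate `s` -/
def sN (M : Type) [Field M] : NN M := algebraMap (Polynomial M) (NN M) Polynomial.X

theorem sN_ne (M : Type) [Field M] : sN M ≠ 0 := by
  unfold sN
  rw [Ne, map_eq_zero_iff _ (IsFractionRing.injective (Polynomial M) (NN M))]
  exact Polynomial.X_ne_zero

theorem cpt_eq {M : Type} [Field M] {r : ℕ} (x : Fin r → M) (i : Fin r) :
    cpt x i = sN M * algebraMap M (NN M) (x i) := by
  unfold cpt sN
  rw [map_mul]
  rfl

section
variable {k M : Type} [Field k] [Field M] [Algebra k M] {r : ℕ}

theorem aeval_cpt (x : Fin r → M) {e : ℕ} {H : MvPolynomial (Fin r) k} (hH : H.IsHomogeneous e) :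
    aeval (cpt x) H = sN M ^ e * algebraMap M (NN M) (aeval x H) := by
  have h1 : cpt x = fun i => sN M * algebraMap M (NN M) (x i) := funext fun i => cpt_eq x i
  rw [h1, aeval_smul_hom hH]
  congr 1
  have h2 := comp_aeval_apply (φ := IsScalarTower.toAlgHom k M (NN M)) x H
  exact h2.symm

theorem cpt_hom_zero (x : Fin r → M) {e : ℕ} {H : MvPolynomial (Fin r) k}
    (hH : H.IsHomogeneous e) : aeval (cpt x) H = 0 ↔ aeval x H = 0 := by
  rw [aeval_cpt x hH, mul_eq_zero, or_iff_right (pow_ne_zero _ (sN_ne M)),
    map_eq_zero_iff _ (algebraMap M (NN M)).injective]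

theorem cpt_zero (x : Fin r → M) (g : MvPolynomial (Fin r) k) :
    aeval (cpt x) g = 0 ↔ ∀ e, aeval x (homogeneousComponent e g) = 0 := by
  classical
  constructor
  · intro h e
    have h1 : aeval (cpt x) g = algebraMap (Polynomial M) (NN M)
        (∑ e ∈ Finset.range (g.totalDegree + 1),
          Polynomial.X ^ e * Polynomial.C (aeval x (homogeneousComponent e g))) := by
      conv_lhs => rw [← sum_homogeneousComponent g]
      rw [map_sum, map_sum]
      refine Finset.sum_congr rfl fun e _ => ?_
      rw [aeval_cpt x (homogeneousComponent_isHomogeneous e g), map_mul, map_pow]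
      rfl
    rw [h1, map_eq_zero_iff _ (IsFractionRing.injective (Polynomial M) (NN M))] at h
    by_cases he : e ∈ Finset.range (g.totalDegree + 1)
    · have h2 := congrArg (fun p => Polynomial.coeff p e) h
      simp only [Polynomial.finsetSum_coeff, Polynomial.coeff_zero] at h2
      rw [Finset.sum_eq_single e] at h2
      · rwa [Polynomial.coeff_X_pow_mul', if_pos le_rfl, Nat.sub_self, Polynomial.coeff_C_zero] at h2
      · intro b _ hb
        rw [mul_comm, Polynomial.coeff_C_mul, Polynomial.coeff_X_pow, if_neg hb.symm, mul_zero]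
      · intro h
        exact absurd he h
    · rw [homogeneousComponent_eq_zero e g (by rw [Finset.mem_range] at he; omega), map_zero]
  · intro h
    rw [← sum_homogeneousComponent g, map_sum]
    refine Finset.sum_eq_zero fun e _ => ?_
    rw [cpt_hom_zero x (homogeneousComponent_isHomogeneous e g)]
    exact h e

/-- the kernel of evaluation at `s x` is homogeneous -/
theorem cpt_comp (x : Fin r → M) (g : MvPolynomial (Fin r) k) (h : aeval (cpt x) g = 0) (e : ℕ) :
    aeval (cpt x) (homogeneousComponent e g) = 0 := by
  rw [cpt_hom_zero x (homogeneousComponent_isHomogeneous e g)]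
  exact (cpt_zero x g).1 h e

/-- a generic point gives a generic point of the cone -/
theorem cpt_gen {F : MvPolynomial (Fin r) k} (hF : F.IsHomogeneous 3) {x : Fin r → M}
    (hx : Gen F x) (H : MvPolynomial (Fin r) k) : aeval (cpt x) H = 0 ↔ F ∣ H := by
  constructor
  · intro h
    rw [cpt_zero] at h
    rw [← sum_homogeneousComponent H]
    exact Finset.dvd_sum fun e _ => hx.2 e _ (homogeneousComponent_isHomogeneous e H) (h e)
  · rintro ⟨Q, rfl⟩
    rw [map_mul, (cpt_hom_zero x hF).2 hx.1, zero_mul]

end

end

end Pool.Agent.Helper93K9.PAR
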