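import Mathlib
import Pool.Agent.Helper93K9.PAR.Cpt

/-! # Parity along curves: the reflection on the coordinate ring of the cone -/

set_option autoImplicit false

namespace Pool.Agent.Helper93K9.PAR

open MvPolynomial Module FF

noncomputable section

section
variable {Ω κ : Type} [Field Ω] [Field κ] [Algebra Ω κ] {r : ℕ}

/-- the polar linear form -/
def lP (F : MvPolynomial (Fin r) Ω) (p : Fin r → κ) : MvPolynomial (Fin r) κ :=
  pol F (fun i => (X i : MvPolynomial (Fin r) κ)) (fun i => C (p i))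

/-- the reflection -/
def TP (F : MvPolynomial (Fin r) Ω) (p : Fin r → κ) : Fin r → MvPolynomial (Fin r) κ :=
  third F (fun i => (X i : MvPolynomial (Fin r) κ)) (fun i => C (p i))

theorem lP_eq (F : MvPolynomial (Fin r) Ω) (p : Fin r → κ) :
    lP F p = ∑ i, X i * C (aeval p (pderiv i F)) := by
  unfold lP pol
  refine Finset.sum_congr rfl fun i _ => ?_
  congr 1
  have h := comp_aeval_apply (φ := IsScalarTower.toAlgHom Ω κ (MvPolynomial (Fin r) κ)) p
    (pderiv i F)
  exact h.symm

theorem lP_hom (F : MvPolynomial (Fin r) Ω) (p : Fin r → κ) : (lP F p).IsHomogeneous 1 := by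
  rw [lP_eq]
  refine IsHomogeneous.sum _ _ _ fun i _ => ?_
  exact (isHomogeneous_X κ i).mul (isHomogeneous_C _ _)

theorem lP_coeff (F : MvPolynomial (Fin r) Ω) (p : Fin r → κ) (i : Fin r) :
    coeff (Finsupp.single i 1) (lP F p) = aeval p (pderiv i F) := by
  classical
  rw [lP_eq, coeff_sum, Finset.sum_eq_single i]
  · rw [mul_comm, coeff_C_mul, coeff_X, if_pos rfl, mul_one]
  · intro b _ hb
    rw [mul_comm, coeff_C_mul, coeff_X, if_neg, mul_zero]
    intro h
    exact hb ((Finsupp.single_left_inj one_ne_zero).1 h)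
  · intro h
    exact absurd (Finset.mem_univ i) h

theorem lP_ne {F : MvPolynomial (Fin r) Ω} {p : Fin r → κ} (hp : p ≠ 0)
    (hsm : ∀ z : Fin r → κ, (∀ i, aeval z (pderiv i F) = 0) → z = 0) : lP F p ≠ 0 := by
  intro h
  apply hp
  apply hsm
  intro i
  rw [← lP_coeff, h, coeff_zero]

theorem qP_hom {F : MvPolynomial (Fin r) Ω} (hF : F.IsHomogeneous 3) (p : Fin r → κ) :
    (pol F (fun i => (C (p i) : MvPolynomial (Fin r) κ)) (fun i => X i)).IsHomogeneous 2 := by
  unfold pol
  refine IsHomogeneous.sum _ _ _ fun i _ => ?_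
  have h1 : (aeval (fun i => (X i : MvPolynomial (Fin r) κ)) (pderiv i F)).IsHomogeneous 2 := by
    have h2 : aeval (fun i => (X i : MvPolynomial (Fin r) κ)) (pderiv i F) =
        map (algebraMap Ω κ) (pderiv i F) := by
      rw [← aeval_map_algebraMap κ (fun i => (X i : MvPolynomial (Fin r) κ)) (pderiv i F)]
      exact aeval_X_left_apply _
    rw [h2]
    exact (hF.pderiv (i := i)).map _
  have h3 := (isHomogeneous_C (Fin r) (p i)).mul h1
  rwa [zero_add] at h3

theorem TP_hom {F : MvPolynomial (Fin r) Ω} (hF : F.IsHomogeneous 3) (p : Fin r → κ) (i : Fin r) :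
    (TP F p i).IsHomogeneous 2 := by
  unfold TP third
  refine IsHomogeneous.sub ?_ ?_
  · exact (lP_hom F p).mul (isHomogeneous_X κ i)
  · exact (qP_hom hF p).mul (isHomogeneous_C _ _)

theorem aeval_lP {S : Type} [CommRing S] [Algebra κ S] [Algebra Ω S] [IsScalarTower Ω κ S]
    (F : MvPolynomial (Fin r) Ω) (p : Fin r → κ) (y : Fin r → S) :
    aeval y (lP F p) = pol F y (fun i => algebraMap κ S (p i)) := by
  have h := map_pol ((aeval y : MvPolynomial (Fin r) κ →ₐ[κ] S).restrictScalars Ω) F
    (fun i => (X i : MvPolynomial (Fin r) κ)) (fun i => C (p i))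
  simp only [AlgHom.restrictScalars_apply, aeval_X, aeval_C] at h
  exact h

theorem aeval_TP {S : Type} [CommRing S] [Algebra κ S] [Algebra Ω S] [IsScalarTower Ω κ S]
    (F : MvPolynomial (Fin r) Ω) (p : Fin r → κ) (y : Fin r → S) (i : Fin r) :
    aeval y (TP F p i) = third F y (fun i => algebraMap κ S (p i)) i := by
  have h := map_third ((aeval y : MvPolynomial (Fin r) κ →ₐ[κ] S).restrictScalars Ω) F
    (fun i => (X i : MvPolynomial (Fin r) κ)) (fun i => C (p i)) i
  simp only [AlgHom.restrictScalars_apply, aeval_X, aeval_C] at h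
  exact h

theorem aeval_aeval_TP {S : Type} [CommRing S] [Algebra κ S] [Algebra Ω S] [IsScalarTower Ω κ S]
    (F : MvPolynomial (Fin r) Ω) (p : Fin r → κ) (y : Fin r → S) (g : MvPolynomial (Fin r) κ) :
    aeval y (aeval (TP F p) g) = aeval (third F y (fun i => algebraMap κ S (p i))) g := by
  rw [comp_aeval_apply]
  congr 2
  funext i
  exact aeval_TP F p y i

theorem TP_F {F : MvPolynomial (Fin r) Ω} (hF : F.IsHomogeneous 3) {p : Fin r → κ}
    (hp : aeval p F = 0) :
    aeval (TP F p) (map (algebraMap Ω κ) F) = lP F p ^ 3 * map (algebraMap Ω κ) F := by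
  have h1 : aeval (fun i => (C (p i) : MvPolynomial (Fin r) κ)) F = 0 := by
    have h := comp_aeval_apply (φ := IsScalarTower.toAlgHom Ω κ (MvPolynomial (Fin r) κ)) p F
    rw [hp, map_zero] at h
    exact h.symm
  have h2 : aeval (fun i => (X i : MvPolynomial (Fin r) κ)) F = map (algebraMap Ω κ) F := by
    rw [← aeval_map_algebraMap κ (fun i => (X i : MvPolynomial (Fin r) κ)) F]
    exact aeval_X_left_apply _
  rw [aeval_map_algebraMap]
  have h3 := taylor hF (lP F p) (-pol F (fun i => (C (p i) : MvPolynomial (Fin r) κ))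
    (fun i => X i)) (fun i => (X i : MvPolynomial (Fin r) κ)) (fun i => C (p i))
  have h4 : TP F p = fun i => lP F p * X i + -pol F (fun i => (C (p i) : MvPolynomial (Fin r) κ))
      (fun i => X i) * C (p i) := by
    funext i
    unfold TP third lP
    ring
  rw [h4, h3, h1, h2]
  unfold lP
  ring

theorem TP_TP {F : MvPolynomial (Fin r) Ω} (hF : F.IsHomogeneous 3) {p : Fin r → κ}
    (hp : aeval p F = 0) {e : ℕ} {g : MvPolynomial (Fin r) κ} (hg : g.IsHomogeneous e) :
    aeval (TP F p) (aeval (TP F p) g) = (lP F p ^ 3) ^ e * g := by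
  have h1 : aeval (fun i => (C (p i) : MvPolynomial (Fin r) κ)) F = 0 := by
    have h := comp_aeval_apply (φ := IsScalarTower.toAlgHom Ω κ (MvPolynomial (Fin r) κ)) p F
    rw [hp, map_zero] at h
    exact h.symm
  rw [aeval_aeval_TP]
  have h2 : third F (TP F p) (fun i => algebraMap κ (MvPolynomial (Fin r) κ) (p i)) =
      fun i => lP F p ^ 3 * X i := by
    funext i
    exact third_third hF (fun i => (X i : MvPolynomial (Fin r) κ)) (fun i => C (p i)) h1 i
  rw [h2, aeval_smul_hom hg]
  congr 1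
  exact aeval_X_left_apply g

/-- the reflection on the coordinate ring -/
def PhB {F : MvPolynomial (Fin r) Ω} (hF : F.IsHomogeneous 3) {p : Fin r → κ}
    (hp : aeval p F = 0) : BB κ F →+* BB κ F :=
  Ideal.Quotient.lift _ ((mk κ F).comp (aeval (TP F p)).toRingHom) (by
    intro a ha
    rw [Ideal.mem_span_singleton] at ha
    obtain ⟨b, rfl⟩ := ha
    rw [RingHom.comp_apply]
    change mk κ F (aeval (TP F p) (map (algebraMap Ω κ) F * b)) = 0
    rw [map_mul, TP_F hF hp, Ideal.Quotient.eq_zero_iff_mem, Ideal.mem_span_singleton]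
    exact Dvd.dvd.mul_right (Dvd.intro_left _ rfl) _)

theorem PhB_mk {F : MvPolynomial (Fin r) Ω} (hF : F.IsHomogeneous 3) {p : Fin r → κ}
    (hp : aeval p F = 0) (g : MvPolynomial (Fin r) κ) :
    PhB hF hp (mk κ F g) = mk κ F (aeval (TP F p) g) := rfl

end

end

end Pool.Agent.Helper93K9.PAR
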