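import Mathlib
import Pool.Agent.Helper93K9.PAR.T0a

/-! # Parity along curves: the function field of the cone and parity of heights -/

set_option autoImplicit false

namespace Pool.Agent.Helper93K9.PAR

open MvPolynomial Module FF

noncomputable section

section
variable {Ω κ : Type} [Field Ω] [Field κ] [Algebra Ω κ] {r : ℕ} (F : MvPolynomial (Fin r) Ω)
  [IsDomain (BB κ F)]

/-- the function field of the cone -/
abbrev KB (κ : Type) [Field κ] [Algebra Ω κ] (F : MvPolynomial (Fin r) Ω) [IsDomain (BB κ F)] :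
    Type := FractionRing (BB κ F)

/-- the generic point of the cone -/
def XB (κ : Type) [Field κ] [Algebra Ω κ] (F : MvPolynomial (Fin r) Ω) [IsDomain (BB κ F)] :
    Fin r → KB κ F :=
  fun i => algebraMap (BB κ F) (KB κ F) (mk κ F (X i))

theorem aeval_XB (g : MvPolynomial (Fin r) κ) :
    aeval (XB κ F) g = algebraMap (BB κ F) (KB κ F) (mk κ F g) := by
  have h := comp_aeval_apply (φ := (IsScalarTower.toAlgHom κ (BB κ F) (KB κ F)).comp
    (Ideal.Quotient.mkₐ κ (Ideal.span {map (algebraMap Ω κ) F})))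
    (fun i => (X i : MvPolynomial (Fin r) κ)) g
  rw [show aeval (fun i => (X i : MvPolynomial (Fin r) κ)) g = g from aeval_X_left_apply g] at h
  exact h.symm

theorem aeval_XB_eq_zero (g : MvPolynomial (Fin r) κ) :
    aeval (XB κ F) g = 0 ↔ mk κ F g = 0 := by
  rw [aeval_XB, map_eq_zero_iff _ (IsFractionRing.injective (BB κ F) (KB κ F))]

theorem cone_XB : Cone κ F (XB κ F) := by
  constructor
  · intro g
    rw [aeval_XB_eq_zero, Ideal.Quotient.eq_zero_iff_mem, Ideal.mem_span_singleton]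
  · rw [eq_top_iff]
    intro z _
    obtain ⟨a, b, -, rfl⟩ := IsFractionRing.div_surjective (A := BB κ F) z
    obtain ⟨f, rfl⟩ := Ideal.Quotient.mk_surjective a
    obtain ⟨g, rfl⟩ := Ideal.Quotient.mk_surjective b
    have h : ∀ g : MvPolynomial (Fin r) κ, algebraMap (BB κ F) (KB κ F) (mk κ F g) ∈
        IntermediateField.adjoin κ (Set.range (XB κ F)) := by
      intro g
      rw [← aeval_XB]
      induction g using MvPolynomial.induction_on with
      | C a =>
        rw [aeval_C]
        exact (IntermediateField.adjoin κ (Set.range (XB κ F))).algebraMap_mem a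
      | add p q hp hq =>
        rw [map_add]
        exact add_mem hp hq
      | mul_X p j hp =>
        rw [map_mul, aeval_X]
        exact mul_mem hp (IntermediateField.subset_adjoin _ _ ⟨j, rfl⟩)
    exact div_mem (h f) (h g)

end

section
variable {Ω κ KK : Type} [Field Ω] [IsAlgClosed Ω] [CharZero Ω] [Field κ] [Field KK] [Algebra Ω κ]
  [Algebra κ KK] [Algebra Ω KK] [IsScalarTower Ω κ KK] [IsFF Ω κ] {r : ℕ}
  {F : MvPolynomial (Fin r) Ω} {X : Fin r → KK}

theorem dl_pow (dlt : S_DLT) (hc : Cone κ F X) {f : KK} (hf : f ≠ 0) (n : ℕ) :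
    dl (Ω := Ω) κ X (f ^ n) = n * dl (Ω := Ω) κ X f := by
  obtain ⟨-, h2, h3, -, -⟩ := dlt Ω κ KK r F X hc
  induction n with
  | zero =>
    rw [pow_zero, Nat.cast_zero, zero_mul]
    have := h3 1
    rwa [map_one] at this
  | succ n ih =>
    rw [pow_succ, h2 _ _ (pow_ne_zero n hf) hf, ih]
    push_cast
    ring

/-- parity of the heights and reflection -/
theorem parity (dlt : S_DLT) (ord : S_ORD) (hF : F.IsHomogeneous 3)
    (hsm : ∀ z : Fin r → Ω, (∀ i, eval z (pderiv i F) = 0) → z = 0) (hc : Cone κ F X)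
    {p : Fin r → κ} (hp : p ≠ 0) (hpF : aeval p F = 0) (hl : aeval X (lP F p) ≠ 0) :
    Even (dl (Ω := Ω) κ X (aeval X (lP F p))) ∧
    ∀ (e : ℕ) (g : MvPolynomial (Fin r) κ), g.IsHomogeneous e → aeval X g ≠ 0 →
      Even (dl (Ω := Ω) κ X (aeval (third F X fun i => algebraMap κ KK (p i)) g) -
        dl (Ω := Ω) κ X (aeval X g)) := by
  obtain ⟨h1, -, -, -, -⟩ := dlt Ω κ KK r F X hc
  have h6 := fun w : {w : Place (Kc Ω X) KK // Cst κ w} =>
    ord Ω κ KK r F X hF hsm hc p hp hpF w.1 w.2
  choose μ hμ1 hμ2 using h6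
  rw [aeval_lP] at hl ⊢
  have hfin := h1 _ hl
  have hsupp : (Function.support μ).Finite := by
    refine hfin.subset ?_
    intro w hw
    rw [Function.mem_support] at hw ⊢
    rw [hμ1]
    omega
  have hsum : ∑ᶠ w, (2 * μ w) = 2 * ∑ᶠ w, μ w := (mul_finsum μ 2).symm
  constructor
  · unfold dl
    have h7 : (fun w : {w : Place (Kc Ω X) KK // Cst κ w} =>
        w.1.ord (pol F X fun i => algebraMap κ KK (p i))) = fun w => 2 * μ w := funext hμ1
    rw [h7, hsum]
    exact (even_two_mul _).neg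
  · intro e g hg hg0
    have h8 : ∀ w : {w : Place (Kc Ω X) KK // Cst κ w},
        w.1.ord (aeval (third F X fun i => algebraMap κ KK (p i)) g) =
        w.1.ord (aeval X g) + 2 * e * μ w := fun w => hμ2 w e g hg hg0
    unfold dl
    rw [finsum_congr h8, finsum_add_distrib (h1 _ hg0)]
    · have h9 : ∑ᶠ w, (2 * (e : ℤ) * μ w) = 2 * (e : ℤ) * ∑ᶠ w, μ w :=
        (mul_finsum μ (2 * (e : ℤ))).symm
      rw [h9]
      refine ⟨-((e : ℤ) * ∑ᶠ w, μ w), ?_⟩
      ring
    · refine hsupp.subset ?_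
      intro w hw
      rw [Function.mem_support] at hw ⊢
      intro h0
      apply hw
      rw [h0, mul_zero]

end

end

end Pool.Agent.Helper93K9.PAR
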