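import Mathlib
import Pool.Agent.Helper93K9.PAR.T0b

/-! # Parity along curves: the parity law, for a point with coordinates in `κ` -/

set_option autoImplicit false

namespace Pool.Agent.Helper93K9.PAR

open MvPolynomial Module FF

noncomputable section

/-- the field generated by the curve and the point does not change under the reflection -/
theorem adj_eq {Ω κ N : Type} [Field Ω] [Field κ] [Field N] [Algebra Ω κ] [Algebra κ N]
    [Algebra Ω N] [IsScalarTower Ω κ N] {r : ℕ} {ξ ζ : Fin r → N}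
    (h1 : ∀ i, ζ i ∈ IntermediateField.adjoin Ω (Set.range ξ ∪ Set.range (algebraMap κ N)))
    (h2 : ∀ i, ξ i ∈ IntermediateField.adjoin Ω (Set.range ζ ∪ Set.range (algebraMap κ N))) :
    finrank (IntermediateField.adjoin (Kc Ω ξ) (Set.range (algebraMap κ N))) N =
    finrank (IntermediateField.adjoin (Kc Ω ζ) (Set.range (algebraMap κ N))) N := by
  have h3 : (IntermediateField.adjoin (Kc Ω ξ) (Set.range (algebraMap κ N))).restrictScalars Ω =
      (IntermediateField.adjoin (Kc Ω ζ) (Set.range (algebraMap κ N))).restrictScalars Ω := by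
    rw [IntermediateField.adjoin_adjoin_left, IntermediateField.adjoin_adjoin_left]
    apply le_antisymm
    · rw [IntermediateField.adjoin_le_iff]
      rintro z (⟨i, rfl⟩ | ⟨c, rfl⟩)
      · exact h2 i
      · exact IntermediateField.subset_adjoin _ _ (Or.inr ⟨c, rfl⟩)
    · rw [IntermediateField.adjoin_le_iff]
      rintro z (⟨i, rfl⟩ | ⟨c, rfl⟩)
      · exact h1 i
      · exact IntermediateField.subset_adjoin _ _ (Or.inr ⟨c, rfl⟩)
  have h4 : ∀ A B : IntermediateField Ω N, A = B → finrank A N = finrank B N := by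
    rintro A B rfl
    rfl
  exact h4 _ _ h3

section
variable {Ω κ N : Type} [Field Ω] [IsAlgClosed Ω] [CharZero Ω] [Field κ] [Field N] [Algebra Ω κ]
  [Algebra κ N] [Algebra Ω N] [IsScalarTower Ω κ N] [IsFF Ω κ] {r : ℕ}

/-- the algebra behind the parity law: `ξ`, `ζ` are points of the cone over `N` which correspond to
each other under the reflection at `p` -/
theorem core (dlt : S_DLT) (ord : S_ORD) (grd : S_GRD) {F : MvPolynomial (Fin r) Ω}
    (hF : F.IsHomogeneous 3)
    (hsm : ∀ z : Fin r → Ω, (∀ i, eval z (pderiv i F) = 0) → z = 0)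
    (hsm' : ∀ z : Fin r → κ, (∀ i, aeval z (pderiv i F) = 0) → z = 0)
    [hdom : IsDomain (BB κ F)] (hufd : UniqueFactorizationMonoid (BB κ F)) {p : Fin r → κ}
    (hp : p ≠ 0) (hpF : aeval p F = 0) {ξ : Fin r → N}
    {e : ℕ} {ω : MvPolynomial (Fin r) κ} (hωh : ω.IsHomogeneous e) (hωp : Prime (mk κ F ω))
    (hω : ∀ g : MvPolynomial (Fin r) κ, aeval ξ g = 0 ↔ mk κ F ω ∣ mk κ F g)
    (hodd : Odd (dl (Ω := Ω) κ (XB κ F) (aeval (XB κ F) ω))) :
    pol F ξ (fun i => algebraMap κ N (p i)) ≠ 0 ∧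
    ∀ (ζ : Fin r → N) (μ : N), μ ≠ 0 →
      (∀ i, third F ξ (fun i => algebraMap κ N (p i)) i = μ * ζ i) →
      (∀ i, third F ζ (fun i => algebraMap κ N (p i)) i = μ * ξ i) →
      pol F ζ (fun i => algebraMap κ N (p i)) ≠ 0 →
      (∀ g : MvPolynomial (Fin r) κ, aeval ζ g = 0 → ∀ e, aeval ζ (homogeneousComponent e g) = 0) →
      ∃ ω' : MvPolynomial (Fin r) κ, Prime (mk κ F ω') ∧
        (∀ g : MvPolynomial (Fin r) κ, aeval ζ g = 0 ↔ mk κ F ω' ∣ mk κ F g) ∧
        Odd (dl (Ω := Ω) κ (XB κ F) (aeval (XB κ F) ω')) := by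
  have hc := cone_XB (κ := κ) F
  obtain ⟨d1, d2, d3, d4, d5⟩ := dlt Ω κ (KB κ F) r F (XB κ F) hc
  obtain ⟨g1, g2, g3⟩ := grd Ω κ r 3 F hF (by norm_num) hdom hufd
  have hlne : lP F p ≠ 0 := lP_ne hp hsm'
  have hlp : Prime (mk κ F (lP F p)) := g2 _ (lP_hom F p) hlne
  have hl0 : aeval (XB κ F) (lP F p) ≠ 0 := by
    rw [Ne, aeval_XB_eq_zero]
    exact hlp.ne_zero
  obtain ⟨hev, hpar⟩ := parity dlt ord hF hsm hc hp hpF hl0
  have hω0 : aeval (XB κ F) ω ≠ 0 := by
    rw [Ne, aeval_XB_eq_zero]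
    exact hωp.ne_zero
  -- heights of constants and of associated elements
  have hassoc : ∀ a b : BB κ F, a ≠ 0 → ∀ u : (BB κ F)ˣ, a * u = b →
      dl (Ω := Ω) κ (XB κ F) (algebraMap _ (KB κ F) a) =
      dl (Ω := Ω) κ (XB κ F) (algebraMap _ (KB κ F) b) := by
    intro a b ha u hab
    obtain ⟨u0, hu0⟩ := Ideal.Quotient.mk_surjective (u : BB κ F)
    obtain ⟨c, hc0, hcu⟩ := g1 u0 (by
      change IsUnit (Ideal.Quotient.mk _ u0)
      rw [hu0]
      exact u.isUnit)
    rw [← hab, map_mul, d2]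
    · have h1 : algebraMap (BB κ F) (KB κ F) (u : BB κ F) = algebraMap κ (KB κ F) c := by
        rw [← hu0]
        change algebraMap (BB κ F) (KB κ F) (mk κ F u0) = _
        rw [hcu, ← aeval_XB, aeval_C]
      rw [h1, d3, add_zero]
    · rwa [Ne, map_eq_zero_iff _ (IsFractionRing.injective (BB κ F) (KB κ F))]
    · rw [Ne, map_eq_zero_iff _ (IsFractionRing.injective (BB κ F) (KB κ F))]
      exact u.ne_zero
  constructor
  · intro h0
    rw [← aeval_lP, hω] at h0
    obtain ⟨u, hu⟩ := hωp.associated_of_dvd hlp h0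
    have h1 := hassoc _ _ hωp.ne_zero u hu
    rw [← aeval_XB, ← aeval_XB] at h1
    rw [h1] at hodd
    exact (Int.not_even_iff_odd.2 hodd) hev
  · intro ζ μ hμ hξζ hζξ hζp hζhom
    -- evaluation of the reflection
    have hT : ∀ (f : ℕ) (g : MvPolynomial (Fin r) κ), g.IsHomogeneous f →
        aeval ξ (aeval (TP F p) g) = μ ^ f * aeval ζ g := by
      intro f g hg
      rw [aeval_aeval_TP, funext hξζ]
      exact aeval_smul_hom hg μ ζ
    have hT' : ∀ (f : ℕ) (g : MvPolynomial (Fin r) κ), g.IsHomogeneous f →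
        aeval ζ (aeval (TP F p) g) = μ ^ f * aeval ξ g := by
      intro f g hg
      rw [aeval_aeval_TP, funext hζξ]
      exact aeval_smul_hom hg μ ξ
    have hξF : aeval ξ (map (algebraMap Ω κ) F) = 0 := by
      rw [hω]
      have h1 : mk κ F (map (algebraMap Ω κ) F) = 0 := by
        rw [Ideal.Quotient.eq_zero_iff_mem, Ideal.mem_span_singleton]
      rw [h1]
      exact dvd_zero _
    have hFh : (map (algebraMap Ω κ) F).IsHomogeneous 3 := hF.map _
    have hζF : aeval ζ (map (algebraMap Ω κ) F) = 0 := by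
      have h1 := hT 3 _ hFh
      rw [TP_F hF hpF, map_mul, hξF, mul_zero] at h1
      exact (mul_eq_zero.1 h1.symm).resolve_left (pow_ne_zero _ hμ)
    have hζmk : ∀ f g : MvPolynomial (Fin r) κ, mk κ F f = mk κ F g →
        aeval ζ f = aeval ζ g := by
      intro f g hfg
      rw [Ideal.Quotient.eq, Ideal.mem_span_singleton] at hfg
      obtain ⟨q, hq⟩ := hfg
      rw [← sub_eq_zero, ← map_sub, hq, map_mul, hζF, zero_mul]
    -- a prime factor of the reflection of `ω` which vanishes at `ζ`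
    let ψ : BB κ F →+* N := Ideal.Quotient.lift _ (aeval ζ : MvPolynomial (Fin r) κ →ₐ[κ] N).toRingHom (by
      intro a ha
      rw [Ideal.mem_span_singleton] at ha
      obtain ⟨b, rfl⟩ := ha
      change aeval ζ (map (algebraMap Ω κ) F * b) = 0
      rw [map_mul, hζF, zero_mul])
    have hψ : ∀ g, ψ (mk κ F g) = aeval ζ g := fun g => rfl
    have hA0 : mk κ F (aeval (TP F p) ω) ≠ 0 := by
      intro h0
      have h1 : mk κ F (aeval (TP F p) (aeval (TP F p) ω)) = 0 := by
        rw [← PhB_mk hF hpF, h0, map_zero]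
      rw [TP_TP hF hpF hωh, map_mul, map_pow, map_pow] at h1
      exact mul_ne_zero (pow_ne_zero _ (pow_ne_zero _ hlp.ne_zero)) hωp.ne_zero h1
    have hAζ : ψ (mk κ F (aeval (TP F p) ω)) = 0 := by
      rw [hψ, hT' e ω hωh, (hω ω).2 dvd_rfl, mul_zero]
    obtain ⟨fs, hfs, u, hu⟩ := UniqueFactorizationMonoid.exists_prime_factors _ hA0
    have hq : ∃ q ∈ fs, ψ q = 0 := by
      by_contra hcon
      push Not at hcon
      have h1 : ψ fs.prod ≠ 0 := by
        rw [map_multiset_prod]
        intro h0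
        rw [Multiset.prod_eq_zero_iff] at h0
        obtain ⟨q, hq1, hq2⟩ := Multiset.mem_map.1 h0
        exact hcon q hq1 hq2
      rw [← hu, map_mul, mul_eq_zero] at hAζ
      rcases hAζ with h2 | h2
      · exact h1 h2
      · exact (u.isUnit.map ψ).ne_zero h2
    obtain ⟨q, hq1, hq2⟩ := hq
    obtain ⟨q0, rfl⟩ := Ideal.Quotient.mk_surjective q
    have hqp : Prime (mk κ F q0) := hfs _ hq1
    have hqd : mk κ F q0 ∣ mk κ F (aeval (TP F p) ω) :=
      (Multiset.dvd_prod hq1).trans (Dvd.intro _ hu)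
    obtain ⟨b, hb⟩ := hqd
    obtain ⟨e', ω', hω'h, hω'q⟩ := g3 _ _ (hωh.aeval _ (TP_hom hF p)) hA0 q0 b hb
    have hω'p : Prime (mk κ F ω') := by rw [← hω'q]; exact hqp
    have hω'ζ : aeval ζ ω' = 0 := by
      rw [← hψ, ← hω'q]
      exact hq2
    rw [hω'q] at hb
    -- the relation
    have h3 : aeval ξ (aeval (TP F p) ω') = 0 := by
      rw [hT e' ω' hω'h, hω'ζ, mul_zero]
    obtain ⟨ρ, hρ⟩ := (hω _).1 h3
    have h4 : b * PhB hF hpF ρ = mk κ F (lP F p) ^ (3 * e') := by
      have h5 : mk κ F (aeval (TP F p) (aeval (TP F p) ω')) =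
          mk κ F ω' * (b * PhB hF hpF ρ) := by
        rw [← PhB_mk hF hpF, hρ, map_mul, PhB_mk, hb, mul_assoc]
      rw [TP_TP hF hpF hω'h, map_mul, map_pow, map_pow, mul_comm, ← pow_mul] at h5
      exact (mul_left_cancel₀ hω'p.ne_zero h5).symm
    obtain ⟨j, -, u', hu'⟩ := (dvd_prime_pow hlp _).1 (Dvd.intro _ h4)
    -- heights
    have h6 : dl (Ω := Ω) κ (XB κ F) (aeval (third F (XB κ F) fun i => algebraMap κ (KB κ F) (p i)) ω) =
        dl (Ω := Ω) κ (XB κ F) (aeval (XB κ F) ω') +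
        j * dl (Ω := Ω) κ (XB κ F) (aeval (XB κ F) (lP F p)) := by
      rw [← aeval_aeval_TP, aeval_XB, hb, map_mul, d2, ← aeval_XB]
      · congr 1
        rw [hassoc b _ _ u' hu', map_pow, ← aeval_XB, dl_pow dlt hc hl0]
        intro h0
        rw [h0, mul_zero] at hb
        exact hA0 hb
      · rw [Ne, map_eq_zero_iff _ (IsFractionRing.injective (BB κ F) (KB κ F))]
        exact hω'p.ne_zero
      · rw [Ne, map_eq_zero_iff _ (IsFractionRing.injective (BB κ F) (KB κ F))]
        intro h0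
        rw [h0, mul_zero] at hb
        exact hA0 hb
    have h7 := hpar e ω hωh hω0
    rw [h6] at h7
    refine ⟨ω', hω'p, ?_, ?_⟩
    · intro g
      constructor
      · intro hg
        rw [← sum_homogeneousComponent g, map_sum]
        refine Finset.dvd_sum fun f _ => ?_
        have hgf := homogeneousComponent_isHomogeneous f g
        have h8 : aeval ξ (aeval (TP F p) (homogeneousComponent f g)) = 0 := by
          rw [hT f _ hgf, hζhom g hg f, mul_zero]
        obtain ⟨h, hh⟩ := (hω _).1 h8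
        have h9 : mk κ F (aeval (TP F p) (aeval (TP F p) (homogeneousComponent f g))) =
            mk κ F ω' * (b * PhB hF hpF h) := by
          rw [← PhB_mk hF hpF, hh, map_mul, PhB_mk, hb, mul_assoc]
        rw [TP_TP hF hpF hgf, map_mul, map_pow, map_pow, ← pow_mul] at h9
        have h10 : mk κ F ω' ∣ mk κ F (lP F p) ^ (3 * f) * mk κ F (homogeneousComponent f g) :=
          Dvd.intro _ h9.symm
        refine (hω'p.dvd_or_dvd h10).resolve_left fun h11 => ?_
        have h12 := hω'p.dvd_of_dvd_pow h11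
        obtain ⟨a, ha⟩ := h12
        apply hζp
        rw [← aeval_lP, ← hψ, ha, map_mul, hψ, hω'ζ, zero_mul]
      · rintro ⟨a, ha⟩
        rw [← hψ, ha, map_mul, hψ, hω'ζ, zero_mul]
    · rw [← Int.not_even_iff_odd] at hodd ⊢
      intro h8
      apply hodd
      have h9 : Even ((j : ℤ) * dl (Ω := Ω) κ (XB κ F) (aeval (XB κ F) (lP F p))) :=
        hev.mul_left _
      have h10 := (h8.add h9).sub h7
      rwa [sub_sub_cancel] at h10

end

end

end Pool.Agent.Helper93K9.PAR
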