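import Mathlib
import Pool.Agent.Helper93K9.PAR.T0c

/-! # Parity along curves: the parity law for cubics with factorial cones -/

set_option autoImplicit false

namespace Pool.Agent.Helper93K9.PAR

open MvPolynomial Module FF

noncomputable section

theorem tower {K N : Type} [Field K] [Field N] [Algebra K N] (A : IntermediateField K N) :
    finrank K A * finrank A N = finrank K N :=
  Module.finrank_mul_finrank K A N

theorem third_mem {Ω N : Type} [Field Ω] [Field N] [Algebra Ω N] {r : ℕ}
    (F : MvPolynomial (Fin r) Ω) (A : IntermediateField Ω N) {ξ p : Fin r → N}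
    (hξ : ∀ i, ξ i ∈ A) (hp : ∀ i, p i ∈ A) :
    pol F ξ p ∈ A ∧ ∀ i, third F ξ p i ∈ A := by
  have h1 := map_pol A.val F (fun i => (⟨ξ i, hξ i⟩ : A)) (fun i => (⟨p i, hp i⟩ : A))
  have h2 := map_third A.val F (fun i => (⟨ξ i, hξ i⟩ : A)) (fun i => (⟨p i, hp i⟩ : A))
  constructor
  · have h3 : pol F ξ p = A.val (pol F (fun i => (⟨ξ i, hξ i⟩ : A))
      (fun i => (⟨p i, hp i⟩ : A))) := h1.symm
    rw [h3]
    exact Subtype.mem _
  · intro i
    have h3 : third F ξ p i = A.val (third F (fun i => (⟨ξ i, hξ i⟩ : A))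
      (fun i => (⟨p i, hp i⟩ : A)) i) := (h2 i).symm
    rw [h3]
    exact Subtype.mem _

section
variable {Ω κ M : Type} [Field Ω] [IsAlgClosed Ω] [CharZero Ω] [Field κ] [Field M] [Algebra Ω κ]
  [Algebra κ M] [Algebra Ω M] [IsScalarTower Ω κ M] [IsFF Ω κ] {r : ℕ}

theorem law_kappa (dlt : S_DLT) (ord : S_ORD) (ht : S_HT) (grd : S_GRD) (genr : S_GENR)
    (conv : S_CONV) {F : MvPolynomial (Fin r) Ω}
    (hF : F.IsHomogeneous 3)
    (hsm : ∀ z : Fin r → Ω, (∀ i, eval z (pderiv i F) = 0) → z = 0)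
    (hsm' : ∀ z : Fin r → κ, (∀ i, aeval z (pderiv i F) = 0) → z = 0)
    (hdom : IsDomain (BB κ F)) (hufd : UniqueFactorizationMonoid (BB κ F))
    {x : Fin r → M} (hx : Gen F x) (hodd : Odd (finrank (rf Ω x) M)) {p : Fin r → κ}
    (hp : p ≠ 0) (hpF : aeval p F = 0) :
    pol F x (fun i => algebraMap κ M (p i)) ≠ 0 ∧ Gen F (third F x fun i => algebraMap κ M (p i)) ∧
      Odd (finrank (rf Ω (third F x fun i => algebraMap κ M (p i))) M) := by
  have hx0 : x ≠ 0 := by
    obtain ⟨i, -⟩ := Function.ne_iff.1 hp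
    intro h
    exact gen_coord hF hx i (congrFun h i)
  have hcx : finrank (Kc Ω (cpt x)) (NN M) = finrank (rf Ω x) M := conv Ω M r x hx0
  have hfin : FiniteDimensional (Kc Ω (cpt x)) (NN M) := by
    apply FiniteDimensional.of_finrank_pos
    rw [hcx]
    exact hodd.pos
  obtain ⟨e, ω, hωh, hωp, hω⟩ := genr Ω κ (NN M) r 3 F hF (by norm_num) hdom hufd (cpt x)
    (cpt_gen hF hx) (fun g hg e => cpt_comp x g hg e) inferInstance
  have hht := ht Ω κ (KB κ F) (NN M) r F (XB κ F) (cone_XB F) hdom hufd (cpt x) (cpt_gen hF hx)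
    ω hωp hω
  have htow := tower
    (IntermediateField.adjoin (Kc Ω (cpt x)) (Set.range (algebraMap κ (NN M))))
  rw [hcx] at htow
  have hprod := hodd
  rw [← htow, Nat.odd_mul] at hprod
  have hoddω : Odd (dl (Ω := Ω) κ (XB κ F) (aeval (XB κ F) ω)) := by
    rw [hht]
    exact_mod_cast hprod.1
  obtain ⟨c1, c2⟩ := core dlt ord grd hF hsm hsm' hufd hp hpF hωh hωp hω hoddω
  -- the points
  set pM : Fin r → M := fun i => algebraMap κ M (p i) with hpM
  have hpMF : aeval pM F = 0 := by
    have h := comp_aeval_apply (φ := IsScalarTower.toAlgHom Ω κ M) p F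
    rw [hpF, map_zero] at h
    exact h.symm
  have hpN : (fun i => algebraMap κ (NN M) (p i)) = fun i => 1 * algebraMap M (NN M) (pM i) := by
    funext i
    rw [one_mul]
    rfl
  have hpolN : ∀ y : Fin r → M, pol F (cpt y) (fun i => algebraMap κ (NN M) (p i)) =
      sN M * algebraMap M (NN M) (pol F y pM) := by
    intro y
    have h1 := map_pol (IsScalarTower.toAlgHom Ω M (NN M)) F y pM
    have h2 : cpt y = fun i => sN M * algebraMap M (NN M) (y i) := funext fun i => cpt_eq y i
    rw [h2, hpN, pol_smul_left]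
    congr 1
    rw [show (fun i => 1 * algebraMap M (NN M) (pM i)) = fun i => algebraMap M (NN M) (pM i) from
      funext fun i => one_mul _]
    exact h1.symm
  have hthirdN : ∀ (y : Fin r → M) (i : Fin r),
      third F (cpt y) (fun i => algebraMap κ (NN M) (p i)) i =
      sN M ^ 2 * algebraMap M (NN M) (third F y pM i) := by
    intro y i
    have h1 := map_third (IsScalarTower.toAlgHom Ω M (NN M)) F y pM i
    have h2 : cpt y = fun i => sN M * algebraMap M (NN M) (y i) := funext fun i => cpt_eq y i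
    rw [h2, hpN, third_smul hF, one_pow, mul_one]
    congr 1
    exact h1.symm
  set l := pol F x pM with hl
  have hl0 : l ≠ 0 := by
    intro h0
    apply c1
    rw [hpolN, ← hl, h0, map_zero, mul_zero]
  set z : Fin r → M := fun i => l⁻¹ * third F x pM i with hz
  have hzz : ∀ i, third F z pM i = l * x i := by
    intro i
    have h1 := third_smul hF (l⁻¹) 1 (third F x pM) pM i
    simp only [one_mul, one_pow, mul_one] at h1
    rw [hz, h1, third_third hF x pM hpMF, ← hl]
    field_simp
  have hpz : pol F z pM = l := by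
    rw [hz, pol_smul_left, pol_third hF x pM hpMF, ← hl]
    field_simp
  set μ : NN M := sN M * algebraMap M (NN M) l with hμ
  have hμ0 : μ ≠ 0 := mul_ne_zero (sN_ne M) (by
    rwa [Ne, map_eq_zero_iff _ (algebraMap M (NN M)).injective])
  have hA : ∀ i, third F (cpt x) (fun i => algebraMap κ (NN M) (p i)) i = μ * cpt z i := by
    intro i
    rw [hthirdN, cpt_eq, hμ, hz]
    have h1 : third F x pM i = l * (l⁻¹ * third F x pM i) := by
      rw [mul_inv_cancel_left₀ hl0]
    rw [h1, map_mul]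
    ring
  have hB : ∀ i, third F (cpt z) (fun i => algebraMap κ (NN M) (p i)) i = μ * cpt x i := by
    intro i
    rw [hthirdN, hzz, cpt_eq, hμ, map_mul]
    ring
  have hC : pol F (cpt z) (fun i => algebraMap κ (NN M) (p i)) ≠ 0 := by
    rw [hpolN, hpz]
    exact hμ0
  obtain ⟨ω', hω'p, hω', hodd'⟩ := c2 (cpt z) μ hμ0 hA hB hC
    (fun g hg e => cpt_comp z g hg e)
  -- the third point is generic
  obtain ⟨d1, d2, d3, d4, d5⟩ := dlt Ω κ (KB κ F) r F (XB κ F) (cone_XB F)
  have hgenz : Gen F z := by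
    constructor
    · rw [hz, aeval_smul3 hF, third_on hF x pM hx.1 hpMF, mul_zero]
    · intro f H hH hHz
      by_contra hcon
      have h1 : aeval (cpt z) (map (algebraMap Ω κ) H) = 0 := by
        rw [aeval_map_algebraMap]
        exact (cpt_hom_zero z hH).2 hHz
      obtain ⟨b, hb⟩ := (hω' _).1 h1
      obtain ⟨b0, rfl⟩ := Ideal.Quotient.mk_surjective b
      have h2 : mk κ F (map (algebraMap Ω κ) H) ≠ 0 := by
        intro h0
        apply hcon
        rw [← cpt_gen hF hx]
        have h3 : aeval (cpt x) (map (algebraMap Ω κ) H) = 0 := by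
          rw [hω, h0]
          exact dvd_zero _
        rwa [aeval_map_algebraMap] at h3
      have hb0 : mk κ F b0 ≠ 0 := by
        intro h0
        change mk κ F (map (algebraMap Ω κ) H) = mk κ F ω' * mk κ F b0 at hb
        rw [h0, mul_zero] at hb
        exact h2 hb
      have h4 : aeval (XB κ F) H = aeval (XB κ F) ω' * aeval (XB κ F) b0 := by
        rw [← aeval_map_algebraMap κ (XB κ F) H, aeval_XB, aeval_XB, aeval_XB, ← map_mul]
        exact congrArg _ hb
      have h5 := d4 H
      rw [h4, d2] at h5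
      · have h6 := d5 ω'
        have h7 := d5 b0
        have h8 : dl (Ω := Ω) κ (XB κ F) (aeval (XB κ F) ω') = 0 := by omega
        rw [h8] at hodd'
        exact (by decide : ¬ Odd (0 : ℤ)) hodd'
      · rw [Ne, aeval_XB_eq_zero]
        exact hω'p.ne_zero
      · rw [Ne, aeval_XB_eq_zero]
        exact hb0
  have hgen3 : Gen F (third F x pM) := (gen_smul (inv_ne_zero hl0) hF).1 hgenz
  refine ⟨hl0, hgen3, ?_⟩
  have hz0 : z ≠ 0 := by
    obtain ⟨i, -⟩ := Function.ne_iff.1 hp
    intro h
    exact gen_coord hF hgenz i (congrFun h i)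
  have hcz : finrank (Kc Ω (cpt z)) (NN M) = finrank (rf Ω z) M := conv Ω M r z hz0
  have hht' := ht Ω κ (KB κ F) (NN M) r F (XB κ F) (cone_XB F) hdom hufd (cpt z)
    (cpt_gen hF hgenz) ω' hω'p hω'
  have htow' := tower
    (IntermediateField.adjoin (Kc Ω (cpt z)) (Set.range (algebraMap κ (NN M))))
  rw [rf_smul (k := Ω) (third F x pM) (inv_ne_zero hl0)] at hcz
  rw [← hcz, ← htow', Nat.odd_mul]
  constructor
  · rw [hht'] at hodd'
    exact_mod_cast hodd'
  · rw [← adj_eq (κ := κ) (ξ := cpt x) (ζ := cpt z)]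
    · exact hprod.2
    · intro i
      have h1 := third_mem F (IntermediateField.adjoin Ω
        (Set.range (cpt x) ∪ Set.range (algebraMap κ (NN M))))
        (ξ := cpt x) (p := fun i => algebraMap κ (NN M) (p i))
        (fun i => IntermediateField.subset_adjoin _ _ (Or.inl ⟨i, rfl⟩))
        (fun i => IntermediateField.subset_adjoin _ _ (Or.inr ⟨p i, rfl⟩))
      have h2 : cpt z i = third F (cpt x) (fun i => algebraMap κ (NN M) (p i)) i /
          pol F (cpt x) (fun i => algebraMap κ (NN M) (p i)) := by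
        rw [hA, hpolN, ← hl, ← hμ, mul_div_cancel_left₀ _ hμ0]
      rw [h2]
      exact div_mem (h1.2 i) h1.1
    · intro i
      have h1 := third_mem F (IntermediateField.adjoin Ω
        (Set.range (cpt z) ∪ Set.range (algebraMap κ (NN M))))
        (ξ := cpt z) (p := fun i => algebraMap κ (NN M) (p i))
        (fun i => IntermediateField.subset_adjoin _ _ (Or.inl ⟨i, rfl⟩))
        (fun i => IntermediateField.subset_adjoin _ _ (Or.inr ⟨p i, rfl⟩))
      have h2 : cpt x i = third F (cpt z) (fun i => algebraMap κ (NN M) (p i)) i /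
          pol F (cpt z) (fun i => algebraMap κ (NN M) (p i)) := by
        rw [hB, hpolN, hpz, ← hμ, mul_div_cancel_left₀ _ hμ0]
      rw [h2]
      exact div_mem (h1.2 i) h1.1

end

/-- a point of finite odd degree over the field of ratios of a generic point: there is a
transcendental element -/
theorem exists_trans {Ω M : Type} [Field Ω] [IsAlgClosed Ω] [Field M] [Algebra Ω M] {r : ℕ}
    {F : MvPolynomial (Fin r) Ω} (hF : F.IsHomogeneous 3) {x : Fin r → M} (hx : Gen F x)
    (hr : 2 ≤ r) : ∃ t : M, Transcendental Ω t := by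
  by_contra hcon
  push Not at hcon
  have halg : ∀ t : M, ∃ a : Ω, algebraMap Ω M a = t := by
    intro t
    have h2 : Algebra.IsAlgebraic Ω M := ⟨fun t => by
      have := hcon t
      rwa [Transcendental, not_not] at this⟩
    exact IsAlgClosed.algebraMap_bijective_of_isIntegral.2 t
  obtain ⟨i0, i1, hi⟩ : ∃ i0 i1 : Fin r, i1 ≠ i0 :=
    ⟨⟨0, by omega⟩, ⟨1, by omega⟩, by simp⟩
  obtain ⟨a, ha⟩ := halg (x i0 / x i1)
  have h1 := gen_coord hF hx i1
  have hL : (X i0 - C a * X i1 : MvPolynomial (Fin r) Ω).IsHomogeneous 1 := by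
    refine IsHomogeneous.sub (isHomogeneous_X _ _) ?_
    have h3 := (isHomogeneous_C (Fin r) a).mul (isHomogeneous_X Ω i1)
    rwa [zero_add] at h3
  have hL0 : aeval x (X i0 - C a * X i1 : MvPolynomial (Fin r) Ω) = 0 := by
    rw [map_sub, map_mul, aeval_X, aeval_X, aeval_C, ha, div_mul_cancel₀ _ h1, sub_self]
  have h2 := gen_lin hF hx hL hL0
  have h3 := congrArg (eval (Pi.single i0 (1 : Ω))) h2
  rw [map_sub, map_mul, eval_X, eval_X, eval_C, map_zero, Pi.single_eq_same,
    Pi.single_eq_of_ne hi, mul_zero, sub_zero] at h3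
  exact one_ne_zero h3

theorem t0 (dlt : S_DLT) (ord : S_ORD) (ht : S_HT) (grd : S_GRD) (genr : S_GENR)
    (conv : S_CONV) (kap : S_KAP) : S_T0 := by
  intro Ω _ _ _ r F hF hsm hufd M _ _ x p hx hodd hp hpF hcrv
  obtain ⟨j, hj⟩ := Function.ne_iff.1 hp
  have hj0 : p j ≠ 0 := hj
  have hr : 2 ≤ r := by
    by_contra hcon
    have hr1 : r = 1 := by
      have := j.2
      omega
    subst hr1
    obtain ⟨hd, -⟩ := hufd Ω
    -- `p` is a nonzero zero of a cubic form in one variable, so the form vanishes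
    have h1 : ∀ i : Fin 1, i = 0 := fun i => Subsingleton.elim _ _
    apply hj0
    rw [h1 j]
    by_contra hp0
    have hF0 : F = 0 := by
      have h2 : F = C (coeff (Finsupp.single 0 3) F) * X 0 ^ 3 := by
        ext d
        by_cases hd3 : d = Finsupp.single 0 3
        · subst hd3
          rw [coeff_C_mul, coeff_X_pow, if_pos rfl, mul_one]
        · rw [coeff_C_mul, coeff_X_pow, if_neg (Ne.symm hd3), mul_zero]
          by_contra hne
          apply hd3
          have h3 : d.degree = 3 := by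
            rw [Finsupp.degree_eq_weight_one]
            exact hF hne
          refine Finsupp.ext fun i => ?_
          rw [h1 i, Finsupp.single_eq_same]
          rw [Finsupp.degree_eq_sum] at h3
          simpa using h3
      rw [h2, map_mul, map_pow, aeval_C, aeval_X, mul_eq_zero,
        or_iff_left (pow_ne_zero _ hp0)] at hpF
      rw [map_eq_zero_iff _ (algebraMap Ω M).injective] at hpF
      rw [h2, hpF, C_0, zero_mul]
    have h4 := hsm Ω (fun _ => 1) (by
      intro i
      rw [hF0, map_zero, map_zero])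
    exact one_ne_zero (congrFun h4 0)
  have hq : (fun i => (p j)⁻¹ * p i) j = 1 := inv_mul_cancel₀ hj0
  obtain ⟨κ, hκ, hqκ⟩ := kap Ω M r (fun i => (p j)⁻¹ * p i) ⟨j, hq⟩
    ((crv_smul p (inv_ne_zero hj0)).2 hcrv) (exists_trans hF hx hr)
  obtain ⟨hdom, hu⟩ := hufd κ
  have hqF : aeval (fun i => (⟨(p j)⁻¹ * p i, hqκ i⟩ : κ)) F = 0 := by
    have h := comp_aeval_apply (φ := κ.val) (fun i => (⟨(p j)⁻¹ * p i, hqκ i⟩ : κ)) F
    have h' : aeval (fun i => (p j)⁻¹ * p i) F = 0 := by rw [aeval_smul3 hF, hpF, mul_zero]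
    exact (map_eq_zero κ.val).1 (h.trans h')
  have hqne : (fun i => (⟨(p j)⁻¹ * p i, hqκ i⟩ : κ)) ≠ 0 := by
    intro h
    have h1 := congrArg Subtype.val (congrFun h j)
    rw [show ((fun i => (⟨(p j)⁻¹ * p i, hqκ i⟩ : κ)) j : M) = (p j)⁻¹ * p j from rfl,
      inv_mul_cancel₀ hj0] at h1
    exact one_ne_zero h1
  obtain ⟨h1, h2, h3⟩ := law_kappa (κ := κ) (M := M) dlt ord ht grd genr conv hF
    (fun z hz => hsm Ω z (fun i => by rw [aeval_eq_eval]; exact hz i)) (hsm κ) hdom hu hx hodd
    hqne hqF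
  have h4 : (fun i => algebraMap κ M (⟨(p j)⁻¹ * p i, hqκ i⟩ : κ)) = fun i => (p j)⁻¹ * p i := rfl
  rw [h4] at h1 h2 h3
  have h5 : third F x (fun i => (p j)⁻¹ * p i) = fun i => (p j)⁻¹ ^ 2 * third F x p i := by
    funext i
    have h6 := third_smul hF 1 (p j)⁻¹ x p i
    simpa using h6
  have h7 : (p j)⁻¹ ^ 2 ≠ 0 := pow_ne_zero _ (inv_ne_zero hj0)
  rw [h5] at h2 h3
  rw [gen_smul h7 hF] at h2
  rw [rf_smul _ h7] at h3
  rw [pol_smul_right hF] at h1
  exact ⟨right_ne_zero_of_mul h1, h2, h3⟩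

end

end Pool.Agent.Helper93K9.PAR
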