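import Mathlib
import Pool.Agent.Helper93K9.PAR.Defs3
import Pool.Agent.Helper93K9.PAR.Basic
import Pool.Agent.Helper93K9.PAR.Res
import Pool.Agent.Helper93K9.PAR.Lw
import Pool.Agent.R845.E3.Gfi

/-! # Parity along curves, job TR: transfer of the parity law over a function field -/

set_option autoImplicit false
set_option linter.unusedSectionVars false

namespace Pool.Agent.Helper93K9.PAR

open MvPolynomial Module FF

namespace TrL

noncomputable section

/-- finiteness over another family of independent elements -/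
theorem fin_of_indep {K E : Type} [Field K] [Field E] [Algebra K E] {n : ℕ} {y z : Fin n → E}
    (hy : AlgebraicIndependent K y) (hfin : FiniteDimensional (Kc K y) E)
    (hz : AlgebraicIndependent K z) : FiniteDimensional (Kc K z) E := by
  classical
  have h1 : IsTranscendenceBasis K y := by
    rw [isTranscendenceBasis_iff_algebraicIndependent_isAlgebraic]
    refine ⟨hy, ?_⟩
    open scoped IntermediateField.algebraAdjoinAdjoin in
    have h4 : Algebra.IsAlgebraic (Algebra.adjoin K (Set.range y))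
      (IntermediateField.adjoin K (Set.range y)) := inferInstance
    open scoped IntermediateField.algebraAdjoinAdjoin in
    exact Algebra.IsAlgebraic.trans (Algebra.adjoin K (Set.range y))
      (IntermediateField.adjoin K (Set.range y)) E
  have h2 : Algebra.trdeg K E = n := by
    have := h1.cardinalMk_eq_trdeg
    rw [← this]
    simp
  have h3 : IsTranscendenceBasis K z :=
    hz.isTranscendenceBasis_of_trdeg_le_of_finite (by rw [h2]; simp)
  have h4 := h3.isAlgebraic_field
  have h5 : Algebra.EssFiniteType K E := by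
    have h2 : Algebra.EssFiniteType K (Kc K y) :=
      IntermediateField.essFiniteType_iff.2 ⟨(Set.range y).toFinset, by simp⟩
    exact Algebra.EssFiniteType.comp K (Kc K y) E
  have h6 : Algebra.EssFiniteType (Kc K z) E := Algebra.EssFiniteType.of_comp K (Kc K z) E
  obtain ⟨s, hs⟩ := IntermediateField.fg_top (Kc K z) E
  have h7 : FiniteDimensional (Kc K z) (IntermediateField.adjoin (Kc K z) (s : Set E)) :=
    IntermediateField.finiteDimensional_adjoin (fun x _ => (h4.isAlgebraic x).isIntegral)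
  rw [hs] at h7
  exact IntermediateField.topEquiv.toLinearEquiv.finiteDimensional

/-- the value of a cubic form at a unit vector -/
theorem aeval_single {k R : Type} [CommRing k] [CommRing R] [Algebra k R] {r : ℕ}
    {F : MvPolynomial (Fin r) k} (hF : F.IsHomogeneous 3) (l : Fin r) (z : Fin r → R)
    (hl : z l = 1) (hz : ∀ i, i ≠ l → z i = 0) :
    aeval z F = algebraMap k R (coeff (Finsupp.single l 3) F) := by
  classical
  refine hom3_induction (P := fun F => aeval z F = algebraMap k R (coeff (Finsupp.single l 3) F))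
    ?_ ?_ ?_ hF
  · simp
  · intro f g hf hg
    rw [map_add, hf, hg, coeff_add, map_add]
  · intro c i j m
    have hm : (C c * (X i * X j * X m) : MvPolynomial (Fin r) k) =
        monomial (Finsupp.single i 1 + Finsupp.single j 1 + Finsupp.single m 1) c := by
      rw [X, X, X, monomial_mul, monomial_mul, C_mul_monomial, mul_one, mul_one, mul_one]
    rw [hm, coeff_monomial]
    have hv : aeval z (monomial (Finsupp.single i 1 + Finsupp.single j 1 + Finsupp.single m 1) c) =
        algebraMap k R c * (z i * z j * z m) := by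
      rw [← hm]
      simp only [map_mul, aeval_C, aeval_X]
    rw [hv]
    split_ifs with h
    · have hi : i = l := by
        by_contra hne
        have := DFunLike.congr_fun h i
        simp only [Finsupp.coe_add, Pi.add_apply, Finsupp.single_eq_same] at this
        rw [Finsupp.single_eq_of_ne (show i ≠ l from hne)] at this
        omega
      have hj : j = l := by
        by_contra hne
        have := DFunLike.congr_fun h j
        simp only [Finsupp.coe_add, Pi.add_apply, Finsupp.single_eq_same] at this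
        rw [Finsupp.single_eq_of_ne (show j ≠ l from hne)] at this
        omega
      have hm' : m = l := by
        by_contra hne
        have := DFunLike.congr_fun h m
        simp only [Finsupp.coe_add, Pi.add_apply, Finsupp.single_eq_same] at this
        rw [Finsupp.single_eq_of_ne (show m ≠ l from hne)] at this
        omega
      rw [hi, hj, hm', hl]
      ring
    · rw [map_zero]
      by_cases hi : i = l
      · by_cases hj : j = l
        · by_cases hm' : m = l
          · exfalso
            apply h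
            rw [hi, hj, hm', ← Finsupp.single_add, ← Finsupp.single_add]
          · rw [hz m hm']
            ring
        · rw [hz j hj]
          ring
      · rw [hz i hi]
        ring

theorem cases3 {n : ℕ} {P : Fin (n + 2) → Prop} (h0 : P 0) (hm : ∀ i : Fin n, P i.castSucc.succ)
    (hl : P (Fin.last (n + 1))) (i : Fin (n + 2)) : P i := by
  refine Fin.cases h0 (fun j => ?_) i
  refine Fin.lastCases ?_ (fun a => hm a) j
  rw [Fin.succ_last]
  exact hl

section
variable {Ω K E : Type} [Field Ω] [Field K] [Field E] [Algebra Ω K]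
    [Algebra K E] [Algebra Ω E] [IsScalarTower Ω K E] {n : ℕ}
    {F0 G : MvPolynomial (Fin (n + 2)) Ω} (hF0 : F0.IsHomogeneous 3) (hG : G.IsHomogeneous 3)
    (hirr : Irreducible F0) (hlast : coeff (Finsupp.single (Fin.last (n + 1)) 3) F0 ≠ 0)
    {c : K} {w : Place Ω E} (hc : 0 < w.ord (algebraMap K E c))
    {x : Fin (n + 2) → E} (hx : aeval x (Fc F0 G c) = 0) (hx0 : x 0 ≠ 0)

include hF0 hG hc hx

theorem aeval_red (a : E) (ha : a ≠ 0) (hr : ∀ i, w.Reg (x i / a)) :
    aeval (fun i => w.red (x i / a)) F0 = 0 := by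
  have ex : x = fun i => a * (x i / a) := by
    funext i
    rw [mul_div_cancel₀ _ ha]
  have h0 : aeval (fun i => x i / a) (Fc F0 G c) = 0 := by
    rw [ex, aeval_smul_hom (LwL.fc_hom hF0 hG c), mul_eq_zero] at hx
    exact hx.resolve_left (pow_ne_zero _ ha)
  rw [LwL.aeval_fc] at h0
  have h1 := LwL.red_aeval w (fun i => x i / a) F0 hr
  have h2 := LwL.red_aeval w (fun i => x i / a) G hr
  have h3 := (LwL.red_add_small w h1.1 h2.1 hc).2
  rw [h0, w.red_zero, h1.2] at h3
  exact h3.symm

include hlast hx0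

/-- the last coordinate is regular -/
theorem reg_last (hy : ∀ j, w.Reg (yx x j)) (i : Fin (n + 2)) : w.Reg (x i / x 0) := by
  classical
  have hT : w.Reg (x (Fin.last (n + 1)) / x 0) := by
    by_contra hT
    have hT0 : x (Fin.last (n + 1)) / x 0 ≠ 0 := fun h => hT (Or.inl h)
    have hT1 : w.ord (x (Fin.last (n + 1)) / x 0) < 0 := by
      by_contra h
      exact hT (Or.inr (not_lt.1 h))
    have hl0 : x (Fin.last (n + 1)) ≠ 0 := by
      rintro h
      rw [h, zero_div] at hT0
      exact hT0 rfl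
    have hq : ∀ i, x i / x (Fin.last (n + 1)) =
        (x i / x 0) / (x (Fin.last (n + 1)) / x 0) := by
      intro i
      rw [div_div_div_cancel_right₀ hx0]
    have hsm : ∀ f : E, w.Reg f → w.Reg (f / (x (Fin.last (n + 1)) / x 0)) ∧
        w.red (f / (x (Fin.last (n + 1)) / x 0)) = 0 := by
      intro f hf
      by_cases hf0 : f = 0
      · rw [hf0, zero_div]
        exact ⟨w.reg_zero, w.red_zero⟩
      · have h1 := (w.reg_iff hf0).1 hf
        have h2 : 0 < w.ord (f / (x (Fin.last (n + 1)) / x 0)) := by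
          rw [w.ord_div hf0 hT0]
          omega
        have h3 : w.Reg (f / (x (Fin.last (n + 1)) / x 0)) := Or.inr h2.le
        exact ⟨h3, (w.red_eq_zero_iff h3).2 (Or.inr h2)⟩
    have hall : ∀ i, w.Reg (x i / x (Fin.last (n + 1))) ∧
        (i ≠ Fin.last (n + 1) → w.red (x i / x (Fin.last (n + 1))) = 0) := by
      intro i
      refine cases3 (P := fun i => w.Reg (x i / x (Fin.last (n + 1))) ∧
        (i ≠ Fin.last (n + 1) → w.red (x i / x (Fin.last (n + 1))) = 0)) ?_ ?_ ?_ i
      · rw [hq, div_self hx0]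
        have := hsm 1 w.reg_one
        exact ⟨this.1, fun _ => this.2⟩
      · intro j
        rw [hq]
        have := hsm _ (hy j)
        exact ⟨this.1, fun _ => this.2⟩
      · rw [div_self hl0]
        exact ⟨w.reg_one, fun h => absurd rfl h⟩
    have h1 := aeval_red hF0 hG hc hx (x (Fin.last (n + 1))) hl0 fun i => (hall i).1
    rw [aeval_single hF0 (Fin.last (n + 1)) _ (by rw [div_self hl0, w.red_one])
      fun i hi => (hall i).2 hi, map_eq_zero] at h1
    exact hlast h1
  refine cases3 (P := fun i => w.Reg (x i / x 0)) ?_ hy hT i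
  rw [div_self hx0]
  exact w.reg_one

include hirr

theorem good_of (hcub : S_CUB) (hy : ∀ j, w.Reg (yx x j))
    (hi : AlgebraicIndependent Ω (fun j => w.red (yx x j))) :
    (∀ i, w.Reg (x i / x 0)) ∧ Gen F0 (fun i => w.red (x i / x 0)) ∧
    finrank (Kc Ω (fun j => w.red (yx x j))) w.RF =
      3 * finrank (rf Ω fun i => w.red (x i / x 0)) w.RF := by
  have hr := reg_last hF0 hG hlast hc hx hx0 hy
  have h0 : w.red (x 0 / x 0) = 1 := by rw [div_self hx0, w.red_one]
  have hyx : yx (fun i => w.red (x i / x 0)) = fun j => w.red (yx x j) := by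
    funext j
    show w.red (x j.castSucc.succ / x 0) / w.red (x 0 / x 0) = _
    rw [h0, div_one]
    rfl
  obtain ⟨h1, h2⟩ := hcub Ω w.RF n F0 hF0 hirr hlast (fun i => w.red (x i / x 0))
  have hg : Gen F0 (fun i => w.red (x i / x 0)) :=
    h2 (aeval_red hF0 hG hc hx (x 0) hx0 hr) (by rw [h0]; exact one_ne_zero) (by rwa [hyx])
  refine ⟨hr, hg, ?_⟩
  have h3 := (h1 hg).2.2
  rw [hyx] at h3
  exact h3

end

theorem of_good {Ω E : Type} [Field Ω] [Field E] [Algebra Ω E] {n : ℕ}
    {F0 : MvPolynomial (Fin (n + 2)) Ω} (hF0 : F0.IsHomogeneous 3)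
    (hirr : Irreducible F0) (hlast : coeff (Finsupp.single (Fin.last (n + 1)) 3) F0 ≠ 0)
    {w : Place Ω E} {x : Fin (n + 2) → E} (hcub : S_CUB) (h : Good w F0 x) :
    (∀ j, w.Reg (yx x j)) ∧ AlgebraicIndependent Ω (fun j => w.red (yx x j)) := by
  obtain ⟨hx0, hr, hg, -⟩ := h
  have h0 : w.red (x 0 / x 0) = 1 := by rw [div_self hx0, w.red_one]
  have hyx : yx (fun i => w.red (x i / x 0)) = fun j => w.red (yx x j) := by
    funext j
    show w.red (x j.castSucc.succ / x 0) / w.red (x 0 / x 0) = _
    rw [h0, div_one]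
    rfl
  obtain ⟨h1, -⟩ := hcub Ω w.RF n F0 hF0 hirr hlast (fun i => w.red (x i / x 0))
  refine ⟨fun j => hr _, ?_⟩
  have := (h1 hg).2.1
  rwa [hyx] at this

theorem good_smul {Ω E : Type} [Field Ω] [Field E] [Algebra Ω E] {n : ℕ}
    {F0 : MvPolynomial (Fin (n + 2)) Ω} {w : Place Ω E} {x : Fin (n + 2) → E} {a : E}
    (ha : a ≠ 0) : Good w F0 (fun i => a * x i) ↔ Good w F0 x := by
  unfold Good
  have h : (fun i => w.red (a * x i / (a * x 0))) = fun i => w.red (x i / x 0) := by
    funext i
    rw [mul_div_mul_left _ _ ha]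
  rw [h, mul_ne_zero_iff, and_iff_right ha]
  simp only [mul_div_mul_left _ _ ha]

/-- the degree over the coordinates is, modulo 2, a sum over the good places -/
theorem count (hcub : S_CUB) (hres : S_RES) (Ω K E : Type) [Field Ω] [IsAlgClosed Ω] [CharZero Ω]
    [Field K] [Field E] [Algebra Ω K] [Algebra K E] [Algebra Ω E] [IsScalarTower Ω K E] [IsFF Ω K]
    (n : ℕ) (F0 G : MvPolynomial (Fin (n + 2)) Ω) (hF0 : F0.IsHomogeneous 3)
    (hG : G.IsHomogeneous 3) (hirr : Irreducible F0)
    (hlast : coeff (Finsupp.single (Fin.last (n + 1)) 3) F0 ≠ 0) (c : K)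
    (P : Place Ω K) (hPc : 0 < P.ord c) (ϖ : K) (h0 : ϖ ≠ 0) (h1 : P.ord ϖ = 1)
    (x : Fin (n + 2) → E) (hx : aeval x (Fc F0 G c) = 0) (hx0 : x 0 ≠ 0)
    (hi : AlgebraicIndependent K (yx x)) (hfin : FiniteDimensional (Kc K (yx x)) E) :
    ∃ S : Finset (Place Ω E), (∀ w, w ∈ S ↔ (∀ a : K, P.Reg a → w.Reg (algebraMap K E a)) ∧
      0 < w.ord (algebraMap K E ϖ) ∧ Good w F0 x) ∧
      (Odd (finrank (Kc K (yx x)) E) ↔ Odd (∑ w ∈ S, (w.ord (algebraMap K E ϖ)).toNat)) := by
  classical
  obtain ⟨S, hS, hsum⟩ := Pool.Agent.R845.E3.gfi Ω K E n P ϖ (yx x) h0 h1 hi hfin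
  have hc0 : c ≠ 0 := by
    rintro rfl
    rw [P.ord_zero] at hPc
    exact lt_irrefl _ hPc
  have hwc : ∀ w : Place Ω E, (∀ a : K, P.Reg a → w.Reg (algebraMap K E a)) →
      0 < w.ord (algebraMap K E ϖ) → 0 < w.ord (algebraMap K E c) :=
    fun w hr hw => ResL.ord_pos P w h0 h1 hr hw hc0 hPc
  -- good places belong to `S`
  have hmem : ∀ w : Place Ω E, (∀ a : K, P.Reg a → w.Reg (algebraMap K E a)) →
      0 < w.ord (algebraMap K E ϖ) → Good w F0 x → w ∈ S := by
    intro w hr hw hg
    rw [hS]
    obtain ⟨h2, h3⟩ := of_good hF0 hirr hlast hcub hg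
    refine ⟨hr, hw, h2, ?_⟩
    exact (((hres Ω K E P w ϖ h0 h1 hr hw).2 n (yx x) h2).1).1 h3
  -- the parity of the residue degree
  have hpar : ∀ w ∈ S, (Odd (finrank (Subfield.closure
      ({c : w.RF | ∃ a : K, P.Reg a ∧ w.red (algebraMap K E a) = c} ∪
          Set.range fun j => w.red (yx x j))) w.RF) ↔ Good w F0 x) := by
    intro w hw
    obtain ⟨hr, hw2, hy, hg⟩ := (hS w).1 hw
    obtain ⟨h2, h3⟩ := hres Ω K E P w ϖ h0 h1 hr hw2
    have h4 := (h3 n (yx x) hy).1.2 hg
    obtain ⟨h5, h6, h7⟩ := good_of hF0 hG hirr hlast (hwc w hr hw2) hx hx0 hcub hy h4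
    rw [h2]
    have h8 : finrank (Subfield.closure (Set.range (algebraMap Ω w.RF) ∪
          Set.range fun j => w.red (yx x j))) w.RF =
        finrank (Kc Ω (fun j => w.red (yx x j))) w.RF := rfl
    rw [h8, h7]
    unfold Good
    rw [Nat.odd_mul]
    have h9 : Odd 3 := by decide
    simp only [h9, true_and, hx0, h6, ne_eq, not_false_eq_true]
    exact ⟨fun h => ⟨h5, h⟩, fun h => h.2⟩
  refine ⟨S.filter fun w => Good w F0 x, fun w => ?_, ?_⟩
  · rw [Finset.mem_filter]
    constructor
    · rintro ⟨hw, hg⟩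
      exact ⟨((hS w).1 hw).1, ((hS w).1 hw).2.1, hg⟩
    · rintro ⟨hr, hw, hg⟩
      exact ⟨hmem w hr hw hg, hg⟩
  · rw [← hsum]
    have key : (∑ w ∈ S, (w.ord (algebraMap K E ϖ)).toNat *
        finrank (Subfield.closure ({c : w.RF | ∃ a : K, P.Reg a ∧ w.red (algebraMap K E a) = c} ∪
          Set.range fun j => w.red (yx x j))) w.RF : ℕ) ≡
        ∑ w ∈ S.filter (fun w => Good w F0 x), (w.ord (algebraMap K E ϖ)).toNat [MOD 2] := by
      rw [Finset.sum_filter]
      refine Nat.ModEq.sum fun w hw => ?_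
      have h2 := hpar w hw
      split_ifs with hg
      · have h3 := h2.2 hg
        obtain ⟨d, hd⟩ := h3
        rw [hd]
        have : (w.ord (algebraMap K E ϖ)).toNat * (2 * d + 1) =
            (w.ord (algebraMap K E ϖ)).toNat + 2 * ((w.ord (algebraMap K E ϖ)).toNat * d) := by ring
        rw [this]
        unfold Nat.ModEq
        omega
      · have h3 := mt h2.1 hg
        rw [Nat.not_odd_iff_even] at h3
        obtain ⟨d, hd⟩ := h3
        rw [hd]
        have : (w.ord (algebraMap K E ϖ)).toNat * (d + d) =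
            2 * ((w.ord (algebraMap K E ϖ)).toNat * d) := by ring
        rw [this]
        unfold Nat.ModEq
        omega
    rw [Nat.odd_iff, Nat.odd_iff, key]

end

end TrL

/-- transfer of the parity law over a function field -/
theorem tr : S_CUB → S_RES → S_RCV → S_LW → S_TR := by
  intro hcub hres hrcv hlw Ω K E _ _ _ _ _ _ _ _ _ _ n F0 G hF0 hG hirr hlast hlaw c hct x p hx hx0
    hxi hodd hp0 hp hcrv
  classical
  have hF := LwL.fc_hom (K := K) hF0 hG c
  -- the place
  obtain ⟨SP, hSP, -, hSP3⟩ := FF.zeros (k := Ω) (K := K) hct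
  have hfd : FiniteDimensional (IntermediateField.adjoin Ω {c}) K := IsFF.finite hct
  have hpos : 0 < finrank (IntermediateField.adjoin Ω {c}) K := finrank_pos
  have hne : SP.Nonempty := by
    rw [Finset.nonempty_iff_ne_empty]
    rintro rfl
    rw [Finset.sum_empty] at hSP3
    omega
  obtain ⟨P, hP⟩ := hne
  have hPc : 0 < P.ord c := (hSP P).1 hP
  obtain ⟨ϖ, h0, h1⟩ := P.surj
  have hc0 : c ≠ 0 := by
    rintro rfl
    rw [P.ord_zero] at hPc
    exact lt_irrefl _ hPc
  have hfin : FiniteDimensional (Kc K (yx x)) E := by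
    apply FiniteDimensional.of_finrank_pos
    obtain ⟨d, hd⟩ := hodd
    omega
  have hwc : ∀ w : Place Ω E, (∀ a : K, P.Reg a → w.Reg (algebraMap K E a)) →
      0 < w.ord (algebraMap K E ϖ) → 0 < w.ord (algebraMap K E c) :=
    fun w hr hw => ResL.ord_pos P w h0 h1 hr hw hc0 hPc
  -- the reflection at the places over `P`
  have hrefl : ∀ w : Place Ω E, (∀ a : K, P.Reg a → w.Reg (algebraMap K E a)) →
      0 < w.ord (algebraMap K E ϖ) → ∀ x : Fin (n + 2) → E, aeval x (Fc F0 G c) = 0 →
      Good w F0 x → pol (Fc F0 G c) x p ≠ 0 ∧ Good w F0 (third (Fc F0 G c) x p) := by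
    intro w hr hw x hx hg
    refine hlw Ω K E n F0 G hF0 hG hlaw w c (hwc w hr hw) x p hx hp hp0 ?_ hg
    intro j hj hpr
    refine hrcv Ω K E P w ϖ h0 h1 hr hw (n + 2) (fun i => p i / p j) hpr ?_
    have : (fun i => p i / p j) = fun i => (p j)⁻¹ * p i := by
      funext i
      rw [div_eq_inv_mul]
    rw [this]
    exact (crv_smul p (inv_ne_zero hj)).2 hcrv
  obtain ⟨S, hS, hSodd⟩ := TrL.count hcub hres Ω K E n F0 G hF0 hG hirr hlast c P hPc ϖ h0 h1 x hx
    hx0 hxi hfin
  have hSne : S.Nonempty := by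
    rw [Finset.nonempty_iff_ne_empty]
    rintro rfl
    rw [Finset.sum_empty] at hSodd
    exact absurd (hSodd.1 hodd) (by decide)
  obtain ⟨w, hw⟩ := hSne
  obtain ⟨hwr, hww, hwg⟩ := (hS w).1 hw
  obtain ⟨hpol, hgz⟩ := hrefl w hwr hww x hx hwg
  have hz : aeval (third (Fc F0 G c) x p) (Fc F0 G c) = 0 := third_on hF x p hx hp
  obtain ⟨hyr, hyi⟩ := TrL.of_good hF0 hirr hlast hcub hgz
  have hzi : AlgebraicIndependent K (yx (third (Fc F0 G c) x p)) :=
    ((hres Ω K E P w ϖ h0 h1 hwr hww).2 n _ hyr).2 hyi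
  have hzfin := TrL.fin_of_indep hxi hfin hzi
  refine ⟨hpol, hgz.1, hzi, ?_⟩
  obtain ⟨S', hS', hSodd'⟩ := TrL.count hcub hres Ω K E n F0 G hF0 hG hirr hlast c P hPc ϖ h0 h1
    (third (Fc F0 G c) x p) hz hgz.1 hzi hzfin
  have hSS : S' = S := by
    ext v
    rw [hS', hS]
    refine and_congr_right fun hr => and_congr_right fun hv => ⟨fun hg => ?_, fun hg => ?_⟩
    · have h2 := (hrefl v hr hv _ hz hg).2
      have h3 : third (Fc F0 G c) (third (Fc F0 G c) x p) p =
          fun i => (pol (Fc F0 G c) x p) ^ 3 * x i := by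
        funext i
        exact third_third hF x p hp i
      rw [h3] at h2
      exact (TrL.good_smul (pow_ne_zero 3 hpol)).1 h2
    · exact (hrefl v hr hv x hx hg).2
  rw [hSodd', hSS]
  exact hSodd.1 hodd

end Pool.Agent.Helper93K9.PAR
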