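import Pool.Agent.Helper93K9.PAR.Defs

/-! # The cone over the special cubic is factorial -/

set_option autoImplicit false

namespace Pool.Agent.Helper93K9.PAR

open MvPolynomial

namespace UFD

/-- the first two variables become the variables of a polynomial ring -/
noncomputable def e (m : ℕ) (k : Type) [Field k] :
    MvPolynomial (Fin (m + 5)) k ≃+* Polynomial (Polynomial (MvPolynomial (Fin (m + 3)) k)) :=
  (finSuccEquiv k (m + 4)).toRingEquiv.trans
    (Polynomial.mapEquiv (finSuccEquiv k (m + 3)).toRingEquiv)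

variable (m : ℕ) (k : Type) [Field k]

lemma e_zero : e m k (X 0) = Polynomial.X := by
  change (Polynomial.mapEquiv _) (finSuccEquiv k (m + 4) (X 0)) = _
  rw [finSuccEquiv_X_zero]
  simp

lemma e_succ (j : Fin (m + 4)) : e m k (X j.succ) =
    Polynomial.C (finSuccEquiv k (m + 3) (X j)) := by
  change (Polynomial.mapEquiv _) (finSuccEquiv k (m + 4) (X j.succ)) = _
  rw [finSuccEquiv_X_succ]
  simp

lemma e_one : e m k (X 1) = Polynomial.C Polynomial.X := by
  have h : (1 : Fin (m + 5)) = (0 : Fin (m + 4)).succ := rfl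
  rw [h, e_succ, finSuccEquiv_X_zero]

lemma e_ss (j : Fin (m + 3)) : e m k (X j.succ.succ) = Polynomial.C (Polynomial.C (X j)) := by
  rw [e_succ, finSuccEquiv_X_succ]

lemma e_F0 : e m k (F0 m k) = cnc (X 0) (X 1) (cc m k) := by
  unfold F0 cnc cc
  have h2 : (2 : Fin (m + 5)) = (0 : Fin (m + 3)).succ.succ := rfl
  have h3 : (3 : Fin (m + 5)) = (1 : Fin (m + 3)).succ.succ := rfl
  rw [h2, h3]
  simp only [map_add, map_mul, map_pow, map_sum, e_zero, e_one, e_ss]
  ring

end UFD

open UFD in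
theorem ufd (h1 : S_CB) (h2 : S_SQA) (h3 : S_SQC) (h4 : S_DEP) : S_UFD := by
  intro m k _ _
  have hc0 : cc m k ≠ 0 := by
    intro h
    have h5 := congrArg (eval (fun j : Fin (m + 3) => if j = 0 then (1 : k) else 0)) h
    unfold cc at h5
    rw [map_sum, map_zero, Finset.sum_eq_single 0] at h5
    · simp at h5
    · intro j _ hj
      simp [hj]
    · simp
  have hu : IsUnit (2 : MvPolynomial (Fin (m + 3)) k) := by
    have h5 : IsUnit (2 : k) := isUnit_iff_ne_zero.2 two_ne_zero
    have h6 := h5.map (C : k →+* MvPolynomial (Fin (m + 3)) k)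
    rwa [map_ofNat] at h6
  have hX : Prime (X 0 : MvPolynomial (Fin (m + 3)) k) := by
    rw [← MulEquiv.prime_iff (finSuccEquiv k (m + 2)).toMulEquiv]
    have h5 : (finSuccEquiv k (m + 2)).toMulEquiv (X 0) = Polynomial.X := finSuccEquiv_X_zero
    rw [h5]
    exact Polynomial.prime_X
  have hX2 : ¬ (X 0 : MvPolynomial (Fin (m + 3)) k) ^ 2 ∣ X 0 := by
    rintro ⟨t, ht⟩
    apply hX.not_isUnit
    apply IsUnit.of_mul_eq_one t
    apply mul_left_cancel₀ hX.ne_zero
    linear_combination -ht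
  obtain ⟨hd, hU⟩ := h1 (MvPolynomial (Fin (m + 3)) k) (X 0) (X 1) (cc m k) (X_ne_zero _)
    (X_ne_zero _) hc0 hu ⟨X 0, hX, dvd_rfl, hX2⟩ (h2 m k).1 (h2 m k).2 (h3 m k) (h4 m k)
  let E : (MvPolynomial (Fin (m + 5)) k ⧸ Ideal.span {F0 m k}) ≃+*
      (Polynomial (Polynomial (MvPolynomial (Fin (m + 3)) k)) ⧸
        Ideal.span {cnc (X 0) (X 1) (cc m k)}) :=
    Ideal.quotientEquiv _ _ (e m k) (by
      rw [Ideal.map_span, Set.image_singleton]
      congr 2
      exact (e_F0 m k).symm)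
  refine ⟨MulEquiv.isDomain _ E.toMulEquiv, ?_⟩
  exact E.symm.toMulEquiv.uniqueFactorizationMonoid hU

end Pool.Agent.Helper93K9.PAR
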