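import Mathlib
import Pool.Agent.Helper93K9.PAR.Defs3
import Pool.Agent.Helper93K9.PAR.Basic

/-! # Parity along curves: the special cubic form -/

set_option autoImplicit false

namespace Pool.Agent.Helper93K9.PAR

open MvPolynomial Module

theorem F0_hom (m : ℕ) (k : Type) [CommRing k] : (F0 m k).IsHomogeneous 3 := by
  unfold F0
  refine IsHomogeneous.add (IsHomogeneous.add ?_ ?_) ?_
  · exact (isHomogeneous_X k _).mul ((isHomogeneous_X k _).pow 2)
  · exact (isHomogeneous_X k _).mul ((isHomogeneous_X k _).pow 2)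
  · exact IsHomogeneous.sum _ _ _ fun j _ => (isHomogeneous_X k _).pow 3

theorem F0_map (m : ℕ) (k K : Type) [CommRing k] [CommRing K] [Algebra k K] :
    map (algebraMap k K) (F0 m k) = F0 m K := by
  unfold F0
  simp only [map_add, map_mul, map_pow, map_X, map_sum]

theorem pol_F0 (m : ℕ) {k R : Type} [CommRing k] [CommRing R] [Algebra k R]
    (x z : Fin (m + 5) → R) :
    pol (F0 m k) x z = x 2 * z 0 ^ 2 + 2 * x 0 * z 0 * z 2 +
      (x 3 * z 1 ^ 2 + 2 * x 1 * z 1 * z 3) +
      ∑ j : Fin (m + 3), 3 * x j.succ.succ * z j.succ.succ ^ 2 := by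
  have h1 : ∀ a b : Fin (m + 5), pol (X a * X b ^ 2 : MvPolynomial (Fin (m + 5)) k) x z =
      x a * z b ^ 2 + 2 * x b * z b * z a := by
    intro a b
    have h := pol_mono (1 : k) a b b x z
    rw [C_1, one_mul, map_one] at h
    rw [show (X a * X b ^ 2 : MvPolynomial (Fin (m + 5)) k) = X a * X b * X b by ring, h]
    ring
  have h2 : ∀ a : Fin (m + 5), pol (X a ^ 3 : MvPolynomial (Fin (m + 5)) k) x z =
      3 * x a * z a ^ 2 := by
    intro a
    have h := pol_mono (1 : k) a a a x z
    rw [C_1, one_mul, map_one] at h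
    rw [show (X a ^ 3 : MvPolynomial (Fin (m + 5)) k) = X a * X a * X a by ring, h]
    ring
  have h3 : ∀ s : Finset (Fin (m + 3)), pol (∑ j ∈ s, (X j.succ.succ ^ 3 :
      MvPolynomial (Fin (m + 5)) k)) x z = ∑ j ∈ s, 3 * x j.succ.succ * z j.succ.succ ^ 2 := by
    classical
    intro s
    induction s using Finset.induction_on with
    | empty => simp [pol_zero]
    | insert a s ha ih => rw [Finset.sum_insert ha, Finset.sum_insert ha, pol_add, h2, ih]
  unfold F0
  rw [pol_add, pol_add, h1, h1, h3]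

theorem pol_single {k R : Type} [CommRing k] [CommRing R] [Algebra k R] {r : ℕ}
    (F : MvPolynomial (Fin r) k) (i : Fin r) (z : Fin r → R) :
    pol F (Pi.single i 1) z = aeval z (pderiv i F) := by
  classical
  unfold pol
  rw [Finset.sum_eq_single i]
  · rw [Pi.single_eq_same, one_mul]
  · intro b _ hb
    rw [Pi.single_eq_of_ne hb, zero_mul]
  · intro h
    exact absurd (Finset.mem_univ i) h

theorem val2 (m : ℕ) : ((2 : Fin (m + 5)) : ℕ) = 2 := by
  have h : 2 % (m + 5) = 2 := Nat.mod_eq_of_lt (by omega)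
  exact h

theorem val3 (m : ℕ) : ((3 : Fin (m + 5)) : ℕ) = 3 := by
  have h : 3 % (m + 5) = 3 := Nat.mod_eq_of_lt (by omega)
  exact h

theorem val0 (m : ℕ) : ((0 : Fin (m + 5)) : ℕ) = 0 := rfl
theorem val1 (m : ℕ) : ((1 : Fin (m + 5)) : ℕ) = 1 := by
  have h : 1 % (m + 5) = 1 := Nat.mod_eq_of_lt (by omega)
  exact h


theorem ne23 (m : ℕ) : (2 : Fin (m + 5)) ≠ 3 := fun h => by
  have := congrArg Fin.val h
  rw [val2, val3] at this
  omega
theorem ne02 (m : ℕ) : (0 : Fin (m + 5)) ≠ 2 := fun h => by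
  have := congrArg Fin.val h
  rw [val2, val0] at this
  omega
theorem ne03 (m : ℕ) : (0 : Fin (m + 5)) ≠ 3 := fun h => by
  have := congrArg Fin.val h
  rw [val3, val0] at this
  omega
theorem ne12 (m : ℕ) : (1 : Fin (m + 5)) ≠ 2 := fun h => by
  have := congrArg Fin.val h
  rw [val2, val1] at this
  omega
theorem ne13 (m : ℕ) : (1 : Fin (m + 5)) ≠ 3 := fun h => by
  have := congrArg Fin.val h
  rw [val3, val1] at this
  omega
theorem ne01 (m : ℕ) : (0 : Fin (m + 5)) ≠ 1 := fun h => by
  have := congrArg Fin.val h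
  rw [val1, val0] at this
  omega

theorem F0_smooth (m : ℕ) (k κ : Type) [Field k] [Field κ] [Algebra k κ] [CharZero κ]
    (z : Fin (m + 5) → κ) (h : ∀ i, aeval z (pderiv i (F0 m k)) = 0) : z = 0 := by
  have h1 : ∀ x : Fin (m + 5) → κ, pol (F0 m k) x z = 0 := by
    intro x
    unfold pol
    exact Finset.sum_eq_zero fun i _ => by rw [h, mul_zero]
  have key : ∀ j : Fin (m + 3), (Pi.single (M := fun _ => κ) j.succ.succ (1 : κ)
      (2 : Fin (m + 5))) * z 0 ^ 2 + (Pi.single (M := fun _ => κ) j.succ.succ (1 : κ)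
      (3 : Fin (m + 5))) * z 1 ^ 2 + 3 * z j.succ.succ ^ 2 = 0 := by
    intro j
    have h2 := h1 (Pi.single j.succ.succ 1)
    rw [pol_F0] at h2
    have h3 : ∑ i : Fin (m + 3), 3 * (Pi.single (M := fun _ => κ) j.succ.succ (1 : κ)
        i.succ.succ) * z i.succ.succ ^ 2 = 3 * z j.succ.succ ^ 2 := by
      rw [Finset.sum_eq_single j]
      · rw [Pi.single_eq_same, mul_one]
      · intro b _ hb
        rw [Pi.single_eq_of_ne, mul_zero, zero_mul]
        intro h4
        exact hb (Fin.succ_injective _ (Fin.succ_injective _ h4))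
      · intro h
        exact absurd (Finset.mem_univ j) h
    rw [h3] at h2
    have h4 : Pi.single (M := fun _ => κ) j.succ.succ (1 : κ) (0 : Fin (m + 5)) = 0 := by
      rw [Pi.single_eq_of_ne]
      exact (Fin.succ_ne_zero _).symm
    have h5 : Pi.single (M := fun _ => κ) j.succ.succ (1 : κ) (1 : Fin (m + 5)) = 0 := by
      rw [Pi.single_eq_of_ne]
      intro h6
      exact (Fin.succ_ne_zero j) (Fin.succ_injective _ h6.symm)
    rw [h4, h5] at h2
    linear_combination h2
  have e0 : z 0 * z 2 = 0 := by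
    have h2 := h1 (Pi.single 0 1)
    rw [pol_F0] at h2
    have h3 : ∑ i : Fin (m + 3), 3 * (Pi.single (M := fun _ => κ) (0 : Fin (m + 5)) (1 : κ)
        i.succ.succ) * z i.succ.succ ^ 2 = 0 := by
      refine Finset.sum_eq_zero fun i _ => ?_
      rw [Pi.single_eq_of_ne (Fin.succ_ne_zero _), mul_zero, zero_mul]
    rw [h3, Pi.single_eq_same, Pi.single_eq_of_ne (ne02 m).symm,
      Pi.single_eq_of_ne (ne03 m).symm, Pi.single_eq_of_ne (ne01 m).symm] at h2
    have h4 : (2 : κ) * (z 0 * z 2) = 0 := by linear_combination h2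
    exact (mul_eq_zero.1 h4).resolve_left two_ne_zero
  have e1 : z 1 * z 3 = 0 := by
    have h2 := h1 (Pi.single 1 1)
    rw [pol_F0] at h2
    have h3 : ∑ i : Fin (m + 3), 3 * (Pi.single (M := fun _ => κ) (1 : Fin (m + 5)) (1 : κ)
        i.succ.succ) * z i.succ.succ ^ 2 = 0 := by
      refine Finset.sum_eq_zero fun i _ => ?_
      rw [Pi.single_eq_of_ne, mul_zero, zero_mul]
      intro h6
      exact (Fin.succ_ne_zero i) (Fin.succ_injective _ h6)
    rw [h3, Pi.single_eq_same, Pi.single_eq_of_ne (ne12 m).symm,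
      Pi.single_eq_of_ne (ne01 m), Pi.single_eq_of_ne (ne13 m).symm] at h2
    have h4 : (2 : κ) * (z 1 * z 3) = 0 := by linear_combination h2
    exact (mul_eq_zero.1 h4).resolve_left two_ne_zero
  have e2 : z 0 ^ 2 + 3 * z 2 ^ 2 = 0 := by
    have h2 := key 0
    have h3 : (0 : Fin (m + 3)).succ.succ = (2 : Fin (m + 5)) := rfl
    rw [h3, Pi.single_eq_same, Pi.single_eq_of_ne (ne23 m).symm] at h2
    linear_combination h2
  have e3 : z 1 ^ 2 + 3 * z 3 ^ 2 = 0 := by
    have h2 := key 1
    have h3 : (1 : Fin (m + 3)).succ.succ = (3 : Fin (m + 5)) := rfl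
    rw [h3, Pi.single_eq_same, Pi.single_eq_of_ne (ne23 m)] at h2
    linear_combination h2
  have z0 : z 0 = 0 := by
    rcases mul_eq_zero.1 e0 with h2 | h2
    · exact h2
    · rw [h2] at e2
      simpa using e2
  have z1 : z 1 = 0 := by
    rcases mul_eq_zero.1 e1 with h2 | h2
    · exact h2
    · rw [h2] at e3
      simpa using e3
  have hj : ∀ j : Fin (m + 3), z j.succ.succ = 0 := by
    intro j
    have h2 := key j
    rw [z0, z1] at h2
    have h3 : (3 : κ) * z j.succ.succ ^ 2 = 0 := by linear_combination h2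
    have h4 := (mul_eq_zero.1 h3).resolve_left three_ne_zero
    simpa using h4
  funext i
  refine Fin.cases z0 (fun i => ?_) i
  refine Fin.cases z1 (fun i => ?_) i
  exact hj i

theorem F0_coeff (m : ℕ) (k : Type) [CommRing k] :
    coeff (Finsupp.single (Fin.last (m + 4)) 3) (F0 m k) = 1 := by
  classical
  have h1 : ∀ a b : Fin (m + 5), a ≠ Fin.last (m + 4) → coeff (Finsupp.single (Fin.last (m + 4)) 3)
      (X a * X b ^ 2 : MvPolynomial (Fin (m + 5)) k) = 0 := by
    intro a b ha
    rw [mul_comm, coeff_mul_X', if_neg]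
    rw [Finsupp.mem_support_iff, not_not, Finsupp.single_eq_of_ne ha]
  unfold F0
  rw [coeff_add, coeff_add, h1, h1, zero_add, zero_add, coeff_sum,
    Finset.sum_eq_single (Fin.last (m + 2))]
  · rw [coeff_X_pow, if_pos]
    rfl
  · intro b _ hb
    rw [coeff_X_pow, if_neg]
    intro h
    apply hb
    have h2 := (Finsupp.single_left_inj (by norm_num)).1 h
    exact Fin.succ_injective _ (Fin.succ_injective _ h2)
  · intro h
    exact absurd (Finset.mem_univ _) h
  · intro h
    have := congrArg Fin.val h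
    rw [val3, Fin.val_last] at this
    omega
  · intro h
    have := congrArg Fin.val h
    rw [val2, Fin.val_last] at this
    omega

end Pool.Agent.Helper93K9.PAR
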