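import Mathlib
import Pool.Agent.Helper93K9.PAR.Defs3
import Pool.Agent.Helper93K9.PAR.Basic
import Pool.Agent.Helper93K9.PAR.Spc
import Pool.Agent.Helper93K9.PAR.Lw
import Pool.Agent.Helper93K9.PAR.Tr

/-! # Parity along curves: very general cubics -/

set_option autoImplicit false

namespace Pool.Agent.Helper93K9.PAR

open MvPolynomial Module FF

noncomputable section

/-- the parity law for the special cubic -/
theorem law_F0 (ufd : S_UFD) (t0 : S_T0) (m : ℕ) (Ω : Type) [Field Ω] [IsAlgClosed Ω]
    [CharZero Ω] : Law (F0 m Ω) := by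
  refine t0 Ω (m + 5) (F0 m Ω) (F0_hom m Ω) ?_ ?_
  · intro κ _ _ z hz
    have : CharZero κ := charZero_of_injective_algebraMap (algebraMap Ω κ).injective
    exact F0_smooth m Ω κ z hz
  · intro κ _ _
    have : CharZero κ := charZero_of_injective_algebraMap (algebraMap Ω κ).injective
    have h := ufd m κ
    have h2 : BB κ (F0 m Ω) = (MvPolynomial (Fin (m + 5)) κ ⧸ Ideal.span {F0 m κ}) := by
      unfold BB
      rw [F0_map]
    have key : ∀ G : MvPolynomial (Fin (m + 5)) κ, G = F0 m κ →
        ∃ _ : IsDomain (MvPolynomial (Fin (m + 5)) κ ⧸ Ideal.span {G}),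
          UniqueFactorizationMonoid (MvPolynomial (Fin (m + 5)) κ ⧸ Ideal.span {G}) := by
      rintro G rfl
      exact h
    exact key _ (F0_map m Ω κ)

theorem F0_irr (ufd : S_UFD) (m : ℕ) (Ω : Type) [Field Ω] [CharZero Ω] :
    Irreducible (F0 m Ω) := by
  obtain ⟨h1, -⟩ := ufd m Ω
  have hne : F0 m Ω ≠ 0 := by
    intro h
    have h2 := F0_coeff m Ω
    rw [h, coeff_zero] at h2
    exact zero_ne_one h2
  rw [Ideal.Quotient.isDomain_iff_prime, Ideal.span_singleton_prime hne] at h1
  exact h1.irreducible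

set_option linter.unusedSectionVars false

section
variable {Ω K C E M : Type} [Field Ω] [Field K] [Field C] [Field E] [Field M] [Algebra Ω K]
  [Algebra Ω C] [Algebra K E] [Algebra Ω E] [IsScalarTower Ω K E] [Algebra C M] [Algebra Ω M]
  [IsScalarTower Ω C M] {ι : K →ₐ[Ω] C} {ε : E →ₐ[Ω] M}
  (hιε : ∀ z, ε (algebraMap K E z) = algebraMap C M (ι z))
include hιε

theorem eps_aeval {s : ℕ} (y : Fin s → E) (q : MvPolynomial (Fin s) K) :
    ε (aeval y q) = aeval (fun i => ε (y i)) (map (ι : K →+* C) q) := by
  induction q using MvPolynomial.induction_on with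
  | C a => rw [aeval_C, map_C, aeval_C, hιε]; rfl
  | add p q hp hq => rw [map_add, map_add, map_add, map_add, hp, hq]
  | mul_X p j hp => rw [map_mul, map_mul, map_mul, map_mul, map_X, aeval_X, aeval_X, hp]

/-- independence over `C` gives independence over `K` -/
theorem ind_down {s : ℕ} {y : Fin s → E}
    (h : AlgebraicIndependent C fun i => ε (y i)) : AlgebraicIndependent K y := by
  rw [algebraicIndependent_iff] at h ⊢
  intro q hq
  have h1 := h (map (ι : K →+* C) q) (by rw [← eps_aeval hιε, hq, map_zero])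
  exact (map_injective _ (ι : K →+* C).injective) (by rw [h1, map_zero])

/-- independence over `K` gives independence over `C`, algebraic over `K` -/
theorem ind_up (halg : ∀ z : C, ∃ q : Polynomial K, q ≠ 0 ∧ Polynomial.eval₂ (ι : K →+* C) z q = 0)
    {s : ℕ} {y : Fin s → E} (h : AlgebraicIndependent K y) :
    AlgebraicIndependent C fun i => ε (y i) := by
  let _ : Algebra K C := (ι : K →+* C).toAlgebra
  let _ : Algebra K M := ((algebraMap C M).comp (ι : K →+* C)).toAlgebra
  have : IsScalarTower K C M := IsScalarTower.of_algebraMap_eq fun _ => rfl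
  let ε' : E →ₐ[K] M := { (ε : E →+* M) with commutes' := fun z => hιε z }
  have h1 : AlgebraicIndependent K (fun i => ε' (y i)) :=
    h.map' (f := ε') (ε' : E →+* M).injective
  have : Algebra.IsAlgebraic K C := ⟨fun z => by
    obtain ⟨q, hq, hz⟩ := halg z
    exact ⟨q, hq, hz⟩⟩
  exact h1.extendScalars C

end

/-- `C` is algebraic over every subfield which contains `Ω` and `c` -/
theorem alg_of {Ω K C : Type} [Field Ω] [Field K] [Field C] [Algebra Ω K] [Algebra Ω C]
    {ι : K →ₐ[Ω] C} {c : C} {c' : K} (hc : ι c' = c)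
    (halg : Algebra.IsAlgebraic (IntermediateField.adjoin Ω {c}) C) (z : C) :
    ∃ q : Polynomial K, q ≠ 0 ∧ Polynomial.eval₂ (ι : K →+* C) z q = 0 := by
  have hle : IntermediateField.adjoin Ω {c} ≤ ι.fieldRange := by
    rw [IntermediateField.adjoin_le_iff]
    rintro _ rfl
    exact ⟨c', hc⟩
  obtain ⟨q, hq, hz⟩ := halg.1 z
  let e : K ≃ₐ[Ω] ι.fieldRange := AlgEquiv.ofInjectiveField ι
  let φ : IntermediateField.adjoin Ω {c} →+* K :=
    (e.symm : ι.fieldRange →+* K).comp (IntermediateField.inclusion hle : _ →+* ι.fieldRange)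
  have hφ : ∀ a, ι (φ a) = (a : C) := by
    intro a
    have h1 : e (φ a) = IntermediateField.inclusion hle a := e.apply_symm_apply _
    exact congrArg Subtype.val h1
  refine ⟨q.map φ, ?_, ?_⟩
  · rwa [Ne, Polynomial.map_eq_zero]
  · rw [Polynomial.eval₂_map]
    have h2 : (ι : K →+* C).comp φ = algebraMap _ C := RingHom.ext fun a => hφ a
    rw [h2]
    exact hz

/-- the parity law for very general cubics -/
theorem law_vg (ufd : S_UFD) (t0 : S_T0) (cub : S_CUB) (tr : S_TR) (desc : S_DESC)
    (base : S_BASE) (m : ℕ) {F : MvPolynomial (Fin (m + 5)) ℂ} (hF : F.IsHomogeneous 3)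
    (hirr : Irreducible F)
    (hind : AlgebraicIndependent ℚ
      (fun β : {β : Fin (m + 5) →₀ ℕ // β.degree = 3} => coeff β.1 F)) : Law F := by
  obtain ⟨Ω, c, G, hΩ, hc, halg, hG, hFG⟩ := base (m + 5) F (F0 m ℚ) (by omega) hF (F0_hom m ℚ) hind
  have hchar : CharZero Ω := inferInstance
  have hlast : coeff (Finsupp.single (Fin.last (m + 4)) 3) F ≠ 0 := by
    have h1 := hind.ne_zero ⟨Finsupp.single (Fin.last (m + 4)) 3, Finsupp.degree_single _ _⟩
    exact h1
  have hFΩ : ∀ {M : Type} [Field M] [Algebra ℂ M] (y : Fin (m + 5) → M),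
      aeval y F = aeval y (F0 m Ω) + algebraMap ℂ M c * aeval y G := by
    intro M _ _ y
    rw [hFG, map_add, map_mul, aeval_C]
    congr 1
    · have h1 : map (algebraMap ℚ ℂ) (F0 m ℚ) = map (algebraMap Ω ℂ) (F0 m Ω) := by
        rw [F0_map, F0_map]
      rw [h1, aeval_map_algebraMap]
    · rw [aeval_map_algebraMap]
  have hpolΩ : ∀ {M : Type} [Field M] [Algebra ℂ M] (y q : Fin (m + 5) → M),
      pol F y q = pol (F0 m Ω) y q + algebraMap ℂ M c * pol G y q := by
    intro M _ _ y q
    have h1 : F = Fc (F0 m Ω) G c := by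
      unfold Fc
      rw [hFG, F0_map, F0_map]
    conv_lhs => rw [h1]
    exact LwL.pol_fc (F0 m Ω) G c y q
  intro M _ _ x p hx hodd hp hpF hcrv
  have hxcub := (cub ℂ M (m + 3) F hF hirr hlast x).1 hx
  obtain ⟨hx0, hxind, hxdeg⟩ := hxcub
  have hoddy : Odd (finrank (Kc ℂ (yx x)) M) := by
    rw [hxdeg]
    exact (by decide : Odd 3).mul hodd
  have hfinx : FiniteDimensional (Kc ℂ (yx x)) M := FiniteDimensional.of_finrank_pos hoddy.pos
  -- the main step
  have main : ∀ (s : ℕ) (v : Fin s → M), FiniteDimensional (Kc ℂ v) M →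
      pol F x p ≠ 0 ∧ third F x p 0 ≠ 0 ∧ AlgebraicIndependent ℂ (yx (third F x p)) ∧
      ((∀ h : s = m + 3, (∀ i, v (Fin.cast h.symm i) = yx (third F x p) i) →
        Odd (finrank (Kc ℂ v) M))) := by
    intro s v hv
    obtain ⟨K, E, _, _, _, _, _, _, ι, ε, c', u', v', t', hFF, hc', hιε, hu', hv', ht', hdu, hdv⟩ :=
      desc Ω ℂ M c hc halg (m + 3) s ((m + 5) + (m + 5)) (yx x) v (Fin.append x p) hfinx hv
    have hEinj : Function.Injective ε := (ε : E →+* M).injective
    set x' : Fin (m + 5) → E := fun i => t' (Fin.castAdd (m + 5) i) with hx'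
    set p' : Fin (m + 5) → E := fun i => t' (Fin.natAdd (m + 5) i) with hp'
    have hεx : ∀ i, ε (x' i) = x i := by
      intro i
      rw [hx', ht', Fin.append_left]
    have hεp : ∀ i, ε (p' i) = p i := by
      intro i
      rw [hp', ht', Fin.append_right]
    have hyx' : ∀ (z : Fin (m + 5) → E) (i : Fin (m + 3)), ε (yx z i) = yx (fun i => ε (z i)) i := by
      intro z i
      unfold yx
      rw [map_div₀]
    have huy : u' = yx x' := by
      funext i
      apply hEinj
      rw [hu', hyx', funext hεx]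
    have hευ : ∀ y : Fin (m + 5) → E, ε (aeval y (Fc (F0 m Ω) G c')) =
        aeval (fun i => ε (y i)) F := by
      intro y
      rw [LwL.aeval_fc, map_add, map_mul, hιε, hc', hFΩ, comp_aeval_apply, comp_aeval_apply]
    have hεpol : ∀ y q : Fin (m + 5) → E, ε (pol (Fc (F0 m Ω) G c') y q) =
        pol F (fun i => ε (y i)) (fun i => ε (q i)) := by
      intro y q
      rw [LwL.pol_fc, map_add, map_mul, hιε, hc', hpolΩ, map_pol, map_pol]
    have hεthird : ∀ (y q : Fin (m + 5) → E) (i : Fin (m + 5)),
        ε (third (Fc (F0 m Ω) G c') y q i) =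
        third F (fun i => ε (y i)) (fun i => ε (q i)) i := by
      intro y q i
      unfold third
      rw [map_sub, map_mul, map_mul, hεpol, hεpol]
    have hctr : Transcendental Ω c' := by
      intro h
      apply hc
      rw [← hc']
      exact h.algHom ι
    have halgK := alg_of hc' halg
    have htr := tr Ω K E (m + 3) (F0 m Ω) G (F0_hom m Ω) hG (F0_irr ufd m Ω)
      (by rw [show coeff (Finsupp.single (Fin.last (m + 3 + 1)) 3) (F0 m Ω) = 1 from F0_coeff m Ω]
          exact one_ne_zero)
      (law_F0 ufd t0 m Ω) c' hctr x' p' (by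
        apply hEinj
        rw [hευ, funext hεx, hx.1, map_zero]) (by
        intro h0
        apply hx0
        rw [← hεx, h0, map_zero]) (by
        apply ind_down hιε
        rw [show (fun i => ε (yx x' i)) = yx x by
          funext i
          rw [hyx', funext hεx]]
        exact hxind) (by
        rw [← huy, hdu]
        exact hoddy) (by
        intro h0
        apply hp
        funext i
        rw [← hεp, h0, Pi.zero_apply, map_zero, Pi.zero_apply]) (by
        apply hEinj
        rw [hευ, funext hεp, hpF, map_zero]) (by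
        intro i j a b hab
        apply hcrv i j a b
        have h1 := ind_up hιε halgK hab
        have h2 : (fun l => ε (![p' i / p' j, p' a / p' b] l)) = ![p i / p j, p a / p b] := by
          funext l
          fin_cases l
          · simp [map_div₀, hεp]
          · simp [map_div₀, hεp]
        rwa [h2] at h1)
    obtain ⟨h1, h2, h3, h4⟩ := htr
    have e1 : ε (pol (Fc (F0 m Ω) G c') x' p') = pol F x p := by
      rw [hεpol, funext hεx, funext hεp]
    have e2 : ∀ i, ε (third (Fc (F0 m Ω) G c') x' p' i) = third F x p i := by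
      intro i
      rw [hεthird, funext hεx, funext hεp]
    have e3 : (fun i => ε (yx (third (Fc (F0 m Ω) G c') x' p') i)) = yx (third F x p) := by
      funext i
      rw [hyx', funext e2]
    refine ⟨?_, ?_, ?_, ?_⟩
    · rw [← e1]
      exact (map_ne_zero_iff ε hEinj).2 h1
    · rw [← e2]
      exact (map_ne_zero_iff ε hEinj).2 h2
    · rw [← e3]
      exact ind_up hιε halgK h3
    · rintro rfl hvy
      rw [← hdv]
      have h5 : v' = yx (third (Fc (F0 m Ω) G c') x' p') := by
        funext i
        apply hEinj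
        rw [hv']
        have h6 := congrFun e3 i
        rw [h6]
        exact hvy i
      rw [h5]
      exact h4
  obtain ⟨h1, h2, h3, -⟩ := main (m + 3) (yx x) hfinx
  have hz := (cub ℂ M (m + 3) F hF hirr hlast (third F x p)).2 (third_on hF x p hx.1 hpF) h2 h3
  have hzcub := (cub ℂ M (m + 3) F hF hirr hlast (third F x p)).1 hz
  refine ⟨h1, hz, ?_⟩
  -- `M` is finite over the field of the third point
  have hfinz : FiniteDimensional (Kc ℂ (yx (third F x p))) M :=
    TrL.fin_of_indep hxind hfinx h3
  obtain ⟨-, -, -, h4⟩ := main (m + 3) (yx (third F x p)) hfinz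
  have h5 := h4 rfl (fun i => rfl)
  rw [hzcub.2.2] at h5
  exact (Nat.odd_mul.1 h5).2

end

end Pool.Agent.Helper93K9.PAR
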