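import Mathlib
import Pool.Agent.Helper93K9.PAR.Conic
import Pool.Agent.Helper93K9.PAR.Aniso
import Pool.Agent.Helper93K9.PAR.Cbp
import Pool.Agent.Helper93K9.PAR.Cb
import Pool.Agent.Helper93K9.PAR.Sqa
import Pool.Agent.Helper93K9.PAR.Sqc
import Pool.Agent.Helper93K9.PAR.Dep
import Pool.Agent.Helper93K9.PAR.Ufd
import Pool.Agent.Helper93K9.PAR.Ffk
import Pool.Agent.Helper93K9.PAR.Cst
import Pool.Agent.Helper93K9.PAR.Dlt
import Pool.Agent.Helper93K9.PAR.Ord
import Pool.Agent.Helper93K9.PAR.Ht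
import Pool.Agent.Helper93K9.PAR.Grd
import Pool.Agent.Helper93K9.PAR.Genr
import Pool.Agent.Helper93K9.PAR.Conv
import Pool.Agent.Helper93K9.PAR.Kap
import Pool.Agent.Helper93K9.PAR.Base
import Pool.Agent.Helper93K9.PAR.Desc
import Pool.Agent.Helper93K9.PAR.Cub
import Pool.Agent.Helper93K9.PAR.Res
import Pool.Agent.Helper93K9.PAR.Rcv
import Pool.Agent.Helper93K9.PAR.Lw
import Pool.Agent.Helper93K9.PAR.Tr
import Pool.Agent.Helper93K9.PAR.T0d
import Pool.Agent.Helper93K9.PAR.Vg
import Pool.Agent.Helper93K9.PAR.Rc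
import Pool.Agent.Y201.LI.Free

/-! # Parity along curves: the parity law for very general cubic hypersurfaces -/

set_option autoImplicit false

namespace Pool.Agent.Helper93K9.PAR

open MvPolynomial Module

theorem h_ufd : S_UFD := ufd (cb conic aniso cbp) sqa sqc dep

theorem h_t0 : S_T0 :=
  t0 (dlt ffk cst) (ord cst) (ht ffk cst) grd (genr grd) conv kap

theorem h_tr : S_TR := tr cub res (rcv res) lw

/-- the parity law for cubic hypersurfaces of dimension at least three with independent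
coefficients -/
theorem law_ind (m : ℕ) {F : MvPolynomial (Fin (m + 5)) ℂ} (hF : F.IsHomogeneous 3)
    (hind : AlgebraicIndependent ℚ
      (fun β : {β : Fin (m + 5) →₀ ℕ // β.degree = 3} => coeff β.1 F)) : Law F := by
  intro M _ _ x p hx hodd hp hpF hcrv
  have hF0 : F ≠ 0 := by
    rintro rfl
    have h1 := hind.ne_zero ⟨Finsupp.single 0 3, Finsupp.degree_single _ _⟩
    exact h1 (coeff_zero _)
  have hirr : Irreducible F := Pool.Agent.Y201.LI.irreducible_of_generic hF hF0 x hx.1 hx.2
  exact law_vg h_ufd h_t0 cub h_tr desc base m hF hirr hind M x p hx hodd hp hpF hcrv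

end Pool.Agent.Helper93K9.PAR
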