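import Pool.Agent.Helper93K9.PAR.Defs4
import Pool.Agent.Helper93K9.PAR.Basic
import Pool.Agent.Y201.LI.Thm3

/-! # Maps which are quadratic in all but one of the variables -/

set_option autoImplicit false

namespace Pool.Agent.Helper93K9.PAR

open MvPolynomial Module

noncomputable section

namespace CmL

/-- independent elements which are algebraic over `a` elements are at most `a` many -/
theorem card_le {K : Type} [Field K] [Algebra ℂ K] {a b : ℕ} (s : Fin a → K) (y : Fin b → K)
    (hy : AlgebraicIndependent ℂ y)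
    (h : ∀ i, IsAlgebraic (IntermediateField.adjoin ℂ (Set.range s)) (y i)) : b ≤ a := by
  have h1 : (AlgebraicIndependent.matroid ℂ K).Indep (Set.range y) := by
    rw [AlgebraicIndependent.matroid_indep_iff]
    exact hy.to_subtype_range
  have h2 : Set.range y ⊆ (AlgebraicIndependent.matroid ℂ K).closure (Set.range s) := by
    rw [AlgebraicIndependent.matroid_closure_eq]
    rintro _ ⟨i, rfl⟩
    rw [SetLike.mem_coe, Subalgebra.mem_algebraicClosure]
    rw [← IntermediateField.isAlgebraic_adjoin_iff]
    exact h i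
  have h3 := h1.encard_le_eRk_of_subset h2
  rw [Matroid.eRk_closure_eq] at h3
  have h4 := h3.trans (Matroid.eRk_le_encard _ _)
  have h5 : (Set.range y).encard = b := by
    rw [← Set.image_univ, hy.injective.encard_image, Set.encard_univ]
    simp
  have h6 : (Set.range s).encard ≤ a := by
    rw [← Set.image_univ]
    refine (Set.encard_image_le _ _).trans ?_
    rw [Set.encard_univ]
    simp
  rw [h5] at h4
  exact_mod_cast h4.trans h6

/-- two elements of a field generated by one element are dependent -/
theorem dep_two {K : Type} [Field K] [Algebra ℂ K] (t a b : K)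
    (ha : a ∈ IntermediateField.adjoin ℂ {t}) (hb : b ∈ IntermediateField.adjoin ℂ {t}) :
    ¬ AlgebraicIndependent ℂ ![a, b] := by
  intro h
  have h1 : IntermediateField.adjoin ℂ {t} =
      IntermediateField.adjoin ℂ (Set.range (fun _ : Fin 1 => t)) := by
    congr 1
    simp
  have h2 := card_le (fun _ : Fin 1 => t) ![a, b] h ?_
  · omega
  · rw [← h1]
    intro i
    fin_cases i
    · exact isAlgebraic_algebraMap (⟨a, ha⟩ : IntermediateField.adjoin ℂ {t})
    · exact isAlgebraic_algebraMap (⟨b, hb⟩ : IntermediateField.adjoin ℂ {t})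

/-- the substitution -/
def W {M : Type} [Field M] {n : ℕ} (t : Fin n → M) (j l0 : Fin n) (l : Fin n) : Polynomial M :=
  if l = j then Polynomial.C (t j) else if l = l0 then Polynomial.X else
    Polynomial.C (t l / t l0) * Polynomial.X

section
variable {M : Type} [Field M] [Algebra ℂ M] {n : ℕ} (t : Fin n → M) (j l0 : Fin n)

omit [Algebra ℂ M] in
theorem eval_W (h0 : t l0 ≠ 0) (l : Fin n) : (W t j l0 l).eval (t l0) = t l := by
  unfold W
  split_ifs with h1 h2
  · rw [Polynomial.eval_C, h1]
  · rw [Polynomial.eval_X, h2]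
  · rw [Polynomial.eval_mul, Polynomial.eval_C, Polynomial.eval_X, div_mul_cancel₀ _ h0]

theorem eval_aeval {r : ℕ} (w : Fin r → Polynomial M) (a : M) (P : MvPolynomial (Fin r) ℂ) :
    (aeval w P).eval a = aeval (fun l => (w l).eval a) P := by
  have h : ((Polynomial.aeval a : Polynomial M →ₐ[M] M).restrictScalars ℂ).comp (aeval w) =
      (aeval (fun l => (w l).eval a) : MvPolynomial (Fin r) ℂ →ₐ[ℂ] M) := by
    apply algHom_ext
    intro i
    rw [AlgHom.comp_apply, aeval_X, aeval_X]
    exact Polynomial.coe_aeval_eq_eval a ▸ rfl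
  rw [← h]
  exact Polynomial.coe_aeval_eq_eval a ▸ rfl

theorem natDegree_W (P : MvPolynomial (Fin n) ℂ)
    (hP : ∀ α ∈ P.support, ∑ l ∈ Finset.univ.erase j, α l ≤ 2) :
    (aeval (W t j l0) P).natDegree ≤ 2 := by
  rw [aeval_def, eval₂_eq']
  refine Polynomial.natDegree_sum_le_of_forall_le _ _ fun α hα => ?_
  have h1 : (∏ i, W t j l0 i ^ α i).natDegree ≤ 2 := by
    rw [← Finset.mul_prod_erase Finset.univ _ (Finset.mem_univ j)]
    refine Polynomial.natDegree_mul_le.trans ?_
    have h2 : (W t j l0 j ^ α j).natDegree = 0 := by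
      unfold W
      rw [if_pos rfl, ← Polynomial.C_pow, Polynomial.natDegree_C]
    rw [h2, zero_add]
    refine ((Polynomial.natDegree_prod_le _ _).trans (Finset.sum_le_sum fun i _ => ?_)).trans
      (hP α hα)
    refine Polynomial.natDegree_pow_le.trans ?_
    have h3 : (W t j l0 i).natDegree ≤ 1 := by
      unfold W
      split_ifs
      · simp
      · simp
      · exact (Polynomial.natDegree_C_mul_le _ _).trans (by simp)
    calc α i * (W t j l0 i).natDegree ≤ α i * 1 := Nat.mul_le_mul_left _ h3
      _ = α i := mul_one _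
  refine Polynomial.natDegree_mul_le.trans ?_
  have h4 : (algebraMap ℂ (Polynomial M) (coeff α P)).natDegree = 0 :=
    Polynomial.natDegree_C _
  rw [h4, zero_add]
  exact h1

theorem lifts_W (L : IntermediateField ℂ M) (hj : t j ∈ L) (hL : ∀ l, l ≠ j → t l / t l0 ∈ L)
    (P : MvPolynomial (Fin n) ℂ) (m : ℕ) : (aeval (W t j l0) P).coeff m ∈ L := by
  have h : aeval (W t j l0) P ∈ Polynomial.lifts (algebraMap L M) := by
    induction P using MvPolynomial.induction_on with
    | C a =>
      rw [aeval_C]
      exact Polynomial.C'_mem_lifts ⟨algebraMap ℂ L a, rfl⟩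
    | add p q hp hq =>
      rw [map_add]
      exact add_mem hp hq
    | mul_X p i hp =>
      rw [map_mul, aeval_X]
      refine mul_mem hp ?_
      unfold W
      split_ifs with h1 h2
      · exact Polynomial.C'_mem_lifts ⟨⟨t j, hj⟩, rfl⟩
      · exact Polynomial.X_mem_lifts _
      · exact mul_mem (Polynomial.C'_mem_lifts ⟨⟨_, hL i h1⟩, rfl⟩) (Polynomial.X_mem_lifts _)
  rw [Polynomial.lifts_iff_coeff_lifts] at h
  obtain ⟨c, hc⟩ := h m
  rw [← hc]
  exact c.2

theorem zero_W (P : MvPolynomial (Fin n) ℂ) :
    (aeval (W t j l0) P).eval 0 ∈ IntermediateField.adjoin ℂ {t j} := by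
  rw [eval_aeval]
  induction P using MvPolynomial.induction_on with
  | C a =>
    rw [aeval_C]
    exact IntermediateField.algebraMap_mem _ _
  | add p q hp hq =>
    rw [map_add]
    exact add_mem hp hq
  | mul_X p i hp =>
    rw [map_mul, aeval_X]
    refine mul_mem hp ?_
    unfold W
    split_ifs with h1 h2
    · rw [Polynomial.eval_C]
      exact IntermediateField.mem_adjoin_simple_self _ _
    · rw [Polynomial.eval_X]
      exact zero_mem _
    · rw [Polynomial.eval_mul, Polynomial.eval_X, mul_zero]
      exact zero_mem _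

/-- not all the ratios of the coordinates lie in a field over which the whole field is not
algebraic -/
theorem not_prop {r : ℕ} (ht : AlgebraicIndependent ℂ t) (hjl : l0 ≠ j) (x : Fin r → M)
    (hx : ∀ i, x i ≠ 0) (hfin : 0 < finrank (rf ℂ x) M) (w : Fin r → Polynomial M)
    (hw0 : ∀ i, w i ≠ 0)
    (hw : ∀ (L : IntermediateField ℂ M), t j ∈ L → (∀ l, l ≠ j → t l / t l0 ∈ L) →
      ∀ i m, (w i).coeff m ∈ L) :
    ¬ ∀ i k, w i * Polynomial.C (x k) = w k * Polynomial.C (x i) := by
  classical
  intro h
  obtain ⟨n', rfl⟩ : ∃ n', n = n' + 1 := ⟨n - 1, by have := l0.2; omega⟩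
  obtain ⟨L, hLd⟩ : ∃ L : IntermediateField ℂ M, L = IntermediateField.adjoin ℂ
    (Set.range fun l : Fin n' => if l0.succAbove l = j then t j else t (l0.succAbove l) / t l0) :=
    ⟨_, rfl⟩
  have ht0 : t l0 ≠ 0 := ht.ne_zero l0
  have hgen : ∀ l, l ≠ l0 → (if l = j then t j else t l / t l0) ∈ L := by
    intro l hl
    obtain ⟨m, rfl⟩ := Fin.exists_succAbove_eq hl
    rw [hLd]
    exact IntermediateField.subset_adjoin _ _ ⟨m, rfl⟩
  have hj : t j ∈ L := by
    have := hgen j hjl.symm
    rwa [if_pos rfl] at this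
  have hl : ∀ l, l ≠ j → t l / t l0 ∈ L := by
    intro l hl
    by_cases h0 : l = l0
    · rw [h0, div_self ht0]
      exact one_mem _
    · have := hgen l h0
      rwa [if_neg hl] at this
  have hc := hw L hj hl
  have hrf : rf ℂ x ≤ L := by
    unfold rf
    rw [IntermediateField.adjoin_le_iff]
    rintro _ ⟨i, k, rfl⟩
    have h1 := h i k
    have h2 : (w k).coeff (w k).natDegree ≠ 0 := Polynomial.leadingCoeff_ne_zero.2 (hw0 k)
    have h3 := congrArg (fun p => Polynomial.coeff p (w k).natDegree) h1
    simp only [Polynomial.coeff_mul_C] at h3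
    have h4 : x i / x k = (w i).coeff (w k).natDegree / (w k).coeff (w k).natDegree := by
      rw [div_eq_div_iff (hx k) h2, h3, mul_comm]
    rw [h4]
    exact div_mem (hc _ _) (hc _ _)
  have : FiniteDimensional (rf ℂ x) M := FiniteDimensional.of_finrank_pos hfin
  have halg : ∀ y : M, IsAlgebraic L y := by
    intro y
    have h1 : IsAlgebraic (rf ℂ x) y := Algebra.IsAlgebraic.isAlgebraic y
    obtain ⟨p, hp0, hp⟩ := h1
    refine ⟨p.map (IntermediateField.inclusion hrf).toRingHom, ?_, ?_⟩
    · rwa [Ne, Polynomial.map_eq_zero_iff (IntermediateField.inclusion hrf).toRingHom.injective]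
    · rw [Polynomial.aeval_def, Polynomial.eval₂_map]
      exact hp
  have h5 := card_le _ t ht (fun i => hLd ▸ halg (t i))
  omega

end

end CmL

open CmL in
theorem cm : S_CM := by
  classical
  intro n F hn hF hsm hlaw hrcs G j hG hgen hodd
  obtain ⟨l0, hl0⟩ : ∃ l0 : Fin n, l0 ≠ j := by
    have : Nontrivial (Fin n) := Fin.nontrivial_iff_two_le.2 hn
    exact exists_ne j
  let M := FractionRing (MvPolynomial (Fin n) ℂ)
  let al : MvPolynomial (Fin n) ℂ →ₐ[ℂ] M := IsScalarTower.toAlgHom ℂ _ M
  have hal : Function.Injective al := IsFractionRing.injective (MvPolynomial (Fin n) ℂ) M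
  let t : Fin n → M := fun l => al (X l)
  have ht : AlgebraicIndependent ℂ t :=
    (MvPolynomial.algebraicIndependent_X (Fin n) ℂ).map' hal
  have hsG : ∀ P : MvPolynomial (Fin n) ℂ, aeval t P = al P := by
    intro P
    have : (aeval t : MvPolynomial (Fin n) ℂ →ₐ[ℂ] M) = al := by
      apply algHom_ext
      intro i
      rw [aeval_X]
    rw [this]
  obtain ⟨x, hxd⟩ : ∃ x : Fin (n + 2) → M, x = fun i => al (G i) := ⟨_, rfl⟩
  have hgen' : Gen F x := by
    rw [hxd]
    exact hgen
  have hodd' : Odd (finrank (rf ℂ x) M) := by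
    rw [hxd]
    exact hodd
  have hx0 : ∀ i, x i ≠ 0 := fun i => gen_coord hF hgen' i
  have ht0 : t l0 ≠ 0 := ht.ne_zero l0
  obtain ⟨w, hwd⟩ : ∃ w : Fin (n + 2) → Polynomial M, w = fun i => aeval (W t j l0) (G i) :=
    ⟨_, rfl⟩
  have hwT : ∀ i, (w i).eval (t l0) = x i := by
    intro i
    rw [hwd, hxd]
    show (aeval (W t j l0) (G i)).eval (t l0) = al (G i)
    rw [eval_aeval, ← hsG]
    congr 2
    funext l
    exact eval_W t j l0 ht0 l
  have hw0 : ∀ i, w i ≠ 0 := by
    intro i h
    apply hx0 i
    rw [← hwT i, h, Polynomial.eval_zero]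
  have hdeg : ∀ i, (w i).natDegree ≤ 2 := by
    intro i
    rw [hwd]
    exact natDegree_W t j l0 (G i) (hG i)
  have hGF : aeval G F = 0 := by
    have h1 := hgen'.1
    rw [hxd] at h1
    have h2 : aeval (fun i => al (G i)) F = al (aeval G F) := by
      rw [comp_aeval_apply]
    rw [h2] at h1
    exact hal (by rw [h1, map_zero])
  have hwF : aeval w F = 0 := by
    have h2 : aeval w F = aeval (W t j l0) (aeval G F) := by
      rw [comp_aeval_apply, hwd]
    rw [h2, hGF, map_zero]
  have hNP := not_prop t j l0 ht hl0 x hx0 hodd'.pos w hw0 (by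
    intro L h1 h2 i m
    rw [hwd]
    exact lifts_W t j l0 L h1 h2 (G i) m)
  by_cases hprim : ∀ q, Irreducible q → ∃ i, ¬ q ∣ w i
  · -- the primitive case
    obtain ⟨p, hpd⟩ : ∃ p : Fin (n + 2) → M, p = fun i => (w i).eval 0 := ⟨_, rfl⟩
    have hp0 : p ≠ 0 := by
      obtain ⟨i, hi⟩ := hprim Polynomial.X Polynomial.irreducible_X
      intro h
      apply hi
      rw [Polynomial.X_dvd_iff, Polynomial.coeff_zero_eq_eval_zero]
      have := congrFun h i
      rw [hpd] at this
      exact this
    have hpF : aeval p F = 0 := by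
      rw [hpd, ← eval_aeval, hwF, Polynomial.eval_zero]
    have hpm : ∀ i, p i ∈ IntermediateField.adjoin ℂ {t j} := by
      intro i
      rw [hpd, hwd]
      exact zero_W t j l0 (G i)
    have hcrv : Crv ℂ p := fun i k a b =>
      dep_two (t j) _ _ (div_mem (hpm i) (hpm k)) (div_mem (hpm a) (hpm b))
    refine hNP (hrcs M x p hgen' hodd' hp0 hpF hcrv 2 w (t l0) 1 Polynomial.X hwF hdeg hprim
      one_ne_zero (fun i => by rw [hwT, one_mul]) Polynomial.X_ne_zero (fun i k => ?_) ?_)
    · rw [Polynomial.X_dvd_iff, Polynomial.coeff_zero_eq_eval_zero, Polynomial.eval_sub,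
        Polynomial.eval_mul, Polynomial.eval_mul, Polynomial.eval_C, Polynomial.eval_C, hpd]
      ring
    · rw [Polynomial.natDegree_X]
  · -- a common factor
    push Not at hprim
    obtain ⟨q, hq, hdvd⟩ := hprim
    choose v hv using hdvd
    have hqT : q.eval (t l0) ≠ 0 := by
      intro h
      apply hx0 0
      rw [← hwT 0, hv 0, Polynomial.eval_mul, h, zero_mul]
    obtain ⟨Q, hQ⟩ : ∃ Q, Q = q.eval (t l0) := ⟨_, rfl⟩
    rw [← hQ] at hqT
    have hv0 : ∀ i, v i ≠ 0 := by
      intro i h
      apply hw0 i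
      rw [hv i, h, mul_zero]
    have hvdeg : ∀ i, (v i).natDegree ≤ 1 := by
      intro i
      have h1 := hdeg i
      rw [hv i, Polynomial.natDegree_mul hq.ne_zero (hv0 i)] at h1
      have h2 := hq.natDegree_pos
      omega
    obtain ⟨b, hb⟩ : ∃ b : Fin (n + 2) → M, b = fun i => (v i).coeff 0 := ⟨_, rfl⟩
    obtain ⟨c, hc⟩ : ∃ c : Fin (n + 2) → M, c = fun i => (v i).coeff 1 := ⟨_, rfl⟩
    have hvbc : ∀ i, v i = Polynomial.C (c i) * Polynomial.X + Polynomial.C (b i) := by
      intro i
      rw [hb, hc]
      exact Polynomial.eq_X_add_C_of_natDegree_le_one (hvdeg i)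
    have hvF : aeval v F = 0 := by
      have h1 : aeval (fun i => q * v i) F = q ^ 3 * aeval v F := aeval_smul_hom hF q v
      have h2 : (fun i => q * v i) = w := funext fun i => (hv i).symm
      rw [h2, hwF] at h1
      exact (mul_eq_zero.1 h1.symm).resolve_left (pow_ne_zero _ hq.ne_zero)
    have hxbc : ∀ i, x i = Q * (c i * t l0 + b i) := by
      intro i
      rw [← hwT i, hv i, Polynomial.eval_mul, ← hQ, hvbc i]
      simp
    have hxne : x ≠ 0 := fun h => hx0 0 (congrFun h 0)
    by_cases hli : LinearIndependent M ![x, fun i => Q * c i]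
    · have hcon := Pool.Agent.Y201.LI.contact hF (by norm_num) hsm x hgen'.1 hgen'.2
        (fun i => Q * c i) hli 0 (by
          rw [Polynomial.C_0, zero_mul]
          have h1 : (fun i => Polynomial.C (x i) + Polynomial.X * Polynomial.C (Q * c i)) =
              fun i => Polynomial.C Q * (v i).comp (Polynomial.X + Polynomial.C (t l0)) := by
            funext i
            rw [hxbc i, hvbc i]
            simp only [Polynomial.C_mul, Polynomial.C_add, Polynomial.add_comp,
              Polynomial.mul_comp, Polynomial.C_comp, Polynomial.X_comp]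
            ring
          have h2 : aeval (fun i => (v i).comp (Polynomial.X + Polynomial.C (t l0))) F = 0 := by
            have h3 : ∀ P : Polynomial M, P.comp (Polynomial.X + Polynomial.C (t l0)) =
              ((Polynomial.aeval (Polynomial.X + Polynomial.C (t l0)) :
                Polynomial M →ₐ[M] Polynomial M).restrictScalars ℂ) P := fun P => by
              rw [AlgHom.restrictScalars_apply]
              rfl
            simp only [h3]
            rw [← comp_aeval_apply, hvF, map_zero]
          rw [h1, aeval_smul_hom hF, h2, mul_zero])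
      have h2 : 3 - 1 ∣ finrank (rf ℂ x) M := hcon
      obtain ⟨m, hm⟩ := hodd'
      omega
    · rw [LinearIndependent.pair_iff' hxne] at hli
      push Not at hli
      obtain ⟨κ, hκ⟩ := hli
      have hκ' : ∀ i, κ * x i = Q * c i := fun i => congrFun hκ i
      apply hNP
      intro i k
      rw [hv i, hv k]
      have hmul : ∀ i, v i = Polynomial.C (x i) * (Polynomial.C (κ / Q) * Polynomial.X +
          Polynomial.C ((1 - κ * t l0) / Q)) := by
        intro i
        have h1 : c i = x i * (κ / Q) := by
          rw [← mul_div_assoc, eq_div_iff hqT]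
          linear_combination -(hκ' i)
        have h2 : b i = x i * ((1 - κ * t l0) / Q) := by
          have h3 := hκ' i
          have h4 := hxbc i
          rw [← mul_div_assoc, eq_div_iff hqT]
          linear_combination -h4 + t l0 * h3
        rw [hvbc i, h1, h2, Polynomial.C_mul, Polynomial.C_mul]
        ring
      rw [hmul i, hmul k]
      ring

end

end Pool.Agent.Helper93K9.PAR
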