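import Pool.Agent.Helper93K9.PAR.Defs5
import Pool.Agent.Helper93K9.PAR.Basic

/-! # Maps over a field of transcendence degree one with contact with a constant map -/

set_option autoImplicit false

namespace Pool.Agent.Helper93K9.PAR

open MvPolynomial Module

noncomputable section

namespace Cm2L

/-- a vector of polynomials is a multiple of a primitive one -/
theorem exists_prim {M : Type} [Field M] {r : ℕ} (w : Fin r → Polynomial M)
    (h : ∃ i, w i ≠ 0) : ∃ (q : Polynomial M) (v : Fin r → Polynomial M), q ≠ 0 ∧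
      (∀ i, w i = q * v i) ∧ ∀ g, Irreducible g → ∃ i, ¬ g ∣ v i := by
  obtain ⟨q, hq⟩ : ∃ q, Ideal.span (Set.range w) = Ideal.span {q} := by
    obtain ⟨q, hq⟩ := (IsPrincipalIdealRing.principal (Ideal.span (Set.range w))).principal
    exact ⟨q, hq⟩
  have hdvd : ∀ i, q ∣ w i := by
    intro i
    rw [← Ideal.mem_span_singleton, ← hq]
    exact Ideal.subset_span ⟨i, rfl⟩
  choose v hv using hdvd
  have hq0 : q ≠ 0 := by
    rintro rfl
    obtain ⟨i, hi⟩ := h
    exact hi (by rw [hv i, zero_mul])
  have hmem : q ∈ Ideal.span (Set.range w) := by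
    rw [hq]
    exact Ideal.mem_span_singleton_self q
  obtain ⟨a, ha⟩ := Ideal.mem_span_range_iff_exists_fun.1 hmem
  have h1 : ∑ i, a i * v i = 1 := by
    have h2 : q * ∑ i, a i * v i = q * 1 := by
      rw [Finset.mul_sum, mul_one]
      conv_rhs => rw [← ha]
      refine Finset.sum_congr rfl fun i _ => ?_
      rw [hv i]
      ring
    exact mul_left_cancel₀ hq0 h2
  refine ⟨q, v, hq0, hv, fun g hg => ?_⟩
  by_contra hcon
  push Not at hcon
  apply hg.not_isUnit
  rw [isUnit_iff_dvd_one, ← h1]
  exact Finset.dvd_sum fun i _ => (hcon i).mul_left _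

section
variable {κ M : Type} [Field κ] [Field M] [Algebra κ M] {N : ℕ} (t : Fin N → M)

/-- the substitution `T_l -> X t_l` -/
def ph : MvPolynomial (Fin N) κ →ₐ[κ] Polynomial M :=
  aeval fun l => Polynomial.X * Polynomial.C (t l)

theorem ph_eq (P : MvPolynomial (Fin N) κ) : ph t P =
    ∑ α ∈ P.support, Polynomial.C (algebraMap κ M (coeff α P) * ∏ l, t l ^ α l) *
      Polynomial.X ^ α.degree := by
  unfold ph
  rw [aeval_def, eval₂_eq']
  refine Finset.sum_congr rfl fun α _ => ?_
  have h1 : ∏ l, (Polynomial.X * Polynomial.C (t l)) ^ α l =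
      Polynomial.X ^ α.degree * Polynomial.C (∏ l, t l ^ α l) := by
    simp only [mul_pow]
    rw [Finset.prod_mul_distrib, Finset.prod_pow_eq_pow_sum, ← Finsupp.degree_eq_sum, map_prod]
    simp only [Polynomial.C_pow]
  rw [h1, Polynomial.C_mul]
  have h2 : algebraMap κ (Polynomial M) (coeff α P) = Polynomial.C (algebraMap κ M (coeff α P)) :=
    rfl
  rw [h2]
  ring

theorem natDegree_ph {e : ℕ} (P : MvPolynomial (Fin N) κ) (hP : P.totalDegree ≤ e) :
    (ph t P).natDegree ≤ e := by
  rw [ph_eq]
  refine Polynomial.natDegree_sum_le_of_forall_le _ _ fun α hα => ?_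
  refine (Polynomial.natDegree_C_mul_X_pow_le _ _).trans ?_
  have h1 := le_totalDegree hα
  rw [Finsupp.degree_apply]
  exact h1.trans hP

theorem dvd_ph {m : ℕ} (P : MvPolynomial (Fin N) κ)
    (hP : ∀ α : Fin N →₀ ℕ, α.degree < m → coeff α P = 0) : Polynomial.X ^ m ∣ ph t P := by
  rw [ph_eq]
  refine Finset.dvd_sum fun α hα => ?_
  have h1 : m ≤ α.degree := by
    by_contra hcon
    push Not at hcon
    exact (mem_support_iff.1 hα) (hP α hcon)
  exact (pow_dvd_pow _ h1).mul_left _

theorem ph_eval (a : M) (P : MvPolynomial (Fin N) κ) :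
    (ph t P).eval a = aeval (fun l => a * t l) P := by
  have h : ((Polynomial.aeval a : Polynomial M →ₐ[M] M).restrictScalars κ).comp (ph t) =
      (aeval (fun l => a * t l) : MvPolynomial (Fin N) κ →ₐ[κ] M) := by
    apply algHom_ext
    intro i
    unfold ph
    rw [AlgHom.comp_apply, aeval_X, aeval_X]
    simp only [AlgHom.coe_restrictScalars', map_mul, Polynomial.aeval_X, Polynomial.aeval_C,
      Algebra.algebraMap_self, RingHom.id_apply]
  rw [← h]
  exact Polynomial.coe_aeval_eq_eval a ▸ rfl

end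

end Cm2L

open Cm2L in
theorem cm2 : S_CM2 := by
  intro r F hF hlaw hrcs κ M _ _ _ _ _ _ N G t e m hdep hGF hdeg hem hc hcon hgen hodd
  obtain ⟨x, hx⟩ : ∃ x : Fin r → M, x = fun i => aeval t (G i) := ⟨_, rfl⟩
  rw [← hx] at hgen hodd
  obtain ⟨w, hw⟩ : ∃ w : Fin r → Polynomial M, w = fun i => ph t (G i) := ⟨_, rfl⟩
  obtain ⟨p, hp⟩ : ∃ p : Fin r → M, p = fun i => algebraMap κ M (constantCoeff (G i)) := ⟨_, rfl⟩
  have hw1 : ∀ i, (w i).eval 1 = x i := by
    intro i
    rw [hw, hx]
    show (ph t (G i)).eval 1 = aeval t (G i)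
    rw [ph_eval]
    simp only [one_mul]
  have hw0 : ∀ i, (w i).eval 0 = p i := by
    intro i
    rw [hw, hp]
    show (ph t (G i)).eval 0 = algebraMap κ M (constantCoeff (G i))
    rw [ph_eval]
    simp only [zero_mul]
    exact aeval_zero' (G i)
  have hwF : aeval w F = 0 := by
    have h2 : aeval w F = (ph t).restrictScalars ℂ (aeval G F) := by
      rw [comp_aeval_apply, hw]
      rfl
    rw [h2, hGF, map_zero]
  have hpF : aeval p F = 0 := by
    have h1 : ((Polynomial.aeval (0 : M) : Polynomial M →ₐ[M] M).restrictScalars ℂ)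
        (aeval w F) = aeval p F := by
      rw [comp_aeval_apply]
      congr 2
      funext i
      rw [← hw0 i]
      exact Polynomial.coe_aeval_eq_eval (0 : M) ▸ rfl
    rw [← h1, hwF, map_zero]
  have hp0 : p ≠ 0 := by
    obtain ⟨i, hi⟩ := hc
    intro h
    apply hi
    have h1 := congrFun h i
    rw [hp] at h1
    exact (map_eq_zero _).1 h1
  have hcrv : Crv ℂ p := by
    intro i j a b hind
    rw [hp] at hind
    apply hdep (constantCoeff (G i) / constantCoeff (G j))
      (constantCoeff (G a) / constantCoeff (G b))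
    apply AlgebraicIndependent.of_comp (IsScalarTower.toAlgHom ℂ κ M)
    have h : ⇑(IsScalarTower.toAlgHom ℂ κ M) ∘ ![constantCoeff (G i) / constantCoeff (G j),
        constantCoeff (G a) / constantCoeff (G b)] = ![algebraMap κ M (constantCoeff (G i)) /
        algebraMap κ M (constantCoeff (G j)), algebraMap κ M (constantCoeff (G a)) /
        algebraMap κ M (constantCoeff (G b))] := by
      funext l
      fin_cases l
      · exact map_div₀ (algebraMap κ M) _ _
      · exact map_div₀ (algebraMap κ M) _ _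
    rw [h]
    exact hind
  obtain ⟨k, hk⟩ : ∃ k, p k ≠ 0 := by
    by_contra hcon
    push Not at hcon
    exact hp0 (funext hcon)
  have hwk : w k ≠ 0 := by
    intro h
    apply hk
    rw [← hw0 k, h, Polynomial.eval_zero]
  obtain ⟨q, v, hq0, hv, hprim⟩ := exists_prim w ⟨k, hwk⟩
  have hqv0 : ∀ i, q.eval 0 * (v i).eval 0 = p i := by
    intro i
    rw [← hw0 i, hv i, Polynomial.eval_mul]
  have hqv1 : ∀ i, q.eval 1 * (v i).eval 1 = x i := by
    intro i
    rw [← hw1 i, hv i, Polynomial.eval_mul]
  have hq1 : q.eval 1 ≠ 0 := by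
    intro h
    apply gen_coord hF hgen k
    rw [← hqv1 k, h, zero_mul]
  have hq0' : q.eval 0 ≠ 0 := by
    intro h
    apply hk
    rw [← hqv0 k, h, zero_mul]
  have hvF : aeval v F = 0 := by
    have h1 : aeval (fun i => q * v i) F = q ^ 3 * aeval v F := aeval_smul_hom hF q v
    have h2 : (fun i => q * v i) = w := funext fun i => (hv i).symm
    rw [h2, hwF] at h1
    exact (mul_eq_zero.1 h1.symm).resolve_left (pow_ne_zero _ hq0)
  have hvdeg : ∀ i, (v i).natDegree ≤ e := by
    intro i
    by_cases hvi : v i = 0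
    · rw [hvi, Polynomial.natDegree_zero]
      exact Nat.zero_le _
    · have h1 : (w i).natDegree ≤ e := by
        rw [hw]
        exact natDegree_ph t (G i) (hdeg i)
      rw [hv i, Polynomial.natDegree_mul hq0 hvi] at h1
      omega
  have hXm : ∀ i j, Polynomial.X ^ m ∣ v i * Polynomial.C (p j) - v j * Polynomial.C (p i) := by
    intro i j
    have h1 : Polynomial.X ^ m ∣ w i * Polynomial.C (p j) - w j * Polynomial.C (p i) := by
      have h2 := dvd_ph t _ (hcon i j)
      have h3 : ph t (C (constantCoeff (G j)) * G i - C (constantCoeff (G i)) * G j) =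
          w i * Polynomial.C (p j) - w j * Polynomial.C (p i) := by
        rw [map_sub, map_mul, map_mul, hw, hp]
        have h4 : ∀ c : κ, ph t (C c) = Polynomial.C (algebraMap κ M c) := fun c => by
          unfold ph
          rw [aeval_C]
          rfl
        rw [h4, h4]
        ring
      rwa [h3] at h2
    have h5 : w i * Polynomial.C (p j) - w j * Polynomial.C (p i) =
        q * (v i * Polynomial.C (p j) - v j * Polynomial.C (p i)) := by
      rw [hv i, hv j]
      ring
    rw [h5] at h1
    refine Polynomial.prime_X.pow_dvd_of_dvd_mul_left m ?_ h1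
    rw [Polynomial.X_dvd_iff, Polynomial.coeff_zero_eq_eval_zero]
    exact hq0'
  have hres := hrcs M x p hgen hodd hp0 hpF hcrv e v 1 (q.eval 1)⁻¹ (Polynomial.X ^ m) hvF hvdeg
    hprim (inv_ne_zero hq1) (fun i => by rw [← hqv1 i, inv_mul_cancel_left₀ hq1])
    (pow_ne_zero _ Polynomial.X_ne_zero) hXm (by rwa [Polynomial.natDegree_X_pow])
  have hprop : ∀ i, x i = x k / p k * p i := by
    intro i
    have h1 := congrArg (Polynomial.eval 0) (hres i k)
    simp only [Polynomial.eval_mul, Polynomial.eval_C] at h1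
    rw [div_mul_eq_mul_div, eq_div_iff hk, ← hqv0 k, ← hqv0 i]
    linear_combination -(q.eval 0) * h1
  apply (hlaw M x p hgen hodd hp0 hpF hcrv).1
  have h2 : x = fun i => x k / p k * p i := funext hprop
  rw [h2, pol_smul_left, pol_self hF, hpF, mul_zero, mul_zero]

end

end Pool.Agent.Helper93K9.PAR
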