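import Mathlib
import Pool.Agent.Helper93K9.PAR.Defs3

/-! # Parity along curves: rational curves through odd points (statements) -/

set_option autoImplicit false

namespace Pool.Agent.Helper93K9.PAR

open MvPolynomial Module

noncomputable section

/-- job RCA: third points of the points of a rational curve and a fixed point -/
def S_RCA : Prop :=
  ∀ (k M : Type) [Field k] [Field M] [Algebra k M] (r : ℕ) (F : MvPolynomial (Fin r) k),
    F.IsHomogeneous 3 → ∀ (p : Fin r → M) (j0 : Fin r), p j0 = 1 → aeval p F = 0 →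
    ∀ (e : ℕ) (w : Fin r → Polynomial M) (g : Polynomial M), aeval w F = 0 →
    (∀ i, (w i).natDegree ≤ e) → (∀ q, Irreducible q → ∃ i, ¬ q ∣ w i) → g ≠ 0 → w j0 ≠ 0 →
    (∀ i, g ∣ w i - w j0 * Polynomial.C (p i)) →
    ∃ z : Fin r → Polynomial M,
      (∀ i, third F w (fun j => Polynomial.C (p j)) i = g ^ 3 * z i) ∧
      ∀ i, z i = 0 ∨ (z i).natDegree + 3 * g.natDegree ≤ 2 * e

/-- the law for rational curves: a rational curve of degree `e` through a generic point of odd
degree meets a point which moves in a curve with multiplicity at most `(2 e - 2) / 3` -/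
def Rcs {r : ℕ} (F : MvPolynomial (Fin r) ℂ) : Prop :=
  ∀ (M : Type) [Field M] [Algebra ℂ M] (x p : Fin r → M), Gen F x → Odd (finrank (rf ℂ x) M) →
    p ≠ 0 → aeval p F = 0 → Crv ℂ p →
    ∀ (e : ℕ) (w : Fin r → Polynomial M) (a s : M) (g : Polynomial M), aeval w F = 0 →
    (∀ i, (w i).natDegree ≤ e) → (∀ q, Irreducible q → ∃ i, ¬ q ∣ w i) → s ≠ 0 →
    (∀ i, (w i).eval a = s * x i) → g ≠ 0 →
    (∀ i j, g ∣ w i * Polynomial.C (p j) - w j * Polynomial.C (p i)) →
    2 * e ≤ 3 * g.natDegree + 1 →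
    ∀ i j, w i * Polynomial.C (x j) = w j * Polynomial.C (x i)

/-- job RC: from the parity law to the law for rational curves -/
def S_RC : Prop :=
  ∀ (r : ℕ) (F : MvPolynomial (Fin r) ℂ), F.IsHomogeneous 3 →
    (∀ z : Fin r → ℂ, (∀ i, eval z (pderiv i F) = 0) → z = 0) → Law F → Rcs F

/-- job CM: maps which are quadratic in all but one of the variables -/
def S_CM : Prop :=
  ∀ (n : ℕ) (F : MvPolynomial (Fin (n + 2)) ℂ), 2 ≤ n → F.IsHomogeneous 3 →
    (∀ z : Fin (n + 2) → ℂ, (∀ i, eval z (pderiv i F) = 0) → z = 0) → Law F → Rcs F →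
    ∀ (G : Fin (n + 2) → MvPolynomial (Fin n) ℂ) (j : Fin n),
    (∀ i, ∀ α ∈ (G i).support, ∑ l ∈ Finset.univ.erase j, α l ≤ 2) →
    Gen F (fun i => algebraMap (MvPolynomial (Fin n) ℂ) (FractionRing (MvPolynomial (Fin n) ℂ))
      (G i)) →
    ¬ Odd (finrank (rf ℂ fun i => algebraMap (MvPolynomial (Fin n) ℂ)
      (FractionRing (MvPolynomial (Fin n) ℂ)) (G i)) (FractionRing (MvPolynomial (Fin n) ℂ)))

end

end Pool.Agent.Helper93K9.PAR
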