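import Mathlib
import Pool.Agent.Helper93K9.PAR.Defs4

/-! # Parity along curves: families of maps over a curve (statements) -/

set_option autoImplicit false

namespace Pool.Agent.Helper93K9.PAR

open MvPolynomial Module

noncomputable section

/-- job CM2: points of odd degree and maps which are defined over a field of transcendence degree
one and have contact with a constant map -/
def S_CM2 : Prop :=
  ∀ (r : ℕ) (F : MvPolynomial (Fin r) ℂ), F.IsHomogeneous 3 → Law F → Rcs F →
    ∀ (κ M : Type) [Field κ] [Field M] [Algebra ℂ κ] [Algebra κ M] [Algebra ℂ M]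
      [IsScalarTower ℂ κ M] (N : ℕ) (G : Fin r → MvPolynomial (Fin N) κ) (t : Fin N → M)
      (e m : ℕ), (∀ a b : κ, ¬ AlgebraicIndependent ℂ ![a, b]) → aeval G F = 0 →
      (∀ i, (G i).totalDegree ≤ e) → 2 * e ≤ 3 * m + 1 → (∃ i, constantCoeff (G i) ≠ 0) →
      (∀ i j, ∀ α : Fin N →₀ ℕ, α.degree < m →
        coeff α (C (constantCoeff (G j)) * G i - C (constantCoeff (G i)) * G j) = 0) →
      Gen F (fun i => aeval t (G i)) → ¬ Odd (finrank (rf ℂ fun i => aeval t (G i)) M)

/-- job CM3 (from `S_CM2`, by a translation): maps which are quadratic over a field of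
transcendence degree one -/
def S_CM3 : Prop :=
  ∀ (r : ℕ) (F : MvPolynomial (Fin r) ℂ), F.IsHomogeneous 3 → Law F → Rcs F →
    ∀ (κ M : Type) [Field κ] [Field M] [Algebra ℂ κ] [Algebra κ M] [Algebra ℂ M]
      [IsScalarTower ℂ κ M] (N : ℕ) (G : Fin r → MvPolynomial (Fin N) κ) (t : Fin N → M),
      (∀ a b : κ, ¬ AlgebraicIndependent ℂ ![a, b]) → aeval G F = 0 →
      (∀ i, (G i).totalDegree ≤ 2) →
      Gen F (fun i => aeval t (G i)) → ¬ Odd (finrank (rf ℂ fun i => aeval t (G i)) M)

/-- job CM4 (from `S_CM3`): polynomial maps which are quadratic in all but one of the variables -/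
def S_CM4 : Prop :=
  ∀ (r : ℕ) (F : MvPolynomial (Fin r) ℂ), F.IsHomogeneous 3 → Law F → Rcs F →
    ∀ (M : Type) [Field M] [Algebra ℂ M] (N : ℕ) (G : Fin r → MvPolynomial (Fin N) ℂ)
      (t : Fin N → M) (j : Fin N), aeval G F = 0 →
      (∀ i, ∀ α ∈ (G i).support, ∑ l ∈ Finset.univ.erase j, α l ≤ 2) →
      Gen F (fun i => aeval t (G i)) → ¬ Odd (finrank (rf ℂ fun i => aeval t (G i)) M)

end

end Pool.Agent.Helper93K9.PAR
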