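import Mathlib
import Pool.Agent.Helper93K9.PAR.Defs5
import Pool.Agent.Helper93K9.PAR.Basic

/-! # Parity along curves: maps which are quadratic over a field of transcendence degree one -/

set_option autoImplicit false

namespace Pool.Agent.Helper93K9.PAR

open MvPolynomial Module

noncomputable section

/-- job CM3 with at least one variable (from `S_CM2`, by a translation): maps which are quadratic
over a field of transcendence degree one -/
def S_CM3r : Prop :=
  ∀ (r : ℕ) (F : MvPolynomial (Fin r) ℂ), r ≠ 0 → F.IsHomogeneous 3 → Law F → Rcs F →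
    ∀ (κ M : Type) [Field κ] [Field M] [Algebra ℂ κ] [Algebra κ M] [Algebra ℂ M]
      [IsScalarTower ℂ κ M] (N : ℕ) (G : Fin r → MvPolynomial (Fin N) κ) (t : Fin N → M),
      (∀ a b : κ, ¬ AlgebraicIndependent ℂ ![a, b]) → aeval G F = 0 →
      (∀ i, (G i).totalDegree ≤ 2) →
      Gen F (fun i => aeval t (G i)) → ¬ Odd (finrank (rf ℂ fun i => aeval t (G i)) M)

namespace Cm3L

theorem totalDegree_aeval_le' {R S : Type} [CommRing R] [CommRing S] [Algebra R S] {N N' : ℕ}
    (g : Fin N → MvPolynomial (Fin N') S) (p : MvPolynomial (Fin N) R) (d : ℕ)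
    (h : ∀ α ∈ p.support, ∑ l, α l * (g l).totalDegree ≤ d) : (aeval g p).totalDegree ≤ d := by
  rw [aeval_def, eval₂_eq']
  refine totalDegree_finsetSum_le fun α hα => ?_
  refine (totalDegree_mul _ _).trans ?_
  rw [show (algebraMap R (MvPolynomial (Fin N') S)) (coeff α p) =
    C (algebraMap R S (coeff α p)) from rfl, totalDegree_C, zero_add]
  refine (totalDegree_finsetProd _ _).trans ?_
  refine le_trans (Finset.sum_le_sum fun l _ => totalDegree_pow _ _) (h α hα)

theorem totalDegree_shift {κ : Type} [Field κ] {N : ℕ} (c : Fin N → κ)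
    (p : MvPolynomial (Fin N) κ) (d : ℕ) (hp : p.totalDegree ≤ d) :
    (aeval (fun l => (X l + C (c l) : MvPolynomial (Fin N) κ)) p).totalDegree ≤ d := by
  refine totalDegree_aeval_le' _ _ _ fun α hα => ?_
  refine le_trans (Finset.sum_le_sum (g := fun l => α l) fun l _ => ?_)
    (le_trans ?_ ((le_totalDegree hα).trans hp))
  · refine (Nat.mul_le_mul_left _ ?_).trans (le_of_eq (mul_one _))
    refine (totalDegree_add _ _).trans ?_
    rw [totalDegree_C, totalDegree_X, max_eq_left zero_le_one]
  · rw [Finsupp.sum_fintype _ _ fun _ => rfl]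

end Cm3L

theorem cm3 (h2 : S_CM2) : S_CM3r := by
  intro r F hr hF hL hR κ M _ _ _ _ _ _ N G t hdep hG0 hdeg hgen hodd
  have : Infinite κ := Infinite.of_injective (algebraMap ℂ κ) (algebraMap ℂ κ).injective
  obtain ⟨i0⟩ : Nonempty (Fin r) := ⟨⟨0, Nat.pos_of_ne_zero hr⟩⟩
  have hx := gen_coord hF hgen i0
  have hGi : G i0 ≠ 0 := by
    intro h0
    apply hx
    simp only [h0, map_zero]
  obtain ⟨c, hc⟩ : ∃ c : Fin N → κ, eval c (G i0) ≠ 0 := by
    by_contra hcon
    push Not at hcon
    exact hGi (funext fun c => by rw [hcon c, map_zero])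
  set φ : MvPolynomial (Fin N) κ →ₐ[κ] MvPolynomial (Fin N) κ :=
    aeval (fun l => (X l + C (c l) : MvPolynomial (Fin N) κ)) with hφ
  set t' : Fin N → M := fun l => t l - algebraMap κ M (c l) with ht'
  have h3 : ∀ p : MvPolynomial (Fin N) κ, aeval t' (φ p) = aeval t p := by
    intro p
    have h4 : (aeval t' : MvPolynomial (Fin N) κ →ₐ[κ] M).comp φ = aeval t := by
      ext l
      rw [AlgHom.comp_apply, hφ, aeval_X, map_add, aeval_X, aeval_C, aeval_X, ht']
      simp
    rw [← h4]
    rfl
  have h3' : (fun i => aeval t' (φ (G i))) = fun i => aeval t (G i) :=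
    _root_.funext fun i => h3 (G i)
  have h5 : ∀ p : MvPolynomial (Fin N) κ, constantCoeff (φ p) = eval c p := by
    intro p
    have h6 : (constantCoeff : MvPolynomial (Fin N) κ →+* κ).comp φ.toRingHom = eval c := by
      apply MvPolynomial.ringHom_ext
      · intro a
        simp [hφ]
      · intro l
        simp [hφ]
    rw [← h6]
    rfl
  have h7 := h2 r F hF hL hR κ M N (fun i => φ (G i)) t' 2 1 hdep ?_ ?_ (by norm_num) ?_ ?_ ?_
  · apply h7
    rw [h3']
    exact hodd
  · have h8 : aeval (fun i => φ (G i)) F = (φ.restrictScalars ℂ) (aeval G F) :=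
      (comp_aeval_apply G (φ.restrictScalars ℂ) F).symm
    rw [h8, hG0, map_zero]
  · intro i
    exact Cm3L.totalDegree_shift c _ 2 (hdeg i)
  · exact ⟨i0, by rw [h5]; exact hc⟩
  · intro i j α hα
    have h9 : α = 0 := by
      rw [← Finsupp.degree_eq_zero_iff]
      omega
    subst h9
    rw [← constantCoeff_eq]
    simp only [map_sub, map_mul, constantCoeff_C]
    ring
  · rw [h3']
    exact hgen

end

end Pool.Agent.Helper93K9.PAR
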