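import Mathlib
import Pool.Agent.Helper93K9.PAR.Cm3

/-! # Parity along curves: polynomial maps which are quadratic in all but one of the variables -/

set_option autoImplicit false

namespace Pool.Agent.Helper93K9.PAR

open MvPolynomial Module

noncomputable section

/-- job CM4 with at least one variable (from `S_CM3r`): polynomial maps which are quadratic in all
but one of the variables -/
def S_CM4r : Prop :=
  ∀ (r : ℕ) (F : MvPolynomial (Fin r) ℂ), r ≠ 0 → F.IsHomogeneous 3 → Law F → Rcs F →
    ∀ (M : Type) [Field M] [Algebra ℂ M] (N : ℕ) (G : Fin r → MvPolynomial (Fin N) ℂ)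
      (t : Fin N → M) (j : Fin N), aeval G F = 0 →
      (∀ i, ∀ α ∈ (G i).support, ∑ l ∈ Finset.univ.erase j, α l ≤ 2) →
      Gen F (fun i => aeval t (G i)) → ¬ Odd (finrank (rf ℂ fun i => aeval t (G i)) M)

namespace Cm4L

/-- independent elements which are algebraic over `a` elements are at most `a` many -/
theorem card_le {K : Type} [Field K] [Algebra ℂ K] {a b : ℕ} (s : Fin a → K) (y : Fin b → K)
    (hy : AlgebraicIndependent ℂ y)
    (h : ∀ i, IsAlgebraic (IntermediateField.adjoin ℂ (Set.range s)) (y i)) : b ≤ a := by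
  have h1 : (AlgebraicIndependent.matroid ℂ K).Indep (Set.range y) := by
    rw [AlgebraicIndependent.matroid_indep_iff]
    exact hy.to_subtype_range
  have h2 : Set.range y ⊆ (AlgebraicIndependent.matroid ℂ K).closure (Set.range s) := by
    rw [AlgebraicIndependent.matroid_closure_eq]
    rintro _ ⟨i, rfl⟩
    rw [SetLike.mem_coe, Subalgebra.mem_algebraicClosure]
    rw [← IntermediateField.isAlgebraic_adjoin_iff]
    exact h i
  have h3 := h1.encard_le_eRk_of_subset h2
  rw [Matroid.eRk_closure_eq] at h3
  have h4 := h3.trans (Matroid.eRk_le_encard _ _)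
  have h5 : (Set.range y).encard = b := by
    rw [← Set.image_univ, hy.injective.encard_image, Set.encard_univ]
    simp
  have h6 : (Set.range s).encard ≤ a := by
    rw [← Set.image_univ]
    refine (Set.encard_image_le _ _).trans ?_
    rw [Set.encard_univ]
    simp
  rw [h5] at h4
  exact_mod_cast h4.trans h6

/-- two elements of a field generated by one element are dependent -/
theorem dep_two {K : Type} [Field K] [Algebra ℂ K] (t a b : K)
    (ha : a ∈ IntermediateField.adjoin ℂ {t}) (hb : b ∈ IntermediateField.adjoin ℂ {t}) :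
    ¬ AlgebraicIndependent ℂ ![a, b] := by
  intro h
  have h1 : IntermediateField.adjoin ℂ {t} =
      IntermediateField.adjoin ℂ (Set.range (fun _ : Fin 1 => t)) := by
    congr 1
    simp
  have h2 := card_le (fun _ : Fin 1 => t) ![a, b] h ?_
  · omega
  · rw [← h1]
    intro i
    fin_cases i
    · exact isAlgebraic_algebraMap (⟨a, ha⟩ : IntermediateField.adjoin ℂ {t})
    · exact isAlgebraic_algebraMap (⟨b, hb⟩ : IntermediateField.adjoin ℂ {t})

/-- two elements of a subfield generated by one element are dependent -/
theorem dep_sub {K : Type} [Field K] [Algebra ℂ K] (t : K)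
    (a b : IntermediateField.adjoin ℂ {t}) : ¬ AlgebraicIndependent ℂ ![a, b] := by
  intro h
  have h1 := h.map' (f := (IntermediateField.adjoin ℂ {t}).val) (RingHom.injective _)
  refine dep_two t (a : K) (b : K) a.2 b.2 ?_
  convert h1 using 1
  ext i
  fin_cases i <;> rfl

end Cm4L

theorem cm4 (h3 : S_CM3r) : S_CM4r := by
  intro r F hr hF hL hR M _ _ N G t j hG0 hsupp hgen hodd
  set κ := IntermediateField.adjoin ℂ {t j} with hκ
  let tj : κ := ⟨t j, IntermediateField.mem_adjoin_simple_self ℂ (t j)⟩
  let g : Fin N → MvPolynomial (Fin N) κ := fun l => if l = j then C tj else X l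
  let φ : MvPolynomial (Fin N) ℂ →ₐ[ℂ] MvPolynomial (Fin N) κ := aeval g
  have h4 : ∀ p : MvPolynomial (Fin N) ℂ, aeval t (φ p) = aeval t p := by
    intro p
    have h5 : ((aeval t : MvPolynomial (Fin N) κ →ₐ[κ] M).restrictScalars ℂ).comp φ =
        aeval t := by
      ext l
      rw [AlgHom.comp_apply, AlgHom.restrictScalars_apply, aeval_X]
      change aeval t (g l) = aeval t (X l : MvPolynomial (Fin N) ℂ)
      rw [aeval_X]
      by_cases hl : l = j
      · rw [show g l = C tj from if_pos hl, aeval_C, hl]
        rfl
      · rw [show g l = X l from if_neg hl, aeval_X]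
    rw [← h5]
    rfl
  have h4' : (fun i => aeval t (φ (G i))) = fun i => aeval t (G i) :=
    _root_.funext fun i => h4 (G i)
  have h6 := h3 r F hr hF hL hR κ M N (fun i => φ (G i)) t (Cm4L.dep_sub (t j)) ?_ ?_ ?_
  · apply h6
    rw [h4']
    exact hodd
  · rw [← comp_aeval_apply G φ F, hG0, map_zero]
  · intro i
    refine Cm3L.totalDegree_aeval_le' _ _ _ fun α hα => ?_
    refine le_trans (le_of_eq ?_) (hsupp i α hα)
    rw [← Finset.add_sum_erase _ _ (Finset.mem_univ j), show g j = C tj from if_pos rfl,
      totalDegree_C, mul_zero, zero_add]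
    refine Finset.sum_congr rfl fun l hl => ?_
    rw [show g l = X l from if_neg (Finset.ne_of_mem_erase hl), totalDegree_X, mul_one]
  · rw [h4']
    exact hgen

end

end Pool.Agent.Helper93K9.PAR
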