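import Mathlib
import Pool.Agent.Helper386.D5V.Helper386_FF_Riemann

/-! # The place attached to a prime element of a factorial ring -/

set_option autoImplicit false

namespace Pool.Agent.Helper93K9.PAR.Ht

open FF

/-- the place attached to a prime element of a factorial ring -/
theorem exists_place {K KK B : Type} [Field K] [Field KK] [Algebra K KK] [CommRing B] [IsDomain B]
    [UniqueFactorizationMonoid B] (φ : B →+* KK) (hφ : Function.Injective φ)
    (hsurj : ∀ f : KK, ∃ a b : B, b ≠ 0 ∧ f = φ a / φ b) (ϖ : B) (hϖ : Prime ϖ)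
    (hK : ∀ c : K, c ≠ 0 → ∃ a b : B, ¬ ϖ ∣ a ∧ ¬ ϖ ∣ b ∧ algebraMap K KK c = φ a / φ b) :
    ∃ P : Place K KK, ∀ a : B, a ≠ 0 → P.ord (φ a) = multiplicity ϖ a := by
  classical
  have h0 : ∀ a : B, φ a = 0 ↔ a = 0 := fun a => map_eq_zero_iff φ hφ
  have hfin : ∀ a : B, a ≠ 0 → FiniteMultiplicity ϖ a := fun a ha =>
    FiniteMultiplicity.of_prime_left hϖ ha
  have hmul : ∀ a b : B, a ≠ 0 → b ≠ 0 →
      multiplicity ϖ (a * b) = multiplicity ϖ a + multiplicity ϖ b := fun a b ha hb =>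
    multiplicity_mul hϖ (hfin _ (mul_ne_zero ha hb))
  choose num den hden hnd using hsurj
  let o : KK → ℤ := fun f => if f = 0 then 0 else
    (multiplicity ϖ (num f) : ℤ) - multiplicity ϖ (den f)
  have ho : ∀ (f : KK) (a b : B), a ≠ 0 → b ≠ 0 → f * φ b = φ a →
      o f = (multiplicity ϖ a : ℤ) - multiplicity ϖ b := by
    intro f a b ha hb h
    have hfb : φ b ≠ 0 := fun h' => hb ((h0 b).1 h')
    have hfa : φ a ≠ 0 := fun h' => ha ((h0 a).1 h')
    have hf : f ≠ 0 := by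
      rintro rfl
      rw [zero_mul] at h
      exact hfa h.symm
    have hdf : φ (den f) ≠ 0 := fun h' => hden f ((h0 _).1 h')
    have h1 : f * φ (den f) = φ (num f) := (eq_div_iff hdf).1 (hnd f)
    have hnf : num f ≠ 0 := by
      intro h'
      rw [h', map_zero] at h1
      exact (mul_ne_zero hf hdf) h1
    have h2 : num f * b = a * den f := by
      apply hφ
      rw [map_mul, map_mul, ← h1, ← h]
      ring
    have h3 := hmul _ _ hnf hb
    rw [h2, hmul _ _ ha (hden f)] at h3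
    have h4 : o f = (multiplicity ϖ (num f) : ℤ) - multiplicity ϖ (den f) := if_neg hf
    rw [h4]
    have h5 : (multiplicity ϖ a : ℤ) + multiplicity ϖ (den f) =
        multiplicity ϖ (num f) + multiplicity ϖ b := by exact_mod_cast h3
    linarith
  have hrep : ∀ f : KK, f ≠ 0 → ∃ a b : B, a ≠ 0 ∧ b ≠ 0 ∧ f * φ b = φ a := by
    intro f hf
    have hdf : φ (den f) ≠ 0 := fun h' => hden f ((h0 _).1 h')
    have h1 : f * φ (den f) = φ (num f) := (eq_div_iff hdf).1 (hnd f)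
    refine ⟨num f, den f, ?_, hden f, h1⟩
    intro h'
    rw [h', map_zero] at h1
    exact (mul_ne_zero hf hdf) h1
  have hoB : ∀ a : B, a ≠ 0 → o (φ a) = multiplicity ϖ a := by
    intro a ha
    rw [ho (φ a) a 1 ha one_ne_zero (by rw [map_one, mul_one])]
    have : multiplicity ϖ (1 : B) = 0 := multiplicity_eq_zero.2 (fun h => hϖ.not_isUnit
      (isUnit_of_dvd_one h))
    rw [this]; simp
  refine ⟨⟨o, if_pos rfl, ?_, ?_, ?_, ?_⟩, hoB⟩
  · intro f g hf hg
    obtain ⟨a, b, ha, hb, h1⟩ := hrep f hf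
    obtain ⟨c, d, hc, hd, h2⟩ := hrep g hg
    rw [ho f a b ha hb h1, ho g c d hc hd h2, ho (f * g) (a * c) (b * d) (mul_ne_zero ha hc)
      (mul_ne_zero hb hd) (by rw [map_mul, map_mul, ← h1, ← h2]; ring), hmul _ _ ha hc,
      hmul _ _ hb hd]
    push_cast
    ring
  · intro f g hf hg hfg
    obtain ⟨a, b, ha, hb, h1⟩ := hrep f hf
    obtain ⟨c, d, hc, hd, h2⟩ := hrep g hg
    have h3 : (f + g) * φ (b * d) = φ (a * d + c * b) := by
      rw [map_mul, map_add, map_mul, map_mul, ← h1, ← h2]; ring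
    have hfb : φ b ≠ 0 := fun h' => hb ((h0 b).1 h')
    have hfd : φ d ≠ 0 := fun h' => hd ((h0 d).1 h')
    have h4 : a * d + c * b ≠ 0 := by
      intro h'
      rw [h', map_zero, map_mul] at h3
      exact mul_ne_zero hfg (mul_ne_zero hfb hfd) h3
    rw [ho f a b ha hb h1, ho g c d hc hd h2, ho _ _ _ h4 (mul_ne_zero hb hd) h3, hmul _ _ hb hd]
    have h5 : min (multiplicity ϖ (a * d)) (multiplicity ϖ (c * b)) ≤
        multiplicity ϖ (a * d + c * b) := by
      rw [← (hfin _ h4).pow_dvd_iff_le_multiplicity]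
      apply dvd_add
      · exact (pow_dvd_pow _ (min_le_left _ _)).trans (pow_multiplicity_dvd _ _)
      · exact (pow_dvd_pow _ (min_le_right _ _)).trans (pow_multiplicity_dvd _ _)
    rw [hmul _ _ ha hd, hmul _ _ hc hb] at h5
    have h6 : min ((multiplicity ϖ a : ℤ) + multiplicity ϖ d)
        ((multiplicity ϖ c : ℤ) + multiplicity ϖ b) ≤ multiplicity ϖ (a * d + c * b) := by
      exact_mod_cast h5
    push_cast
    rcases min_le_iff.1 h6 with h | h
    · rw [min_le_iff]; left; linarith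
    · rw [min_le_iff]; right; linarith
  · intro c hc
    obtain ⟨a, b, ha, hb, h⟩ := hK c hc
    have hb0 : b ≠ 0 := by rintro rfl; exact hb (dvd_zero _)
    have ha0 : a ≠ 0 := by rintro rfl; exact ha (dvd_zero _)
    have hfb : φ b ≠ 0 := fun h' => hb0 ((h0 b).1 h')
    rw [ho _ a b ha0 hb0 (by rw [h]; exact div_mul_cancel₀ _ hfb), multiplicity_eq_zero.2 ha,
      multiplicity_eq_zero.2 hb]
    simp
  · refine ⟨φ ϖ, fun h' => hϖ.ne_zero ((h0 _).1 h'), ?_⟩
    rw [hoB ϖ hϖ.ne_zero, multiplicity_self]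
    simp

/-- regular elements -/
theorem exists_rep {K KK B : Type} [Field K] [Field KK] [Algebra K KK] [CommRing B] [IsDomain B]
    [UniqueFactorizationMonoid B] (φ : B →+* KK) (hφ : Function.Injective φ)
    (hsurj : ∀ f : KK, ∃ a b : B, b ≠ 0 ∧ f = φ a / φ b) (ϖ : B) (hϖ : Prime ϖ)
    (P : Place K KK) (hP : ∀ a : B, a ≠ 0 → P.ord (φ a) = multiplicity ϖ a) (f : KK)
    (hf : P.Reg f) : ∃ a b : B, ¬ ϖ ∣ b ∧ f = φ a / φ b := by
  have h0 : ∀ a : B, φ a = 0 ↔ a = 0 := fun a => map_eq_zero_iff φ hφ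
  by_cases hf0 : f = 0
  · exact ⟨0, 1, fun h => hϖ.not_isUnit (isUnit_of_dvd_one h), by rw [hf0, map_zero, zero_div]⟩
  have hr := (P.reg_iff hf0).1 hf
  obtain ⟨a, b, hb, h⟩ := hsurj f
  have ha : a ≠ 0 := by
    rintro rfl
    rw [map_zero, zero_div] at h
    exact hf0 h
  have hfb : φ b ≠ 0 := fun h' => hb ((h0 b).1 h')
  have hfa : φ a ≠ 0 := fun h' => ha ((h0 a).1 h')
  rw [h, P.ord_div hfa hfb, hP a ha, hP b hb] at hr
  obtain ⟨a', ha1, ha2⟩ := (FiniteMultiplicity.of_prime_left hϖ ha).exists_eq_pow_mul_and_not_dvd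
  obtain ⟨b', hb1, hb2⟩ := (FiniteMultiplicity.of_prime_left hϖ hb).exists_eq_pow_mul_and_not_dvd
  have hle : multiplicity ϖ b ≤ multiplicity ϖ a := by omega
  obtain ⟨j, hj⟩ := Nat.exists_eq_add_of_le hle
  refine ⟨ϖ ^ j * a', b', hb2, ?_⟩
  have hb' : φ b' ≠ 0 := fun h' => hb2 (by rw [(h0 _).1 h']; exact dvd_zero _)
  rw [h, div_eq_div_iff hfb hb', ← map_mul, ← map_mul]
  congr 1
  calc a * b' = (ϖ ^ multiplicity ϖ a * a') * b' := by rw [← ha1]
    _ = (ϖ ^ j * a') * (ϖ ^ multiplicity ϖ b * b') := by rw [hj, pow_add]; ring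
    _ = _ := by rw [← hb1]

end Pool.Agent.Helper93K9.PAR.Ht
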