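import Mathlib
import Pool.Agent.Helper93K9.PAR.Defs2
import Pool.Agent.Helper93K9.PAR.HtPlace

/-! # The height of the equation of a point is the degree of the point -/

set_option autoImplicit false

namespace Pool.Agent.Helper93K9.PAR

open MvPolynomial Module FF

namespace Ht

/-- reduction of polynomial expressions -/
theorem red_aeval {K KK : Type} [Field K] [Field KK] [Algebra K KK] (w : Place K KK) (b : KK)
    (hb : w.Reg b) (p : Polynomial K) :
    w.Reg (Polynomial.aeval b p) ∧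
      w.red (Polynomial.aeval b p) = Polynomial.aeval (w.red b) p := by
  have hpow : ∀ n : ℕ, w.Reg (b ^ n) := by
    intro n
    induction n with
    | zero => rw [pow_zero]; exact w.reg_one
    | succ n ih => rw [pow_succ]; exact w.reg_mul ih hb
  induction p using Polynomial.induction_on' with
  | add p q hp hq =>
    rw [map_add, map_add, w.red_add hp.1 hq.1, hp.2, hq.2]
    exact ⟨w.reg_add hp.1 hq.1, rfl⟩
  | monomial n c =>
    rw [Polynomial.aeval_monomial, Polynomial.aeval_monomial,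
      w.red_mul (w.reg_const c) (hpow n), w.red_pow hb, w.algebraMap_RF]
    exact ⟨w.reg_mul (w.reg_const c) (hpow n), rfl⟩

/-- the residue map of the place of a prime element, through a given ring homomorphism -/
theorem exists_res {B KK N : Type} [CommRing B] [IsDomain B] [Field KK] [Field N] (φ : B →+* KK)
    (hφ : Function.Injective φ) (Θ : B →+* N) (ϖ : B) (hΘ : ∀ b, Θ b = 0 ↔ ϖ ∣ b)
    (O : ValuationSubring KK) (hO : ∀ f ∈ O, ∃ a b : B, ¬ ϖ ∣ b ∧ f = φ a / φ b) :
    ∃ ψ : O →+* N, ∀ (f : O) (a b : B), ¬ ϖ ∣ b → f.1 * φ b = φ a → ψ f = Θ a / Θ b := by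
  classical
  have h0 : ∀ a : B, φ a = 0 ↔ a = 0 := fun a => map_eq_zero_iff φ hφ
  have hO' : ∀ f : O, ∃ a b : B, ¬ ϖ ∣ b ∧ f.1 * φ b = φ a := by
    intro f
    obtain ⟨a, b, hb, h⟩ := hO f.1 f.2
    have hb0 : φ b ≠ 0 := fun h' => hb (by rw [(h0 _).1 h']; exact dvd_zero _)
    exact ⟨a, b, hb, by rw [h]; exact div_mul_cancel₀ _ hb0⟩
  choose n d hd hnd using hO'
  have key : ∀ (f : O) (a b : B), ¬ ϖ ∣ b → f.1 * φ b = φ a → Θ (n f) / Θ (d f) = Θ a / Θ b := by
    intro f a b hb h
    have h1 : Θ b ≠ 0 := fun h' => hb ((hΘ b).1 h')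
    have h2 : Θ (d f) ≠ 0 := fun h' => hd f ((hΘ _).1 h')
    rw [div_eq_div_iff h2 h1, ← map_mul, ← map_mul]
    congr 1
    apply hφ
    rw [map_mul, map_mul, ← hnd f, ← h]
    ring
  have h1' : ¬ ϖ ∣ 1 := by
    rw [← hΘ, map_one]; exact one_ne_zero
  have hne : ∀ b, ¬ ϖ ∣ b → Θ b ≠ 0 := fun b hb h' => hb ((hΘ b).1 h')
  have hdm : ∀ b c, ¬ ϖ ∣ b → ¬ ϖ ∣ c → ¬ ϖ ∣ b * c := by
    intro b c hb hc
    rw [← hΘ, map_mul]
    exact mul_ne_zero (hne b hb) (hne c hc)
  refine ⟨{ toFun := fun f => Θ (n f) / Θ (d f)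
            map_one' := ?_
            map_mul' := ?_
            map_zero' := ?_
            map_add' := ?_ }, fun f a b hb h => key f a b hb h⟩
  · rw [key 1 1 1 h1' (by simp), map_one, div_one]
  · intro f g
    rw [key (f * g) (n f * n g) (d f * d g) (hdm _ _ (hd f) (hd g)) (by
      rw [map_mul, map_mul, ← hnd f, ← hnd g]
      change f.1 * g.1 * _ = _
      ring), map_mul, map_mul, mul_div_mul_comm]
  · rw [key 0 0 1 h1' (by simp), map_zero, zero_div]
  · intro f g
    rw [key (f + g) (n f * d g + d f * n g) (d f * d g) (hdm _ _ (hd f) (hd g)) (by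
      rw [map_add, map_mul, map_mul, map_mul, ← hnd f, ← hnd g]
      change (f.1 + g.1) * _ = _
      ring), map_add, map_mul, map_mul, map_mul, div_add_div _ _ (hne _ (hd f)) (hne _ (hd g))]

end Ht

/-- job HT -/
theorem ht (hFFK : S_FFK) (hCST : S_CST) : S_HT := by
  classical
  intro Ω κ KK N _ _ _ _ _ _ _ _ _ _ _ _ _ _ r F X hC hdom hufd ξ hξ ω hω hgen
  have hFF : IsFF (Kc Ω X) KK := hFFK Ω κ KK r F X hC
  have hch : CharZero (Kc Ω X) := charZero_of_injective_algebraMap (algebraMap Ω (Kc Ω X)).injective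
  have hcst := hCST Ω κ KK r F X hC
  -- evaluation at `X`
  have hkX : ∀ g : MvPolynomial (Fin r) κ, aeval X g = 0 ↔ mk κ F g = 0 := by
    intro g
    rw [hC.1 g, Ideal.Quotient.eq_zero_iff_mem, Ideal.mem_span_singleton]
  let φ : BB κ F →+* KK := Ideal.Quotient.lift _ (aeval X : MvPolynomial (Fin r) κ →ₐ[κ] KK).toRingHom
    (fun g hg => by
      have := (hkX g).2 (Ideal.Quotient.eq_zero_iff_mem.2 hg)
      exact this)
  have hφmk : ∀ g : MvPolynomial (Fin r) κ, φ (mk κ F g) = aeval X g := fun g => rfl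
  have hφ : Function.Injective φ := by
    rw [injective_iff_map_eq_zero]
    intro b hb
    obtain ⟨g, rfl⟩ := Ideal.Quotient.mk_surjective b
    exact (hkX g).1 hb
  have hmapX : ∀ H : MvPolynomial (Fin r) Ω, aeval X (map (algebraMap Ω κ) H) = aeval X H :=
    fun H => aeval_map_algebraMap κ X H
  have hmapξ : ∀ H : MvPolynomial (Fin r) Ω, aeval ξ (map (algebraMap Ω κ) H) = aeval ξ H :=
    fun H => aeval_map_algebraMap κ ξ H
  have hFξ : aeval ξ F = 0 := (hξ F).2 (dvd_refl _)
  have hFX : aeval X F = 0 := by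
    rw [← hmapX]; exact (hC.1 _).2 (dvd_refl _)
  -- evaluation at `ξ`
  let Θ : BB κ F →+* N := Ideal.Quotient.lift _ (aeval ξ : MvPolynomial (Fin r) κ →ₐ[κ] N).toRingHom
    (fun g hg => by
      obtain ⟨q, rfl⟩ := Ideal.mem_span_singleton.1 hg
      change aeval ξ (map (algebraMap Ω κ) F * q) = 0
      rw [map_mul, hmapξ, hFξ, zero_mul])
  have hΘmk : ∀ g : MvPolynomial (Fin r) κ, Θ (mk κ F g) = aeval ξ g := fun g => rfl
  have hΘ : ∀ b, Θ b = 0 ↔ mk κ F ω ∣ b := by
    intro b
    obtain ⟨g, rfl⟩ := Ideal.Quotient.mk_surjective b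
    exact hgen g
  have hHX : ∀ H : MvPolynomial (Fin r) Ω, aeval ξ H = 0 ↔ aeval X H = 0 := by
    intro H
    constructor
    · intro h
      obtain ⟨q, rfl⟩ := (hξ H).1 h
      rw [map_mul, hFX, zero_mul]
    · intro h
      rw [← hmapX, hC.1] at h
      obtain ⟨q, hq⟩ := h
      rw [← hmapξ, hq, map_mul, hmapξ, hFξ, zero_mul]
  have hHω : ∀ H : MvPolynomial (Fin r) Ω, aeval X H ≠ 0 →
      ¬ mk κ F ω ∣ mk κ F (map (algebraMap Ω κ) H) := by
    intro H h hd
    rw [← hΘ, hΘmk, hmapξ, hHX] at hd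
    exact h hd
  have hsurj : ∀ f : KK, ∃ a b : BB κ F, b ≠ 0 ∧ f = φ a / φ b := by
    intro f
    have h : f ∈ IntermediateField.adjoin κ (Set.range X) := by rw [hC.2]; trivial
    rw [IntermediateField.mem_adjoin_range_iff] at h
    obtain ⟨u, v, huv⟩ := h
    by_cases hv : aeval X v = 0
    · refine ⟨0, 1, one_ne_zero, ?_⟩
      rw [huv, hv, div_zero, map_zero, zero_div]
    · refine ⟨mk κ F u, mk κ F v, ?_, huv⟩
      intro h'
      exact hv ((hkX v).2 h')
  have hKc : ∀ c : Kc Ω X, ∃ u v : MvPolynomial (Fin r) Ω, aeval X v ≠ 0 ∧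
      c.1 = aeval X u / aeval X v := by
    intro c
    obtain ⟨u, v, huv⟩ := (IntermediateField.mem_adjoin_range_iff Ω X c.1).1 c.2
    by_cases hv : aeval X v = 0
    · refine ⟨0, 1, by rw [map_one]; exact one_ne_zero, ?_⟩
      rw [huv, hv, div_zero, map_zero, zero_div]
    · exact ⟨u, v, hv, huv⟩
  have hK : ∀ c : Kc Ω X, c ≠ 0 → ∃ a b : BB κ F, ¬ mk κ F ω ∣ a ∧ ¬ mk κ F ω ∣ b ∧
      algebraMap (Kc Ω X) KK c = φ a / φ b := by
    intro c hc
    obtain ⟨u, v, hv, huv⟩ := hKc c
    refine ⟨mk κ F (map (algebraMap Ω κ) u), mk κ F (map (algebraMap Ω κ) v), hHω u ?_, hHω v hv, ?_⟩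
    · intro h
      rw [h, zero_div] at huv
      exact hc (Subtype.ext huv)
    · rw [hφmk, hφmk, hmapX, hmapX]
      exact huv
  obtain ⟨P, hP⟩ := Ht.exists_place (K := Kc Ω X) φ hφ hsurj (mk κ F ω) hω hK
  have hrep := Ht.exists_rep (K := Kc Ω X) φ hφ hsurj (mk κ F ω) hω P hP
  have hφ0 : ∀ b : BB κ F, φ b = 0 ↔ b = 0 := fun b => map_eq_zero_iff φ hφ
  have hPreg : ∀ b : BB κ F, P.Reg (φ b) := by
    intro b
    by_cases hb : b = 0
    · left; rw [hb, map_zero]
    · right; rw [hP b hb]; positivity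
  have hPred : ∀ b : BB κ F, P.red (φ b) = 0 ↔ mk κ F ω ∣ b := by
    intro b
    rw [P.red_eq_zero_iff (hPreg b)]
    by_cases hb : b = 0
    · simp [hb]
    · rw [hP b hb]
      have h1 : φ b ≠ 0 := fun h => hb ((hφ0 b).1 h)
      have h2 : multiplicity (mk κ F ω) b = 0 ↔ ¬ mk κ F ω ∣ b := multiplicity_eq_zero
      constructor
      · rintro (h | h)
        · exact absurd h h1
        · by_contra hc
          rw [h2.2 hc] at h
          simp at h
      · intro h
        right
        by_contra hc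
        have h3 : multiplicity (mk κ F ω) b = 0 := by omega
        exact h2.1 h3 h
  have hωX : aeval X ω ≠ 0 := by
    intro h
    exact hω.ne_zero ((hkX ω).1 h)
  have hPω : P.ord (aeval X ω) = 1 := by
    have := hP (mk κ F ω) hω.ne_zero
    rw [multiplicity_self] at this
    exact_mod_cast this
  have hPc : ¬ Cst κ P := by
    rintro ⟨c, hc⟩
    apply hc
    by_cases hc0 : c = 0
    · rw [hc0, map_zero, P.ord_zero]
    have h1 : algebraMap κ KK c = φ (mk κ F (C c)) := by rw [hφmk, aeval_C]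
    have h2 : mk κ F (C c) ≠ 0 := by
      intro h
      rw [← hφ0, ← h1] at h
      exact hc0 ((map_eq_zero _).1 h)
    rw [h1, hP _ h2]
    have h3 : ¬ mk κ F ω ∣ mk κ F (C c) := by
      intro h
      apply hω.not_isUnit
      apply isUnit_of_dvd_unit h
      exact ((Ne.isUnit hc0).map C).map _
    rw [multiplicity_eq_zero.2 h3]
    rfl
  -- non-constant places
  have hreg : ∀ w : Place (Kc Ω X) KK, ¬ Cst κ w → ∀ g : MvPolynomial (Fin r) κ,
      w.Reg (aeval X g) := by
    intro w hw g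
    unfold Cst at hw
    push Not at hw
    induction g using MvPolynomial.induction_on with
    | C c => rw [aeval_C]; right; rw [hw c]
    | add p q hp hq => rw [map_add]; exact w.reg_add hp hq
    | mul_X p i hp =>
      rw [map_mul, aeval_X]
      exact w.reg_mul hp (w.reg_const ⟨X i, IntermediateField.subset_adjoin _ _ ⟨i, rfl⟩⟩)
  have hKord : ∀ (w : Place (Kc Ω X) KK) (H : MvPolynomial (Fin r) Ω), aeval X H ≠ 0 →
      w.ord (aeval X H) = 0 := by
    intro w H hH
    have h1 : aeval X H ∈ Kc Ω X := by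
      have := (IntermediateField.mem_adjoin_range_iff Ω X (aeval X H)).2 ⟨H, 1, by
        rw [map_one, div_one]⟩
      exact this
    exact w.ord_const (c := ⟨aeval X H, h1⟩) (fun h => hH (congrArg Subtype.val h))
  -- the ring generated by `κ` and `Ω(X)`
  let Bp : Subalgebra (Kc Ω X) KK :=
    { carrier := {f | ∃ (a : MvPolynomial (Fin r) κ) (h : MvPolynomial (Fin r) Ω),
        aeval X h ≠ 0 ∧ f * aeval X h = aeval X a}
      mul_mem' := by
        rintro f g ⟨a, h, hh, e⟩ ⟨a', h', hh', e'⟩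
        refine ⟨a * a', h * h', by rw [map_mul]; exact mul_ne_zero hh hh', ?_⟩
        rw [map_mul, map_mul, ← e, ← e']; ring
      add_mem' := by
        rintro f g ⟨a, h, hh, e⟩ ⟨a', h', hh', e'⟩
        refine ⟨a * map (algebraMap Ω κ) h' + a' * map (algebraMap Ω κ) h, h * h', by
          rw [map_mul]; exact mul_ne_zero hh hh', ?_⟩
        rw [map_mul, map_add, map_mul, map_mul, hmapX, hmapX, ← e, ← e']; ring
      algebraMap_mem' := by
        intro c
        obtain ⟨u, v, hv, huv⟩ := hKc c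
        refine ⟨map (algebraMap Ω κ) u, v, hv, ?_⟩
        rw [hmapX]
        change c.1 * _ = _
        rw [huv]
        exact div_mul_cancel₀ _ hv }
  have hBp : ∀ a : MvPolynomial (Fin r) κ, aeval X a ∈ Bp := fun a =>
    ⟨a, 1, by rw [map_one]; exact one_ne_zero, by rw [map_one, mul_one]⟩
  have hmain : ∀ w : Place (Kc Ω X) KK, ¬ Cst κ w → w.ord (aeval X ω) ≠ 0 → w = P := by
    intro w hw hwω
    have hwω' : w.red (aeval X ω) = 0 := by
      rw [w.red_eq_zero_iff (hreg w hw ω)]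
      right
      have := (w.reg_iff hωX).1 (hreg w hw ω)
      omega
    have hb : ∀ b : MvPolynomial (Fin r) κ, ¬ mk κ F ω ∣ mk κ F b → w.ord (aeval X b) = 0 := by
      intro b hb
      have hb0 : P.red (aeval X b) ≠ 0 := fun h => hb ((hPred (mk κ F b)).1 h)
      have hbX : aeval X b ≠ 0 := by
        intro h
        rw [h, P.red_zero] at hb0
        exact hb0 rfl
      have hint : IsIntegral (Kc Ω X) (P.red (aeval X b)) := IsIntegral.of_finite _ _
      have hp0 := minpoly.coeff_zero_ne_zero hint hb0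
      set p := minpoly (Kc Ω X) (P.red (aeval X b)) with hp
      obtain ⟨hr1, hr2⟩ := Ht.red_aeval P (aeval X b) (hPreg (mk κ F b)) p
      obtain ⟨hw1, hw2⟩ := Ht.red_aeval w (aeval X b) (hreg w hw b) p
      rw [hp, minpoly.aeval, ← hp] at hr2
      have hmem : Polynomial.aeval (aeval X b) p ∈ Bp := by
        have := (Polynomial.aeval (⟨aeval X b, hBp b⟩ : Bp) p).2
        rwa [Polynomial.aeval_subalgebra_coe] at this
      obtain ⟨a, h, hh, e⟩ := hmem
      have hregh : ∀ w' : Place (Kc Ω X) KK, w'.Reg (aeval X h) := fun w' =>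
        Or.inr (hKord w' h hh).ge
      have ha : mk κ F ω ∣ mk κ F a := by
        rw [← hPred, hφmk, ← e, P.red_mul hr1 (hregh P), hr2, zero_mul]
      obtain ⟨d, hd⟩ := ha
      obtain ⟨d, rfl⟩ := Ideal.Quotient.mk_surjective d
      have ha' : aeval X a = aeval X ω * aeval X d := by
        have := congrArg φ hd
        rw [map_mul] at this
        exact this
      have h1 : w.red (aeval X a) = 0 := by
        rw [ha', w.red_mul (hreg w hw ω) (hreg w hw d), hwω', zero_mul]
      have h2 : w.red (Polynomial.aeval (aeval X b) p) = 0 := by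
        rw [← e, w.red_mul hw1 (hregh w)] at h1
        rcases mul_eq_zero.1 h1 with h1 | h1
        · exact h1
        · exact absurd h1 (w.red_ne_zero hh (hKord w h hh))
      rw [hw2] at h2
      have h3 : w.red (aeval X b) ≠ 0 := by
        intro h'
        rw [h', ← Polynomial.coeff_zero_eq_aeval_zero', map_eq_zero] at h2
        exact hp0 h2
      rw [Ne, w.red_eq_zero_iff (hreg w hw b)] at h3
      push Not at h3
      have h4 := (w.reg_iff hbX).1 (hreg w hw b)
      omega
    apply (Place.eq_of_le P w ?_).symm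
    intro f hf0 hf
    obtain ⟨a, b, hbd, hfab⟩ := hrep f (Or.inr hf)
    obtain ⟨a, rfl⟩ := Ideal.Quotient.mk_surjective a
    obtain ⟨b, rfl⟩ := Ideal.Quotient.mk_surjective b
    have h1 := hb b hbd
    have h2 : f = aeval X a / aeval X b := hfab
    have hb0 : aeval X b ≠ 0 := by
      intro h; rw [h, div_zero] at h2; exact hf0 h2
    have ha0 : aeval X a ≠ 0 := by
      intro h; rw [h, zero_div] at h2; exact hf0 h2
    rw [h2, w.ord_div ha0 hb0, h1, sub_zero]
    exact (w.reg_iff ha0).1 (hreg w hw a)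
  -- the height
  have hdl : dl (Ω := Ω) κ X (aeval X ω) = P.deg := by
    have h1 := ddeg_divisor (k := Kc Ω X) (aeval X ω)
    unfold ddeg Finsupp.sum at h1
    set S := (divisor (Kc Ω X) (aeval X ω)).support with hS
    have hmemS : ∀ w, w ∈ S ↔ w.ord (aeval X ω) ≠ 0 := by
      intro w
      rw [hS, Finsupp.mem_support_iff, divisor_apply]
    have hPS : P ∈ S := by
      rw [hmemS, hPω]; exact one_ne_zero
    rw [← Finset.add_sum_erase S _ hPS] at h1
    have hcS : ∀ w ∈ S.erase P, Cst κ w := by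
      intro w hw
      by_contra hc
      rw [Finset.mem_erase, hmemS] at hw
      exact hw.1 (hmain w hc hw.2)
    have h2 : ∑ w ∈ S.erase P, (divisor (Kc Ω X) (aeval X ω)) w * (w.deg : ℤ) =
        ∑ w ∈ S.erase P, w.ord (aeval X ω) := by
      refine Finset.sum_congr rfl fun w hw => ?_
      rw [divisor_apply, (hcst w (hcS w hw)).1]
      simp
    rw [h2, divisor_apply, hPω] at h1
    beta_reduce at h1
    rw [one_mul] at h1
    unfold dl
    rw [finsum_eq_sum_of_support_subset (s := (S.erase P).subtype (Cst κ))]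
    · rw [Finset.sum_subtype_of_mem (fun w : Place (Kc Ω X) KK => w.ord (aeval X ω)) hcS]
      linarith
    · rintro ⟨w, hw⟩ hs
      rw [Function.mem_support] at hs
      rw [Finset.mem_coe, Finset.mem_subtype, Finset.mem_erase, hmemS]
      refine ⟨?_, hs⟩
      rintro rfl
      exact hPc hw
  rw [hdl]
  -- the residue field
  obtain ⟨ψ, hψ⟩ := Ht.exists_res φ hφ Θ (mk κ F ω) hΘ P.O (fun f hf => hrep f hf)
  have hloc : IsLocalHom ψ := by
    constructor
    rintro ⟨f, hf⟩ hu
    obtain ⟨a, b, hb, hfab⟩ := hrep f hf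
    have hb0 : φ b ≠ 0 := fun h => hb (by rw [(hφ0 b).1 h]; exact dvd_zero _)
    have h1 := hψ ⟨f, hf⟩ a b hb (by
      change f * φ b = φ a
      rw [hfab]; exact div_mul_cancel₀ _ hb0)
    rw [h1] at hu
    have ha : ¬ mk κ F ω ∣ a := by
      intro h
      rw [(hΘ a).2 h, zero_div] at hu
      exact not_isUnit_zero hu
    have ha0 : φ a ≠ 0 := fun h => ha (by rw [(hφ0 a).1 h]; exact dvd_zero _)
    have ho : ∀ c, ¬ mk κ F ω ∣ c → φ c ≠ 0 → P.ord (φ c) = 0 := by
      intro c hc hc0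
      have h2 : P.red (φ c) ≠ 0 := fun h => hc ((hPred c).1 h)
      rw [Ne, P.red_eq_zero_iff (hPreg c)] at h2
      push Not at h2
      have h3 := (P.reg_iff hc0).1 (hPreg c)
      omega
    refine (P.isUnit_O_iff hf).2 ⟨?_, ?_⟩
    · rw [hfab]; exact div_ne_zero ha0 hb0
    · rw [hfab, P.ord_div ha0 hb0, ho a ha ha0, ho b hb hb0]; rfl
  let ρ : P.RF →+* N := IsLocalRing.ResidueField.lift ψ
  have hρ : ∀ (f : KK) (a b : MvPolynomial (Fin r) κ), aeval ξ b ≠ 0 →
      f * aeval X b = aeval X a → P.Reg f ∧ ρ (P.red f) = aeval ξ a / aeval ξ b := by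
    intro f a b hb h
    have hb' : ¬ mk κ F ω ∣ mk κ F b := fun h' => hb ((hgen b).2 h')
    have hb0 : aeval X b ≠ 0 := by
      intro h'
      apply hb'
      rw [(hkX b).1 h']
      exact dvd_zero _
    have hob : P.ord (aeval X b) = 0 := by
      have h2 : P.red (aeval X b) ≠ 0 := fun h => hb' ((hPred (mk κ F b)).1 h)
      have h5 : P.Reg (aeval X b) := hPreg (mk κ F b)
      rw [Ne, P.red_eq_zero_iff h5] at h2
      push Not at h2
      have h3 := (P.reg_iff hb0).1 h5
      have h4 := h2.2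
      omega
    have hreg' : P.Reg f := by
      have h1 : f = aeval X a * (aeval X b)⁻¹ := by
        rw [← h, mul_assoc, mul_inv_cancel₀ hb0, mul_one]
      rw [h1]
      refine P.reg_mul (hPreg (mk κ F a)) (Or.inr ?_)
      rw [P.ord_inv, hob]; rfl
    refine ⟨hreg', ?_⟩
    rw [P.red_of_reg hreg']
    exact hψ ⟨f, hreg'⟩ (mk κ F a) (mk κ F b) hb' h
  let Lf := IntermediateField.adjoin (Kc Ω ξ) (Set.range (algebraMap κ N))
  have hsclN : ∀ c : Ω, algebraMap Ω N c = algebraMap κ N (algebraMap Ω κ c) := fun c =>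
    IsScalarTower.algebraMap_apply Ω κ N c
  have hLaeval : ∀ g : MvPolynomial (Fin r) κ, aeval ξ g ∈ Lf := by
    intro g
    induction g using MvPolynomial.induction_on with
    | C c => rw [aeval_C]; exact IntermediateField.subset_adjoin _ _ ⟨c, rfl⟩
    | add p q hp hq => rw [map_add]; exact add_mem hp hq
    | mul_X p i hp =>
      rw [map_mul, aeval_X]
      exact mul_mem hp (Lf.algebraMap_mem ⟨ξ i, IntermediateField.subset_adjoin _ _ ⟨i, rfl⟩⟩)
  have hρL : ∀ x : P.RF, ρ x ∈ Lf := by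
    intro x
    obtain ⟨f, hf, rfl⟩ := P.red_surjective x
    obtain ⟨a, b, hb, hfab⟩ := hrep f hf
    obtain ⟨a, rfl⟩ := Ideal.Quotient.mk_surjective a
    obtain ⟨b, rfl⟩ := Ideal.Quotient.mk_surjective b
    have hb0 : aeval X b ≠ 0 := by
      intro h'
      apply hb
      rw [show (Ideal.Quotient.mk (Ideal.span {map (algebraMap Ω κ) F})) b = 0 from (hkX b).1 h']
      exact dvd_zero _
    have h1 := (hρ f a b (fun h => hb ((hgen b).1 h)) (by
      rw [hfab]; exact div_mul_cancel₀ _ hb0)).2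
    rw [h1]
    exact div_mem (hLaeval a) (hLaeval b)
  have hKξ : ∀ c : Kc Ω ξ, ∃ u v : MvPolynomial (Fin r) Ω, aeval ξ v ≠ 0 ∧
      c.1 = aeval ξ u / aeval ξ v := by
    intro c
    obtain ⟨u, v, huv⟩ := (IntermediateField.mem_adjoin_range_iff Ω ξ c.1).1 c.2
    by_cases hv : aeval ξ v = 0
    · refine ⟨0, 1, by rw [map_one]; exact one_ne_zero, ?_⟩
      rw [huv, hv, div_zero, map_zero, zero_div]
    · exact ⟨u, v, hv, huv⟩
  -- `K → Ω(ξ)`
  have hρK : ∀ u v : MvPolynomial (Fin r) Ω, aeval X v ≠ 0 →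
      P.Reg (aeval X u / aeval X v) ∧
      ρ (P.red (aeval X u / aeval X v)) = aeval ξ u / aeval ξ v := by
    intro u v hv
    have := hρ (aeval X u / aeval X v) (map (algebraMap Ω κ) u) (map (algebraMap Ω κ) v) (by
      rw [hmapξ, Ne, hHX]; exact hv) (by rw [hmapX, hmapX]; exact div_mul_cancel₀ _ hv)
    rwa [hmapξ, hmapξ] at this
  have hi0 : ∀ c : Kc Ω X, ρ (algebraMap (Kc Ω X) P.RF c) ∈ Kc Ω ξ := by
    intro c
    obtain ⟨u, v, hv, huv⟩ := hKc c
    rw [P.algebraMap_RF]
    have h1 : algebraMap (Kc Ω X) KK c = aeval X u / aeval X v := huv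
    rw [h1, (hρK u v hv).2]
    exact (IntermediateField.mem_adjoin_range_iff Ω ξ _).2 ⟨u, v, rfl⟩
  let i0 : Kc Ω X →+* Kc Ω ξ := (ρ.comp (algebraMap (Kc Ω X) P.RF)).codRestrict
    (Kc Ω ξ).toSubring hi0
  have hi0s : Function.Surjective i0 := by
    intro c
    obtain ⟨u, v, hv, huv⟩ := hKξ c
    have hvX : aeval X v ≠ 0 := by rwa [Ne, ← hHX]
    refine ⟨⟨aeval X u / aeval X v, (IntermediateField.mem_adjoin_range_iff Ω X _).2
      ⟨u, v, rfl⟩⟩, ?_⟩
    apply Subtype.ext
    change ρ (algebraMap (Kc Ω X) P.RF _) = c.1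
    rw [P.algebraMap_RF, huv]
    exact (hρK u v hvX).2
  let j0 : P.RF →+* Lf := ρ.codRestrict Lf.toSubring hρL
  have hj0s : Function.Surjective j0 := by
    have h1 : Lf.toSubfield ≤ ρ.fieldRange := by
      change (IntermediateField.adjoin (Kc Ω ξ) (Set.range (algebraMap κ N))).toSubfield ≤ _
      rw [IntermediateField.adjoin_toSubfield, Subfield.closure_le, Set.union_subset_iff]
      constructor
      · rintro _ ⟨c, rfl⟩
        obtain ⟨u, v, hv, huv⟩ := hKξ c
        have hvX : aeval X v ≠ 0 := by rwa [Ne, ← hHX]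
        refine ⟨P.red (aeval X u / aeval X v), ?_⟩
        rw [(hρK u v hvX).2]
        exact huv.symm
      · rintro _ ⟨c, rfl⟩
        refine ⟨P.red (algebraMap κ KK c), ?_⟩
        rw [(hρ (algebraMap κ KK c) (C c) 1 (by rw [map_one]; exact one_ne_zero) (by
          rw [map_one, mul_one, aeval_C])).2, map_one, div_one, aeval_C]
    rintro ⟨y, hy⟩
    obtain ⟨x, hx⟩ := h1 hy
    exact ⟨x, Subtype.ext hx⟩
  have hfin := Algebra.finrank_eq_of_equiv_equiv (RingEquiv.ofBijective i0 ⟨i0.injective, hi0s⟩)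
    (RingEquiv.ofBijective j0 ⟨j0.injective, hj0s⟩) (by ext c; rfl)
  unfold Place.deg
  exact_mod_cast hfin

end Pool.Agent.Helper93K9.PAR
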