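import Pool.Agent.Helper93K9.PAR.Defs

/-! # Setting variables to zero -/

set_option autoImplicit false

namespace Pool.Agent.Helper93K9.PAR

open MvPolynomial Module

noncomputable section

variable {k : Type} [Field k] {r : ℕ}

theorem f01 (m : ℕ) : (0 : Fin (m + 3)) ≠ 1 := by
  intro h; have := congrArg Fin.val h; simp at this

theorem f20 (m : ℕ) : (2 : Fin (m + 3)) ≠ 0 := by
  intro h
  have h2 := congrArg Fin.val h
  simp at h2
  have h3 : 2 % (m + 3) = 2 := Nat.mod_eq_of_lt (by omega)
  omega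

theorem f21 (m : ℕ) : (2 : Fin (m + 3)) ≠ 1 := by
  intro h
  have h2 := congrArg Fin.val h
  simp at h2
  have h3 : 2 % (m + 3) = 2 := Nat.mod_eq_of_lt (by omega)
  omega

/-- set the variables `X j`, `j ∈ S`, to zero -/
def kill (S : Finset (Fin r)) : MvPolynomial (Fin r) k →ₐ[k] MvPolynomial (Fin r) k :=
  aeval (fun j => if j ∈ S then 0 else X j)

theorem kill_X (S : Finset (Fin r)) (j : Fin r) :
    kill (k := k) S (X j) = if j ∈ S then 0 else X j := by
  unfold kill
  rw [aeval_X]

theorem kill_X_mem {S : Finset (Fin r)} {j : Fin r} (h : j ∈ S) :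
    kill (k := k) S (X j) = 0 := by rw [kill_X, if_pos h]

theorem kill_X_notMem {S : Finset (Fin r)} {j : Fin r} (h : j ∉ S) :
    kill (k := k) S (X j) = X j := by rw [kill_X, if_neg h]

theorem sub_kill_mem (S : Finset (Fin r)) (f : MvPolynomial (Fin r) k) :
    f - kill S f ∈ Ideal.span ((X : Fin r → MvPolynomial (Fin r) k) '' S) := by
  have h : (Ideal.Quotient.mkₐ k (Ideal.span ((X : Fin r → MvPolynomial (Fin r) k) '' S))).comp
      (kill S) = Ideal.Quotient.mkₐ k (Ideal.span ((X : Fin r → MvPolynomial (Fin r) k) '' S)) := by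
    refine MvPolynomial.algHom_ext fun j => ?_
    rw [AlgHom.comp_apply, kill_X]
    split_ifs with hj
    · rw [map_zero, eq_comm]
      exact Ideal.Quotient.eq_zero_iff_mem.2 (Ideal.subset_span ⟨j, hj, rfl⟩)
    · rfl
  rw [← Ideal.Quotient.eq_zero_iff_mem, map_sub, sub_eq_zero]
  exact (congrArg (fun g => g f) h).symm

theorem X_dvd_sub_kill (i : Fin r) (f : MvPolynomial (Fin r) k) :
    (X i : MvPolynomial (Fin r) k) ∣ f - kill {i} f := by
  have h := sub_kill_mem {i} f
  simp only [Finset.coe_singleton, Set.image_singleton] at h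
  exact Ideal.mem_span_singleton.1 h

theorem X_dvd_of_kill {i : Fin r} {f : MvPolynomial (Fin r) k} (h : kill {i} f = 0) :
    (X i : MvPolynomial (Fin r) k) ∣ f := by
  have := X_dvd_sub_kill i f
  rwa [h, sub_zero] at this

theorem kill_eq_zero_of_dvd {i : Fin r} {f : MvPolynomial (Fin r) k}
    (h : (X i : MvPolynomial (Fin r) k) ∣ f) : kill {i} f = 0 := by
  obtain ⟨g, rfl⟩ := h
  rw [map_mul, kill_X_mem (by simp), zero_mul]

theorem kill_pair {i j : Fin r} (f : MvPolynomial (Fin r) k) :
    ∃ p q, f - kill {i, j} f = X i * p + X j * q := by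
  have h := sub_kill_mem {i, j} f
  simp only [Finset.coe_insert, Finset.coe_singleton, Set.image_pair] at h
  obtain ⟨a, b, hab⟩ := Ideal.mem_span_pair.1 h
  exact ⟨a, b, by rw [← hab]; ring⟩

theorem X_ndvd_X {i j : Fin r} (h : i ≠ j) : ¬ (X i : MvPolynomial (Fin r) k) ∣ X j := by
  rw [X_dvd_X]
  exact h

/-- the sum of the cubes with some variables set to zero -/
theorem kill_cc (m : ℕ) (S : Finset (Fin (m + 3))) :
    kill S (cc m k) = ∑ j ∈ Sᶜ, X j ^ 3 := by
  unfold cc
  rw [map_sum]
  simp only [map_pow, kill_X]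
  rw [← Finset.sum_subset (Finset.subset_univ Sᶜ)]
  · refine Finset.sum_congr rfl fun j hj => ?_
    rw [if_neg (Finset.mem_compl.1 hj)]
  · intro j _ hj
    rw [if_pos (by simpa using hj)]
    ring

theorem eval_kill_cc (m : ℕ) (S : Finset (Fin (m + 3))) {i : Fin (m + 3)} (hi : i ∉ S) :
    eval (Pi.single i (1 : k)) (kill S (cc m k)) = 1 := by
  rw [kill_cc, map_sum, Finset.sum_eq_single i]
  · simp
  · intro j _ hj
    simp [hj]
  · intro h
    exact absurd (Finset.mem_compl.2 hi) h

theorem kill_cc_ne_zero (m : ℕ) (S : Finset (Fin (m + 3))) {i : Fin (m + 3)} (hi : i ∉ S) :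
    kill S (cc m k) ≠ 0 := by
  intro h
  have := eval_kill_cc (k := k) m S hi
  rw [h, map_zero] at this
  exact zero_ne_one this

/-- `X j` does not divide the sum of the cubes with some variables set to zero -/
theorem X_ndvd_kill_cc (m : ℕ) (S : Finset (Fin (m + 3))) {i j : Fin (m + 3)} (hi : i ∉ S)
    (hij : j ≠ i) : ¬ (X j : MvPolynomial (Fin (m + 3)) k) ∣ kill S (cc m k) := by
  rintro ⟨g, hg⟩
  have := eval_kill_cc (k := k) m S hi
  rw [hg, map_mul, eval_X, Pi.single_eq_of_ne hij, zero_mul] at this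
  exact zero_ne_one this

/-- if `p` is prime and does not divide `d`, then `x^2 + p d y^2` has no nontrivial zeros -/
theorem sq_add_ne_zero {R : Type} [CommRing R] [IsDomain R] [UniqueFactorizationMonoid R]
    {p d : R} (hp : Prime p) (hd : ¬ p ∣ d) {x y : R} (h : x ^ 2 + p * d * y ^ 2 = 0) :
    y = 0 := by
  by_contra hy
  have hd0 : d ≠ 0 := by
    rintro rfl
    exact hd (dvd_zero p)
  have hpy : p * d * y ^ 2 ≠ 0 := mul_ne_zero (mul_ne_zero hp.ne_zero hd0) (pow_ne_zero 2 hy)
  have hx : x ≠ 0 := by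
    rintro rfl
    apply hpy
    rw [← h]
    ring
  have h1 : x ^ 2 = (-1) * (p * d * y ^ 2) := by linear_combination h
  have e1 : emultiplicity p (x ^ 2) = emultiplicity p (p * d * y ^ 2) := by
    rw [h1, neg_one_mul, emultiplicity_neg]
  have fx := FiniteMultiplicity.of_prime_left hp hx
  have fy := FiniteMultiplicity.of_prime_left hp hy
  rw [emultiplicity_pow hp, emultiplicity_mul hp, emultiplicity_mul hp, emultiplicity_pow hp,
    emultiplicity_eq_zero.2 hd, fx.emultiplicity_eq_multiplicity,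
    fy.emultiplicity_eq_multiplicity,
    (FiniteMultiplicity.of_prime_left hp hp.ne_zero).emultiplicity_self] at e1
  have e2 : 2 * multiplicity p x = 1 + 0 + 2 * multiplicity p y := by exact_mod_cast e1
  omega

end

end Pool.Agent.Helper93K9.PAR
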