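import Mathlib
import Pool.Agent.Helper93K9.PAR.Defs2

/-! # Linear disjointness of `κ` and `Ω(X)` over `Ω` -/

set_option autoImplicit false

namespace Pool.Agent.Helper93K9.PAR.Ld

open MvPolynomial Module FF

noncomputable section

section
variable {Ω κ : Type} [Field Ω] [Field κ] [Algebra Ω κ] {r : ℕ}

/-- coefficientwise linear functional -/
def cm (φ : κ →ₗ[Ω] Ω) (g : MvPolynomial (Fin r) κ) : MvPolynomial (Fin r) Ω :=
  ∑ m ∈ g.support, monomial m (φ (coeff m g))

lemma coeff_cm (φ : κ →ₗ[Ω] Ω) (g : MvPolynomial (Fin r) κ) (n : Fin r →₀ ℕ) :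
    coeff n (cm φ g) = φ (coeff n g) := by
  classical
  unfold cm
  rw [coeff_sum]
  simp only [coeff_monomial]
  rw [Finset.sum_ite_eq']
  split_ifs with h
  · rfl
  · rw [notMem_support_iff.1 h, map_zero]

lemma cm_mul (φ : κ →ₗ[Ω] Ω) (F : MvPolynomial (Fin r) Ω) (q : MvPolynomial (Fin r) κ) :
    cm φ (map (algebraMap Ω κ) F * q) = F * cm φ q := by
  classical
  ext n
  rw [coeff_cm, coeff_mul, coeff_mul, map_sum]
  refine Finset.sum_congr rfl fun x _ => ?_
  rw [coeff_map, coeff_cm, ← Algebra.smul_def, map_smul, smul_eq_mul]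

end

variable {Ω κ KK : Type} [Field Ω] [Field κ] [Field KK] [Algebra Ω κ] [Algebra κ KK]
  [Algebra Ω KK] [IsScalarTower Ω κ KK] {r : ℕ} {F : MvPolynomial (Fin r) Ω} {X : Fin r → KK}

lemma aeval_map' (H : MvPolynomial (Fin r) Ω) :
    aeval X (map (algebraMap Ω κ) H) = aeval X H :=
  aeval_map_algebraMap κ X H

lemma F_zero (hX : Cone κ F X) : aeval X F = 0 := by
  rw [← aeval_map' (κ := κ)]
  exact (hX.1 _).2 dvd_rfl

/-- functionals dual to a linearly independent family -/
lemma exists_dual {s : ℕ} (c : Fin s → κ) (hc : LinearIndependent Ω c) (j : Fin s) :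
    ∃ φ : κ →ₗ[Ω] Ω, ∀ i, φ (c i) = if i = j then 1 else 0 := by
  classical
  obtain ⟨φ, hφ⟩ := LinearMap.exists_extend ((Finsupp.lapply j).comp hc.repr)
  refine ⟨φ, fun i => ?_⟩
  have h1 : φ (c i) = (φ.comp (Submodule.span Ω (Set.range c)).subtype)
      ⟨c i, Submodule.subset_span ⟨i, rfl⟩⟩ := rfl
  rw [h1, hφ, LinearMap.comp_apply]
  have h2 : hc.repr ⟨c i, Submodule.subset_span ⟨i, rfl⟩⟩ = Finsupp.single i 1 :=
    hc.repr_eq_single i _ rfl
  rw [h2, Finsupp.lapply_apply, Finsupp.single_apply]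

theorem ld (hX : Cone κ F X) {s : ℕ} (c : Fin s → κ) (hc : LinearIndependent Ω c)
    (H : Fin s → MvPolynomial (Fin r) Ω)
    (h : ∑ j, algebraMap κ KK (c j) * aeval X (H j) = 0) : ∀ j, aeval X (H j) = 0 := by
  classical
  have h1 : aeval X (∑ j, C (c j) * map (algebraMap Ω κ) (H j)) = 0 := by
    rw [map_sum, ← h]
    refine Finset.sum_congr rfl fun j _ => ?_
    rw [map_mul, aeval_C, aeval_map']
  obtain ⟨q, hq⟩ := (hX.1 _).1 h1
  intro j
  obtain ⟨φ, hφ⟩ := exists_dual c hc j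
  have h2 : H j = F * cm φ q := by
    rw [← cm_mul, ← hq]
    ext n
    rw [coeff_cm, coeff_sum, map_sum, Finset.sum_eq_single j]
    · rw [coeff_C_mul, coeff_map, mul_comm, ← Algebra.smul_def, map_smul, hφ, if_pos rfl,
        smul_eq_mul, mul_one]
    · intro i _ hi
      rw [coeff_C_mul, coeff_map, mul_comm, ← Algebra.smul_def, map_smul, hφ, if_neg hi,
        smul_eq_mul, mul_zero]
    · intro h; exact absurd (Finset.mem_univ _) h
  rw [h2, map_mul, F_zero hX, zero_mul]

/-- common denominators -/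
lemma common {s : ℕ} (a : Fin s → KK) (ha : ∀ j, a j ∈ Kc Ω X) :
    ∃ (D : MvPolynomial (Fin r) Ω) (H : Fin s → MvPolynomial (Fin r) Ω),
      aeval X D ≠ 0 ∧ ∀ j, a j * aeval X D = aeval X (H j) := by
  classical
  have h1 : ∀ j, ∃ p q : MvPolynomial (Fin r) Ω, aeval X q ≠ 0 ∧ a j = aeval X p / aeval X q := by
    intro j
    obtain ⟨p, q, hpq⟩ := (IntermediateField.mem_adjoin_range_iff Ω X (a j)).1 (ha j)
    by_cases hq : aeval X q = 0
    · refine ⟨0, 1, by simp, ?_⟩
      rw [hpq, hq]; simp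
    · exact ⟨p, q, hq, hpq⟩
  choose p q hq hpq using h1
  refine ⟨∏ j, q j, fun j => p j * ∏ i ∈ Finset.univ.erase j, q i, ?_, fun j => ?_⟩
  · rw [map_prod]
    exact Finset.prod_ne_zero_iff.2 fun j _ => hq j
  · rw [map_prod, map_mul, map_prod, hpq j, ← Finset.mul_prod_erase Finset.univ _
      (Finset.mem_univ j)]
    field_simp [hq j]

theorem ld2 (hX : Cone κ F X) {s : ℕ} (c : Fin s → κ) (hc : LinearIndependent Ω c)
    (a : Fin s → KK) (ha : ∀ j, a j ∈ Kc Ω X)
    (h : ∑ j, algebraMap κ KK (c j) * a j = 0) : ∀ j, a j = 0 := by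
  obtain ⟨D, H, hD, hH⟩ := common a ha
  have h1 := ld hX c hc H (by
    have h2 : ∀ j, algebraMap κ KK (c j) * aeval X (H j) =
        (algebraMap κ KK (c j) * a j) * aeval X D := fun j => by
      rw [← hH j]; ring
    rw [Finset.sum_congr rfl fun j _ => h2 j, ← Finset.sum_mul, h, zero_mul])
  intro j
  have h3 := h1 j
  rw [← hH j] at h3
  exact (mul_eq_zero.1 h3).resolve_right hD

/-- powers of a transcendental element are independent -/
lemma pow_li {τ : κ} (hτ : Transcendental Ω τ) (s : ℕ) :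
    LinearIndependent Ω fun i : Fin s => τ ^ (i : ℕ) := by
  classical
  rw [Fintype.linearIndependent_iff]
  intro g hg i
  have h1 : Polynomial.aeval τ (∑ i : Fin s, Polynomial.C (g i) * Polynomial.X ^ (i : ℕ)) = 0 := by
    rw [map_sum, ← hg]
    refine Finset.sum_congr rfl fun i _ => ?_
    rw [map_mul, Polynomial.aeval_C, map_pow, Polynomial.aeval_X, Algebra.smul_def]
  have h2 : (∑ i : Fin s, Polynomial.C (g i) * Polynomial.X ^ (i : ℕ)) = 0 := by
    by_contra hne
    exact hτ ⟨_, hne, h1⟩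
  have h3 := congrArg (fun p => Polynomial.coeff p (i : ℕ)) h2
  simp only [Polynomial.finset_sum_coeff, Polynomial.coeff_C_mul, Polynomial.coeff_X_pow,
    Polynomial.coeff_zero] at h3
  rw [Finset.sum_eq_single i] at h3
  · simpa using h3
  · intro j _ hj
    rw [if_neg (fun h => hj (Fin.ext h.symm)), mul_zero]
  · intro h; exact absurd (Finset.mem_univ _) h

theorem trans (hX : Cone κ F X) {τ : κ} (hτ : Transcendental Ω τ) :
    Transcendental (Kc Ω X) (algebraMap κ KK τ) := by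
  intro ⟨p, hp, h0⟩
  apply hp
  have h1 := ld2 hX (fun i : Fin (p.natDegree + 1) => τ ^ (i : ℕ)) (pow_li hτ _)
    (fun i => ((p.coeff i : Kc Ω X) : KK)) (fun i => (p.coeff i).2) (by
      rw [Polynomial.aeval_eq_sum_range, Finset.sum_range] at h0
      rw [← h0]
      refine Finset.sum_congr rfl fun i _ => ?_
      rw [map_pow, Algebra.smul_def, mul_comm]
      rfl)
  ext n
  by_cases hn : n < p.natDegree + 1
  · have := h1 ⟨n, hn⟩
    simpa using this
  · rw [Polynomial.coeff_eq_zero_of_natDegree_lt (by omega), Polynomial.coeff_zero]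

end

end Pool.Agent.Helper93K9.PAR.Ld
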