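import Pool.Agent.Helper93K9.PAR.Defs2

/-! # Linear disjointness, and elements of the cone are algebraic over the base -/

set_option autoImplicit false

namespace Pool.Agent.Helper93K9.PAR.LdG

open MvPolynomial Module FF

noncomputable section

/-- Application of an additive map to the coefficients. -/
def cmap {A B : Type*} [CommSemiring A] [CommSemiring B] {r : ℕ} (f : A →+ B)
    (p : MvPolynomial (Fin r) A) : MvPolynomial (Fin r) B :=
  ∑ m ∈ p.support, monomial m (f (coeff m p))

theorem coeff_cmap {A B : Type*} [CommSemiring A] [CommSemiring B] {r : ℕ} (f : A →+ B)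
    (p : MvPolynomial (Fin r) A) (m : Fin r →₀ ℕ) : coeff m (cmap f p) = f (coeff m p) := by
  classical
  rw [cmap, coeff_sum]
  simp only [coeff_monomial]
  rw [Finset.sum_ite_eq']
  split_ifs with h
  · rfl
  · rw [notMem_support_iff.1 h, map_zero]

/-- LD: `Ω[X] / (F)` and `κ` are linearly disjoint over `Ω`. -/
theorem LD {Ω κ : Type*} [Field Ω] [Field κ] [Algebra Ω κ] {r : ℕ} (F : MvPolynomial (Fin r) Ω)
    {ι : Type*} (s : Finset ι) (c : ι → κ) (hc : LinearIndependent Ω c)
    (H : ι → MvPolynomial (Fin r) Ω)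
    (h : map (algebraMap Ω κ) F ∣ ∑ i ∈ s, C (c i) * map (algebraMap Ω κ) (H i)) :
    ∀ i ∈ s, F ∣ H i := by
  classical
  intro i hi
  obtain ⟨Q, hQ⟩ := h
  obtain ⟨φ, hφ⟩ := LinearMap.exists_leftInverse_of_injective
    (Finsupp.linearCombination Ω c) (LinearMap.ker_eq_bot.2 hc)
  let f : κ →+ Ω := ((Finsupp.lapply i).comp φ : κ →ₗ[Ω] Ω).toAddMonoidHom
  have hfc : ∀ j, f (c j) = if j = i then 1 else 0 := by
    intro j
    have h1 : φ (c j) = Finsupp.single j 1 := by
      have := congrArg (fun l => l (Finsupp.single j 1)) hφ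
      simpa using this
    simp only [f, LinearMap.toAddMonoidHom_coe, LinearMap.comp_apply, h1, Finsupp.lapply_apply,
      Finsupp.single_apply]
  have hfs : ∀ (a : Ω) (b : κ), f (algebraMap Ω κ a * b) = a * f b := by
    intro a b
    rw [← Algebra.smul_def]
    simp only [f, LinearMap.toAddMonoidHom_coe, map_smul, smul_eq_mul]
  refine ⟨cmap f Q, ?_⟩
  ext m
  have h1 := congrArg (fun p => f (coeff m p)) hQ
  simp only [coeff_sum, coeff_C_mul, coeff_map, map_sum] at h1
  have h2 : ∑ x ∈ s, f (c x * algebraMap Ω κ (coeff m (H x))) = coeff m (H i) := by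
    rw [Finset.sum_eq_single_of_mem i hi]
    · rw [mul_comm, hfs, hfc, if_pos rfl, mul_one]
    · intro j _ hj
      rw [mul_comm, hfs, hfc, if_neg hj, mul_zero]
  rw [h2, coeff_mul, map_sum] at h1
  rw [h1, coeff_mul]
  apply Finset.sum_congr rfl
  intro x _
  rw [coeff_map, hfs, coeff_cmap]

/-- Powers of a transcendental element are linearly independent. -/
theorem linInd_pow {Ω κ : Type*} [Field Ω] [Field κ] [Algebra Ω κ] {τ : κ}
    (hτ : Transcendental Ω τ) : LinearIndependent Ω (fun i : ℕ => τ ^ i) := by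
  rw [linearIndependent_iff']
  intro s a ha i hi
  have h1 : Polynomial.aeval τ (∑ j ∈ s, Polynomial.C (a j) * Polynomial.X ^ j) = 0 := by
    rw [map_sum, ← ha]
    apply Finset.sum_congr rfl
    intro j _
    rw [map_mul, map_pow, Polynomial.aeval_X, Polynomial.aeval_C, Algebra.smul_def]
  have h2 := (transcendental_iff.1 hτ) _ h1
  have h3 := congrArg (fun p => Polynomial.coeff p i) h2
  simp only [Polynomial.finsetSum_coeff, Polynomial.coeff_C_mul, Polynomial.coeff_X_pow,
    Polynomial.coeff_zero, mul_ite, mul_one, mul_zero] at h3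
  rw [Finset.sum_ite_eq, if_pos hi] at h3
  exact h3

open scoped IntermediateField.algebraAdjoinAdjoin in
/-- The elements of a function field are algebraic over `Ω[τ]`, in every domain over it. -/
theorem alg_const {Ω κ S : Type*} [Field Ω] [Field κ] [CommRing S] [IsDomain S] [Algebra Ω κ]
    [Algebra κ S] [Algebra Ω S] [IsScalarTower Ω κ S] [IsFF Ω κ] {τ : κ}
    (hτ : Transcendental Ω τ) (t : Set S) (ht : algebraMap κ S τ ∈ t) (c : κ) :
    IsAlgebraic (Algebra.adjoin Ω t) (algebraMap κ S c) := by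
  have h1 := IsFF.isAlgebraic hτ
  have h2 : IsAlgebraic (IntermediateField.adjoin Ω {τ}) c := h1.isAlgebraic c
  have h3 : IsAlgebraic (Algebra.adjoin Ω {τ}) c :=
    h2.restrictScalars (Algebra.adjoin Ω {τ})
  have hle : ∀ x ∈ Algebra.adjoin Ω {τ}, algebraMap κ S x ∈ Algebra.adjoin Ω t := by
    intro x hx
    have h4 : Algebra.adjoin Ω {τ} ≤
        (Algebra.adjoin Ω t).comap (IsScalarTower.toAlgHom Ω κ S) := by
      rw [Algebra.adjoin_le_iff]
      rintro _ rfl
      exact Algebra.subset_adjoin ht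
    exact h4 hx
  let f : Algebra.adjoin Ω {τ} →+* Algebra.adjoin Ω t :=
    ((algebraMap κ S).comp (algebraMap (Algebra.adjoin Ω {τ}) κ)).codRestrict
      (Algebra.adjoin Ω t) (fun x => hle x.1 x.2)
  have hinj : Function.Injective f := by
    intro x y hxy
    have h5 := congrArg Subtype.val hxy
    exact Subtype.ext ((algebraMap κ S).injective h5)
  exact h3.ringHom_of_comp_eq f (algebraMap κ S) hinj (by
    ext x
    rfl)

/-- All polynomials in `x` with coefficients in the function field. -/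
theorem alg_all {Ω κ S : Type*} [Field Ω] [Field κ] [CommRing S] [IsDomain S] [Algebra Ω κ]
    [Algebra κ S] [Algebra Ω S] [IsScalarTower Ω κ S] [IsFF Ω κ] {τ : κ}
    (hτ : Transcendental Ω τ) {r : ℕ} (x : Fin r → S) (t : Set S)
    (ht : algebraMap κ S τ ∈ t) (hx : ∀ i, x i ∈ t) (g : MvPolynomial (Fin r) κ) :
    IsAlgebraic (Algebra.adjoin Ω t) (aeval x g) := by
  induction g using MvPolynomial.induction_on with
  | C a =>
    rw [aeval_C]
    exact alg_const hτ t ht a
  | add p q hp hq =>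
    rw [map_add]
    exact hp.add hq
  | mul_X p i hp =>
    rw [map_mul, aeval_X]
    refine hp.mul ?_
    exact isAlgebraic_algebraMap (⟨x i, Algebra.subset_adjoin (hx i)⟩ : Algebra.adjoin Ω t)

/-- The elements of `Ω[x, τ]`. -/
theorem adj_rep {Ω κ S : Type*} [Field Ω] [Field κ] [CommRing S] [Algebra Ω κ]
    [Algebra κ S] [Algebra Ω S] [IsScalarTower Ω κ S] {τ : κ} {r : ℕ} (x : Fin r → S) (a : S)
    (ha : a ∈ Algebra.adjoin Ω (insert (algebraMap κ S τ) (Set.range x))) :
    ∃ P : Polynomial (MvPolynomial (Fin r) Ω),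
      a = ∑ i ∈ P.support, aeval x (C (τ ^ i) * map (algebraMap Ω κ) (P.coeff i)) := by
  let Θ : Polynomial (MvPolynomial (Fin r) Ω) →+* S :=
    Polynomial.eval₂RingHom (aeval x : MvPolynomial (Fin r) Ω →ₐ[Ω] S).toRingHom
      (algebraMap κ S τ)
  let Θ' : Polynomial (MvPolynomial (Fin r) Ω) →ₐ[Ω] S :=
    { Θ with
      commutes' := by
        intro c
        simp [Θ, Polynomial.algebraMap_apply] }
  have h1 : Algebra.adjoin Ω (insert (algebraMap κ S τ) (Set.range x)) ≤ Θ'.range := by
    rw [Algebra.adjoin_le_iff]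
    intro z hz
    rcases Set.mem_insert_iff.1 hz with h | ⟨i, rfl⟩
    · rw [h]
      exact ⟨Polynomial.X, by simp [Θ', Θ]⟩
    · exact ⟨Polynomial.C (X i), by simp [Θ', Θ]⟩
  obtain ⟨P, hP⟩ := h1 ha
  refine ⟨P, ?_⟩
  have hP' : Θ P = a := hP
  rw [← hP']
  simp only [Θ, Polynomial.coe_eval₂RingHom]
  rw [Polynomial.eval₂_eq_sum, Polynomial.sum]
  apply Finset.sum_congr rfl
  intro i _
  rw [map_mul, aeval_C, map_pow, aeval_map_algebraMap, mul_comm]
  rfl

end

end Pool.Agent.Helper93K9.PAR.LdG
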