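import Pool.Agent.Helper93K9.PAR.Defs4
import Pool.Agent.Helper93K9.PAR.Basic

/-! # Third points of the points of a rational curve and a fixed point -/

set_option autoImplicit false

namespace Pool.Agent.Helper93K9.PAR

open MvPolynomial Module

noncomputable section

namespace RcaL

variable {k M : Type} [Field k] [Field M] [Algebra k M] {r : ℕ}

theorem natDegree_aeval_le {d D : ℕ} {H : MvPolynomial (Fin r) k} (hH : H.IsHomogeneous d)
    (v : Fin r → Polynomial M) (hv : ∀ i, (v i).natDegree ≤ D) :
    (aeval v H).natDegree ≤ d * D := by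
  rw [aeval_def, eval₂_eq']
  refine Polynomial.natDegree_sum_le_of_forall_le _ _ fun α hα => ?_
  have h1 : (∏ i, v i ^ α i).natDegree ≤ ∑ i, α i * D := by
    refine (Polynomial.natDegree_prod_le _ _).trans (Finset.sum_le_sum fun i _ => ?_)
    exact Polynomial.natDegree_pow_le.trans (Nat.mul_le_mul_left _ (hv i))
  have h2 : ∑ i, α i = d := by
    have h3 : α.degree = d := by
      rw [Finsupp.degree_eq_weight_one]
      exact hH (mem_support_iff.1 hα)
    rw [← h3, Finsupp.degree_eq_sum]
  rw [← Finset.sum_mul, h2] at h1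
  refine Polynomial.natDegree_mul_le.trans ?_
  have h4 : (algebraMap k (Polynomial M) (coeff α H)).natDegree = 0 :=
    Polynomial.natDegree_C _
  rw [h4, zero_add]
  exact h1

theorem aeval_C (p : Fin r → M) (H : MvPolynomial (Fin r) k) :
    aeval (fun j => Polynomial.C (p j)) H = Polynomial.C (aeval p H) :=
  aeval_algebraMap_apply (σ := Fin r) (A := M) (Polynomial M) p H

end RcaL

open RcaL in
theorem rca : S_RCA := by
  classical
  intro k M _ _ _ r F hF p j0 hp0 hpF e w g hwF hwe hprim hg hw0 hdvd
  choose v hv using hdvd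
  obtain ⟨h, hh⟩ : ∃ h, h = w j0 := ⟨_, rfl⟩
  rw [← hh] at hv hw0
  have hw : ∀ i, w i = g * v i + h * Polynomial.C (p i) := fun i => by
    rw [← hv i]; ring
  have hcop : IsCoprime g h := by
    refine isCoprime_of_irreducible_dvd (fun h0 => hg h0.1) fun q hq hqg hqh => ?_
    obtain ⟨i, hi⟩ := hprim q hq
    apply hi
    rw [hw i]
    exact dvd_add (hqg.mul_right _) (hqh.mul_right _)
  have hPF : aeval (fun j => Polynomial.C (p j)) F = 0 := by
    rw [RcaL.aeval_C, hpF, Polynomial.C_0]
  obtain ⟨A, hA⟩ : ∃ A, A = pol F v (fun j => Polynomial.C (p j)) := ⟨_, rfl⟩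
  obtain ⟨Q, hQ⟩ : ∃ Q, Q = pol F (fun j => Polynomial.C (p j)) v := ⟨_, rfl⟩
  obtain ⟨Cc, hCc⟩ : ∃ Cc, Cc = aeval v F := ⟨_, rfl⟩
  have hw' : w = fun i => g * v i + h * Polynomial.C (p i) := funext hw
  have e1 : g ^ 2 * Cc + g * h * Q + h ^ 2 * A = 0 := by
    have h1 := taylor hF g h v (fun j => Polynomial.C (p j))
    rw [← hw', hwF, hPF, ← hA, ← hQ, ← hCc] at h1
    have h2 : g * (g ^ 2 * Cc + g * h * Q + h ^ 2 * A) = 0 := by
      rw [h1]; ring
    exact (mul_eq_zero.1 h2).resolve_left hg
  obtain ⟨A', hA'⟩ : g ∣ A := by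
    have h1 : g ∣ h ^ 2 * A := ⟨-(g * Cc + h * Q), by linear_combination e1⟩
    exact (hcop.pow_right).dvd_of_dvd_mul_left h1
  have e2 : g * Cc + h * Q + h ^ 2 * A' = 0 := by
    have h2 : g * (g * Cc + h * Q + h ^ 2 * A') = 0 := by
      rw [hA'] at e1
      linear_combination e1
    exact (mul_eq_zero.1 h2).resolve_left hg
  obtain ⟨C', hC'⟩ : h ∣ Cc := by
    have h1 : h ∣ g * Cc := ⟨-(Q + h * A'), by linear_combination e2⟩
    exact hcop.symm.dvd_of_dvd_mul_left h1
  have e3 : g * C' = -(Q + h * A') := by
    have h2 : h * (g * C' + Q + h * A') = 0 := by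
      rw [hC'] at e2
      linear_combination e2
    have h3 := (mul_eq_zero.1 h2).resolve_left hw0
    linear_combination h3
  -- the identity
  have p1 : pol F w (fun j => Polynomial.C (p j)) = g ^ 2 * A' := by
    have h1 := pol_lin F g h v (fun j => Polynomial.C (p j)) (fun j => Polynomial.C (p j))
    rw [← hw', ← hA, pol_self hF, hPF, hA'] at h1
    rw [h1]; ring
  have p2 : pol F (fun j => Polynomial.C (p j)) w = g ^ 2 * (Q + 2 * h * A') := by
    have h1 := pol_taylor hF g h v (fun j => Polynomial.C (p j))
    rw [← hw', ← hA, ← hQ, hPF, hA'] at h1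
    rw [h1]; ring
  refine ⟨fun i => A' * v i + C' * Polynomial.C (p i), ?_, ?_⟩
  · intro i
    show pol F w (fun j => Polynomial.C (p j)) * w i -
      pol F (fun j => Polynomial.C (p j)) w * Polynomial.C (p i) = _
    rw [p1, p2, hw i]
    linear_combination (-(g ^ 2 * Polynomial.C (p i))) * e3
  -- degrees
  have dv : ∀ i, v i = 0 ∨ (v i).natDegree + g.natDegree ≤ e := by
    intro i
    by_cases h0 : v i = 0
    · exact Or.inl h0
    · right
      have h1 := Polynomial.natDegree_mul hg h0
      rw [← hv i] at h1
      have h2 : (w i - h * Polynomial.C (p i)).natDegree ≤ e := by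
        refine (Polynomial.natDegree_sub_le _ _).trans (max_le (hwe i) ?_)
        refine (Polynomial.natDegree_mul_le).trans ?_
        rw [Polynomial.natDegree_C, add_zero, hh]
        exact hwe j0
      omega
  by_cases hall : ∀ i, v i = 0
  · have hA0 : A = 0 := by
      rw [hA]
      unfold pol
      refine Finset.sum_eq_zero fun i _ => ?_
      rw [hall i, zero_mul]
    have hA'0 : A' = 0 := by
      rw [hA0] at hA'
      exact (mul_eq_zero.1 hA'.symm).resolve_left hg
    have hCc0 : Cc = 0 := by
      have h1 := aeval_smul_hom hF (0 : Polynomial M) v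
      rw [hCc]
      have h2 : (fun i => (0 : Polynomial M) * v i) = v := by
        funext i
        rw [hall i, zero_mul]
      rw [h2] at h1
      rw [h1]
      ring
    have hC'0 : C' = 0 := by
      rw [hCc0] at hC'
      exact (mul_eq_zero.1 hC'.symm).resolve_left hw0
    intro i
    left
    show A' * v i + C' * Polynomial.C (p i) = 0
    rw [hA'0, hC'0, zero_mul, zero_mul, add_zero]
  push Not at hall
  obtain ⟨i1, hi1⟩ := hall
  have hm : g.natDegree ≤ e := by
    have := (dv i1).resolve_left hi1
    omega
  have dv' : ∀ i, (v i).natDegree ≤ e - g.natDegree := by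
    intro i
    rcases dv i with h0 | h0
    · rw [h0, Polynomial.natDegree_zero]; omega
    · omega
  have dA : A.natDegree ≤ e - g.natDegree := by
    rw [hA]
    unfold pol
    refine Polynomial.natDegree_sum_le_of_forall_le _ _ fun i _ => ?_
    refine Polynomial.natDegree_mul_le.trans ?_
    rw [RcaL.aeval_C, Polynomial.natDegree_C, add_zero]
    exact dv' i
  have dA' : A' = 0 ∨ A'.natDegree + 2 * g.natDegree ≤ e := by
    by_cases h0 : A' = 0
    · exact Or.inl h0
    · right
      have h1 := Polynomial.natDegree_mul hg h0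
      rw [← hA'] at h1
      omega
  have dQ : Q.natDegree ≤ 2 * (e - g.natDegree) := by
    rw [hQ]
    unfold pol
    refine Polynomial.natDegree_sum_le_of_forall_le _ _ fun i _ => ?_
    refine Polynomial.natDegree_mul_le.trans ?_
    rw [Polynomial.natDegree_C, zero_add]
    exact natDegree_aeval_le (hF.pderiv) v dv'
  have dhA' : (h * A').natDegree ≤ 2 * (e - g.natDegree) := by
    rcases dA' with h0 | h0
    · rw [h0, mul_zero, Polynomial.natDegree_zero]; omega
    · refine Polynomial.natDegree_mul_le.trans ?_
      have : h.natDegree ≤ e := by rw [hh]; exact hwe j0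
      omega
  have dC' : C' = 0 ∨ C'.natDegree + 3 * g.natDegree ≤ 2 * e := by
    by_cases h0 : C' = 0
    · exact Or.inl h0
    · right
      have h1 := Polynomial.natDegree_mul hg h0
      rw [e3, Polynomial.natDegree_neg] at h1
      have h2 := (Polynomial.natDegree_add_le Q (h * A')).trans (max_le dQ dhA')
      omega
  intro i
  show A' * v i + C' * Polynomial.C (p i) = 0 ∨
    (A' * v i + C' * Polynomial.C (p i)).natDegree + 3 * g.natDegree ≤ 2 * e
  have t1 : A' * v i = 0 ∨ (A' * v i).natDegree + 3 * g.natDegree ≤ 2 * e := by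
    rcases dA' with h0 | h0
    · left; rw [h0, zero_mul]
    · rcases dv i with h1 | h1
      · left; rw [h1, mul_zero]
      · right
        have := Polynomial.natDegree_mul_le (p := A') (q := v i)
        omega
  have t2 : C' * Polynomial.C (p i) = 0 ∨
      (C' * Polynomial.C (p i)).natDegree + 3 * g.natDegree ≤ 2 * e := by
    rcases dC' with h0 | h0
    · left; rw [h0, zero_mul]
    · right
      have := Polynomial.natDegree_mul_le (p := C') (q := Polynomial.C (p i))
      rw [Polynomial.natDegree_C] at this
      omega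
  rcases t1 with h1 | h1
  · rw [h1, zero_add]
    exact t2
  · rcases t2 with h2 | h2
    · rw [h2, add_zero]
      exact Or.inr h1
    · right
      have := Polynomial.natDegree_add_le (A' * v i) (C' * Polynomial.C (p i))
      rcases le_max_iff.1 this with h3 | h3 <;> omega

end

end Pool.Agent.Helper93K9.PAR
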