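import Mathlib
import Pool.Agent.Helper93K9.PAR.All
import Pool.Agent.Helper93K9.PAR.Rca
import Pool.Agent.R845.VG

/-! # Parity along curves: preparation of the final statements -/

set_option autoImplicit false

namespace Pool.Agent.Helper93K9.PAR

open MvPolynomial Module

theorem h_rc : S_RC := rc rca

/-- fields of transcendence degree at most one -/
theorem pair_of_trdeg {K : Type} [Field K] [Algebra ℂ K] (h : Algebra.trdeg ℂ K ≤ 1) (a b : K) :
    ¬ AlgebraicIndependent ℂ ![a, b] := by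
  intro hab
  have h1 := hab.cardinalMk_le_trdeg
  rw [Cardinal.mk_fin] at h1
  have h2 := h1.trans h
  exact absurd h2 (by norm_num)

/-- a point which moves in a curve -/
theorem crv_of_trdeg {M : Type} [Field M] [Algebra ℂ M] {r : ℕ} (p : Fin r → M)
    (h : Algebra.trdeg ℂ (rf ℂ p) ≤ 1) : Crv ℂ p := by
  intro i j a b hab
  have hmem : ∀ i j, p i / p j ∈ rf ℂ p := fun i j =>
    IntermediateField.subset_adjoin _ _ ⟨i, j, rfl⟩
  apply pair_of_trdeg h ⟨p i / p j, hmem i j⟩ ⟨p a / p b, hmem a b⟩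
  have h1 : ((rf ℂ p).val : rf ℂ p →ₐ[ℂ] M) ∘ ![⟨p i / p j, hmem i j⟩, ⟨p a / p b, hmem a b⟩] =
      ![p i / p j, p a / p b] := by
    funext l
    fin_cases l <;> rfl
  rw [← h1] at hab
  exact AlgebraicIndependent.of_comp _ hab

/-- the law is an equivalence -/
theorem law_iff {r : ℕ} {F : MvPolynomial (Fin r) ℂ} (hF : F.IsHomogeneous 3) (hlaw : Law F)
    {M : Type} [Field M] [Algebra ℂ M] {x p : Fin r → M} (hp : p ≠ 0) (hpF : aeval p F = 0)
    (hcrv : Crv ℂ p) (hpol : pol F x p ≠ 0) :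
    (Gen F x ∧ Odd (finrank (rf ℂ x) M)) ↔
      (Gen F (third F x p) ∧ Odd (finrank (rf ℂ (third F x p)) M)) := by
  constructor
  · rintro ⟨h1, h2⟩
    exact (hlaw M x p h1 h2 hp hpF hcrv).2
  · rintro ⟨h1, h2⟩
    obtain ⟨-, h3, h4⟩ := hlaw M (third F x p) p h1 h2 hp hpF hcrv
    have h5 : third F (third F x p) p = fun i => pol F x p ^ 3 * x i :=
      funext fun i => third_third hF x p hpF i
    rw [h5] at h3 h4
    rw [rf_smul x (pow_ne_zero 3 hpol)] at h4
    exact ⟨(gen_smul (pow_ne_zero 3 hpol) hF).1 h3, h4⟩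

/-- smoothness over extension fields -/
theorem smooth_ext {r : ℕ} {F : MvPolynomial (Fin r) ℂ}
    (hsm : ∀ z : Fin r → ℂ, (∀ i, eval z (pderiv i F) = 0) → z = 0)
    (K : Type) [Field K] [Algebra ℂ K] (z : Fin r → K)
    (hz : ∀ i, aeval z (pderiv i F) = 0) : z = 0 := by
  set J : Ideal (MvPolynomial (Fin r) ℂ) := Ideal.span (Set.range fun i => pderiv i F) with hJ
  funext j
  have h1 : (X j : MvPolynomial (Fin r) ℂ) ∈ J.radical := by
    rw [← vanishingIdeal_zeroLocus_eq_radical (K := ℂ), mem_vanishingIdeal_iff]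
    intro a ha
    have h2 := hsm a (fun i => by
      have := ha (pderiv i F) (Ideal.subset_span ⟨i, rfl⟩)
      rwa [aeval_eq_eval] at this)
    rw [h2]
    simp
  obtain ⟨N, hN⟩ := h1
  have h3 : ∀ H ∈ J, aeval z H = 0 := by
    intro H hH
    have h4 : J ≤ RingHom.ker (aeval z : MvPolynomial (Fin r) ℂ →ₐ[ℂ] K) := by
      rw [hJ, Ideal.span_le]
      rintro _ ⟨i, rfl⟩
      exact hz i
    exact h4 hH
  have h5 := h3 _ hN
  rw [map_pow, aeval_X] at h5
  have hN0 : N ≠ 0 := by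
    rintro rfl
    simp at h5
  exact (pow_eq_zero_iff hN0).1 h5

/-- the parity law for smooth cubics with factorial cones -/
theorem law_factorial {r : ℕ} {F : MvPolynomial (Fin r) ℂ} (hF : F.IsHomogeneous 3)
    (hsm : ∀ z : Fin r → ℂ, (∀ i, eval z (pderiv i F) = 0) → z = 0)
    (hfac : ∀ (K : Type) [Field K] [Algebra ℂ K],
      ∃ _ : IsDomain (MvPolynomial (Fin r) K ⧸ Ideal.span {map (algebraMap ℂ K) F}),
        UniqueFactorizationMonoid (MvPolynomial (Fin r) K ⧸ Ideal.span {map (algebraMap ℂ K) F})) :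
    Law F :=
  h_t0 ℂ r F hF (fun K _ _ z hz => smooth_ext hsm K z hz) hfac

/-- the special cubic -/
theorem law_special (m : ℕ) : Law (F0 m ℂ) := law_F0 h_ufd h_t0 m ℂ

end Pool.Agent.Helper93K9.PAR
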