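import Mathlib
import Pool.Agent.Helper93K9.PAR.Defs4
import Pool.Agent.Helper93K9.PAR.Basic
import Pool.Agent.Y201.LI.Thm3

/-! # Parity along curves: rational curves through odd points -/

set_option autoImplicit false

namespace Pool.Agent.Helper93K9.PAR

open MvPolynomial Module

/-- there is no line on the cubic through a generic point of odd degree -/
theorem no_line {r : ℕ} {F : MvPolynomial (Fin r) ℂ} (hF : F.IsHomogeneous 3)
    (hsm : ∀ z : Fin r → ℂ, (∀ i, eval z (pderiv i F) = 0) → z = 0) {M : Type} [Field M]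
    [Algebra ℂ M] {x : Fin r → M} (hx : Gen F x) (hodd : Odd (finrank (rf ℂ x) M))
    (u : Fin r → M)
    (h : aeval (fun j => Polynomial.C (x j) + Polynomial.X * Polynomial.C (u j)) F = 0) :
    ¬ LinearIndependent M ![x, u] := by
  intro hli
  cases r with
  | zero =>
    have h1 := hli.ne_zero 0
    apply h1
    funext i
    exact i.elim0
  | succ r =>
    have h1 := Pool.Agent.Y201.LI.contact hF (by norm_num) hsm x hx.1 hx.2 u hli 0
      (by rw [h, Polynomial.C_0, zero_mul])
    have h2 : 2 ∣ finrank (rf ℂ x) M := h1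
    rcases hodd with ⟨k, hk⟩
    omega

theorem third_ne {k M : Type} [Field k] [Field M] [Algebra k M] {r : ℕ}
    {F : MvPolynomial (Fin r) k} (hF : F.IsHomogeneous 3) {x p : Fin r → M}
    (hp : aeval p F = 0) (h : pol F x p ≠ 0) : third F x p ≠ 0 := by
  intro h0
  have h1 := pol_third hF x p hp
  rw [h0] at h1
  apply pow_ne_zero 2 h
  rw [← h1]
  unfold pol
  simp

theorem deg_one {M : Type} [Field M] {z : Polynomial M} (hz : z.natDegree ≤ 1) :
    z = Polynomial.C (z.coeff 0) + Polynomial.X * Polynomial.C (z.coeff 1) := by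
  conv_lhs => rw [Polynomial.eq_X_add_C_of_natDegree_le_one hz]
  ring

theorem rc (rca : S_RCA) : S_RC := by
  intro r F hF hsm hlaw M _ _ x p hx hodd hp hpF hcrv e w a s g hwF hdeg hprim hs hwa hg hdvd he
  rcases Nat.eq_zero_or_pos e with rfl | hepos
  · have h1 : ∀ i, w i = Polynomial.C (s * x i) := by
      intro i
      have h2 := Polynomial.eq_C_of_natDegree_le_zero (hdeg i)
      have h3 := hwa i
      rw [h2, Polynomial.eval_C] at h3
      rw [h2, h3]
    intro i j
    rw [h1, h1, ← Polynomial.C_mul, ← Polynomial.C_mul]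
    congr 1
    ring
  obtain ⟨j0, hj0⟩ := Function.ne_iff.1 hp
  simp only [Pi.zero_apply] at hj0
  -- normalise
  set q : Fin r → M := fun i => (p j0)⁻¹ * p i with hq
  have hqj : q j0 = 1 := inv_mul_cancel₀ hj0
  have hqF : aeval q F = 0 := by
    rw [hq, aeval_smul3 hF, hpF, mul_zero]
  have hq0 : q ≠ 0 := by
    intro h0
    rw [h0, Pi.zero_apply] at hqj
    exact zero_ne_one hqj
  have hqcrv : Crv ℂ q := (crv_smul p (inv_ne_zero hj0)).2 hcrv
  obtain ⟨hpol, hgen, hodd'⟩ := hlaw M x q hx hodd hq0 hqF hqcrv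
  have hm : 1 ≤ g.natDegree := by omega
  -- `w j0` does not vanish
  have hw0 : w j0 ≠ 0 := by
    intro h0
    have hnu : ¬ IsUnit g := by
      intro hu
      have := Polynomial.natDegree_eq_zero_of_isUnit hu
      omega
    obtain ⟨π, hπ, hπg⟩ := WfDvdMonoid.exists_irreducible_factor hnu hg
    obtain ⟨i, hi⟩ := hprim π hπ
    apply hi
    have h1 := hπg.trans (hdvd i j0)
    rw [h0, zero_mul, sub_zero] at h1
    have hu : IsUnit (Polynomial.C (p j0)) := Polynomial.isUnit_C.2 (isUnit_iff_ne_zero.2 hj0)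
    exact (hu.dvd_mul_right).1 h1
  have hdvd' : ∀ i, g ∣ w i - w j0 * Polynomial.C (q i) := by
    intro i
    have h1 := (hdvd i j0).mul_left (Polynomial.C (p j0)⁻¹)
    have h2 : Polynomial.C (p j0)⁻¹ * (w i * Polynomial.C (p j0) - w j0 * Polynomial.C (p i)) =
        w i - w j0 * Polynomial.C (q i) := by
      rw [hq]
      simp only [Polynomial.C_mul]
      have h3 : Polynomial.C (p j0)⁻¹ * Polynomial.C (p j0) = 1 := by
        rw [← Polynomial.C_mul, inv_mul_cancel₀ hj0, Polynomial.C_1]
      linear_combination (w i) * h3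
    rwa [h2] at h1
  obtain ⟨z, hz, hzdeg⟩ := rca ℂ M r F hF q j0 hqj hqF e w g hwF hdeg hprim hg hw0 hdvd'
  have hz1 : ∀ i, (z i).natDegree ≤ 1 := by
    intro i
    rcases hzdeg i with h | h
    · rw [h, Polynomial.natDegree_zero]
      omega
    · omega
  set Cq : Fin r → Polynomial M := fun j => Polynomial.C (q j) with hCq
  -- the third point
  set ζ : Fin r → M := third F x q with hζ
  have hζ0 : ζ ≠ 0 := third_ne hF hqF hpol
  let φ : Polynomial M →ₐ[ℂ] M := (Polynomial.aeval a : Polynomial M →ₐ[M] M).restrictScalars ℂ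
  have hφ : ∀ b : Polynomial M, φ b = b.eval a := fun b => by
    change Polynomial.aeval a b = b.eval a
    rw [Polynomial.coe_aeval_eq_eval]
  have hza : ∀ i, s ^ 2 * ζ i = g.eval a ^ 3 * (z i).eval a := by
    intro i
    have h1 := map_third φ F w Cq i
    rw [hz i, map_mul, map_pow, hφ, hφ] at h1
    rw [h1]
    have h2 : (fun i => φ (w i)) = fun i => s * x i := by
      funext i
      rw [hφ, hwa]
    have h3 : (fun i => φ (Cq i)) = fun i => 1 * q i := by
      funext i
      rw [hφ, hCq, Polynomial.eval_C, one_mul]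
    rw [h2, h3, third_smul hF]
    ring
  have hga : g.eval a ≠ 0 := by
    intro h0
    apply hζ0
    funext i
    have h1 := hza i
    rw [h0, zero_pow (by norm_num), zero_mul] at h1
    exact (mul_eq_zero.1 h1).resolve_left (pow_ne_zero 2 hs)
  obtain ⟨c, hc0, hc⟩ : ∃ c : M, c ≠ 0 ∧ ∀ i, (z i).eval a = c * ζ i := by
    refine ⟨s ^ 2 / g.eval a ^ 3, div_ne_zero (pow_ne_zero 2 hs) (pow_ne_zero 3 hga), fun i => ?_⟩
    rw [div_mul_eq_mul_div, eq_div_iff (pow_ne_zero 3 hga), hza i]
    ring
  -- `F(z) = 0`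
  have hCqF : aeval Cq F = 0 := by
    have h1 : aeval Cq F = Polynomial.C (aeval q F) := by
      have h2 := comp_aeval_apply (φ := (Polynomial.CAlgHom : M →ₐ[M] Polynomial M).restrictScalars
        ℂ) q F
      exact h2.symm
    rw [h1, hqF, Polynomial.C_0]
  have hzF : aeval z F = 0 := by
    have h1 := third_on hF w Cq hwF hCqF
    have h2 : third F w Cq = fun i => g ^ 3 * z i := funext hz
    rw [h2, aeval_smul3 hF] at h1
    exact (mul_eq_zero.1 h1).resolve_left (pow_ne_zero 3 (pow_ne_zero 3 hg))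
  -- move the base point
  let ψ : Polynomial M →ₐ[ℂ] Polynomial M :=
    (Polynomial.aeval (Polynomial.C a + Polynomial.X) :
      Polynomial M →ₐ[M] Polynomial M).restrictScalars ℂ
  have hψC : ∀ b : M, ψ (Polynomial.C b) = Polynomial.C b := fun b => by
    change Polynomial.aeval (Polynomial.C a + Polynomial.X) (Polynomial.C b) = _
    rw [Polynomial.aeval_C]
    rfl
  have hψX : ψ Polynomial.X = Polynomial.C a + Polynomial.X := by
    change Polynomial.aeval (Polynomial.C a + Polynomial.X) Polynomial.X = _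
    rw [Polynomial.aeval_X]
  have hz2 : ∀ i, z i = Polynomial.C ((z i).coeff 0) + Polynomial.X *
      Polynomial.C ((z i).coeff 1) := fun i => deg_one (hz1 i)
  have heva : ∀ i, (z i).coeff 0 + a * (z i).coeff 1 = c * ζ i := by
    intro i
    rw [← hc i]
    conv_rhs => rw [hz2 i]
    rw [Polynomial.eval_add, Polynomial.eval_mul, Polynomial.eval_C, Polynomial.eval_C,
      Polynomial.eval_X]
  have hψz : ∀ i, ψ (z i) = Polynomial.C (c * ζ i) + Polynomial.X *
      Polynomial.C ((z i).coeff 1) := by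
    intro i
    conv_lhs => rw [hz2 i]
    rw [map_add, map_mul, hψC, hψC, hψX, ← heva i, Polynomial.C_add, Polynomial.C_mul]
    ring
  have hline : aeval (fun i => Polynomial.C (c * ζ i) + Polynomial.X *
      Polynomial.C ((z i).coeff 1)) F = 0 := by
    have h1 := comp_aeval_apply (φ := ψ) z F
    rw [hzF, map_zero] at h1
    rw [h1, ← funext hψz]
  have hgenc : Gen F (fun i => c * ζ i) := (gen_smul hc0 hF).2 hgen
  have hoddc : Odd (finrank (rf ℂ fun i => c * ζ i) M) := by
    rw [rf_smul ζ hc0]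
    exact hodd'
  have hnl := no_line hF hsm hgenc hoddc (fun i => (z i).coeff 1) hline
  have hcζ0 : (fun i => c * ζ i) ≠ 0 := by
    intro h0
    apply hζ0
    funext i
    exact (mul_eq_zero.1 (congrFun h0 i)).resolve_left hc0
  rw [LinearIndependent.pair_iff' hcζ0] at hnl
  push Not at hnl
  obtain ⟨β, hβ⟩ := hnl
  have hβ' : ∀ i, (z i).coeff 1 = β * (c * ζ i) := fun i => (congrFun hβ i).symm
  -- `z = ℓ ζ`
  obtain ⟨ℓ, hℓ⟩ : ∃ ℓ : Polynomial M, ∀ i, z i = ℓ * Polynomial.C (ζ i) := by
    refine ⟨Polynomial.C (c * (1 - a * β)) + Polynomial.X * Polynomial.C (c * β), fun i => ?_⟩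
    have h1 : (z i).coeff 0 = c * (1 - a * β) * ζ i := by
      have h2 := heva i
      rw [hβ' i] at h2
      linear_combination h2
    rw [hz2 i, h1, hβ' i]
    simp only [Polynomial.C_mul]
    ring
  -- back to `w`
  have hback : ∀ i, pol F w Cq ^ 3 * w i =
      (g ^ 3 * ℓ) ^ 2 * Polynomial.C (pol F x q ^ 3) * Polynomial.C (x i) := by
    intro i
    rw [← third_third hF w Cq hCqF i]
    have h2 : third F w Cq = fun i => (g ^ 3 * ℓ) * Polynomial.C (ζ i) := by
      funext i
      rw [hz i, hℓ i, mul_assoc]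
    have h3 : third F (fun i => (g ^ 3 * ℓ) * Polynomial.C (ζ i)) (fun i => 1 * Cq i) i =
        (g ^ 3 * ℓ) ^ 2 * 1 ^ 2 * third F (fun i => Polynomial.C (ζ i)) Cq i :=
      third_smul hF _ _ _ _ i
    simp only [one_mul] at h3
    rw [h2, h3, one_pow, mul_one]
    have h4 : third F (fun i => Polynomial.C (ζ i)) Cq i = Polynomial.C (third F ζ q i) := by
      have h5 := map_third ((Polynomial.CAlgHom : M →ₐ[M] Polynomial M).restrictScalars ℂ) F ζ q i
      exact h5.symm
    rw [h4, hζ, third_third hF x q hqF i, Polynomial.C_mul, mul_assoc]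
  have hP : pol F w Cq ^ 3 ≠ 0 := by
    apply pow_ne_zero
    intro h0
    have h1 := map_pol φ F w Cq
    rw [h0, map_zero] at h1
    have h2 : (fun i => φ (w i)) = fun i => s * x i := by
      funext i
      rw [hφ, hwa]
    have h3 : (fun i => φ (Cq i)) = q := by
      funext i
      rw [hφ, hCq, Polynomial.eval_C]
    rw [h2, h3, pol_smul_left] at h1
    exact (mul_ne_zero hs hpol) h1.symm
  intro i j
  have h1 : pol F w Cq ^ 3 * (w i * Polynomial.C (x j)) =
      pol F w Cq ^ 3 * (w j * Polynomial.C (x i)) := by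
    rw [← mul_assoc, ← mul_assoc, hback i, hback j]
    ring
  exact mul_left_cancel₀ hP h1

end Pool.Agent.Helper93K9.PAR
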